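import Pool.Agent.Helper91.CPX.ArithDefs

/-!
CPX-A10. Greedy partial products, and the choice of a pair of indices.

Proof of `greedy`: induction on `Q`. Empty: the product is `1`: `1 < D`, or `D = 1` and `Q' = ∅` (`1 ≤ 1 * W`? for `D = 1` and `Q = ∅` take
`Q' = ∅` and note `W` may be `0`; therefore the hypothesis `1 ≤ W`). Insert `p`: if the product over `Q` is `< D` then the product
over `insert p Q` is `< D * W`..., either `< D` or `Q' = insert p Q` works; otherwise use the induction hypothesis.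
Proof of `pair_sel`: choose for every `p ∈ Q` a pair `(j, l)`, `j ≠ l`, both `≠ i` automatically as `p ∣ a i`. `∏ Q` is the product over all
pairs in `Fin (n+2) × Fin (n+2)` of the products `P_{(j,l)}` over the `p` with this pair (`Finset.prod_fiberwise`). If all
`P_{(j,l)} ≤ M := max` then `∏ Q ≤ M^((n+2)^2)`; take the pair with the maximal product; if its fiber is empty (`M = 1`, `∏ Q = 1`, `Q = ∅` as the
elements are primes), take any two indices different from `i` (`n ≥ 1`) and `Q' = ∅`.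
-/

open Pool.Agent.Helper87.Camp Pool.Agent.Helper10

namespace Pool.Agent.Helper91.CPX

theorem greedy (Q : Finset ℕ) (W D : ℕ) (hQ : ∀ p ∈ Q, 1 ≤ p ∧ p ≤ W) (hD : 1 ≤ D) (hW : 1 ≤ W) :
    (∏ p ∈ Q, p) < D ∨ ∃ Q' ⊆ Q, D ≤ ∏ p ∈ Q', p ∧ (∏ p ∈ Q', p) ≤ D * W := by
  classical
  induction Q using Finset.induction_on with
  | empty =>
    rcases hD.lt_or_eq with h | h
    · left
      rw [Finset.prod_empty]
      exact h
    · right
      refine ⟨∅, Finset.Subset.refl _, ?_, ?_⟩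
      · rw [Finset.prod_empty]
        exact h.ge
      · rw [Finset.prod_empty, ← h, one_mul]
        exact hW
  | insert a Q ha ih =>
    rcases ih (fun p hp => hQ p (Finset.mem_insert_of_mem hp)) with h | ⟨Q', h1, h2, h3⟩
    · by_cases h4 : (∏ p ∈ insert a Q, p) < D
      · left
        exact h4
      · right
        refine ⟨insert a Q, Finset.Subset.refl _, not_lt.1 h4, ?_⟩
        rw [Finset.prod_insert ha, mul_comm]
        exact Nat.mul_le_mul h.le (hQ a (Finset.mem_insert_self a Q)).2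
    · right
      exact ⟨Q', h1.trans (Finset.subset_insert a Q), h2, h3⟩

theorem pair_sel {n : ℕ} (hn : 1 ≤ n) (a : Fin (n + 2) → ℤ) (i : Fin (n + 2)) (Q : Finset ℕ)
    (hQ : ∀ p ∈ Q, p.Prime ∧ (p : ℤ) ∣ a i ∧ ∃ j l, j ≠ l ∧ ¬ (p : ℤ) ∣ a j ∧ ¬ (p : ℤ) ∣ a l) :
    ∃ j l, i ≠ j ∧ i ≠ l ∧ j ≠ l ∧ ∃ Q' ⊆ Q,
      (∏ p ∈ Q, p) ≤ (∏ p ∈ Q', p) ^ ((n + 2) ^ 2) ∧
      ∀ p ∈ Q', ¬ (p : ℤ) ∣ a j ∧ ¬ (p : ℤ) ∣ a l := by
  classical
  choose! fj fl hjl hj hl using fun p hp => (hQ p hp).2.2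
  let f : ℕ → Fin (n + 2) × Fin (n + 2) := fun p => (fj p, fl p)
  obtain ⟨b, _, hb⟩ := Finset.exists_max_image (Finset.univ : Finset (Fin (n + 2) × Fin (n + 2)))
    (fun b => ∏ p ∈ Q.filter (fun p => f p = b), p) Finset.univ_nonempty
  have h1 : ∏ p ∈ Q, p ≤ (∏ p ∈ Q.filter (fun p => f p = b), p) ^ ((n + 2) ^ 2) := by
    rw [← Finset.prod_fiberwise Q f (fun p => p)]
    have h2 := Finset.prod_le_pow_card (Finset.univ : Finset (Fin (n + 2) × Fin (n + 2)))
      (fun b => ∏ p ∈ Q.filter (fun p => f p = b), p)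
      (∏ p ∈ Q.filter (fun p => f p = b), p) (fun c hc => hb c hc)
    rw [Finset.card_univ, Fintype.card_prod, Fintype.card_fin, ← sq] at h2
    exact h2
  rcases (Q.filter (fun p => f p = b)).eq_empty_or_nonempty with h0 | ⟨p0, hp0⟩
  · have h2 : 1 < ((Finset.univ : Finset (Fin (n + 2))).erase i).card := by
      rw [Finset.card_erase_of_mem (Finset.mem_univ i), Finset.card_univ, Fintype.card_fin]
      omega
    obtain ⟨j, hj', l, hl', hjl'⟩ := Finset.one_lt_card.1 h2
    refine ⟨j, l, (Finset.ne_of_mem_erase hj').symm, (Finset.ne_of_mem_erase hl').symm, hjl', ∅,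
      Finset.empty_subset _, ?_, ?_⟩
    · rw [h0] at h1
      exact h1
    · intro p hp
      exact absurd hp (Finset.notMem_empty p)
  · rw [Finset.mem_filter] at hp0
    have hp1 : f p0 = b := hp0.2
    have e1 : fj p0 = b.1 := congrArg Prod.fst hp1
    have e2 : fl p0 = b.2 := congrArg Prod.snd hp1
    have hdiv := (hQ p0 hp0.1).2.1
    refine ⟨b.1, b.2, ?_, ?_, ?_, Q.filter (fun p => f p = b), Finset.filter_subset _ _, h1, ?_⟩
    · rintro rfl
      exact hj p0 hp0.1 (by rw [e1]; exact hdiv)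
    · rintro rfl
      exact hl p0 hp0.1 (by rw [e2]; exact hdiv)
    · rw [← e1, ← e2]
      exact hjl p0 hp0.1
    · intro p hp
      rw [Finset.mem_filter] at hp
      have e3 : fj p = b.1 := congrArg Prod.fst hp.2
      have e4 : fl p = b.2 := congrArg Prod.snd hp.2
      rw [← e3, ← e4]
      exact ⟨hj p hp.1, hl p hp.1⟩

end Pool.Agent.Helper91.CPX
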