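import Pool.Agent.Helper91.CPX.ArithDefs

/-!
CPX-A09. The number of `m`-full integers.

Proof. `card_le_sig` with `Y = N`, `F = Aset S m N`, and `sig_le` (with `k = m`): `card ≤ N^(1/m) * C N^ε`.
-/

open Pool.Agent.Helper87.Camp Pool.Agent.Helper10

namespace Pool.Agent.Helper91.CPX

theorem aset_count (S : Finset ℕ) (m : ℕ) (hm : 1 ≤ m) (ε : ℝ) (hε : 0 < ε) :
    ∃ C : ℝ, 1 ≤ C ∧ ∀ N : ℕ, 1 ≤ N →
      ((Aset S m N).card : ℝ) ≤ C * (N : ℝ) ^ (1 / (m : ℝ) + ε) := by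
  obtain ⟨C, hC1, hC⟩ := sig_le S m hm ε hε
  refine ⟨C, hC1, fun N hN => ?_⟩
  have hN0 : (0 : ℝ) < N := by exact_mod_cast hN
  have h1 := card_le_sig S m N N hN0.le (Aset S m N) (Finset.Subset.refl _) (by
    intro w hw
    exact_mod_cast (mem_Aset.mp hw).2.1)
  refine h1.trans ?_
  calc (N : ℝ) ^ (1 / (m : ℝ)) * sig S m N
      ≤ (N : ℝ) ^ (1 / (m : ℝ)) * (C * (N : ℝ) ^ ε) :=
        mul_le_mul_of_nonneg_left (hC N hN) (Real.rpow_nonneg hN0.le _)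
    _ = C * (N : ℝ) ^ (1 / (m : ℝ) + ε) := by
        rw [Real.rpow_add hN0]
        ring

end Pool.Agent.Helper91.CPX
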