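import Pool.Agent.Helper91.CPX.ArithDefs

/-!
CPX-A17. A primitive vector: two forms are not divisible by `p`.

Proof. Otherwise there is `i0` such that `p` divides all `form L i x`, `i ≠ i0` (if all but at most one are divisible; if all are
divisible take any `i0`). The matrix `M = L.submatrix i0.succAbove id` satisfies `M x ≡ 0 mod p`, so
`det M * x_j = (adjugate M * M x)_j ≡ 0 mod p`, and `p ∤ det M = minor L i0` since `rel L i0 = ± minor L i0`. So `p` divides all `x_j`,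
so `(p : ℤ)` is a unit by `hprim`: contradiction.
-/

open Pool.Agent.Helper87.Camp Pool.Agent.Helper10

namespace Pool.Agent.Helper91.CPX

private lemma not_all_but_one {n : ℕ} (L : Matrix (Fin (n + 2)) (Fin (n + 1)) ℤ)
    (x : Fin (n + 1) → ℤ) (hprim : ∀ d : ℤ, (∀ j, d ∣ x j) → IsUnit d) (p : ℕ) (hp : p.Prime)
    (i0 : Fin (n + 2)) (hpr : ¬ (p : ℤ) ∣ rel L i0)
    (h : ∀ i, i ≠ i0 → (p : ℤ) ∣ form L i x) : False := by
  have hpz : Prime (p : ℤ) := Nat.prime_iff_prime_int.1 hp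
  set M : Matrix (Fin (n + 1)) (Fin (n + 1)) ℤ := L.submatrix i0.succAbove id with hM
  have h1 : ∀ i, (p : ℤ) ∣ M.mulVec x i := by
    intro i
    exact h (i0.succAbove i) (Fin.succAbove_ne i0 i)
  have h2 : ∀ j, (p : ℤ) ∣ M.det * x j := by
    intro j
    have h3 : M.adjugate.mulVec (M.mulVec x) = M.det • x := by
      rw [Matrix.mulVec_mulVec, Matrix.adjugate_mul, Matrix.smul_mulVec, Matrix.one_mulVec]
    have h4 := congrFun h3 j
    rw [Pi.smul_apply, smul_eq_mul] at h4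
    rw [← h4]
    change (p : ℤ) ∣ ∑ k, M.adjugate j k * M.mulVec x k
    exact Finset.dvd_sum (fun k _ => (h1 k).mul_left _)
  have h3 : ¬ (p : ℤ) ∣ M.det := by
    intro h4
    apply hpr
    unfold rel minor
    exact h4.mul_left _
  have h4 : ∀ j, (p : ℤ) ∣ x j := by
    intro j
    rcases hpz.dvd_or_dvd (h2 j) with h5 | h5
    · exact absurd h5 h3
    · exact h5
  exact hpz.not_isUnit (hprim p h4)

theorem two_indices {n : ℕ} (L : Matrix (Fin (n + 2)) (Fin (n + 1)) ℤ) (x : Fin (n + 1) → ℤ)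
    (hprim : ∀ d : ℤ, (∀ j, d ∣ x j) → IsUnit d) (p : ℕ) (hp : p.Prime)
    (hpr : ∀ i, ¬ (p : ℤ) ∣ rel L i) :
    ∃ i j, i ≠ j ∧ ¬ (p : ℤ) ∣ form L i x ∧ ¬ (p : ℤ) ∣ form L j x := by
  by_contra hcon
  push Not at hcon
  by_cases hall : ∀ i, (p : ℤ) ∣ form L i x
  · exact not_all_but_one L x hprim p hp 0 (hpr 0) (fun i _ => hall i)
  · push Not at hall
    obtain ⟨i0, hi0⟩ := hall
    exact not_all_but_one L x hprim p hp i0 (hpr i0) (fun i hi => hcon i0 i hi.symm hi0)

end Pool.Agent.Helper91.CPX
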