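import Pool.Agent.Helper91.CPX.ArithDefs

/-!
CPX-A19. Lower bound on the plane: the exponent `2/m` is attained.

The forms on `ℙ²`: `x_0, x_1, x_2, x_0 + x_1 + x_2`. For coprime `u, v ≥ 1` with `u^m, v^m ≤ B` the vector `(u^m, -u^m, v^m)` is primitive, and
the values of the forms are `u^m, -u^m, v^m, v^m`: Campana with multiplicities `m` (`multiplicity` of `p` in `u^m` is at least `m` if `p ∣ u`).
With `Z = ⌊B^(1/m)⌋ ≥ 1` the number of coprime pairs `u, v ≤ Z` is at least `Z^2/4`: the number of pairs that are not coprime is at most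
`∑_{d ≥ 2} ⌊Z/d⌋^2 ≤ Z^2 (1/4 + ∑_{d ≥ 3} 1/(d(d-1))) = 3 Z^2/4`. `Z ≥ B^(1/m)/2`, so `c = 1/16`.
All minors are `± 1`.
-/

open Pool.Agent.Helper87.Camp Pool.Agent.Helper10

namespace Pool.Agent.Helper91.CPX

/-- The forms `x_0, x_1, x_2, x_0 + x_1 + x_2`. -/
def Lstd : Matrix (Fin (2 + 2)) (Fin (2 + 1)) ℤ :=
  !![1, 0, 0; 0, 1, 0; 0, 0, 1; 1, 1, 1]

theorem minor_Lstd (i : Fin (2 + 2)) : minor Lstd i ≠ 0 := by
  fin_cases i <;> (unfold minor Lstd; rw [Matrix.det_fin_three]; decide)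

private theorem low_sum (Z : ℕ) (hZ : 1 ≤ Z) :
    ∑ d ∈ Finset.Icc 2 Z, (1 : ℝ) / (d : ℝ) ^ 2 ≤ 3 / 4 := by
  have key : ∀ Z : ℕ, 2 ≤ Z → ∑ d ∈ Finset.Icc 2 Z, (1 : ℝ) / (d : ℝ) ^ 2 ≤ 3 / 4 - 1 / (Z : ℝ) := by
    intro Z hZ2
    induction Z, hZ2 using Nat.le_induction with
    | base => norm_num
    | succ n hn ih =>
      rw [Finset.sum_Icc_succ_top (by omega)]
      have hn0 : (0 : ℝ) < n := by
        have : 0 < n := by omega
        exact_mod_cast this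
      have h1 : (1 : ℝ) / ((n + 1 : ℕ) : ℝ) ^ 2 ≤ 1 / (n : ℝ) - 1 / ((n + 1 : ℕ) : ℝ) := by
        push_cast
        rw [div_sub_div _ _ hn0.ne' (by positivity), div_le_div_iff₀ (by positivity) (by positivity)]
        nlinarith
      linarith
  rcases Nat.lt_or_ge Z 2 with h | h
  · have : Finset.Icc 2 Z = ∅ := by
      rw [Finset.Icc_eq_empty_iff]
      omega
    rw [this]
    norm_num
  · have h2 := key Z h
    have : (0 : ℝ) ≤ 1 / (Z : ℝ) := by positivity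
    linarith

private theorem low_coprime (Z : ℕ) (hZ : 1 ≤ Z) :
    (Z : ℝ) ^ 2 / 4 ≤
      (((Finset.Icc 1 Z ×ˢ Finset.Icc 1 Z).filter (fun w => Nat.Coprime w.1 w.2)).card : ℝ) := by
  have hsplit := Finset.card_filter_add_card_filter_not
    (s := Finset.Icc 1 Z ×ˢ Finset.Icc 1 Z) (fun w : ℕ × ℕ => Nat.Coprime w.1 w.2)
  have hall : (Finset.Icc 1 Z ×ˢ Finset.Icc 1 Z).card = Z ^ 2 := by
    rw [Finset.card_product, Nat.card_Icc]
    simp only [Nat.add_sub_cancel]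
    ring
  have hsub : (Finset.Icc 1 Z ×ˢ Finset.Icc 1 Z).filter (fun w => ¬ Nat.Coprime w.1 w.2) ⊆
      (Finset.Icc 2 Z).biUnion (fun d =>
        (Finset.Icc 1 (Z / d) ×ˢ Finset.Icc 1 (Z / d)).image (fun w => (d * w.1, d * w.2))) := by
    intro w hw
    rw [Finset.mem_filter, Finset.mem_product, Finset.mem_Icc, Finset.mem_Icc] at hw
    obtain ⟨⟨⟨h1, h2⟩, ⟨h3, h4⟩⟩, h5⟩ := hw
    have hg : Nat.gcd w.1 w.2 ≠ 1 := h5
    have hgpos : 0 < Nat.gcd w.1 w.2 := Nat.gcd_pos_of_pos_left _ (by omega)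
    obtain ⟨a, ha⟩ := Nat.gcd_dvd_left w.1 w.2
    obtain ⟨b, hb⟩ := Nat.gcd_dvd_right w.1 w.2
    have hgle : Nat.gcd w.1 w.2 ≤ Z := (Nat.le_of_dvd (by omega) (Nat.gcd_dvd_left _ _)).trans h2
    rw [Finset.mem_biUnion]
    refine ⟨Nat.gcd w.1 w.2, by rw [Finset.mem_Icc]; omega, ?_⟩
    rw [Finset.mem_image]
    refine ⟨(a, b), ?_, ?_⟩
    · rw [Finset.mem_product, Finset.mem_Icc, Finset.mem_Icc]
      refine ⟨⟨?_, ?_⟩, ⟨?_, ?_⟩⟩
      · rcases Nat.eq_zero_or_pos a with h | h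
        · rw [h, mul_zero] at ha; omega
        · exact h
      · rw [Nat.le_div_iff_mul_le hgpos, mul_comm]
        exact ha ▸ h2
      · rcases Nat.eq_zero_or_pos b with h | h
        · rw [h, mul_zero] at hb; omega
        · exact h
      · rw [Nat.le_div_iff_mul_le hgpos, mul_comm]
        exact hb ▸ h4
    · exact Prod.ext ha.symm hb.symm
  have hcard : (((Finset.Icc 1 Z ×ˢ Finset.Icc 1 Z).filter
      (fun w => ¬ Nat.Coprime w.1 w.2)).card : ℝ) ≤ 3 / 4 * (Z : ℝ) ^ 2 := by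
    have h1 : ((Finset.Icc 1 Z ×ˢ Finset.Icc 1 Z).filter
        (fun w => ¬ Nat.Coprime w.1 w.2)).card ≤ ∑ d ∈ Finset.Icc 2 Z, (Z / d) ^ 2 := by
      refine (Finset.card_le_card hsub).trans (Finset.card_biUnion_le.trans ?_)
      apply Finset.sum_le_sum
      intro d _
      refine Finset.card_image_le.trans ?_
      rw [Finset.card_product, Nat.card_Icc]
      simp only [Nat.add_sub_cancel]
      exact le_of_eq (by ring)
    have h2 : ((∑ d ∈ Finset.Icc 2 Z, (Z / d) ^ 2 : ℕ) : ℝ) ≤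
        ∑ d ∈ Finset.Icc 2 Z, (1 : ℝ) / (d : ℝ) ^ 2 * (Z : ℝ) ^ 2 := by
      push_cast
      apply Finset.sum_le_sum
      intro d _
      have h3 : ((Z / d : ℕ) : ℝ) ≤ (Z : ℝ) / (d : ℝ) := Nat.cast_div_le
      calc ((Z / d : ℕ) : ℝ) ^ 2 ≤ ((Z : ℝ) / (d : ℝ)) ^ 2 :=
            pow_le_pow_left₀ (Nat.cast_nonneg _) h3 2
        _ = _ := by ring
    rw [← Finset.sum_mul] at h2
    calc _ ≤ ((∑ d ∈ Finset.Icc 2 Z, (Z / d) ^ 2 : ℕ) : ℝ) := by exact_mod_cast h1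
      _ ≤ _ := h2
      _ ≤ _ := mul_le_mul_of_nonneg_right (low_sum Z hZ) (by positivity)
  have hs : ((((Finset.Icc 1 Z ×ˢ Finset.Icc 1 Z).filter
      (fun w => Nat.Coprime w.1 w.2)).card : ℕ) : ℝ) +
      (((Finset.Icc 1 Z ×ˢ Finset.Icc 1 Z).filter
      (fun w => ¬ Nat.Coprime w.1 w.2)).card : ℝ) = (Z : ℝ) ^ 2 := by
    rw [hall] at hsplit
    exact_mod_cast hsplit
  linarith

private theorem low_form (a b : ℤ) (i : Fin (2 + 2)) :
    form Lstd i (![a, -a, b] : Fin (2 + 1) → ℤ) = (![a, -a, b, b] : Fin (2 + 2) → ℤ) i := by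
  unfold form Lstd
  fin_cases i <;> simp [Fin.sum_univ_succ]

private theorem low_full (p m u : ℕ) (hp : p.Prime) (h : (p : ℤ) ∣ (u : ℤ) ^ m) :
    (m : ℕ∞) ≤ emultiplicity (p : ℤ) ((u : ℤ) ^ m) := by
  have hp' : Prime (p : ℤ) := Nat.prime_iff_prime_int.mp hp
  have h1 : (p : ℤ) ∣ (u : ℤ) := hp'.dvd_of_dvd_pow h
  exact le_emultiplicity_of_pow_dvd (pow_dvd_pow_of_dvd h1 m)

private theorem low_campana (m : ℕ) (hm : 1 ≤ m) (u v : ℕ) (hu : 1 ≤ u) (hv : 1 ≤ v)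
    (h : Nat.Coprime u v) :
    IsCampana ∅ Lstd (fun _ => (m : ℕ∞))
      (![(u : ℤ) ^ m, -(u : ℤ) ^ m, (v : ℤ) ^ m] : Fin (2 + 1) → ℤ) where
  primitive := by
    intro d hd
    have h0 : d ∣ (u : ℤ) ^ m := hd 0
    have h2 : d ∣ (v : ℤ) ^ m := hd 2
    have hc : IsCoprime ((u : ℤ) ^ m) ((v : ℤ) ^ m) :=
      (Nat.isCoprime_iff_coprime.mpr h).pow
    exact hc.isUnit_of_dvd' h0 h2
  ne_zero := by
    intro i
    rw [low_form]
    have h1 : (u : ℤ) ^ m ≠ 0 := pow_ne_zero _ (by exact_mod_cast (by omega : u ≠ 0))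
    have h2 : (v : ℤ) ^ m ≠ 0 := pow_ne_zero _ (by exact_mod_cast (by omega : v ≠ 0))
    fin_cases i
    · exact h1
    · exact neg_ne_zero.mpr h1
    · exact h2
    · exact h2
  full := by
    intro i p hp _ hd
    rw [low_form] at hd ⊢
    fin_cases i
    · exact low_full p m u hp hd
    · have hd' : (p : ℤ) ∣ -(u : ℤ) ^ m := hd
      rw [dvd_neg] at hd'
      change (m : ℕ∞) ≤ emultiplicity (p : ℤ) (-(u : ℤ) ^ m)
      rw [emultiplicity_neg]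
      exact low_full p m u hp hd'
    · exact low_full p m v hp hd
    · exact low_full p m v hp hd

theorem lower_bound (m : ℕ) (hm : 1 ≤ m) :
    ∃ c : ℝ, 0 < c ∧ ∀ B : ℕ, 1 ≤ B →
      c * (B : ℝ) ^ (2 / (m : ℝ)) ≤
        ({x : Fin (2 + 1) → ℤ | IsCampana ∅ Lstd (fun _ => (m : ℕ∞)) x ∧
          ∀ j, |x j| ≤ B}.ncard : ℝ) := by
  refine ⟨1 / 16, by norm_num, fun B hB => ?_⟩
  have hm0 : (0 : ℝ) < m := by exact_mod_cast hm
  set r : ℝ := (B : ℝ) ^ (1 / (m : ℝ)) with hr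
  have hB1 : (1 : ℝ) ≤ B := by exact_mod_cast hB
  have hr1 : 1 ≤ r := Real.one_le_rpow hB1 (by positivity)
  have hrm : r ^ m = B := by
    rw [hr, ← Real.rpow_natCast, ← Real.rpow_mul (by positivity)]
    rw [one_div, inv_mul_cancel₀ hm0.ne', Real.rpow_one]
  have hr2 : (B : ℝ) ^ (2 / (m : ℝ)) = r ^ 2 := by
    rw [hr, ← Real.rpow_natCast, ← Real.rpow_mul (by positivity)]
    congr 1
    push_cast
    ring
  set Z : ℕ := ⌊r⌋₊ with hZ
  have hZ1 : 1 ≤ Z := by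
    rw [hZ]
    exact Nat.le_floor (by exact_mod_cast hr1)
  have hZr : (Z : ℝ) ≤ r := Nat.floor_le (by linarith)
  have hrZ : r < Z + 1 := Nat.lt_floor_add_one r
  have hZ1' : (1 : ℝ) ≤ Z := by exact_mod_cast hZ1
  have hpow : ∀ u : ℕ, u ≤ Z → u ^ m ≤ B := by
    intro u hu
    have h1 : (u : ℝ) ≤ r := le_trans (by exact_mod_cast hu) hZr
    have h2 : (u : ℝ) ^ m ≤ r ^ m := pow_le_pow_left₀ (Nat.cast_nonneg _) h1 m
    rw [hrm] at h2
    exact_mod_cast h2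
  set T : Set (Fin (2 + 1) → ℤ) := {x | IsCampana ∅ Lstd (fun _ => (m : ℕ∞)) x ∧
      ∀ j, |x j| ≤ B} with hT
  have hfin : T.Finite := by
    apply (Set.finite_Icc (fun _ : Fin (2 + 1) => (-(B : ℤ))) (fun _ => (B : ℤ))).subset
    intro x hx
    exact ⟨fun j => (abs_le.mp (hx.2 j)).1, fun j => (abs_le.mp (hx.2 j)).2⟩
  set P := (Finset.Icc 1 Z ×ˢ Finset.Icc 1 Z).filter (fun w : ℕ × ℕ => Nat.Coprime w.1 w.2)
    with hP
  set F : ℕ × ℕ → (Fin (2 + 1) → ℤ) :=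
    fun w => ![(w.1 : ℤ) ^ m, -(w.1 : ℤ) ^ m, (w.2 : ℤ) ^ m] with hF
  have hinj : Function.Injective F := by
    intro w w' hw
    have h0 : (w.1 : ℤ) ^ m = (w'.1 : ℤ) ^ m := congrFun hw 0
    have h2 : (w.2 : ℤ) ^ m = (w'.2 : ℤ) ^ m := congrFun hw 2
    have h0' : w.1 ^ m = w'.1 ^ m := by exact_mod_cast h0
    have h2' : w.2 ^ m = w'.2 ^ m := by exact_mod_cast h2
    exact Prod.ext (Nat.pow_left_injective (by omega) h0')
      (Nat.pow_left_injective (by omega) h2')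
  have hsub : ((P.image F : Finset (Fin (2 + 1) → ℤ)) : Set (Fin (2 + 1) → ℤ)) ⊆ T := by
    intro x hx
    rw [Finset.mem_coe, Finset.mem_image] at hx
    obtain ⟨w, hw, rfl⟩ := hx
    rw [hP, Finset.mem_filter, Finset.mem_product, Finset.mem_Icc, Finset.mem_Icc] at hw
    obtain ⟨⟨⟨h1, h2⟩, ⟨h3, h4⟩⟩, h5⟩ := hw
    refine ⟨low_campana m hm w.1 w.2 h1 h3 h5, ?_⟩
    have h6 : ((w.1 : ℤ)) ^ m ≤ B := by exact_mod_cast hpow w.1 h2
    have h7 : ((w.2 : ℤ)) ^ m ≤ B := by exact_mod_cast hpow w.2 h4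
    have h8 : (0 : ℤ) ≤ (w.1 : ℤ) ^ m := by positivity
    have h9 : (0 : ℤ) ≤ (w.2 : ℤ) ^ m := by positivity
    intro j
    fin_cases j
    · change |(w.1 : ℤ) ^ m| ≤ B
      rw [abs_of_nonneg h8]
      exact h6
    · change |-(w.1 : ℤ) ^ m| ≤ B
      rw [abs_neg, abs_of_nonneg h8]
      exact h6
    · change |(w.2 : ℤ) ^ m| ≤ B
      rw [abs_of_nonneg h9]
      exact h7
  have hcard : P.card ≤ T.ncard := by
    rw [← Finset.card_image_of_injective P hinj, ← Set.ncard_coe_finset]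
    exact Set.ncard_le_ncard hsub hfin
  have hcard' : (P.card : ℝ) ≤ (T.ncard : ℝ) := by exact_mod_cast hcard
  have hlow := low_coprime Z hZ1
  rw [hr2]
  have h3 : r ^ 2 ≤ (2 * (Z : ℝ)) ^ 2 := by
    apply pow_le_pow_left₀ (by linarith)
    linarith
  calc 1 / 16 * r ^ 2 ≤ 1 / 16 * (2 * (Z : ℝ)) ^ 2 := by linarith
    _ = (Z : ℝ) ^ 2 / 4 := by ring
    _ ≤ _ := hlow
    _ ≤ _ := hcard'

end Pool.Agent.Helper91.CPX
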