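import Pool.Agent.Helper91.CPX.NSFalse

/-!
CPX-N20. Theorem R2 (sums of two numbers with boundedly many variables).

Proof. Suppose not. For every `ν` there is `m ν ≥ ν` such that for all `C` there is a counterexample. Put
`E ν = H * m ν + 1` and `B ν = 2 ^ ((ν * E ν + 1) ^ 2)`, and take `C ν = B ν ^ (n1 + n2) + 1`. The counterexample `X ν, α ν, β ν, k ν, e ν,
f ν, T ν` has `card > C ν * X^ε ≥ C ν`; as the cardinality is at most `card T ≤ X^(n1+n2)` we get `X ν ≥ B ν` (otherwise the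
cardinality is at most `B ν ^ (n1+n2)`). Let `F = (hyperfilter ℕ, X)`: `X ν ≥ B ν ≥ ν` so `tends` holds (cofinite sets;
`Filter.hyperfilter_le_cofinite`, `Nat.hyperfilter_le_atTop`), `X ν ≥ 2`. The family is large with `δ = ε` (`C ν ≥ 1`). All
bounds of `NS_false` follow from `H * m ν ≤ E ν` (and `X ^ ν` from `m0 = ν`).
-/

open MvPolynomial

namespace Pool.Agent.Helper91.CPX

private theorem r2_card {n1 n2 : ℕ} (X : ℕ) (T : Finset (Fin n1 ⊕ Fin n2 → ℤ))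
    (hT : ∀ z ∈ T, ∀ i, 1 ≤ z i ∧ z i ≤ (X : ℤ)) : T.card ≤ X ^ (n1 + n2) := by
  classical
  have hsub : T ⊆ Fintype.piFinset fun _ : Fin n1 ⊕ Fin n2 => Finset.Icc (1 : ℤ) X := by
    intro z hz
    rw [Fintype.mem_piFinset]
    intro i
    rw [Finset.mem_Icc]
    exact hT z hz i
  refine (Finset.card_le_card hsub).trans (le_of_eq ?_)
  rw [Fintype.card_piFinset]
  simp

theorem R2 (n1 n2 H : ℕ) (ε : ℝ) (hε : 0 < ε) :
    ∃ m0 : ℕ, ∀ m : ℕ, m0 ≤ m → ∃ C : ℝ, ∀ X : ℕ, 2 ≤ X → ∀ α β k : ℤ,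
      |α| ≤ (X : ℤ) ^ (H * m) → |β| ≤ (X : ℤ) ^ (H * m) →
      ∀ (e : Fin n1 → ℕ) (f : Fin n2 → ℕ), (∀ i, 1 ≤ e i ∧ e i ≤ H * m) →
        (∀ j, 1 ≤ f j ∧ f j ≤ H * m) →
      ∀ T : Finset (Fin n1 ⊕ Fin n2 → ℤ),
        (∀ z ∈ T, (∀ i, 1 ≤ z i ∧ z i ≤ (X : ℤ)) ∧
          α * ∏ i, z (Sum.inl i) ^ e i + β * ∏ j, z (Sum.inr j) ^ f j = k ∧
          NoSmallRatio (α * ∏ i, z (Sum.inl i) ^ e i) k ((X : ℤ) ^ m0)) →
        ((T.image (fun z => ∏ i, z (Sum.inl i) ^ e i)).card : ℝ) ≤ C * (X : ℝ) ^ ε := by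
  classical
  by_contra hcon
  push Not at hcon
  choose m hm h using hcon
  let E : ℕ → ℕ := fun ν => H * m ν + 1
  let B : ℕ → ℕ := fun ν => 2 ^ ((ν * E ν + 1) ^ 2)
  have h' := fun ν => h ν ((B ν : ℝ) ^ (n1 + n2) + 1)
  choose X hX2 α β k hα hβ e f he hf T hT hcard using h'
  have hX1 : ∀ ν, (1 : ℝ) ≤ (X ν : ℝ) ^ ε := by
    intro ν
    have : (1 : ℝ) ≤ (X ν : ℝ) := by exact_mod_cast (by have := hX2 ν; omega : 1 ≤ X ν)
    exact Real.one_le_rpow this hε.le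
  have hBX : ∀ ν, B ν ≤ X ν := by
    intro ν
    by_contra hlt
    push Not at hlt
    have h1 : (T ν).card ≤ X ν ^ (n1 + n2) := r2_card (X ν) (T ν) (fun z hz => (hT ν z hz).1)
    have h2 : X ν ^ (n1 + n2) ≤ B ν ^ (n1 + n2) := Nat.pow_le_pow_left hlt.le _
    have h3 : (((T ν).image (fun z => ∏ i, z (Sum.inl i) ^ e ν i)).card : ℝ) ≤ (B ν : ℝ) ^ (n1 + n2) := by
      exact_mod_cast (Finset.card_image_le.trans (h1.trans h2))
    have h4 := hcard ν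
    have h5 : (B ν : ℝ) ^ (n1 + n2) + 1 ≤ ((B ν : ℝ) ^ (n1 + n2) + 1) * (X ν : ℝ) ^ ε :=
      le_mul_of_one_le_right (by positivity) (hX1 ν)
    linarith
  have hνB : ∀ ν, ν ≤ B ν := by
    intro ν
    have h1 : ν ≤ (ν * E ν + 1) ^ 2 := by
      have h2 : 1 ≤ E ν := Nat.succ_le_succ (Nat.zero_le _)
      have h3 : ν ≤ ν * E ν := Nat.le_mul_of_pos_right ν h2
      calc ν ≤ ν * E ν + 1 := by omega
        _ ≤ (ν * E ν + 1) ^ 2 := by
          rw [pow_two]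
          exact Nat.le_mul_of_pos_left _ (Nat.succ_pos _)
    exact h1.trans (Nat.lt_two_pow_self).le
  have hat : ∀ C : ℕ, ∀ᶠ ν in (Filter.hyperfilter ℕ : Filter ℕ), C ≤ ν := by
    intro C
    exact Nat.hyperfilter_le_atTop (Filter.eventually_ge_atTop C)
  let F : Frame := ⟨Filter.hyperfilter ℕ, X, hX2, fun C => by
    filter_upwards [hat C] with ν hν
    exact hν.trans ((hνB ν).trans (hBX ν))⟩
  refine NS_false F n1 n2 E (fun ν => Nat.succ_le_succ (Nat.zero_le _)) hBX hat α β k ?_ ?_ e f ?_ ?_ T ?_ ?_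
  · intro ν
    exact (hα ν).trans (F.pow_mono ν (Nat.le_succ _))
  · intro ν
    exact (hβ ν).trans (F.pow_mono ν (Nat.le_succ _))
  · intro ν i
    exact ⟨(he ν i).1, (he ν i).2.trans (Nat.le_succ _)⟩
  · intro ν i
    exact ⟨(hf ν i).1, (hf ν i).2.trans (Nat.le_succ _)⟩
  · intro ν z hz
    exact hT ν z hz
  · refine ⟨ε, hε, Filter.Eventually.of_forall fun ν => ?_⟩
    have h4 := hcard ν
    have h5 : (X ν : ℝ) ^ ε ≤ ((B ν : ℝ) ^ (n1 + n2) + 1) * (X ν : ℝ) ^ ε := by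
      have h6 : (1 : ℝ) ≤ (B ν : ℝ) ^ (n1 + n2) + 1 := by
        have : (0 : ℝ) ≤ (B ν : ℝ) ^ (n1 + n2) := by positivity
        linarith
      exact le_mul_of_one_le_left (by positivity) h6
    exact h5.trans h4.le

end Pool.Agent.Helper91.CPX
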