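import Pool.Agent.Helper91.CPX.ArithDefs

/-!
CPX-A06. Elementary lemmas on collisions.

Proofs. `coll s h = ∑_{g ∈ s.image h} (#{a ∈ s : h a = g})^2`. `coll_split`: `#{a ∈ s : h a = g}` is the sum over `γ ∈ Q` of the numbers
for the classes, its square is at most `card Q` times the sum of the squares (`sq_sum_le_card_mul_sum_sq`), so
`coll s h ≤ card Q * ∑_γ coll (class γ) h ≤ (card Q)^2 K`.
`coll_le_of_map`: the map `(a, a') ↦ (φ a, φ a')` is injective on the collisions.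
`pair_mod`: the number of pairs is `∑_r A(r) A(k - r) ≤ ∑_r (A(r)^2 + A(k - r)^2)/2 = ∑_r A(r)^2`, `r` in `ZMod q` (finite, `q ≥ 1`),
`A(r) = #{a ∈ A : (a : ZMod q) = r}`.
-/

open Pool.Agent.Helper87.Camp Pool.Agent.Helper10

namespace Pool.Agent.Helper91.CPX

theorem coll_eq_sum_sq {A G : Type} [DecidableEq G] (s : Finset A) (h : A → G) (V : Finset G)
    (hV : ∀ a ∈ s, h a ∈ V) :
    coll s h = ∑ g ∈ V, (s.filter (fun a => h a = g)).card ^ 2 := by
  unfold coll
  rw [Finset.card_eq_sum_card_fiberwise (f := fun p : A × A => h p.1) (t := V)]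
  · refine Finset.sum_congr rfl fun g _ => ?_
    rw [sq, ← Finset.card_product]
    congr 1
    ext ⟨x, y⟩
    simp only [Finset.mem_filter, Finset.mem_product]
    constructor
    · rintro ⟨⟨⟨hx, hy⟩, h2⟩, h4⟩
      exact ⟨⟨hx, h4⟩, hy, h2.symm.trans h4⟩
    · rintro ⟨⟨hx, h4⟩, hy, h5⟩
      exact ⟨⟨⟨hx, hy⟩, h4.trans h5.symm⟩, h4⟩
  · intro p hp
    rw [Finset.mem_coe, Finset.mem_filter, Finset.mem_product] at hp
    exact hV _ hp.1.1

theorem coll_split {A Γ G : Type} [DecidableEq Γ] [DecidableEq G] (s : Finset A) (h : A → G)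
    (c : A → Γ) (Q : Finset Γ) (hc : ∀ a ∈ s, c a ∈ Q) (K : ℝ) (hK0 : 0 ≤ K)
    (hK : ∀ γ ∈ Q, (coll (s.filter (fun a => c a = γ)) h : ℝ) ≤ K) :
    (coll s h : ℝ) ≤ (Q.card : ℝ) ^ 2 * K := by
  have hV : ∀ a ∈ s, h a ∈ s.image h := fun a ha => Finset.mem_image_of_mem h ha
  rw [coll_eq_sum_sq s h (s.image h) hV]
  have h1 : ∀ g, (s.filter (fun a => h a = g)).card =
      ∑ γ ∈ Q, ((s.filter (fun a => c a = γ)).filter (fun a => h a = g)).card := by
    intro g
    rw [Finset.card_eq_sum_card_fiberwise (f := c) (t := Q)]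
    · refine Finset.sum_congr rfl fun γ _ => ?_
      congr 1
      ext a
      simp only [Finset.mem_filter]
      tauto
    · intro a ha
      rw [Finset.mem_coe, Finset.mem_filter] at ha
      exact hc a ha.1
  have h2 : ∀ g, ((s.filter (fun a => h a = g)).card : ℝ) ^ 2 ≤
      (Q.card : ℝ) * ∑ γ ∈ Q, (((s.filter (fun a => c a = γ)).filter (fun a => h a = g)).card : ℝ) ^ 2 := by
    intro g
    rw [h1 g]
    push_cast
    exact sq_sum_le_card_mul_sum_sq
  push_cast
  calc ∑ g ∈ s.image h, ((s.filter (fun a => h a = g)).card : ℝ) ^ 2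
      ≤ ∑ g ∈ s.image h, (Q.card : ℝ) *
        ∑ γ ∈ Q, (((s.filter (fun a => c a = γ)).filter (fun a => h a = g)).card : ℝ) ^ 2 :=
        Finset.sum_le_sum fun g _ => h2 g
    _ = (Q.card : ℝ) * ∑ γ ∈ Q, (coll (s.filter (fun a => c a = γ)) h : ℝ) := by
        rw [← Finset.mul_sum, Finset.sum_comm]
        congr 1
        refine Finset.sum_congr rfl fun γ _ => ?_
        rw [coll_eq_sum_sq (s.filter (fun a => c a = γ)) h (s.image h)
          (fun a ha => hV a (Finset.mem_filter.1 ha).1)]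
        push_cast
        rfl
    _ ≤ (Q.card : ℝ) * ∑ γ ∈ Q, K :=
        mul_le_mul_of_nonneg_left (Finset.sum_le_sum hK) (Nat.cast_nonneg _)
    _ = (Q.card : ℝ) ^ 2 * K := by
        rw [Finset.sum_const, nsmul_eq_mul]; ring

theorem coll_le_of_map {A B G H : Type} [DecidableEq G] [DecidableEq H] (s : Finset A)
    (t : Finset B) (φ : A → B) (hφ : ∀ a ∈ s, φ a ∈ t) (hinj : Set.InjOn φ s) (h : A → G)
    (h' : B → H) (hh : ∀ a ∈ s, ∀ a' ∈ s, h a = h a' → h' (φ a) = h' (φ a')) :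
    coll s h ≤ coll t h' := by
  unfold coll
  apply Finset.card_le_card_of_injOn (fun p => (φ p.1, φ p.2))
  · intro p hp
    rw [Finset.mem_coe, Finset.mem_filter, Finset.mem_product] at hp
    rw [Finset.mem_coe, Finset.mem_filter, Finset.mem_product]
    exact ⟨⟨hφ _ hp.1.1, hφ _ hp.1.2⟩, hh _ hp.1.1 _ hp.1.2 hp.2⟩
  · intro p hp p' hp' he
    rw [Finset.mem_coe, Finset.mem_filter, Finset.mem_product] at hp hp'
    simp only [Prod.mk.injEq] at he
    exact Prod.ext (hinj hp.1.1 hp'.1.1 he.1) (hinj hp.1.2 hp'.1.2 he.2)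

theorem pair_mod (q : ℕ) [NeZero q] (A : Finset ℤ) (k : ℤ) :
    ((A ×ˢ A).filter (fun p => (q : ℤ) ∣ p.1 + p.2 - k)).card ≤ coll A (fun a => (a : ZMod q)) := by
  classical
  have h1 : ((A ×ˢ A).filter (fun p => (q : ℤ) ∣ p.1 + p.2 - k)).card =
      ∑ r : ZMod q, (A.filter (fun a : ℤ => (a : ZMod q) = r)).card *
        (A.filter (fun a : ℤ => (a : ZMod q) = (k : ZMod q) - r)).card := by
    rw [Finset.card_eq_sum_card_fiberwise (f := fun p : ℤ × ℤ => (p.1 : ZMod q)) (t := Finset.univ)]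
    · refine Finset.sum_congr rfl fun r _ => ?_
      rw [← Finset.card_product]
      congr 1
      ext ⟨x, y⟩
      simp only [Finset.mem_filter, Finset.mem_product]
      have h2 : (q : ℤ) ∣ x + y - k ↔ (x : ZMod q) + y = k := by
        rw [← ZMod.intCast_zmod_eq_zero_iff_dvd]
        push_cast
        rw [sub_eq_zero]
      rw [h2]
      constructor
      · rintro ⟨⟨⟨hx, hy⟩, h3⟩, h4⟩
        refine ⟨⟨hx, h4⟩, hy, ?_⟩
        rw [← h4, ← h3]; ring
      · rintro ⟨⟨hx, h4⟩, hy, h5⟩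
        refine ⟨⟨⟨hx, hy⟩, ?_⟩, h4⟩
        rw [h4, h5]; ring
    · intro p _
      exact Finset.mem_coe.2 (Finset.mem_univ _)
  rw [h1, coll_eq_sum_sq A (fun a => (a : ZMod q)) Finset.univ (fun a _ => Finset.mem_univ _)]
  have h2 : ∑ r : ZMod q, (A.filter (fun a : ℤ => (a : ZMod q) = (k : ZMod q) - r)).card ^ 2 =
      ∑ r : ZMod q, (A.filter (fun a : ℤ => (a : ZMod q) = r)).card ^ 2 := by
    exact Fintype.sum_equiv (Equiv.subLeft (k : ZMod q)) _ _ (fun r => by rw [Equiv.subLeft_apply])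
  have h3 : 2 * ∑ r : ZMod q, (A.filter (fun a : ℤ => (a : ZMod q) = r)).card *
        (A.filter (fun a : ℤ => (a : ZMod q) = (k : ZMod q) - r)).card ≤
      ∑ r : ZMod q, (A.filter (fun a : ℤ => (a : ZMod q) = r)).card ^ 2 +
      ∑ r : ZMod q, (A.filter (fun a : ℤ => (a : ZMod q) = (k : ZMod q) - r)).card ^ 2 := by
    rw [Finset.mul_sum, ← Finset.sum_add_distrib]
    refine Finset.sum_le_sum fun r _ => ?_
    rw [← mul_assoc]
    exact two_mul_le_add_sq _ _
  rw [h2] at h3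
  omega

end Pool.Agent.Helper91.CPX
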