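import Pool.Agent.Helper91.CPX.ArithDefs

/-!
CPX-A05. Representation of `m`-full numbers.

Proof. Strong induction on `n`. If all primes dividing `n` are in `S`: `s = n`, `y = 1`. Otherwise take a prime `p ∉ S`
dividing `n`, `n = p^e n'`, `p ∤ n'`, `e ≥ m` (`NFull`), `NFull S m n'` (`NFull.right`), `n' = s ∏ y_j^(m+j)` by induction.
Let `r = e % m`, `c = e / m ≥ 1`, so `e = m c + r = m (c - 1) + (m + r)`: multiply `y_0` by `p^(c-1)` and `y_r` by `p`
(`Function.update`, or a product of two functions; the exponents of `y_0`, `y_r` are `m`, `m + r`).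
-/

open Pool.Agent.Helper87.Camp Pool.Agent.Helper10

namespace Pool.Agent.Helper91.CPX

theorem rep (S : Finset ℕ) (m : ℕ) (hm : 1 ≤ m) (n : ℕ) (hn : 0 < n) (h : NFull S m n) :
    ∃ (s : ℕ) (y : Fin m → ℕ), 0 < s ∧ (∀ p : ℕ, p.Prime → p ∣ s → p ∈ S) ∧ (∀ j, 0 < y j) ∧
      n = s * ∏ j, y j ^ (m + (j : ℕ)) := by
  induction n using Nat.strong_induction_on with
  | _ n ih =>
    by_cases hall : ∀ p : ℕ, p.Prime → p ∣ n → p ∈ S
    · exact ⟨n, fun _ => 1, hn, hall, fun _ => one_pos, by simp⟩
    · push Not at hall
      obtain ⟨p, hp, hpn, hpS⟩ := hall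
      obtain ⟨e, n', hpn', hne⟩ := Nat.exists_eq_pow_mul_and_not_dvd hn.ne' p hp.ne_one
      have hcop : Nat.Coprime p n' := (Nat.Prime.coprime_iff_not_dvd hp).mpr hpn'
      have hme : m ≤ e := by
        have h1 : p ^ m ∣ p ^ e * n' := hne ▸ h p hp hpS hpn
        have h2 : p ^ m ∣ p ^ e := (hcop.pow_left m).dvd_of_dvd_mul_right h1
        exact (Nat.pow_dvd_pow_iff_le_right hp.one_lt).mp h2
      have hn'0 : 0 < n' := by
        rcases Nat.eq_zero_or_pos n' with h0 | h0
        · rw [h0] at hpn'; exact absurd (dvd_zero p) hpn'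
        · exact h0
      have hlt : n' < n := by
        rw [hne]
        have : 2 ≤ p ^ e := hp.two_le.trans (Nat.le_self_pow (by omega) p)
        nlinarith
      have hfull : NFull S m n' := by
        rw [hne] at h
        exact h.right (hcop.pow_left e)
      obtain ⟨s, y, hs, hsS, hy, hsy⟩ := ih n' hlt hn'0 hfull
      have hm0 : 0 < m := hm
      let r : Fin m := ⟨e % m, Nat.mod_lt _ hm0⟩
      let z : Fin m := ⟨0, hm0⟩
      refine ⟨s, fun j => y j * (if j = z then p ^ (e / m - 1) else 1) * (if j = r then p else 1),
        hs, hsS, fun j => ?_, ?_⟩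
      · have h1 : 0 < (if j = z then p ^ (e / m - 1) else 1) := by
          split_ifs
          · exact pow_pos hp.pos _
          · exact one_pos
        have h2 : 0 < (if j = r then p else 1) := by
          split_ifs
          · exact hp.pos
          · exact one_pos
        exact Nat.mul_pos (Nat.mul_pos (hy j) h1) h2
      · have h1 : ∀ j : Fin m, (if j = z then p ^ (e / m - 1) else 1) ^ (m + (j : ℕ)) =
            if j = z then p ^ ((e / m - 1) * m) else 1 := by
          intro j
          split_ifs with hj
          · rw [hj, ← pow_mul]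
            simp [z]
          · exact one_pow _
        have h2 : ∀ j : Fin m, (if j = r then p else 1) ^ (m + (j : ℕ)) =
            if j = r then p ^ (m + e % m) else 1 := by
          intro j
          split_ifs with hj
          · rw [hj]
          · exact one_pow _
        simp only [mul_pow, h1, h2]
        rw [Finset.prod_mul_distrib, Finset.prod_mul_distrib, Finset.prod_ite_eq' Finset.univ z,
          Finset.prod_ite_eq' Finset.univ r, if_pos (Finset.mem_univ _), if_pos (Finset.mem_univ _),
          hne, hsy]
        have hdiv : 1 ≤ e / m := (Nat.one_le_div_iff hm0).mpr hme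
        have he : e = (e / m - 1) * m + (m + e % m) := by
          have h3 := Nat.div_add_mod e m
          obtain ⟨c, hc⟩ : ∃ c, e / m = c + 1 := ⟨e / m - 1, by omega⟩
          rw [hc] at h3 ⊢
          have h4 : m * (c + 1) = c * m + m := by ring
          rw [Nat.add_sub_cancel]
          omega
        conv_lhs => rw [he, pow_add]
        ring

end Pool.Agent.Helper91.CPX
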