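import Pool.Agent.Helper91.CPX.ArithDefs

/-!
CPX-A07. Numbers all of whose primes divide `R` (Rankin).

Proof of `smooth_count`. `card F ≤ ∑_{v ∈ F} (N/v)^ε ≤ N^ε ∏_{p ∣ R} (1 - p^(-ε))^(-1)`: each `v` is a product of powers `p^a`, `p ∣ R`,
`p^a ≤ N`, so the sum over `v` of `v^(-ε)` is at most `∏_{p ∣ R} ∑_{a ≤ A} p^(-ε a)` (`Finset.prod_sum`, `Finset.prod_univ_sum`, or
`EulerProduct` for `Nat.factoredNumbers`) and each factor is at most `c := (1 - 2^(-ε))^(-1)` (geometric series). Hence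
`card F ≤ N^ε c^(number of primes dividing R)`. With a natural number `k`, `c ≤ 2^k`, `2^(ω(R)) ≤ tau R`, so
`c^(ω(R)) ≤ (tau R)^k ≤ C R^ε` by `tau_rpow` with `δ = ε/k`.
`small_rad`: the radical `R ≤ D` of `v` is a positive integer, for each `R` the number of `v` is at most
`C N^ε R^ε ≤ C N^ε D^ε`; sum over `R ≤ D`; use `smooth_count` with `min ε 1`.
`sunit_count`: `R = rad S` (`Pool.Agent.Helper87.Camp.rad`); all primes of `v` are in `S`.
-/

open Pool.Agent.Helper87.Camp Pool.Agent.Helper10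

namespace Pool.Agent.Helper91.CPX

/-- the completely multiplicative function `n ^ (-ε)` -/
private noncomputable def fpow (ε : ℝ) : ℕ →* ℝ where
  toFun n := (n : ℝ) ^ (-ε)
  map_one' := by simp
  map_mul' m n := by
    push_cast
    exact Real.mul_rpow (Nat.cast_nonneg m) (Nat.cast_nonneg n)

private lemma fpow_apply (ε : ℝ) (n : ℕ) : fpow ε n = (n : ℝ) ^ (-ε) := rfl

private lemma two_pow_omega_le {R : ℕ} (hR : 1 ≤ R) : 2 ^ R.primeFactors.card ≤ tau R := by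
  unfold tau
  rw [Nat.card_divisors (by omega), ← Finset.prod_const]
  apply Finset.prod_le_prod'
  intro p hp
  have h1 : 0 < R.factorization p := by
    have hp' := Nat.prime_of_mem_primeFactors hp
    exact hp'.factorization_pos_of_dvd (by omega) (Nat.dvd_of_mem_primeFactors hp)
  omega

theorem smooth_count (ε : ℝ) (hε : 0 < ε) :
    ∃ C : ℝ, 1 ≤ C ∧ ∀ R : ℕ, 1 ≤ R → ∀ N : ℕ, 1 ≤ N → ∀ F : Finset ℕ,
      (∀ v ∈ F, 1 ≤ v ∧ v ≤ N ∧ ∀ p : ℕ, p.Prime → p ∣ v → p ∣ R) →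
      (F.card : ℝ) ≤ C * (N : ℝ) ^ ε * (R : ℝ) ^ ε := by
  set t : ℝ := (2 : ℝ) ^ (-ε) with ht
  have ht0 : 0 < t := Real.rpow_pos_of_pos (by norm_num) _
  have ht1 : t < 1 := by
    rw [ht]
    exact Real.rpow_lt_one_of_one_lt_of_neg (by norm_num) (by linarith)
  set c : ℝ := (1 - t)⁻¹ with hc
  have hc1 : 1 ≤ c := by
    rw [hc]
    exact (one_le_inv₀ (by linarith)).2 (by linarith)
  obtain ⟨k, hk⟩ := pow_unbounded_of_one_lt c (show (1 : ℝ) < 2 by norm_num)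
  -- make the exponent positive
  have hk' : c ≤ (2 : ℝ) ^ (k + 1) := by
    have h1 : (2 : ℝ) ^ k ≤ 2 ^ (k + 1) := pow_le_pow_right₀ (by norm_num) (by omega)
    linarith
  set q : ℕ := k + 1 with hq
  have hq0 : (0 : ℝ) < q := by rw [hq]; positivity
  obtain ⟨C0, hC01, hC0⟩ := tau_rpow (ε / q) (by positivity)
  refine ⟨C0 ^ q, one_le_pow₀ hC01, ?_⟩
  intro R hR N hN F hF
  have hR0 : (0 : ℝ) < R := by exact_mod_cast hR
  have hN0 : (0 : ℝ) < N := by exact_mod_cast hN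
  -- the Euler product
  have hlt : ∀ {p : ℕ}, p.Prime → ‖fpow ε p‖ < 1 := by
    intro p hp
    rw [fpow_apply, Real.norm_of_nonneg (Real.rpow_nonneg (Nat.cast_nonneg p) _)]
    exact Real.rpow_lt_one_of_one_lt_of_neg (by exact_mod_cast hp.one_lt) (by linarith)
  obtain ⟨hsum, hhas⟩ :=
    EulerProduct.summable_and_hasSum_factoredNumbers_prod_filter_prime_geometric
      (f := fpow ε) hlt R.primeFactors
  have hFmem : ∀ v ∈ F, v ∈ Nat.factoredNumbers R.primeFactors := by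
    intro v hv
    obtain ⟨h1, -, h3⟩ := hF v hv
    rw [Nat.mem_factoredNumbers']
    intro p hp hpv
    exact Nat.mem_primeFactors.2 ⟨hp, h3 p hp hpv, by omega⟩
  have h1 : ∑ v ∈ F, (v : ℝ) ^ (-ε) ≤ ∏ p ∈ R.primeFactors with p.Prime, (1 - fpow ε p)⁻¹ := by
    have e1 : ∑ v ∈ F, (v : ℝ) ^ (-ε) =
        ∑ v : F, fpow ε ((⟨v.1, hFmem v.1 v.2⟩ : Nat.factoredNumbers R.primeFactors) : ℕ) := by
      rw [← Finset.sum_coe_sort F (fun v => (v : ℝ) ^ (-ε))]
      rfl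
    rw [e1]
    have e2 : ∑ v : F, fpow ε ((⟨v.1, hFmem v.1 v.2⟩ : Nat.factoredNumbers R.primeFactors) : ℕ) =
        ∑ m ∈ (Finset.univ : Finset F).map
          ⟨fun v : F => (⟨v.1, hFmem v.1 v.2⟩ : Nat.factoredNumbers R.primeFactors),
            fun a b hab => Subtype.ext (congrArg
              (fun x : Nat.factoredNumbers R.primeFactors => (x : ℕ)) hab)⟩, fpow ε (m : ℕ) := by
      rw [Finset.sum_map]
      rfl
    rw [e2]
    exact sum_le_hasSum _ (fun m _ => Real.rpow_nonneg (Nat.cast_nonneg _) _) hhas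
  have h2 : ∏ p ∈ R.primeFactors with p.Prime, (1 - fpow ε p)⁻¹ ≤ c ^ R.primeFactors.card := by
    have e1 : R.primeFactors.filter Nat.Prime = R.primeFactors := by
      apply Finset.filter_true_of_mem
      intro p hp
      exact Nat.prime_of_mem_primeFactors hp
    rw [e1, ← Finset.prod_const]
    apply Finset.prod_le_prod
    · intro p hp
      have hpp := Nat.prime_of_mem_primeFactors hp
      have h3 := hlt hpp
      have h3' : fpow ε p < 1 := lt_of_le_of_lt (Real.le_norm_self _) h3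
      exact inv_nonneg.2 (by linarith)
    · intro p hp
      have hpp := Nat.prime_of_mem_primeFactors hp
      rw [hc]
      apply inv_anti₀ (by linarith)
      have h3 : fpow ε p ≤ t := by
        rw [fpow_apply, ht]
        exact Real.rpow_le_rpow_of_nonpos (by norm_num) (by exact_mod_cast hpp.two_le)
          (by linarith)
      linarith
  have h3 : (F.card : ℝ) * (N : ℝ) ^ (-ε) ≤ ∑ v ∈ F, (v : ℝ) ^ (-ε) := by
    rw [← nsmul_eq_mul]
    apply Finset.card_nsmul_le_sum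
    intro v hv
    obtain ⟨h4, h5, -⟩ := hF v hv
    exact Real.rpow_le_rpow_of_nonpos (by exact_mod_cast h4) (by exact_mod_cast h5) (by linarith)
  have h4 : c ^ R.primeFactors.card ≤ C0 ^ q * (R : ℝ) ^ ε := by
    calc c ^ R.primeFactors.card ≤ ((2 : ℝ) ^ q) ^ R.primeFactors.card :=
          pow_le_pow_left₀ (by linarith) hk' _
      _ = ((2 : ℝ) ^ R.primeFactors.card) ^ q := by rw [← pow_mul, ← pow_mul, mul_comm]
      _ ≤ ((tau R : ℝ)) ^ q := by
          apply pow_le_pow_left₀ (by positivity)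
          exact_mod_cast two_pow_omega_le hR
      _ ≤ (C0 * (R : ℝ) ^ (ε / q)) ^ q := by
          apply pow_le_pow_left₀ (Nat.cast_nonneg _)
          exact hC0 R (by omega)
      _ = C0 ^ q * (R : ℝ) ^ ε := by
          rw [mul_pow, ← Real.rpow_natCast ((R : ℝ) ^ (ε / q)), ← Real.rpow_mul hR0.le,
            div_mul_cancel₀ _ hq0.ne']
  have h5 : (F.card : ℝ) * (N : ℝ) ^ (-ε) ≤ C0 ^ q * (R : ℝ) ^ ε :=
    h3.trans (h1.trans (h2.trans h4))
  rw [Real.rpow_neg hN0.le, ← div_eq_mul_inv, div_le_iff₀ (Real.rpow_pos_of_pos hN0 _)] at h5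
  calc (F.card : ℝ) ≤ _ := h5
    _ = _ := by ring

theorem sunit_count (S : Finset ℕ) (ε : ℝ) (hε : 0 < ε) :
    ∃ C : ℝ, 1 ≤ C ∧ ∀ N : ℕ, 1 ≤ N → ∀ F : Finset ℕ,
      (∀ v ∈ F, 1 ≤ v ∧ v ≤ N ∧ ∀ p : ℕ, p.Prime → p ∣ v → p ∈ S) →
      (F.card : ℝ) ≤ C * (N : ℝ) ^ ε := by
  obtain ⟨C, hC1, hC⟩ := smooth_count ε hε
  set R : ℕ := ∏ p ∈ S.filter Nat.Prime, p with hR
  have hR1 : 1 ≤ R := by
    rw [hR]
    apply Nat.one_le_iff_ne_zero.2
    rw [Finset.prod_ne_zero_iff]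
    intro p hp
    exact (Finset.mem_filter.1 hp).2.ne_zero
  have hR1' : (1 : ℝ) ≤ R := by exact_mod_cast hR1
  have hRε : 1 ≤ (R : ℝ) ^ ε := Real.one_le_rpow hR1' hε.le
  refine ⟨C * (R : ℝ) ^ ε, by nlinarith, ?_⟩
  intro N hN F hF
  have h1 := hC R hR1 N hN F (by
    intro v hv
    obtain ⟨a1, a2, a3⟩ := hF v hv
    refine ⟨a1, a2, ?_⟩
    intro p hp hpv
    exact Finset.dvd_prod_of_mem (fun x => x) (Finset.mem_filter.2 ⟨a3 p hp hpv, hp⟩))
  calc (F.card : ℝ) ≤ _ := h1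
    _ = _ := by ring

theorem small_rad (ε : ℝ) (hε : 0 < ε) :
    ∃ C : ℝ, 1 ≤ C ∧ ∀ D : ℕ, 1 ≤ D → ∀ N : ℕ, 1 ≤ N → ∀ F : Finset ℕ,
      (∀ v ∈ F, 1 ≤ v ∧ v ≤ N ∧ ∏ p ∈ v.primeFactors, p ≤ D) →
      (F.card : ℝ) ≤ C * (D : ℝ) ^ 2 * (N : ℝ) ^ ε := by
  set η : ℝ := min ε 1 with hη
  have hη0 : 0 < η := lt_min hε one_pos
  obtain ⟨C, hC1, hC⟩ := smooth_count η hη0
  refine ⟨C, hC1, ?_⟩
  intro D hD N hN F hF
  have hD1 : (1 : ℝ) ≤ D := by exact_mod_cast hD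
  have hN1 : (1 : ℝ) ≤ N := by exact_mod_cast hN
  have hC0 : 0 < C := by linarith
  have hmaps : ∀ v ∈ F, (∏ p ∈ v.primeFactors, p) ∈ Finset.Icc 1 D := by
    intro v hv
    rw [Finset.mem_Icc]
    refine ⟨?_, (hF v hv).2.2⟩
    apply Nat.one_le_iff_ne_zero.2
    rw [Finset.prod_ne_zero_iff]
    intro p hp
    exact (Nat.prime_of_mem_primeFactors hp).ne_zero
  have h1 : F.card = ∑ R ∈ Finset.Icc 1 D,
      (F.filter (fun v => ∏ p ∈ v.primeFactors, p = R)).card :=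
    Finset.card_eq_sum_card_fiberwise hmaps
  rw [h1]
  push_cast
  have h2 : ∀ R ∈ Finset.Icc 1 D,
      ((F.filter (fun v => ∏ p ∈ v.primeFactors, p = R)).card : ℝ) ≤
        C * (N : ℝ) ^ ε * D := by
    intro R hR
    rw [Finset.mem_Icc] at hR
    have hR1 : (1 : ℝ) ≤ R := by exact_mod_cast hR.1
    have h3 := hC R hR.1 N hN (F.filter (fun v => ∏ p ∈ v.primeFactors, p = R)) (by
      intro v hv
      obtain ⟨a1, a2⟩ := Finset.mem_filter.1 hv
      obtain ⟨b1, b2, -⟩ := hF v a1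
      refine ⟨b1, b2, ?_⟩
      intro p hp hpv
      rw [← a2]
      exact Finset.dvd_prod_of_mem (fun x => x) (Nat.mem_primeFactors.2 ⟨hp, hpv, by omega⟩))
    refine h3.trans ?_
    have h4 : (N : ℝ) ^ η ≤ (N : ℝ) ^ ε :=
      Real.rpow_le_rpow_of_exponent_le hN1 (min_le_left _ _)
    have h5 : (R : ℝ) ^ η ≤ D := by
      calc (R : ℝ) ^ η ≤ (R : ℝ) ^ (1 : ℝ) :=
            Real.rpow_le_rpow_of_exponent_le hR1 (min_le_right _ _)
        _ = R := Real.rpow_one _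
        _ ≤ D := by exact_mod_cast hR.2
    have h6 : 0 ≤ (R : ℝ) ^ η := Real.rpow_nonneg (by linarith) _
    have h7 : 0 ≤ C * (N : ℝ) ^ ε := mul_nonneg hC0.le (Real.rpow_nonneg (by linarith) _)
    exact mul_le_mul (mul_le_mul_of_nonneg_left h4 hC0.le) h5 h6 h7
  calc ∑ R ∈ Finset.Icc 1 D, ((F.filter (fun v => ∏ p ∈ v.primeFactors, p = R)).card : ℝ)
      ≤ ∑ _R ∈ Finset.Icc 1 D, C * (N : ℝ) ^ ε * D := Finset.sum_le_sum h2
    _ = C * (D : ℝ) ^ 2 * (N : ℝ) ^ ε := by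
        rw [Finset.sum_const, Nat.card_Icc, nsmul_eq_mul]
        have : ((D + 1 - 1 : ℕ) : ℝ) = D := by norm_num
        rw [this]
        ring

end Pool.Agent.Helper91.CPX
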