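import Pool.Agent.Helper91.CPX.BoxColl
import Pool.Agent.Helper91.CPX.Rep
import Pool.Agent.Helper91.CPX.CollSplit
import Pool.Agent.Helper91.CPX.Smooth

/-!
CPX-A08. THE COLLISION LEMMA.

Proof. For `a` in the set choose by `rep` (applied to `|a|`) `s(a)`, `y(a)`, and put
`c a = (0 < a, s(a), fun j => Nat.clog 2 (y(a) j))`, `Q = {true, false} × {S-units ≤ N} × (Fin m → {0, ..., Nat.clog 2 N})`.
`card Q ≤ 2 * (C N^δ) * (Nat.clog 2 N + 1)^m ≤ C' N^(2 δ)` (`sunit_count`; logarithm against power), so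
`(card Q)^2 ≤ C'' N^(4 δ)`. Let `γ = (σ, s, i)` be a class that is not empty, `Z j = 2^(i j)`, so `y_j ≤ Z j ≤ 2 y_j` for all `a` in the
class (`Nat.le_pow_clog`, `Nat.pow_pred_clog_lt_self`; `y_j = 1` gives `Z j = 1`). `(∏ Z j)^m ≤ 2^(m m) ∏ y_j^m ≤ 2^(m^2) N`, so
`((∏ Z j)^4)^m ≤ 2^(4 m^2) N^4 ≤ q^m`, hence `(∏ Z j)^4 ≤ q`; and `∏ Z j ≤ 2^m N^(1/m)`.
`coll_le_of_map` with `φ a = y(a)` from the class to `piFinset (fun j => Yq q (Z j))` (`y_j` is coprime to `q` because `a` is; `φ`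
is injective on the class because `a = ± s ∏ y_j^(m+j)`), `h' y = ∏ uq q (y j)^(m+j)`: if `a = a'` in `ZMod q` then
`± s ∏ y_j^(m+j) = ± s ∏ y'_j^(m+j)` in `ZMod q` and `s` is a unit modulo `q` (coprime to `q`), so `h' y = h' y'`
(`Units.ext`). `box_coll` with `B = ⌊C q^η⌋₊` (or the maximum of `tau` on `[1, q]`), `tau w ≤ C w^η` (`tau_rpow`, `η = ε/(2 m m)`):
`coll ≤ (∏ Z j) B^(2 m m) ≤ 2^m N^(1/m) C q^ε`. Conclude by `coll_split` with `4 δ = ε`.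
-/

open Pool.Agent.Helper87.Camp Pool.Agent.Helper10

namespace Pool.Agent.Helper91.CPX

lemma two_pow_clog_le (y : ℕ) (hy : 1 ≤ y) : 2 ^ Nat.clog 2 y ≤ 2 * y := by
  rcases Nat.lt_or_ge 1 y with h1 | h1
  · have h2 := Nat.pow_pred_clog_lt_self (b := 2) (by norm_num) h1
    have h3 : 0 < Nat.clog 2 y := Nat.clog_pos (by norm_num) h1
    have h4 : 2 ^ Nat.clog 2 y = 2 * 2 ^ (Nat.clog 2 y).pred := by
      rw [← pow_succ', ← Nat.succ_eq_add_one, Nat.succ_pred_eq_of_pos h3]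
    rw [h4]
    omega
  · have h2 : y = 1 := by omega
    subst h2
    simp

lemma clog_pow_le (m : ℕ) (hm : 1 ≤ m) (δ : ℝ) (hδ : 0 < δ) :
    ∃ C : ℝ, 1 ≤ C ∧ ∀ N : ℕ, 1 ≤ N → ((Nat.clog 2 N + 1 : ℕ) : ℝ) ^ m ≤ C * (N : ℝ) ^ δ := by
  have hm0 : (0 : ℝ) < m := by exact_mod_cast hm
  have hl2 : 0 < Real.log 2 := Real.log_pos (by norm_num)
  obtain ⟨c0, hc0, hc1, hc2⟩ : ∃ c0 : ℝ, 0 < c0 ∧ c0 ≤ 1 ∧ c0 ≤ δ / m * Real.log 2 :=
    ⟨min 1 (δ / m * Real.log 2), lt_min one_pos (by positivity), min_le_left _ _,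
      min_le_right _ _⟩
  have hc3 : 1 ≤ c0⁻¹ := (one_le_inv₀ hc0).mpr hc1
  refine ⟨(c0⁻¹) ^ m * 2 ^ δ, ?_, fun N hN => ?_⟩
  · have h1 : (1 : ℝ) ≤ (c0⁻¹) ^ m := one_le_pow₀ hc3
    have h2 : (1 : ℝ) ≤ 2 ^ δ := Real.one_le_rpow (by norm_num) hδ.le
    nlinarith
  · have hN0 : (0 : ℝ) ≤ N := Nat.cast_nonneg _
    set k : ℕ := Nat.clog 2 N with hk
    have h1 : ((2 : ℝ) ^ k) ≤ 2 * N := by exact_mod_cast two_pow_clog_le N hN
    have h2 : ((k + 1 : ℕ) : ℝ) ≤ c0⁻¹ * ((2 : ℝ) ^ k) ^ (δ / m) := by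
      have h3 : ((2 : ℝ) ^ k) ^ (δ / m) = Real.exp (k * (δ / m * Real.log 2)) := by
        rw [← Real.rpow_natCast, ← Real.rpow_mul (by norm_num),
          Real.rpow_def_of_pos (by norm_num)]
        congr 1
        ring
      have h4 := Real.add_one_le_exp (k * (δ / m * Real.log 2))
      rw [h3, inv_mul_eq_div, le_div_iff₀ hc0]
      have hk0 : (0 : ℝ) ≤ k := Nat.cast_nonneg _
      push_cast
      nlinarith [mul_le_mul_of_nonneg_left hc2 hk0]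
    have h3 : ((2 : ℝ) ^ k) ^ (δ / m) ≤ (2 * N : ℝ) ^ (δ / m) :=
      Real.rpow_le_rpow (by positivity) h1 (by positivity)
    calc ((k + 1 : ℕ) : ℝ) ^ m ≤ (c0⁻¹ * (2 * N : ℝ) ^ (δ / m)) ^ m := by
          apply pow_le_pow_left₀ (by positivity)
          exact h2.trans (mul_le_mul_of_nonneg_left h3 (by positivity))
      _ = (c0⁻¹) ^ m * 2 ^ δ * (N : ℝ) ^ δ := by
          rw [mul_pow, ← Real.rpow_natCast ((2 * N : ℝ) ^ (δ / m)) m,
            ← Real.rpow_mul (by positivity), div_mul_cancel₀ _ hm0.ne',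
            Real.mul_rpow (by norm_num) hN0]
          ring

lemma uq_val (q y : ℕ) (h : Nat.Coprime y q) : ((uq q y : (ZMod q)ˣ) : ZMod q) = (y : ZMod q) := by
  unfold uq
  rw [dif_pos h, ZMod.coe_unitOfCoprime]

/-- The bound for one class. -/
lemma class_bound (m : ℕ) (hm : 1 ≤ m) (N q : ℕ) [NeZero q]
    (hN : 1 ≤ N)
    (hq : 2 ^ (4 * m ^ 2) * N ^ 4 ≤ q ^ m) (B : ℕ) (hB : ∀ w : ℕ, 1 ≤ w → w ≤ q → tau w ≤ B)
    (T : Finset ℤ) (s0 : ℕ) (sg : ℤ) (hsg : sg = 1 ∨ sg = -1) (i : Fin m → ℕ)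
    (y : ℤ → Fin m → ℕ)
    (hT : ∀ a ∈ T, IsCoprime a (q : ℤ) ∧ a.natAbs ≤ N ∧ a ≠ 0 ∧
      a = sg * ((s0 * ∏ j, y a j ^ (m + (j : ℕ)) : ℕ) : ℤ) ∧ (∀ j, 0 < y a j) ∧
      ∀ j, Nat.clog 2 (y a j) = i j) :
    (coll T (fun a => (a : ZMod q)) : ℝ) ≤
      2 ^ m * (N : ℝ) ^ (1 / (m : ℝ)) * (B : ℝ) ^ (2 * m * m) := by
  classical
  rcases T.eq_empty_or_nonempty with hTe | ⟨a0, ha0⟩
  · subst hTe
    have h1 : coll (∅ : Finset ℤ) (fun a => (a : ZMod q)) = 0 := by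
      unfold coll
      simp
    rw [h1]
    push_cast
    positivity
  have hm0 : (0 : ℝ) < m := by exact_mod_cast hm
  obtain ⟨Z, hZdef⟩ : ∃ Z : Fin m → ℕ, Z = fun j => 2 ^ i j := ⟨_, rfl⟩
  have hZj : ∀ j, Z j = 2 ^ i j := fun j => by rw [hZdef]
  have hZ1 : ∀ j, 1 ≤ Z j := fun j => by rw [hZj]; exact Nat.one_le_two_pow
  have hnat : ∀ a ∈ T, a.natAbs = s0 * ∏ j, y a j ^ (m + (j : ℕ)) := by
    intro a ha
    obtain ⟨-, -, -, h, -, -⟩ := hT a ha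
    conv_lhs => rw [h]
    rw [Int.natAbs_mul, Int.natAbs_natCast]
    rcases hsg with h1 | h1 <;> rw [h1] <;> simp
  have hs0 : 0 < s0 := by
    rcases Nat.eq_zero_or_pos s0 with h | h
    · have h1 := hnat a0 ha0
      rw [h, zero_mul] at h1
      exact absurd (Int.natAbs_eq_zero.mp h1) (hT a0 ha0).2.2.1
    · exact h
  -- the product of the y
  have hP : (∏ j, y a0 j) ^ m ≤ N := by
    have h1 : (∏ j, y a0 j) ^ m ≤ ∏ j, y a0 j ^ (m + (j : ℕ)) := by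
      rw [← Finset.prod_pow]
      apply Finset.prod_le_prod'
      intro j _
      exact Nat.pow_le_pow_right ((hT a0 ha0).2.2.2.2.1 j) (Nat.le_add_right _ _)
    have h2 : ∏ j, y a0 j ^ (m + (j : ℕ)) ≤ s0 * ∏ j, y a0 j ^ (m + (j : ℕ)) :=
      Nat.le_mul_of_pos_left _ hs0
    exact h1.trans (h2.trans ((hnat a0 ha0) ▸ (hT a0 ha0).2.1))
  have hZP : ∏ j, Z j ≤ 2 ^ m * ∏ j, y a0 j := by
    have h1 : ∏ j, Z j ≤ ∏ j : Fin m, (2 * y a0 j) := by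
      apply Finset.prod_le_prod'
      intro j _
      rw [hZj, ← (hT a0 ha0).2.2.2.2.2 j]
      exact two_pow_clog_le _ ((hT a0 ha0).2.2.2.2.1 j)
    rw [Finset.prod_mul_distrib] at h1
    simpa using h1
  have hZ : (∏ j, Z j) ^ 4 ≤ q := by
    have h1 : ((∏ j, Z j) ^ 4) ^ m ≤ q ^ m := by
      calc ((∏ j, Z j) ^ 4) ^ m ≤ ((2 ^ m * ∏ j, y a0 j) ^ 4) ^ m :=
            Nat.pow_le_pow_left (Nat.pow_le_pow_left hZP 4) m
        _ = 2 ^ (4 * m ^ 2) * ((∏ j, y a0 j) ^ m) ^ 4 := by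
            rw [mul_pow, mul_pow, ← pow_mul, ← pow_mul, ← pow_mul, ← pow_mul, mul_comm 4 m]
            congr 2
            ring
        _ ≤ 2 ^ (4 * m ^ 2) * N ^ 4 := Nat.mul_le_mul_left _ (Nat.pow_le_pow_left hP 4)
        _ ≤ q ^ m := hq
    exact (Nat.pow_le_pow_iff_left (by omega)).mp h1
  have hZR : ((∏ j, Z j : ℕ) : ℝ) ≤ 2 ^ m * (N : ℝ) ^ (1 / (m : ℝ)) := by
    have h1 : ((∏ j, Z j : ℕ) : ℝ) ≤ 2 ^ m * ((∏ j, y a0 j : ℕ) : ℝ) := by exact_mod_cast hZP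
    have h2 : ((∏ j, y a0 j : ℕ) : ℝ) ≤ (N : ℝ) ^ (1 / (m : ℝ)) := by
      calc ((∏ j, y a0 j : ℕ) : ℝ) = (((∏ j, y a0 j : ℕ) : ℝ) ^ m) ^ ((m : ℝ)⁻¹) :=
            (Real.pow_rpow_inv_natCast (by positivity) (by omega)).symm
        _ ≤ (N : ℝ) ^ (1 / (m : ℝ)) := by
            rw [one_div]
            apply Real.rpow_le_rpow (by positivity) _ (by positivity)
            exact_mod_cast hP
    exact h1.trans (mul_le_mul_of_nonneg_left h2 (by positivity))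
  have hcopr : ∀ a ∈ T, Nat.Coprime a.natAbs q := by
    intro a ha
    have h1 := Int.isCoprime_iff_gcd_eq_one.mp (hT a ha).1
    rw [Int.gcd, Int.natAbs_natCast] at h1
    exact h1
  have hcopy : ∀ a ∈ T, ∀ j, Nat.Coprime (y a j) q := by
    intro a ha j
    refine Nat.Coprime.coprime_dvd_left ?_ (hcopr a ha)
    rw [hnat a ha]
    refine Dvd.dvd.mul_left ?_ _
    exact (dvd_pow_self _ (by omega)).trans
      (Finset.dvd_prod_of_mem (fun j => y a j ^ (m + (j : ℕ))) (Finset.mem_univ j))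
  have hcops : Nat.Coprime s0 q := by
    refine Nat.Coprime.coprime_dvd_left ?_ (hcopr a0 ha0)
    rw [hnat a0 ha0]
    exact dvd_mul_right _ _
  have hcoll : coll T (fun a => (a : ZMod q)) ≤
      coll (Fintype.piFinset (fun j => Yq q (Z j)))
        (fun y => ∏ j, uq q (y j) ^ (m + (j : ℕ))) := by
    apply coll_le_of_map T _ y
    · intro a ha
      rw [Fintype.mem_piFinset]
      intro j
      unfold Yq
      rw [Finset.mem_filter, Finset.mem_Icc]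
      refine ⟨⟨(hT a ha).2.2.2.2.1 j, ?_⟩, hcopy a ha j⟩
      rw [hZj, ← (hT a ha).2.2.2.2.2 j]
      exact Nat.le_pow_clog (by norm_num) _
    · intro a ha a' ha' h
      have ha1 : a ∈ T := by exact_mod_cast ha
      have ha2 : a' ∈ T := by exact_mod_cast ha'
      rw [(hT a ha1).2.2.2.1, (hT a' ha2).2.2.2.1, h]
    · intro a ha a' ha' h
      have h1 : ∀ a ∈ T, (a : ZMod q) = (sg : ZMod q) * ((s0 : ZMod q) *
          ((∏ j, uq q (y a j) ^ (m + (j : ℕ)) : (ZMod q)ˣ) : ZMod q)) := by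
        intro a ha
        have h2 : ((∏ j, uq q (y a j) ^ (m + (j : ℕ)) : (ZMod q)ˣ) : ZMod q) =
            ∏ j, (y a j : ZMod q) ^ (m + (j : ℕ)) := by
          rw [Units.coe_prod]
          apply Finset.prod_congr rfl
          intro j _
          rw [Units.val_pow_eq_pow_val, uq_val q _ (hcopy a ha j)]
        rw [h2]
        conv_lhs => rw [(hT a ha).2.2.2.1]
        push_cast
        ring
      have hsu : IsUnit ((sg : ZMod q) * (s0 : ZMod q)) := by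
        apply IsUnit.mul
        · rcases hsg with h1 | h1 <;> rw [h1] <;> simp
        · exact (ZMod.isUnit_iff_coprime s0 q).mpr hcops
      apply Units.ext
      have h2 := h1 a ha
      have h3 := h1 a' ha'
      rw [h2, h3, ← mul_assoc, ← mul_assoc] at h
      exact hsu.mul_left_cancel h
  calc (coll T (fun a => (a : ZMod q)) : ℝ) ≤ (coll (Fintype.piFinset (fun j => Yq q (Z j)))
        (fun y => ∏ j, uq q (y j) ^ (m + (j : ℕ))) : ℝ) := by exact_mod_cast hcoll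
    _ ≤ ((∏ j, Z j : ℕ) : ℝ) * (B : ℝ) ^ (2 * m * m) := box_coll q m B hm Z hZ1 hZ hB
    _ ≤ 2 ^ m * (N : ℝ) ^ (1 / (m : ℝ)) * (B : ℝ) ^ (2 * m * m) :=
        mul_le_mul_of_nonneg_right hZR (by positivity)

theorem collision (S : Finset ℕ) (m : ℕ) (hm : 1 ≤ m) (ε : ℝ) (hε : 0 < ε) :
    ∃ C : ℝ, 1 ≤ C ∧ ∀ N : ℕ, 1 ≤ N → ∀ q : ℕ, 1 ≤ q → 2 ^ (4 * m ^ 2) * N ^ 4 ≤ q ^ m →
      (coll ((Aset S m N).filter (fun a => IsCoprime a (q : ℤ))) (fun a => (a : ZMod q)) : ℝ) ≤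
        C * (q : ℝ) ^ ε * (N : ℝ) ^ (1 / (m : ℝ) + ε) := by
  classical
  have hm0 : (0 : ℝ) < m := by exact_mod_cast hm
  obtain ⟨C1, hC1, hF⟩ := sunit_count S (ε / 4) (by positivity)
  obtain ⟨C2, hC2, htau⟩ := tau_rpow (ε / (2 * m * m)) (by positivity)
  obtain ⟨C3, hC3, hlog⟩ := clog_pow_le m hm (ε / 4) (by positivity)
  refine ⟨(2 * (C1 * C3)) ^ 2 * (2 ^ m * C2 ^ (2 * m * m)), ?_, fun N hN q hq hqm => ?_⟩
  · have h1 : (1 : ℝ) ≤ 2 * (C1 * C3) := by nlinarith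
    have h2 : (1 : ℝ) ≤ (2 * (C1 * C3)) ^ 2 := one_le_pow₀ h1
    have h3 : (1 : ℝ) ≤ 2 ^ m := one_le_pow₀ (by norm_num)
    have h4 : (1 : ℝ) ≤ C2 ^ (2 * m * m) := one_le_pow₀ hC2
    exact one_le_mul_of_one_le_of_one_le h2 (one_le_mul_of_one_le_of_one_le h3 h4)
  haveI : NeZero q := ⟨by omega⟩
  have hN1 : (1 : ℝ) ≤ N := by exact_mod_cast hN
  have hq1 : (1 : ℝ) ≤ q := by exact_mod_cast hq
  have hN0 : (0 : ℝ) < N := by linarith
  have hq0 : (0 : ℝ) < q := by linarith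
  have hrep : ∀ a : ℤ, ∃ (s : ℕ) (y : Fin m → ℕ), a ∈ Aset S m N →
      (0 < s ∧ (∀ p : ℕ, p.Prime → p ∣ s → p ∈ S) ∧ (∀ j, 0 < y j) ∧
        a.natAbs = s * ∏ j, y j ^ (m + (j : ℕ))) := by
    intro a
    by_cases ha : a ∈ Aset S m N
    · have h1 := mem_Aset.mp ha
      obtain ⟨s, y, h2⟩ := rep S m hm a.natAbs (Int.natAbs_pos.mpr h1.1) h1.2.2
      exact ⟨s, y, fun _ => h2⟩
    · exact ⟨0, fun _ => 0, fun h => absurd h ha⟩
  choose s y hsy using hrep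
  obtain ⟨A, hA⟩ : ∃ A : Finset ℤ, A = (Aset S m N).filter (fun a => IsCoprime a (q : ℤ)) :=
    ⟨_, rfl⟩
  have hAm : ∀ a ∈ A, a ∈ Aset S m N ∧ IsCoprime a (q : ℤ) := by
    intro a ha
    rw [hA] at ha
    exact Finset.mem_filter.mp ha
  have hyN : ∀ a ∈ A, ∀ j, y a j ≤ N := by
    intro a ha j
    obtain ⟨h1, -, h3, h4⟩ := hsy a (hAm a ha).1
    have h5 := (mem_Aset.mp (hAm a ha).1).2.1
    have h6 : y a j ∣ a.natAbs := by
      rw [h4]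
      refine Dvd.dvd.mul_left ?_ _
      exact (dvd_pow_self _ (by omega)).trans
        (Finset.dvd_prod_of_mem (fun j => y a j ^ (m + (j : ℕ))) (Finset.mem_univ j))
    exact (Nat.le_of_dvd (Int.natAbs_pos.mpr (mem_Aset.mp (hAm a ha).1).1) h6).trans h5
  have hsN : ∀ a ∈ A, s a ≤ N := by
    intro a ha
    obtain ⟨h1, -, h3, h4⟩ := hsy a (hAm a ha).1
    have h5 := (mem_Aset.mp (hAm a ha).1).2.1
    have h6 : s a ∣ a.natAbs := by
      rw [h4]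
      exact dvd_mul_right _ _
    exact (Nat.le_of_dvd (Int.natAbs_pos.mpr (mem_Aset.mp (hAm a ha).1).1) h6).trans h5
  -- the classes
  obtain ⟨c, hc⟩ : ∃ c : ℤ → Bool × (ℕ × (Fin m → ℕ)), c = fun a =>
      (decide (0 < a), (s a, fun j => Nat.clog 2 (y a j))) := ⟨_, rfl⟩
  obtain ⟨F, hFd⟩ : ∃ F : Finset ℕ, F = A.image s := ⟨_, rfl⟩
  obtain ⟨Q, hQ⟩ : ∃ Q : Finset (Bool × (ℕ × (Fin m → ℕ))), Q = Finset.univ ×ˢ (F ×ˢ
      Fintype.piFinset (fun _ : Fin m => Finset.range (Nat.clog 2 N + 1))) := ⟨_, rfl⟩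
  have hFc : (F.card : ℝ) ≤ C1 * (N : ℝ) ^ (ε / 4) := by
    apply hF N hN F
    intro v hv
    rw [hFd] at hv
    obtain ⟨a, ha, rfl⟩ := Finset.mem_image.mp hv
    obtain ⟨h1, h2, h3, h4⟩ := hsy a (hAm a ha).1
    exact ⟨h1, hsN a ha, h2⟩
  have hQc : (Q.card : ℝ) ≤ 2 * ((C1 * (N : ℝ) ^ (ε / 4)) * (C3 * (N : ℝ) ^ (ε / 4))) := by
    have h1 : Q.card = 2 * (F.card * (Nat.clog 2 N + 1) ^ m) := by
      rw [hQ, Finset.card_product, Finset.card_product, Fintype.card_piFinset]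
      simp
    rw [h1]
    push_cast
    have h2 := hlog N hN
    push_cast at h2
    have h3 : (F.card : ℝ) * ((Nat.clog 2 N : ℝ) + 1) ^ m ≤
        (C1 * (N : ℝ) ^ (ε / 4)) * (C3 * (N : ℝ) ^ (ε / 4)) :=
      mul_le_mul hFc h2 (by positivity) (by positivity)
    linarith
  have hcQ : ∀ a ∈ A, c a ∈ Q := by
    intro a ha
    rw [hQ, hc, Finset.mem_product, Finset.mem_product, Fintype.mem_piFinset]
    refine ⟨Finset.mem_univ _, ?_, ?_⟩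
    · rw [hFd]
      exact Finset.mem_image_of_mem _ ha
    · intro j
      rw [Finset.mem_range]
      have h1 := Nat.clog_mono_right 2 (hyN a ha j)
      exact Nat.lt_succ_of_le h1
  obtain ⟨B, hBd⟩ : ∃ B : ℕ, B = ⌊C2 * (q : ℝ) ^ (ε / (2 * m * m))⌋₊ := ⟨_, rfl⟩
  have hB : ∀ w : ℕ, 1 ≤ w → w ≤ q → tau w ≤ B := by
    intro w hw hwq
    rw [hBd]
    apply Nat.le_floor
    refine (htau w (by omega)).trans ?_
    apply mul_le_mul_of_nonneg_left _ (by linarith)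
    apply Real.rpow_le_rpow (by positivity) _ (by positivity)
    exact_mod_cast hwq
  have hBR : (B : ℝ) ^ (2 * m * m) ≤ C2 ^ (2 * m * m) * (q : ℝ) ^ ε := by
    have h1 : (B : ℝ) ≤ C2 * (q : ℝ) ^ (ε / (2 * m * m)) := by
      rw [hBd]
      exact Nat.floor_le (by positivity)
    calc (B : ℝ) ^ (2 * m * m) ≤ (C2 * (q : ℝ) ^ (ε / (2 * m * m))) ^ (2 * m * m) :=
          pow_le_pow_left₀ (by positivity) h1 _
      _ = C2 ^ (2 * m * m) * (q : ℝ) ^ ε := by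
          rw [mul_pow, ← Real.rpow_natCast ((q : ℝ) ^ (ε / (2 * m * m))) (2 * m * m),
            ← Real.rpow_mul hq0.le]
          congr 2
          push_cast
          field_simp
  obtain ⟨K, hK⟩ : ∃ K : ℝ, K = 2 ^ m * (N : ℝ) ^ (1 / (m : ℝ)) * (B : ℝ) ^ (2 * m * m) :=
    ⟨_, rfl⟩
  have hK0 : 0 ≤ K := by rw [hK]; positivity
  have hsplit := coll_split A (fun a => (a : ZMod q)) c Q hcQ K hK0 (by
    intro γ _
    rw [hK]
    apply class_bound m hm N q hN hqm B hB (A.filter (fun a => c a = γ)) γ.2.1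
      (if γ.1 = true then 1 else -1) (by split_ifs <;> simp) γ.2.2 y
    intro a ha
    obtain ⟨haA, hac⟩ := Finset.mem_filter.mp ha
    obtain ⟨h1, h2, h3, h4⟩ := hsy a (hAm a haA).1
    have h5 := mem_Aset.mp (hAm a haA).1
    rw [hc] at hac
    subst hac
    refine ⟨(hAm a haA).2, h5.2.1, h5.1, ?_, h3, fun j => rfl⟩
    simp only
    rw [← h4]
    by_cases hpos : 0 < a
    · rw [if_pos (decide_eq_true hpos)]
      omega
    · rw [if_neg (by simpa using hpos)]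
      omega)
  rw [← hA]
  refine hsplit.trans ?_
  have hNp : (N : ℝ) ^ (ε / 4) * (N : ℝ) ^ (ε / 4) = (N : ℝ) ^ (ε / 2) := by
    rw [← Real.rpow_add hN0]
    congr 1
    ring
  have hNp2 : (N : ℝ) ^ (ε / 2) * (N : ℝ) ^ (ε / 2) = (N : ℝ) ^ ε := by
    rw [← Real.rpow_add hN0]
    congr 1
    ring
  have hKle : K ≤ 2 ^ m * (N : ℝ) ^ (1 / (m : ℝ)) * (C2 ^ (2 * m * m) * (q : ℝ) ^ ε) := by
    rw [hK]
    exact mul_le_mul_of_nonneg_left hBR (by positivity)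
  calc (Q.card : ℝ) ^ 2 * K
      ≤ (2 * ((C1 * (N : ℝ) ^ (ε / 4)) * (C3 * (N : ℝ) ^ (ε / 4)))) ^ 2 *
        (2 ^ m * (N : ℝ) ^ (1 / (m : ℝ)) * (C2 ^ (2 * m * m) * (q : ℝ) ^ ε)) := by
        apply mul_le_mul _ hKle hK0 (by positivity)
        exact pow_le_pow_left₀ (by positivity) hQc 2
    _ = (2 * (C1 * C3)) ^ 2 * (2 ^ m * C2 ^ (2 * m * m)) * (q : ℝ) ^ ε *
        ((N : ℝ) ^ (1 / (m : ℝ)) * (((N : ℝ) ^ (ε / 4) * (N : ℝ) ^ (ε / 4)) *
          ((N : ℝ) ^ (ε / 4) * (N : ℝ) ^ (ε / 4)))) := by ring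
    _ = (2 * (C1 * C3)) ^ 2 * (2 ^ m * C2 ^ (2 * m * m)) * (q : ℝ) ^ ε *
        (N : ℝ) ^ (1 / (m : ℝ) + ε) := by
        rw [hNp, hNp2, Real.rpow_add hN0]

end Pool.Agent.Helper91.CPX
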