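import Pool.Agent.Helper91.CPX.Basic

/-!
CPX-N07. Values of polynomials over `Zb F` at points of `T ν` are bounded by a fixed power of `X ν`.

Proof. Induction on `p` (`MvPolynomial.induction_on`): constants `C c`: `c ∈ Zb F`. Sums: `X^C1 + X^C2 ≤ X^(C1+C2+1)` as
`X ≥ 2`. Product by a variable: `|z i| ≤ X`, exponent `C + 1`.
-/

open MvPolynomial

namespace Pool.Agent.Helper91.CPX

theorem poly_bound (F : Frame) {ι : Type} [Fintype ι] [DecidableEq ι] (T : ℕ → Finset (ι → ℤ))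
    (hT : Bdd F T) (p : MvPolynomial ι (Zb F)) :
    ∃ C : ℕ, ∀ᶠ ν in (F.U : Filter ℕ), ∀ z ∈ T ν,
      |eval z (map (evAt F ν) p)| ≤ (F.X ν : ℤ) ^ C := by
  induction p using MvPolynomial.induction_on with
  | C a =>
    obtain ⟨C, hC⟩ := a.2
    refine ⟨C, ?_⟩
    filter_upwards [hC] with ν h z _
    rw [map_C, eval_C, evAt_apply]
    exact h
  | add p q hp hq =>
    obtain ⟨C1, h1⟩ := hp
    obtain ⟨C2, h2⟩ := hq
    refine ⟨C1 + C2 + 1, ?_⟩
    filter_upwards [h1, h2] with ν h1 h2 z hz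
    have h3 := F.pow_mono ν (show C1 ≤ C1 + C2 by omega)
    have h4 := F.pow_mono ν (show C2 ≤ C1 + C2 by omega)
    have h5 := F.two_le' ν
    have h6 : (0 : ℤ) < (F.X ν : ℤ) ^ (C1 + C2) := by have := F.one_le ν; positivity
    have h7 := h1 z hz
    have h8 := h2 z hz
    rw [map_add, map_add, pow_succ]
    calc |eval z (map (evAt F ν) p) + eval z (map (evAt F ν) q)|
        ≤ |eval z (map (evAt F ν) p)| + |eval z (map (evAt F ν) q)| := abs_add_le _ _
      _ ≤ (F.X ν : ℤ) ^ (C1 + C2) * 2 := by linarith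
      _ ≤ _ := by nlinarith
  | mul_X p i hp =>
    obtain ⟨C, h⟩ := hp
    refine ⟨C + 1, ?_⟩
    filter_upwards [h] with ν h z hz
    have h1 := h z hz
    obtain ⟨h2, h3⟩ := hT ν z hz i
    have h4 : |z i| ≤ (F.X ν : ℤ) := by
      rw [abs_of_nonneg (by omega)]
      exact h3
    rw [map_mul, map_mul, map_X, eval_X, abs_mul, pow_succ]
    exact mul_le_mul h1 h4 (abs_nonneg _) (by positivity)

end Pool.Agent.Helper91.CPX
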