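import Mathlib

/-!
CPX-N02. Clearing denominators of the coefficients of polynomials.

Proof. Induction (`MvPolynomial.induction_on`, `Polynomial.induction_on`), or: common denominator of finitely many
elements of `K`. Constants: `hfrac`. Sums: `b = b1 b2`, `P = C b2 * P1 + C b1 * P2` (`φ (b1 b2) = φ b1 φ b2 ≠ 0`, `K` a field).
Product by a variable: same `b`. For `lift_poly` use `lift_mv` for the coefficients and the same induction.
-/

open MvPolynomial

namespace Pool.Agent.Helper91.CPX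

theorem lift_mv {S K : Type} [CommRing S] [Field K] (φ : S →+* K)
    (hfrac : ∀ y : K, ∃ a b : S, φ b ≠ 0 ∧ φ b * y = φ a) {ι : Type} (p : MvPolynomial ι K) :
    ∃ (b : S) (P : MvPolynomial ι S), φ b ≠ 0 ∧ map φ P = C (φ b) * p := by
  induction p using MvPolynomial.induction_on with
  | C y =>
    obtain ⟨a, b, hb, hab⟩ := hfrac y
    exact ⟨b, C a, hb, by rw [map_C, ← C_mul, hab]⟩
  | add p q hp hq =>
    obtain ⟨b1, P1, h1, h1'⟩ := hp
    obtain ⟨b2, P2, h2, h2'⟩ := hq
    refine ⟨b1 * b2, C b2 * P1 + C b1 * P2, ?_, ?_⟩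
    · rw [map_mul]
      exact mul_ne_zero h1 h2
    · rw [map_add, map_mul, map_mul, map_C, map_C, h1', h2', map_mul, C_mul]
      ring
  | mul_X p i hp =>
    obtain ⟨b, P, h1, h1'⟩ := hp
    refine ⟨b, P * X i, h1, ?_⟩
    rw [map_mul, map_X, h1']
    ring

theorem lift_poly {S K : Type} [CommRing S] [Field K] (φ : S →+* K)
    (hfrac : ∀ y : K, ∃ a b : S, φ b ≠ 0 ∧ φ b * y = φ a) {ι : Type}
    (p : Polynomial (MvPolynomial ι K)) :
    ∃ (b : S) (P : Polynomial (MvPolynomial ι S)), φ b ≠ 0 ∧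
      P.map (map φ) = Polynomial.C (C (φ b)) * p := by
  induction p using Polynomial.induction_on with
  | C y =>
    obtain ⟨b, P, hb, hP⟩ := lift_mv φ hfrac y
    exact ⟨b, Polynomial.C P, hb, by rw [Polynomial.map_C, ← Polynomial.C_mul, hP]⟩
  | add p q hp hq =>
    obtain ⟨b1, P1, h1, h1'⟩ := hp
    obtain ⟨b2, P2, h2, h2'⟩ := hq
    refine ⟨b1 * b2, Polynomial.C (C b2) * P1 + Polynomial.C (C b1) * P2, ?_, ?_⟩
    · rw [map_mul]
      exact mul_ne_zero h1 h2
    · rw [Polynomial.map_add, Polynomial.map_mul, Polynomial.map_mul, Polynomial.map_C,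
        Polynomial.map_C, map_C, map_C, h1', h2', map_mul, C_mul, Polynomial.C_mul]
      ring
  | monomial n y hp =>
    obtain ⟨b, P, h1, h1'⟩ := hp
    refine ⟨b, P * Polynomial.X, h1, ?_⟩
    rw [Polynomial.map_mul, Polynomial.map_X, h1', pow_succ]
    ring

end Pool.Agent.Helper91.CPX
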