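import Pool.Agent.Helper91.CPX.Basic

/-!
CPX-N04. Large point sets.

Proof of `large_union`. Let `X^δ ≤ card M(T ∪ T')` for almost all `ν`; `card M(T ∪ T') ≤ card M(T) + card M(T')`
(`Finset.image_union`, `Finset.card_union_le`), so for these `ν` with `2 ≤ X^(δ/2)` (almost all `ν`, by `F.tends` with
`C ≥ 2^(2/δ)`) one of the two cardinalities is at least `X^δ / 2 ≥ X^(δ/2)`. Then `Ultrafilter.eventually_or`.
`large_nonempty`: the cardinality is positive. `vanIdeal_anti`: a section of the smaller family is a section of the larger.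
-/

open MvPolynomial

namespace Pool.Agent.Helper91.CPX

variable {ι : Type} [Fintype ι] [DecidableEq ι]

theorem large_union (F : Frame) (M : ℕ → (ι → ℤ) → ℤ) (T T' : ℕ → Finset (ι → ℤ))
    (h : Large F M (fun ν => T ν ∪ T' ν)) : Large F M T ∨ Large F M T' := by
  obtain ⟨δ, hδ, hev⟩ := h
  have hC := F.tends ⌈(2 : ℝ) ^ (2 / δ)⌉₊
  have key : ∀ᶠ ν in (F.U : Filter ℕ), ((F.X ν : ℝ) ^ (δ / 2) ≤ (((T ν).image (M ν)).card : ℝ)) ∨
      ((F.X ν : ℝ) ^ (δ / 2) ≤ (((T' ν).image (M ν)).card : ℝ)) := by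
    filter_upwards [hev, hC] with ν h1 h2
    have hX : (2 : ℝ) ^ (2 / δ) ≤ (F.X ν : ℝ) := (Nat.le_ceil _).trans (by exact_mod_cast h2)
    have hX0 : (0 : ℝ) < F.X ν := lt_of_lt_of_le (Real.rpow_pos_of_pos (by norm_num) _) hX
    have h3 : (2 : ℝ) ≤ (F.X ν : ℝ) ^ (δ / 2) := by
      have h4 : ((2 : ℝ) ^ (2 / δ)) ^ (δ / 2) ≤ (F.X ν : ℝ) ^ (δ / 2) :=
        Real.rpow_le_rpow (Real.rpow_nonneg (by norm_num) _) hX (by positivity)
      rw [← Real.rpow_mul (by norm_num)] at h4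
      have h5 : 2 / δ * (δ / 2) = 1 := by field_simp
      rw [h5, Real.rpow_one] at h4
      exact h4
    have h4 : (F.X ν : ℝ) ^ δ = (F.X ν : ℝ) ^ (δ / 2) * (F.X ν : ℝ) ^ (δ / 2) := by
      rw [← Real.rpow_add hX0]
      congr 1
      ring
    have h5 : ((((T ν ∪ T' ν)).image (M ν)).card : ℝ) ≤
        (((T ν).image (M ν)).card : ℝ) + (((T' ν).image (M ν)).card : ℝ) := by
      rw [Finset.image_union]
      exact_mod_cast Finset.card_union_le _ _
    by_contra hcon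
    push Not at hcon
    have h6 := hcon.1
    have h7 := hcon.2
    have h8 : (F.X ν : ℝ) ^ δ ≤ _ := h1.trans h5
    rw [h4] at h8
    nlinarith
  rcases Ultrafilter.eventually_or.mp key with h1 | h1
  · exact Or.inl ⟨δ / 2, by positivity, h1⟩
  · exact Or.inr ⟨δ / 2, by positivity, h1⟩

theorem large_mono (F : Frame) (M : ℕ → (ι → ℤ) → ℤ) (T T' : ℕ → Finset (ι → ℤ))
    (hTT : ∀ᶠ ν in (F.U : Filter ℕ), T ν ⊆ T' ν) (h : Large F M T) : Large F M T' := by
  obtain ⟨δ, hδ, hev⟩ := h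
  refine ⟨δ, hδ, ?_⟩
  filter_upwards [hev, hTT] with ν h1 h2
  refine h1.trans ?_
  exact_mod_cast Finset.card_le_card (Finset.image_subset_image h2)

theorem large_nonempty (F : Frame) (M : ℕ → (ι → ℤ) → ℤ) (T : ℕ → Finset (ι → ℤ))
    (h : Large F M T) : ∀ᶠ ν in (F.U : Filter ℕ), (T ν).Nonempty := by
  obtain ⟨δ, hδ, hev⟩ := h
  filter_upwards [hev] with ν h1
  have hX0 : (0 : ℝ) < F.X ν := by
    have := F.two_le ν
    exact_mod_cast (by omega : 0 < F.X ν)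
  have h2 : (0 : ℝ) < (((T ν).image (M ν)).card : ℝ) := (Real.rpow_pos_of_pos hX0 δ).trans_le h1
  have h3 : 0 < ((T ν).image (M ν)).card := by exact_mod_cast h2
  exact Finset.image_nonempty.1 (Finset.card_pos.1 h3)

theorem vanIdeal_anti (F : Frame) (T T' : ℕ → Finset (ι → ℤ)) (hTT : ∀ ν, T' ν ⊆ T ν) :
    vanIdeal F T ≤ vanIdeal F T' := by
  intro f hf P hP
  refine hf P ?_
  have hP' : ∀ᶠ ν in (F.U : Filter ℕ), (fun i => (P i : ℕ → ℤ) ν) ∈ T' ν := hP
  show ∀ᶠ ν in (F.U : Filter ℕ), (fun i => (P i : ℕ → ℤ) ν) ∈ T ν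
  filter_upwards [hP'] with ν h1
  exact hTT ν h1

end Pool.Agent.Helper91.CPX
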