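import Pool.Agent.Helper91.CPX.Los
import Pool.Agent.Helper91.CPX.LargeU

/-!
CPX-N06. Outside the zero set of a polynomial not in the (maximal) vanishing ideal the family remains large.

Proof. `T ν` is the union of `A ν = {z ∈ T ν : p(z) ≠ 0}` and `B ν = {z ∈ T ν : p(z) = 0}`. By `large_union` one of them
is large. If `B` is large then `vanIdeal F B = vanIdeal F T` by `hmax` and `map (toK F) p ∈ vanIdeal F B` by `los` (`B` is
bounded since `T` is): contradiction to `hp`.
-/

open MvPolynomial

namespace Pool.Agent.Helper91.CPX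

theorem large_ne (F : Frame) {ι : Type} [Fintype ι] [DecidableEq ι]
    (M : ℕ → (ι → ℤ) → ℤ) (T : ℕ → Finset (ι → ℤ)) (hT : Bdd F T) (hL : Large F M T)
    (hmax : ∀ T' : ℕ → Finset (ι → ℤ), (∀ ν, T' ν ⊆ T ν) → Large F M T' →
      vanIdeal F T' = vanIdeal F T)
    (p : MvPolynomial ι (Zb F)) (hp : map (toK F) p ∉ vanIdeal F T) :
    Large F M (fun ν => (T ν).filter (fun z => eval z (map (evAt F ν) p) ≠ 0)) := by
  have hU : Large F M (fun ν => (T ν).filter (fun z => eval z (map (evAt F ν) p) ≠ 0) ∪
      (T ν).filter (fun z => eval z (map (evAt F ν) p) = 0)) := by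
    refine large_mono F M T _ (Filter.Eventually.of_forall fun ν => ?_) hL
    intro z hz
    rw [Finset.mem_union, Finset.mem_filter, Finset.mem_filter]
    by_cases h : eval z (map (evAt F ν) p) = 0
    · exact Or.inr ⟨hz, h⟩
    · exact Or.inl ⟨hz, h⟩
  rcases large_union F M _ _ hU with h | h
  · exact h
  · exfalso
    have hsub : ∀ ν, (T ν).filter (fun z => eval z (map (evAt F ν) p) = 0) ⊆ T ν :=
      fun ν => Finset.filter_subset _ _
    have he := hmax _ hsub h
    apply hp
    rw [← he]
    have hB : Bdd F (fun ν => (T ν).filter (fun z => eval z (map (evAt F ν) p) = 0)) :=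
      fun ν z hz => hT ν z (hsub ν hz)
    rw [los F _ hB p]
    refine Filter.Eventually.of_forall fun ν z hz => ?_
    exact (Finset.mem_filter.mp hz).2

end Pool.Agent.Helper91.CPX
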