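import Pool.Agent.Helper91.CPX.Defs

/-!
CPX-N14. Elementary properties of `coeffDeriv`, `subst`, `gE`, `conv`.

Proofs. `coeff_coeffDeriv`: the sum of monomials has at most one contribution in degree `n`; outside the support
`pderiv j 0 = 0`. The other properties of `coeffDeriv` follow by comparing coefficients (`pderiv j` is linear over `S`,
commutes with `map φ`: `MvPolynomial.pderiv_map`, and kills `1`). `subst` and `conv` are ring homomorphisms in `P`;
naturality: induction on `P` or `Polynomial.hom_eval₂`, `Polynomial.eval₂_map`. `conv_eval`: both sides are ring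
homomorphisms in `P`, agreeing on `Polynomial.X` and on `Polynomial.C (C s)`, `Polynomial.C (X j)`. `conv_pderiv_*`: derivations:
induction on `P` (`Polynomial.induction_on'`): for a monomial `a X^n`, `conv i (a X^n) = rename inl a * X (inr i)^n`.
-/

open MvPolynomial

namespace Pool.Agent.Helper91.CPX

variable {S : Type} [CommRing S] {ι : Type} [Fintype ι] [DecidableEq ι] {d : ℕ}

theorem coeff_coeffDeriv (j : Fin d) (P : Polynomial (MvPolynomial (Fin d) S)) (n : ℕ) :
    (coeffDeriv j P).coeff n = pderiv j (P.coeff n) := by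
  classical
  unfold coeffDeriv
  rw [Polynomial.finset_sum_coeff]
  simp only [Polynomial.coeff_monomial]
  rw [Finset.sum_ite_eq']
  split_ifs with h
  · rfl
  · rw [Polynomial.notMem_support_iff.1 h, map_zero]

theorem coeffDeriv_add (j : Fin d) (P Q : Polynomial (MvPolynomial (Fin d) S)) :
    coeffDeriv j (P + Q) = coeffDeriv j P + coeffDeriv j Q := by
  ext1 n
  rw [Polynomial.coeff_add, coeff_coeffDeriv, coeff_coeffDeriv, coeff_coeffDeriv,
    Polynomial.coeff_add, map_add]

theorem coeffDeriv_C_mul (j : Fin d) (s : S) (P : Polynomial (MvPolynomial (Fin d) S)) :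
    coeffDeriv j (Polynomial.C (C s) * P) = Polynomial.C (C s) * coeffDeriv j P := by
  ext1 n
  rw [Polynomial.coeff_C_mul, coeff_coeffDeriv, coeff_coeffDeriv, Polynomial.coeff_C_mul,
    pderiv_C_mul, C_mul']

theorem coeffDeriv_map {S' : Type} [CommRing S'] (φ : S →+* S') (j : Fin d)
    (P : Polynomial (MvPolynomial (Fin d) S)) :
    (coeffDeriv j P).map (map φ) = coeffDeriv j (P.map (map φ)) := by
  ext1 n
  rw [Polynomial.coeff_map, coeff_coeffDeriv, coeff_coeffDeriv, Polynomial.coeff_map,
    pderiv_map]

theorem coeffDeriv_degree_lt [Nontrivial S] (j : Fin d) (P : Polynomial (MvPolynomial (Fin d) S))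
    (hP : P.Monic) : (coeffDeriv j P).degree < P.degree := by
  rw [Polynomial.degree_eq_natDegree hP.ne_zero, Polynomial.degree_lt_iff_coeff_zero]
  intro m hm
  rw [coeff_coeffDeriv]
  rcases Nat.eq_or_lt_of_le hm with h | h
  · rw [← h, hP.coeff_natDegree, pderiv_one]
  · rw [Polynomial.coeff_eq_zero_of_natDegree_lt h, map_zero]

theorem subst_add (G : Fin d → MvPolynomial ι S) (i : ι)
    (P Q : Polynomial (MvPolynomial (Fin d) S)) :
    subst G i (P + Q) = subst G i P + subst G i Q :=
  Polynomial.eval₂_add _ _

theorem subst_mul (G : Fin d → MvPolynomial ι S) (i : ι)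
    (P Q : Polynomial (MvPolynomial (Fin d) S)) :
    subst G i (P * Q) = subst G i P * subst G i Q :=
  Polynomial.eval₂_mul _ _

theorem subst_C_C_mul (G : Fin d → MvPolynomial ι S) (i : ι) (s : S)
    (P : Polynomial (MvPolynomial (Fin d) S)) :
    subst G i (Polynomial.C (C s) * P) = C s * subst G i P := by
  rw [subst_mul]
  congr 1
  unfold subst
  rw [Polynomial.eval₂_C]
  exact aeval_C G s

theorem subst_map {S' : Type} [CommRing S'] (φ : S →+* S') (G : Fin d → MvPolynomial ι S) (i : ι)
    (P : Polynomial (MvPolynomial (Fin d) S)) :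
    map φ (subst G i P) = subst (fun j => map φ (G j)) i (P.map (map φ)) := by
  unfold subst
  rw [Polynomial.hom_eval₂, Polynomial.eval₂_map, map_X]
  congr 1
  apply MvPolynomial.ringHom_ext
  · intro s
    simp
  · intro j
    simp

theorem gE_map {S' : Type} [CommRing S'] (φ : S →+* S') (e : ι → S) (x : Finset ι)
    (ρ : ι → Polynomial (MvPolynomial (Fin d) S)) (G : Fin d → MvPolynomial ι S) (j : Fin d) :
    map φ (gE e x ρ G j) =
      gE (fun i => φ (e i)) x (fun i => (ρ i).map (map φ)) (fun j => map φ (G j)) j := by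
  unfold gE
  rw [map_sum]
  refine Finset.sum_congr rfl fun i _ => ?_
  rw [map_mul, map_mul, map_C, subst_map, coeffDeriv_map, map_prod]
  congr 1
  refine Finset.prod_congr rfl fun i' _ => ?_
  rw [map_mul, map_X, subst_map, Polynomial.derivative_map]

theorem gE_C_mul (e : ι → S) (x : Finset ι) (s : ι → S)
    (ρ : ι → Polynomial (MvPolynomial (Fin d) S)) (G : Fin d → MvPolynomial ι S) (j : Fin d) :
    gE e x (fun i => Polynomial.C (C (s i)) * ρ i) G j = C (∏ i, s i) * gE e x ρ G j := by
  unfold gE
  rw [Finset.mul_sum]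
  refine Finset.sum_congr rfl fun i _ => ?_
  rw [coeffDeriv_C_mul, subst_C_C_mul]
  have h1 : ∀ i', subst G i' (Polynomial.derivative (Polynomial.C (C (s i')) * ρ i')) * X i' =
      C (s i') * (subst G i' (Polynomial.derivative (ρ i')) * X i') := by
    intro i'
    rw [Polynomial.derivative_C_mul, subst_C_C_mul, mul_assoc]
  rw [Finset.prod_congr rfl (fun i' _ => h1 i'), Finset.prod_mul_distrib, map_prod,
    ← Finset.mul_prod_erase Finset.univ (fun i => C (s i)) (Finset.mem_univ i)]
  ring

theorem conv_eval (G : Fin d → MvPolynomial ι ℤ) (z : ι → ℤ) (i : ι)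
    (P : Polynomial (MvPolynomial (Fin d) ℤ)) :
    eval (graphPt G z) (conv i P) = eval z (subst G i P) := by
  unfold subst conv
  rw [Polynomial.hom_eval₂, Polynomial.hom_eval₂, eval_X, eval_X]
  congr 1
  apply MvPolynomial.ringHom_ext
  · intro s
    simp
  · intro j
    simp [graphPt]

theorem conv_monomial (i : ι) (n : ℕ) (a : MvPolynomial (Fin d) S) :
    conv i (Polynomial.monomial n a) = rename Sum.inl a * X (Sum.inr i) ^ n := by
  unfold conv
  rw [Polynomial.eval₂_monomial]
  rfl

theorem conv_add (i : ι) (P Q : Polynomial (MvPolynomial (Fin d) S)) :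
    conv i (P + Q) = conv i P + conv i Q :=
  Polynomial.eval₂_add _ _

theorem pderiv_inr_rename (i' : ι) (a : MvPolynomial (Fin d) S) :
    pderiv (Sum.inr i') (rename (Sum.inl : Fin d → Fin d ⊕ ι) a) = 0 := by
  induction a using MvPolynomial.induction_on with
  | C s => simp
  | add p q hp hq => rw [map_add, map_add, hp, hq, add_zero]
  | mul_X p j hp =>
    rw [map_mul, rename_X, pderiv_mul, hp, pderiv_X_of_ne (by simp)]
    simp

theorem conv_pderiv_inr (i i' : ι) (P : Polynomial (MvPolynomial (Fin d) S)) :
    pderiv (Sum.inr i') (conv i P) = if i' = i then conv i (Polynomial.derivative P) else 0 := by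
  induction P using Polynomial.induction_on' with
  | add P Q hP hQ =>
    rw [conv_add, map_add, hP, hQ, Polynomial.derivative_add, conv_add]
    split_ifs <;> simp
  | monomial n a =>
    rw [conv_monomial, pderiv_mul, pderiv_inr_rename, zero_mul, zero_add, pderiv_pow,
      Polynomial.derivative_monomial, conv_monomial]
    split_ifs with h
    · subst h
      rw [pderiv_X_self, map_mul, map_natCast]
      ring
    · rw [pderiv_X_of_ne (by simpa using Ne.symm h)]
      ring

theorem coeffDeriv_monomial (j : Fin d) (n : ℕ) (a : MvPolynomial (Fin d) S) :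
    coeffDeriv j (Polynomial.monomial n a) = Polynomial.monomial n (pderiv j a) := by
  ext1 m
  rw [coeff_coeffDeriv, Polynomial.coeff_monomial, Polynomial.coeff_monomial]
  split_ifs
  · rfl
  · rw [map_zero]

theorem conv_pderiv_inl (i : ι) (j : Fin d) (P : Polynomial (MvPolynomial (Fin d) S)) :
    pderiv (Sum.inl j) (conv i P) = conv i (coeffDeriv j P) := by
  induction P using Polynomial.induction_on' with
  | add P Q hP hQ =>
    rw [conv_add, map_add, hP, hQ, coeffDeriv_add, conv_add]
  | monomial n a =>
    rw [conv_monomial, pderiv_mul, pderiv_rename Sum.inl_injective, pderiv_pow,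
      pderiv_X_of_ne (by simp), coeffDeriv_monomial, conv_monomial]
    ring

end Pool.Agent.Helper91.CPX
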