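import Pool.Agent.Helper91.CPX.Lagrange

/-!
CPX-N12. The trace of `g(z) / (f'(z) z)`, `f` the minimal polynomial of `z`.

Proof. `n = [L : K(z)]` (`Module.finrank K⟮z⟯ L > 0`). The element `y = g(z)/(f'(z) z)` is in `K(z)`, so
`trace L/K (y) = n * trace K(z)/K (y)` (`Algebra.trace_trace`, `Algebra.trace_algebraMap`). In an algebraic closure
`Ω` of `K`, the trace from `K(z)` is the sum over the embeddings of `K(z)` (`trace_eq_sum_embeddings`), which
correspond to the roots `ζ` of `f` (distinct, `f` separable in characteristic `0`), so it is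
`∑_ζ g(ζ)/(f'(ζ) ζ) = - g(0)/f(0)` by `lagrange`
(the roots are nonzero since `f(0) ≠ 0`, as `z ≠ 0`, and `f = ∏ (X - ζ)` over `Ω`).
Alternatively: `Algebra.trace_eq_sum_roots`-type theorems, e.g. `PowerBasis` and `trace_eq_sum_embeddings_gen`.
-/

open Polynomial

namespace Pool.Agent.Helper91.CPX

theorem trace_step {K L : Type} [Field K] [Field L] [CharZero K] [Algebra K L]
    [FiniteDimensional K L] (z : L) (hz : z ≠ 0) :
    ∃ n : ℕ, 0 < n ∧ ∀ g : K[X], g.degree < (minpoly K z).degree →
      Algebra.trace K L (aeval z g / (aeval z (derivative (minpoly K z)) * z)) =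
        -((n : K) * g.coeff 0) / (minpoly K z).coeff 0 := by
  classical
  have hz' : IsIntegral K z := Algebra.IsIntegral.isIntegral z
  let E := IntermediateField.adjoin K {z}
  let Ω := AlgebraicClosure K
  let z' : E := IntermediateField.AdjoinSimple.gen K z
  have hzz : algebraMap E L z' = z := IntermediateField.AdjoinSimple.algebraMap_gen K z
  have hz0 : z' ≠ 0 := fun h => hz (by rw [← hzz, h, map_zero])
  set f := minpoly K z with hf
  have hfm : f.Monic := minpoly.monic hz'
  have hfi : Irreducible f := minpoly.irreducible hz'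
  have hsep : f.Separable := hfi.separable
  have hf0 : f.coeff 0 ≠ 0 := minpoly.coeff_zero_ne_zero hz' hz
  set fΩ : Polynomial Ω := f.map (algebraMap K Ω) with hfΩ
  set R : Finset Ω := (f.aroots Ω).toFinset with hR
  have hsplit : fΩ.Splits := IsAlgClosed.splits fΩ
  have hnd : (f.aroots Ω).Nodup := nodup_roots hsep.map
  have hprod : ∏ η ∈ R, (X - C η) = fΩ := by
    have h1 := hsplit.eq_prod_roots_of_monic (hfm.map _)
    rw [h1, hR, Finset.prod_eq_multiset_prod, Multiset.toFinset_val,
      Multiset.dedup_eq_self.2 hnd]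
  have hcard : R.card = f.natDegree := by
    rw [hR, Multiset.toFinset_card_of_nodup hnd]
    have h1 := hsplit.natDegree_eq_card_roots
    rw [hfΩ, natDegree_map] at h1
    exact h1.symm
  have h0R : (0 : Ω) ∉ R := by
    intro h
    rw [hR, Multiset.mem_toFinset, mem_aroots] at h
    have h1 := h.2
    rw [aeval_def, eval₂_at_zero] at h1
    exact hf0 ((map_eq_zero _).1 h1)
  refine ⟨Module.finrank E L, Module.finrank_pos, ?_⟩
  intro g hg
  let y' : E := aeval z' g / (aeval z' (derivative f) * z')
  have hy : algebraMap E L y' = aeval z g / (aeval z (derivative f) * z) := by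
    change algebraMap E L (aeval z' g / (aeval z' (derivative f) * z')) = _
    rw [map_div₀, map_mul, ← aeval_algebraMap_apply, ← aeval_algebraMap_apply, hzz]
  have h1 : Algebra.trace K L (aeval z g / (aeval z (derivative f) * z))
      = (Module.finrank E L : K) * Algebra.trace K E y' := by
    rw [← hy, ← Algebra.trace_trace (S := E), Algebra.trace_algebraMap, LinearMap.map_smul_of_tower,
      nsmul_eq_mul]
  have h2 : algebraMap K Ω (Algebra.trace K E y') =
      -(algebraMap K Ω (g.coeff 0)) / algebraMap K Ω (f.coeff 0) := by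
    rw [trace_eq_sum_embeddings (K := K) (L := E) Ω (x := y')]
    have h3 : ∀ σ : E →ₐ[K] Ω, σ y' = (g.map (algebraMap K Ω)).eval (σ z') /
        (fΩ.derivative.eval (σ z') * σ z') := by
      intro σ
      change σ (aeval z' g / (aeval z' (derivative f) * z')) = _
      rw [map_div₀, map_mul, ← aeval_algHom_apply, ← aeval_algHom_apply, hfΩ, derivative_map,
        eval_map_algebraMap, eval_map_algebraMap]
    have h4 : ∑ σ : E →ₐ[K] Ω, σ y' = ∑ ζ ∈ R, (g.map (algebraMap K Ω)).eval ζ /
        (fΩ.derivative.eval ζ * ζ) := by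
      rw [← Finset.sum_coe_sort R]
      refine Fintype.sum_bijective
        (fun σ : E →ₐ[K] Ω => (⟨σ z', ?_⟩ : R)) ⟨?_, ?_⟩ _ _ ?_
      · rw [hR, Multiset.mem_toFinset, mem_aroots]
        refine ⟨hfm.ne_zero, ?_⟩
        rw [aeval_algHom_apply]
        have h5 : aeval z' f = 0 := by
          apply (algebraMap E L).injective
          rw [← aeval_algebraMap_apply, hzz, map_zero]
          exact minpoly.aeval K z
        rw [h5, map_zero]
      · intro σ τ h
        have h6 : σ z' = τ z' := congrArg Subtype.val h
        exact IntermediateField.algHom_ext_of_eq_adjoin _ rfl (by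
          rintro x hx
          obtain rfl := Set.mem_singleton_iff.1 hx
          exact h6)
      · rintro ⟨ζ, hζ⟩
        rw [hR, Multiset.mem_toFinset] at hζ
        refine ⟨(IntermediateField.algHomAdjoinIntegralEquiv K hz').symm ⟨ζ, hζ⟩, Subtype.ext ?_⟩
        exact IntermediateField.algHomAdjoinIntegralEquiv_symm_apply_gen K hz' ⟨ζ, hζ⟩
      · intro σ
        exact h3 σ
    have h7 := lagrange R h0R (g.map (algebraMap K Ω)) (by
      rw [hcard, degree_map]
      exact lt_of_lt_of_eq hg (degree_eq_natDegree hfm.ne_zero))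
    rw [hprod] at h7
    rw [h4, h7, ← coeff_zero_eq_eval_zero, ← coeff_zero_eq_eval_zero, hfΩ, coeff_map, coeff_map]
  have h8 : Algebra.trace K E y' = -(g.coeff 0) / f.coeff 0 := by
    apply (algebraMap K Ω).injective
    rw [h2, map_div₀, map_neg]
  rw [h1, h8]
  ring

end Pool.Agent.Helper91.CPX
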