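import Mathlib

/-!
CPX-N13. A relation between logarithmic derivatives with positive coefficients forces constants.

Proof. Suppose some `c i0` is not a unit (units of the polynomial ring over a field are the nonzero constants). Let `π` be
an irreducible (prime) factor of `c i0`; `π` is not constant, so (characteristic `0`) `pderiv j π ≠ 0` for some `j`, and
`π` does not divide `pderiv j π` (smaller degree in `X j`: `MvPolynomial.degreeOf`, or total degree).
Write `c i = π^(v i) u i`, `π ∤ u i` (`exists_eq_pow_mul_and_not_dvd`), so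
`pderiv j (c i) = v i π^(v i - 1) (pderiv j π) u i + π^(v i) pderiv j (u i)`. With `V = ∑ v i ≥ 1`, multiply the hypothesis
by `π`: `π * c`-terms give
`0 = π * ∑_i w i pderiv j (c i) ∏_{i' ≠ i} c i' = π^V [ (∑_i w i v i) (pderiv j π) ∏ u i' + π * (something) ]`.
So `π` divides `(∑ w i v i) (pderiv j π) ∏ u i'`, hence (prime) `∑ w i v i = 0` (a nonzero constant is a unit). By `hpos` all
`v i = 0`, contradiction to `v i0 ≥ 1`.
-/

open MvPolynomial

namespace Pool.Agent.Helper91.CPX

private theorem ufd_pderiv {k : Type} [Field k] [CharZero k] {d : ℕ} (p : MvPolynomial (Fin d) k)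
    (hp : p ≠ 0) (hu : ¬ IsUnit p) : ∃ j, pderiv j p ≠ 0 ∧ ¬ p ∣ pderiv j p := by
  classical
  -- some variable occurs
  have h1 : ∃ m ∈ p.support, m ≠ 0 := by
    by_contra hcon
    push Not at hcon
    apply hu
    rw [isUnit_iff_eq_C_of_isReduced]
    have h2 : p = C (p.coeff 0) := by
      ext m
      rw [coeff_C]
      split_ifs with h
      · rw [← h]
      · by_contra h3
        exact h (hcon m (mem_support_iff.mpr h3)).symm
    refine ⟨p.coeff 0, ?_, h2⟩
    rw [isUnit_iff_ne_zero]
    intro h3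
    apply hp
    rw [h2, h3, C_0]
  obtain ⟨m0, hm0, hm0'⟩ := h1
  obtain ⟨j, hj⟩ : ∃ j, m0 j ≠ 0 := by
    by_contra hcon
    push Not at hcon
    exact hm0' (Finsupp.ext hcon)
  have hdeg : 0 < degreeOf j p := by
    rw [degreeOf_eq_sup]
    exact lt_of_lt_of_le (Nat.pos_of_ne_zero hj) (Finset.le_sup (f := fun m : Fin d →₀ ℕ => m j) hm0)
  have hne : pderiv j p ≠ 0 := by
    intro h
    have h2 := coeff_pderiv (i := j) p (m0 - Finsupp.single j 1)
    rw [h, coeff_zero] at h2
    have h3 : m0 - Finsupp.single j 1 + Finsupp.single j 1 = m0 := by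
      apply tsub_add_cancel_of_le
      rw [Finsupp.single_le_iff]
      exact Nat.pos_of_ne_zero hj
    rw [h3] at h2
    have h4 := (mul_eq_zero.mp h2.symm)
    rcases h4 with h4 | h4
    · exact (mem_support_iff.mp hm0) h4
    · exact (Nat.cast_add_one_ne_zero (R := k) _) h4
  refine ⟨j, hne, ?_⟩
  rintro ⟨q, hq⟩
  have hq0 : q ≠ 0 := by rintro rfl; exact hne (by rw [hq, mul_zero])
  have h5 : degreeOf j (pderiv j p) = degreeOf j p + degreeOf j q := by
    rw [hq, degreeOf_mul_eq hp hq0]
  have h6 : degreeOf j (pderiv j p) < degreeOf j p := by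
    rw [degreeOf_lt_iff hdeg]
    intro m hm
    have h7 := coeff_pderiv (i := j) p m
    have h8 : coeff (m + Finsupp.single j 1) p ≠ 0 := by
      intro h9
      rw [h9, zero_mul] at h7
      exact (mem_support_iff.mp hm) h7
    have h10 : (m + Finsupp.single j 1 : Fin d →₀ ℕ) j ≤ degreeOf j p := by
      rw [degreeOf_eq_sup]
      exact Finset.le_sup (f := fun m : Fin d →₀ ℕ => m j) (mem_support_iff.mpr h8)
    simp at h10
    omega
  omega

theorem ufd_step {k : Type} [Field k] [CharZero k] {d : ℕ} {x : Type} [Fintype x] [DecidableEq x]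
    (w : x → k) (hpos : ∀ v : x → ℕ, ∑ i, w i * (v i : k) = 0 → ∀ i, v i = 0)
    (c : x → MvPolynomial (Fin d) k) (hc : ∀ i, c i ≠ 0)
    (h : ∀ j, ∑ i, C (w i) * pderiv j (c i) * ∏ i' ∈ Finset.univ.erase i, c i' = 0) :
    ∀ i, ∃ a : k, a ≠ 0 ∧ c i = C a := by
  intro i0
  by_contra hcon
  have hnu : ¬ IsUnit (c i0) := by
    intro hu
    rw [isUnit_iff_eq_C_of_isReduced] at hu
    obtain ⟨r, hr, hr2⟩ := hu
    exact hcon ⟨r, hr.ne_zero, hr2⟩
  obtain ⟨π, hπ, hdvd⟩ := WfDvdMonoid.exists_irreducible_factor hnu (hc i0)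
  have hprime : Prime π := hπ.prime
  obtain ⟨j, hj1, hj2⟩ := ufd_pderiv π hprime.ne_zero hprime.not_isUnit
  have hex : ∀ i, ∃ (v : ℕ) (u : MvPolynomial (Fin d) k), ¬ π ∣ u ∧ c i = π ^ v * u := fun i =>
    WfDvdMonoid.max_power_factor (hc i) hπ
  choose v u hu hcu using hex
  set V := ∑ i, v i with hV
  set B : MvPolynomial (Fin d) k := ∑ i, C (w i) * ((v i : MvPolynomial (Fin d) k) * pderiv j π * u i + π * pderiv j (u i)) *
    ∏ i' ∈ Finset.univ.erase i, u i' with hB
  have key : π ^ V * B = 0 := by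
    have h1 := congrArg (fun q => π * q) (h j)
    simp only [mul_zero, Finset.mul_sum] at h1
    rw [hB, Finset.mul_sum, ← h1]
    refine Finset.sum_congr rfl fun i _ => ?_
    have h2 : π * pderiv j (c i) =
        π ^ v i * ((v i : MvPolynomial (Fin d) k) * pderiv j π * u i + π * pderiv j (u i)) := by
      rw [hcu i, pderiv_mul, pderiv_pow]
      rcases Nat.eq_zero_or_pos (v i) with h0 | h0
      · rw [h0]; simp
      · obtain ⟨n, hn⟩ : ∃ n, v i = n + 1 := ⟨v i - 1, by omega⟩
        rw [hn]
        simp only [Nat.add_sub_cancel, pow_succ]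
        push_cast
        ring
    have h3 : ∏ i' ∈ Finset.univ.erase i, c i' =
        π ^ (∑ i' ∈ Finset.univ.erase i, v i') * ∏ i' ∈ Finset.univ.erase i, u i' := by
      rw [← Finset.prod_pow_eq_pow_sum, ← Finset.prod_mul_distrib]
      exact Finset.prod_congr rfl fun i' _ => hcu i'
    have h4 : V = v i + ∑ i' ∈ Finset.univ.erase i, v i' := by
      rw [hV, Finset.add_sum_erase _ _ (Finset.mem_univ i)]
    calc π ^ V * (C (w i) * ((v i : MvPolynomial (Fin d) k) * pderiv j π * u i + π * pderiv j (u i)) *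
          ∏ i' ∈ Finset.univ.erase i, u i')
        = C (w i) * (π ^ v i * ((v i : MvPolynomial (Fin d) k) * pderiv j π * u i + π * pderiv j (u i))) *
          (π ^ (∑ i' ∈ Finset.univ.erase i, v i') * ∏ i' ∈ Finset.univ.erase i, u i') := by
            rw [h4, pow_add]; ring
      _ = π * (C (w i) * pderiv j (c i) * ∏ i' ∈ Finset.univ.erase i, c i') := by
            rw [← h2, ← h3]; ring
  have hB0 : B = 0 := by
    rcases mul_eq_zero.mp key with h1 | h1
    · exact absurd (eq_zero_of_pow_eq_zero h1) hprime.ne_zero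
    · exact h1
  have hsum : π ∣ C (∑ i, w i * (v i : k)) * pderiv j π * ∏ i, u i := by
    have h1 : C (∑ i, w i * (v i : k)) * pderiv j π * ∏ i, u i =
        B - π * ∑ i, C (w i) * pderiv j (u i) * ∏ i' ∈ Finset.univ.erase i, u i' := by
      rw [hB, map_sum, Finset.sum_mul, Finset.sum_mul, Finset.mul_sum, ← Finset.sum_sub_distrib]
      refine Finset.sum_congr rfl fun i _ => ?_
      rw [← Finset.mul_prod_erase Finset.univ u (Finset.mem_univ i), map_mul, map_natCast]
      ring
    rw [h1, hB0, zero_sub]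
    exact (Dvd.intro _ rfl).neg_right
  have hz : ∑ i, w i * (v i : k) = 0 := by
    by_contra hne
    rcases hprime.dvd_or_dvd hsum with h1 | h1
    · rcases hprime.dvd_or_dvd h1 with h2 | h2
      · apply hprime.not_isUnit
        refine isUnit_of_dvd_unit h2 ?_
        exact (isUnit_iff_ne_zero.mpr hne).map C
      · exact hj2 h2
    · obtain ⟨i, _, hi⟩ := (hprime.dvd_finsetProd_iff _).mp h1
      exact hu i hi
  have h0 := hpos v hz i0
  have h1 : ¬ π ∣ c i0 := by
    rw [hcu i0, h0, pow_zero, one_mul]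
    exact hu i0
  exact h1 hdvd

end Pool.Agent.Helper91.CPX
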