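import Pool.Agent.Helper91.CPX.CoeffDeriv
import Pool.Agent.Helper91.CPX.Trace
import Pool.Agent.Helper91.CPX.UFDStep

/-!
CPX-N15. The key lemma.

Proof. Let `B = MvPolynomial (Fin d) k`, `K = FractionRing B`, `L = FractionRing A`, a finite extension of `K`
(`FractionRing.liftAlgebra`, `Module.Finite` of localizations; `A` is finite over `B`). `B` is integrally closed, so
`minpoly K (z i) = (minpoly B (z i)).map (algebraMap B K)` (`minpoly.isIntegrallyClosed_eq_field_fractions`). Write
`f i = minpoly B (z i)`, monic; `aeval (z i) (f i)' ≠ 0` (characteristic `0`, smaller degree: the minimal polynomial over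
`K` is separable). `c i := (f i).coeff 0 ≠ 0` (irreducible, `z i ≠ 0`).
Divide `hrel` by `∏_i (f i)'(z i) z i` in `L`: `∑_i e i * (coeffDeriv j (f i))(z i) / ((f i)'(z i) z i) = 0`. Take the trace
`L → K` (`K`-linear; `e i` in `k`): by `trace_step` (degree of `coeffDeriv j (f i)` smaller than the degree of `f i` because the
leading coefficient `1` is killed; `n i` does not depend on `j`): `∑_i e i n i pderiv j (c i) / c i = 0` in `K`. Multiply by
`∏ c i`; the relation is in `B`: hypothesis of `ufd_step` with `w i = e i * n i` (and `hpos` for `w`: if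
`∑ e i n i v i = 0` then all `n i v i = 0`, so `v i = 0` as `n i > 0`).
-/

open MvPolynomial

namespace Pool.Agent.Helper91.CPX

private theorem div_help {L : Type} [Field L] (D P a u : L) (hD : D ≠ 0) :
    (D * P) * (a * (u / D)) = a * u * P := by
  field_simp

private theorem div_help' {L : Type} [Field L] (c P a n u : L) (hc : c ≠ 0) :
    -(a * n * u * P) = (c * P) * (a * (-(n * u) / c)) := by
  field_simp

section core

variable {k : Type} [Field k] [CharZero k] {d : ℕ} {A K L : Type} [CommRing A] [IsDomain A]
  [Algebra (MvPolynomial (Fin d) k) A] [Module.Finite (MvPolynomial (Fin d) k) A]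
  [FaithfulSMul (MvPolynomial (Fin d) k) A]
  [Field K] [Algebra (MvPolynomial (Fin d) k) K] [IsFractionRing (MvPolynomial (Fin d) k) K]
  [Field L] [Algebra A L] [IsFractionRing A L] [Algebra (MvPolynomial (Fin d) k) L]
  [IsScalarTower (MvPolynomial (Fin d) k) A L] [Algebra K L]
  [IsScalarTower (MvPolynomial (Fin d) k) K L]

private theorem integral_of_finite (z : A) : IsIntegral (MvPolynomial (Fin d) k) z :=
  Algebra.IsIntegral.isIntegral z

private theorem minpoly_frac (K L : Type) [Field K] [Algebra (MvPolynomial (Fin d) k) K]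
    [IsFractionRing (MvPolynomial (Fin d) k) K]
    [Field L] [Algebra A L] [Algebra (MvPolynomial (Fin d) k) L]
    [IsScalarTower (MvPolynomial (Fin d) k) A L] [Algebra K L]
    [IsScalarTower (MvPolynomial (Fin d) k) K L] (z : A) :
    minpoly K (algebraMap A L z) =
      (minpoly (MvPolynomial (Fin d) k) z).map (algebraMap (MvPolynomial (Fin d) k) K) :=
  minpoly.isIntegrallyClosed_eq_field_fractions K L (integral_of_finite z)

private theorem aeval_frac (K L : Type) [Field K] [Algebra (MvPolynomial (Fin d) k) K]
    [Field L] [Algebra A L] [Algebra (MvPolynomial (Fin d) k) L]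
    [IsScalarTower (MvPolynomial (Fin d) k) A L] [Algebra K L]
    [IsScalarTower (MvPolynomial (Fin d) k) K L] (z : A)
    (Q : Polynomial (MvPolynomial (Fin d) k)) :
    Polynomial.aeval (algebraMap A L z) (Q.map (algebraMap (MvPolynomial (Fin d) k) K)) =
      algebraMap A L (Polynomial.aeval z Q) := by
  rw [Polynomial.aeval_map_algebraMap, Polynomial.aeval_algebraMap_apply]

omit [IsFractionRing A L] in
private theorem deriv_ne_zero_core (K L : Type) [Field K] [Algebra (MvPolynomial (Fin d) k) K]
    [IsFractionRing (MvPolynomial (Fin d) k) K]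
    [Field L] [Algebra A L] [Algebra (MvPolynomial (Fin d) k) L]
    [IsScalarTower (MvPolynomial (Fin d) k) A L] [Algebra K L]
    [IsScalarTower (MvPolynomial (Fin d) k) K L] [CharZero K] (z : A) :
    Polynomial.aeval z (Polynomial.derivative (minpoly (MvPolynomial (Fin d) k) z)) ≠ 0 := by
  intro h
  have hint : IsIntegral K (algebraMap A L z) := by
    have h1 : IsIntegral (MvPolynomial (Fin d) k) (algebraMap A L z) :=
      (integral_of_finite z).map (IsScalarTower.toAlgHom (MvPolynomial (Fin d) k) A L)
    exact h1.tower_top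
  have hsep : (minpoly K (algebraMap A L z)).Separable :=
    (minpoly.irreducible hint).separable
  have h2 := hsep.aeval_derivative_ne_zero (minpoly.aeval K (algebraMap A L z))
  apply h2
  rw [minpoly_frac (k := k) (d := d) K L z, Polynomial.derivative_map, aeval_frac K L z, h,
    map_zero]

end core


theorem KL {k : Type} [Field k] [CharZero k] {d : ℕ} {A : Type} [CommRing A] [IsDomain A]
    [Algebra (MvPolynomial (Fin d) k) A] [Module.Finite (MvPolynomial (Fin d) k) A]
    (hinj : Function.Injective (algebraMap (MvPolynomial (Fin d) k) A))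
    {x : Type} [Fintype x] [DecidableEq x] (z : x → A) (hz : ∀ i, z i ≠ 0) (e : x → k)
    (hpos : ∀ v : x → ℕ, ∑ i, e i * (v i : k) = 0 → ∀ i, v i = 0)
    (hrel : ∀ j : Fin d, ∑ i, algebraMap (MvPolynomial (Fin d) k) A (C (e i)) *
      Polynomial.aeval (z i) (coeffDeriv j (minpoly (MvPolynomial (Fin d) k) (z i))) *
      ∏ i' ∈ Finset.univ.erase i,
        (Polynomial.aeval (z i') (Polynomial.derivative (minpoly (MvPolynomial (Fin d) k) (z i'))) *
          z i') = 0) :
    ∀ i, ∃ c : k, c ≠ 0 ∧ (minpoly (MvPolynomial (Fin d) k) (z i)).coeff 0 = C c := by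
  classical
  have hfaith : FaithfulSMul (MvPolynomial (Fin d) k) A :=
    (faithfulSMul_iff_algebraMap_injective _ _).mpr hinj
  let K := FractionRing (MvPolynomial (Fin d) k)
  let L := FractionRing A
  let _ : Algebra K L := FractionRing.liftAlgebra (MvPolynomial (Fin d) k) L
  have : IsScalarTower (MvPolynomial (Fin d) k) K L :=
    FractionRing.isScalarTower_liftAlgebra (MvPolynomial (Fin d) k) L
  have : FiniteDimensional K L :=
    Module.Finite.of_isLocalization (MvPolynomial (Fin d) k) A
      (nonZeroDivisors (MvPolynomial (Fin d) k))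
  have hKinj : Function.Injective (algebraMap (MvPolynomial (Fin d) k) K) :=
    IsFractionRing.injective _ _
  have hLinj : Function.Injective (algebraMap A L) := IsFractionRing.injective _ _
  have : CharZero K := charZero_of_injective_algebraMap hKinj
  set P : x → Polynomial (MvPolynomial (Fin d) k) :=
    fun i => minpoly (MvPolynomial (Fin d) k) (z i) with hP
  set Z : x → L := fun i => algebraMap A L (z i) with hZ
  have hZ0 : ∀ i, Z i ≠ 0 := fun i h => hz i (hLinj (by rw [map_zero]; exact h))
  have hmin : ∀ i, minpoly K (Z i) = (P i).map (algebraMap (MvPolynomial (Fin d) k) K) :=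
    fun i => minpoly_frac K L (z i)
  set D : x → L := fun i =>
    Polynomial.aeval (Z i) (Polynomial.derivative (minpoly K (Z i))) * Z i with hD
  have hDeq : ∀ i, D i = algebraMap A L
      (Polynomial.aeval (z i) (Polynomial.derivative (P i)) * z i) := by
    intro i
    show Polynomial.aeval (Z i) (Polynomial.derivative (minpoly K (Z i))) * Z i = _
    rw [hmin, Polynomial.derivative_map, aeval_frac K L (z i), map_mul]
  have hD0 : ∀ i, D i ≠ 0 := by
    intro i h
    rw [hDeq] at h
    have h1 := hLinj (h.trans (map_zero _).symm)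
    rcases mul_eq_zero.mp h1 with h2 | h2
    · exact deriv_ne_zero_core K L (z i) h2
    · exact hz i h2
  set c : x → MvPolynomial (Fin d) k := fun i => (P i).coeff 0 with hc
  have hcK : ∀ i, (minpoly K (Z i)).coeff 0 = algebraMap (MvPolynomial (Fin d) k) K (c i) := by
    intro i
    rw [hmin, Polynomial.coeff_map]
  have hint : ∀ i, IsIntegral K (Z i) := fun i => Algebra.IsIntegral.isIntegral _
  have hc0K : ∀ i, algebraMap (MvPolynomial (Fin d) k) K (c i) ≠ 0 := by
    intro i
    rw [← hcK]
    exact minpoly.coeff_zero_ne_zero (hint i) (hZ0 i)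
  have hc0 : ∀ i, c i ≠ 0 := by
    intro i h
    exact hc0K i (by rw [h, map_zero])
  choose n hn htr using fun i => trace_step (K := K) (Z i) (hZ0 i)
  have hstep : ∀ j : Fin d, ∑ i, C (e i * (n i : k)) * pderiv j (c i) *
      ∏ i' ∈ Finset.univ.erase i, c i' = 0 := by
    intro j
    -- the relation in `L`
    have h1 := congrArg (algebraMap A L) (hrel j)
    rw [map_sum, map_zero] at h1
    have h2 : ∑ i, (algebraMap (MvPolynomial (Fin d) k) K (C (e i))) •
        (Polynomial.aeval (Z i) ((coeffDeriv j (P i)).map (algebraMap (MvPolynomial (Fin d) k) K))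
          / D i) = 0 := by
      have h3 : (∏ i, D i) * ∑ i, (algebraMap (MvPolynomial (Fin d) k) K (C (e i))) •
        (Polynomial.aeval (Z i) ((coeffDeriv j (P i)).map (algebraMap (MvPolynomial (Fin d) k) K))
          / D i) = 0 := by
        rw [← h1, Finset.mul_sum]
        refine Finset.sum_congr rfl fun i _ => ?_
        rw [map_mul, map_mul, map_prod, aeval_frac K L (z i),
          ← Finset.mul_prod_erase Finset.univ D (Finset.mem_univ i), Algebra.smul_def,
          ← IsScalarTower.algebraMap_apply (MvPolynomial (Fin d) k) K L,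
          ← IsScalarTower.algebraMap_apply (MvPolynomial (Fin d) k) A L,
          Finset.prod_congr rfl (fun i' _ => hDeq i')]
        exact div_help _ _ _ _ (hD0 i)
      rcases mul_eq_zero.mp h3 with h4 | h4
      · exact absurd h4 (Finset.prod_ne_zero_iff.mpr fun i _ => hD0 i)
      · exact h4
    have h5 := congrArg (Algebra.trace K L) h2
    rw [map_sum, map_zero] at h5
    have h6 : ∑ i, (algebraMap (MvPolynomial (Fin d) k) K (C (e i))) *
        (-((n i : K) * algebraMap (MvPolynomial (Fin d) k) K (pderiv j (c i))) /
          algebraMap (MvPolynomial (Fin d) k) K (c i)) = 0 := by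
      rw [← h5]
      refine Finset.sum_congr rfl fun i _ => ?_
      rw [map_smul, smul_eq_mul, htr i, hcK, Polynomial.coeff_map, coeff_coeffDeriv]
      rw [hmin]
      have hmonic : (P i).Monic := minpoly.monic (integral_of_finite (z i))
      have h7 := coeffDeriv_degree_lt j (P i) hmonic
      rw [hmonic.degree_map]
      exact lt_of_le_of_lt Polynomial.degree_map_le h7
    apply hKinj
    rw [map_sum, map_zero]
    have h8 : (∏ i, algebraMap (MvPolynomial (Fin d) k) K (c i)) *
        ∑ i, (algebraMap (MvPolynomial (Fin d) k) K (C (e i))) *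
        (-((n i : K) * algebraMap (MvPolynomial (Fin d) k) K (pderiv j (c i))) /
          algebraMap (MvPolynomial (Fin d) k) K (c i)) = 0 := by rw [h6, mul_zero]
    rw [Finset.mul_sum] at h8
    rw [← neg_eq_zero, ← h8, ← Finset.sum_neg_distrib]
    refine Finset.sum_congr rfl fun i _ => ?_
    rw [← Finset.mul_prod_erase Finset.univ (fun i => algebraMap (MvPolynomial (Fin d) k) K (c i))
      (Finset.mem_univ i)]
    simp only [map_mul, map_prod, map_natCast]
    exact div_help' _ _ _ _ _ (hc0K i)
  have hpos' : ∀ v : x → ℕ, ∑ i, e i * (n i : k) * (v i : k) = 0 → ∀ i, v i = 0 := by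
    intro v hv i
    have h1 := hpos (fun i => n i * v i) (by
      rw [← hv]
      refine Finset.sum_congr rfl fun i _ => ?_
      push_cast
      ring) i
    exact (Nat.mul_eq_zero.mp h1).resolve_left (hn i).ne'
  exact ufd_step (fun i => e i * (n i : k)) hpos' c hc0 hstep

/-- The derivative of the minimal polynomial does not vanish at the element. -/
theorem aeval_derivative_minpoly_ne_zero {k : Type} [Field k] [CharZero k] {d : ℕ} {A : Type}
    [CommRing A] [IsDomain A] [Algebra (MvPolynomial (Fin d) k) A]
    [Module.Finite (MvPolynomial (Fin d) k) A]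
    (hinj : Function.Injective (algebraMap (MvPolynomial (Fin d) k) A)) (z : A) :
    Polynomial.aeval z (Polynomial.derivative (minpoly (MvPolynomial (Fin d) k) z)) ≠ 0 := by
  have hfaith : FaithfulSMul (MvPolynomial (Fin d) k) A :=
    (faithfulSMul_iff_algebraMap_injective _ _).mpr hinj
  let K := FractionRing (MvPolynomial (Fin d) k)
  let L := FractionRing A
  let _ : Algebra K L := FractionRing.liftAlgebra (MvPolynomial (Fin d) k) L
  have : IsScalarTower (MvPolynomial (Fin d) k) K L :=
    FractionRing.isScalarTower_liftAlgebra (MvPolynomial (Fin d) k) L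
  have hKinj : Function.Injective (algebraMap (MvPolynomial (Fin d) k) K) :=
    IsFractionRing.injective _ _
  have : CharZero K := charZero_of_injective_algebraMap hKinj
  exact deriv_ne_zero_core K L z

end Pool.Agent.Helper91.CPX
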