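import Pool.Agent.Helper91.CPX.Lift

/-!
CPX-N10. Noether normalization with the new variables defined over `S`.

Proof. Mathlib: `exists_finite_inj_algHom_of_fg K (MvPolynomial ι K ⧸ pp)` gives `d` and an injective finite algebra
homomorphism `g` from `MvPolynomial (Fin d) K`. Let `G0 j` be a lift of `g (X j)`, and by `lift_mv`
`map φ (G j) = C (φ (b j)) * G0 j`, `φ (b j) ≠ 0`. The map of the theorem is `g` composed with the automorphism
`X j ↦ φ (b j) X j` of the polynomial ring (inverse `X j ↦ (φ (b j))⁻¹ X j`), so it is injective and finite.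
-/

open MvPolynomial

namespace Pool.Agent.Helper91.CPX

theorem noether {S K : Type} [CommRing S] [Field K] (φ : S →+* K)
    (hfrac : ∀ y : K, ∃ a b : S, φ b ≠ 0 ∧ φ b * y = φ a) {ι : Type} [Fintype ι] [DecidableEq ι]
    (pp : Ideal (MvPolynomial ι K)) [pp.IsPrime] :
    ∃ (d : ℕ) (G : Fin d → MvPolynomial ι S),
      Function.Injective (aeval (fun j => Ideal.Quotient.mk pp (map φ (G j))) :
        MvPolynomial (Fin d) K →ₐ[K] MvPolynomial ι K ⧸ pp) ∧
      (aeval (fun j => Ideal.Quotient.mk pp (map φ (G j))) :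
        MvPolynomial (Fin d) K →ₐ[K] MvPolynomial ι K ⧸ pp).toRingHom.Finite := by
  classical
  obtain ⟨d, g, hinj, hfin⟩ := exists_finite_inj_algHom_of_fg K (MvPolynomial ι K ⧸ pp)
  choose G0 hG0 using fun j : Fin d => Ideal.Quotient.mk_surjective (g (X j))
  choose b P hb hP using fun j : Fin d => lift_mv φ hfrac (G0 j)
  let τ : MvPolynomial (Fin d) K →ₐ[K] MvPolynomial (Fin d) K :=
    aeval (fun j => C (φ (b j)) * X j)
  let τ' : MvPolynomial (Fin d) K →ₐ[K] MvPolynomial (Fin d) K :=
    aeval (fun j => C ((φ (b j))⁻¹) * X j)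
  have h1 : τ'.comp τ = AlgHom.id K _ := by
    apply algHom_ext
    intro j
    change τ' (aeval (fun j => C (φ (b j)) * X j) (X j)) = X j
    rw [aeval_X, map_mul]
    change τ' (algebraMap K _ (φ (b j))) * aeval (fun j => C ((φ (b j))⁻¹) * X j) (X j) = X j
    rw [AlgHom.commutes, aeval_X, algebraMap_eq, ← mul_assoc, ← C_mul, mul_inv_cancel₀ (hb j),
      C_1, one_mul]
  have h2 : τ.comp τ' = AlgHom.id K _ := by
    apply algHom_ext
    intro j
    change τ (aeval (fun j => C ((φ (b j))⁻¹) * X j) (X j)) = X j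
    rw [aeval_X, map_mul]
    change τ (algebraMap K _ ((φ (b j))⁻¹)) * aeval (fun j => C (φ (b j)) * X j) (X j) = X j
    rw [AlgHom.commutes, aeval_X, algebraMap_eq, ← mul_assoc, ← C_mul, inv_mul_cancel₀ (hb j),
      C_1, one_mul]
  have hτi : Function.Injective τ := by
    intro x y h
    have h3 : (τ'.comp τ) x = (τ'.comp τ) y := congrArg τ' h
    rwa [h1] at h3
  have hτs : Function.Surjective τ := by
    intro x
    refine ⟨τ' x, ?_⟩
    change (τ.comp τ') x = x
    rw [h2]
    rfl
  have heq : (aeval (fun j => Ideal.Quotient.mk pp (map φ (P j))) :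
        MvPolynomial (Fin d) K →ₐ[K] MvPolynomial ι K ⧸ pp) = g.comp τ := by
    apply algHom_ext
    intro j
    change _ = g (aeval (fun j => C (φ (b j)) * X j) (X j))
    rw [aeval_X, aeval_X, map_mul, hP, map_mul, hG0]
    congr 1
    exact (g.commutes (φ (b j))).symm
  refine ⟨d, P, ?_, ?_⟩
  · rw [heq]
    exact hinj.comp hτi
  · rw [heq]
    exact RingHom.Finite.comp hfin (RingHom.Finite.of_surjective τ.toRingHom hτs)

end Pool.Agent.Helper91.CPX
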