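import Pool.Agent.Helper91.CPX.Defs

/-!
CPX-N01. Basic facts on `toK`.

Proof. `toK F z = 0` iff the class of `z` in the quotient is `0` (the algebra map of a domain to its fraction field is
injective) iff `z ∈ nullIdeal F` (`Ideal.Quotient.eq_zero_iff_mem`). Every element of the fraction field is a quotient of
two elements of the domain (`IsFractionRing.div_surjective`), and these lift to `Zb F`. Characteristic zero: for a
natural number `n`, `toK F n = 0` gives `n = 0` (`charZero_of_inj_zero`).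
-/

open MvPolynomial

namespace Pool.Agent.Helper91.CPX

theorem toK_eq_zero_iff (F : Frame) (z : Zb F) :
    toK F z = 0 ↔ ∀ᶠ ν in (F.U : Filter ℕ), (z : ℕ → ℤ) ν = 0 := by
  have h1 : toK F z = 0 ↔ Ideal.Quotient.mk (nullIdeal F) z = 0 := by
    unfold toK
    rw [RingHom.comp_apply]
    constructor
    · intro h
      exact (IsFractionRing.injective (Zb F ⧸ nullIdeal F) (K0 F)) (by rw [h, map_zero])
    · intro h
      rw [h, map_zero]
  rw [h1, Ideal.Quotient.eq_zero_iff_mem]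
  exact Iff.rfl

theorem toK_frac (F : Frame) (y : K0 F) : ∃ a b : Zb F, toK F b ≠ 0 ∧ toK F b * y = toK F a := by
  obtain ⟨x, w, hw, hxw⟩ := IsFractionRing.div_surjective (A := Zb F ⧸ nullIdeal F) y
  obtain ⟨a, rfl⟩ := Ideal.Quotient.mk_surjective x
  obtain ⟨b, rfl⟩ := Ideal.Quotient.mk_surjective w
  have hb : algebraMap (Zb F ⧸ nullIdeal F) (K0 F) (Ideal.Quotient.mk (nullIdeal F) b) ≠ 0 := by
    intro h
    have h2 : (Ideal.Quotient.mk (nullIdeal F) b) = 0 :=
      (IsFractionRing.injective (Zb F ⧸ nullIdeal F) (K0 F)) (by rw [h, map_zero])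
    exact (mem_nonZeroDivisors_iff_ne_zero.mp hw) h2
  refine ⟨a, b, hb, ?_⟩
  change algebraMap (Zb F ⧸ nullIdeal F) (K0 F) (Ideal.Quotient.mk (nullIdeal F) b) * y =
    algebraMap (Zb F ⧸ nullIdeal F) (K0 F) (Ideal.Quotient.mk (nullIdeal F) a)
  rw [← hxw]
  field_simp

instance K0_charZero (F : Frame) : CharZero (K0 F) := by
  refine charZero_of_inj_zero ?_
  intro n hn
  have h1 : toK F (n : Zb F) = 0 := by rw [map_natCast, hn]
  rw [toK_eq_zero_iff] at h1
  obtain ⟨ν, hν⟩ := h1.exists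
  have h2 : ((n : Zb F) : ℕ → ℤ) ν = (n : ℤ) := by
    simp
  rw [h2] at hν
  exact_mod_cast hν

theorem toK_ne_zero_iff (F : Frame) (z : Zb F) :
    toK F z ≠ 0 ↔ ∀ᶠ ν in (F.U : Filter ℕ), (z : ℕ → ℤ) ν ≠ 0 := by
  rw [ne_eq, toK_eq_zero_iff, ← Ultrafilter.eventually_not]

end Pool.Agent.Helper91.CPX
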