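import Mathlib

/-!
CPX-N17. The determinant of an arrow matrix.

Proof. Over `Option ι`: rows `some i`: `D i` on the diagonal and `u i` in column `none`; row `none`: `w i` in column
`some i`, `0` at `(none, none)`. Transport to `ι ⊕ Unit` (`Matrix.det_reindex_self`, `Equiv.optionEquivSumPUnit`) and
prove by induction over the finite type or in the fraction field of the polynomial ring by
`Matrix.det_fromBlocks₁₁` (Schur complement: `det = ∏ D i * (0 - ∑ w i (D i)⁻¹ u i)` when the `D i` are invertible; the
identity is polynomial in `D, u, w`, so it holds over `ℤ[D, u, w]` and by specialization over every ring).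
For `R = ℤ` directly: both sides are polynomials in each `D i`; or use the Leibniz formula: only permutations of
`Option ι` that are the identity or a transposition of `none` and `some i`... contribute.
-/

namespace Pool.Agent.Helper91.CPX

open Matrix in
private lemma det_arrow_field {K ι : Type} [Field K] [Fintype ι] [DecidableEq ι] (D u w : ι → K)
    (hD : ∀ i, D i ≠ 0) :
    (fromBlocks (diagonal D) (replicateCol Unit u) (replicateRow Unit w) 0 :
      Matrix (ι ⊕ Unit) (ι ⊕ Unit) K).det =
      -∑ i, u i * w i * ∏ i' ∈ Finset.univ.erase i, D i' := by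
  set A : Matrix (ι ⊕ Unit) (ι ⊕ Unit) K :=
    fromBlocks (diagonal D) (replicateCol Unit u) (replicateRow Unit w) 0 with hA
  set P : Matrix (ι ⊕ Unit) (ι ⊕ Unit) K :=
    fromBlocks 1 (replicateCol Unit (fun i => -((D i)⁻¹ * u i))) 0 1 with hP
  have hPdet : P.det = 1 := by
    rw [hP, det_fromBlocks_zero₂₁, det_one, det_one, one_mul]
  have hAP : A * P = fromBlocks (diagonal D) 0 (replicateRow Unit w)
      (replicateRow Unit w * replicateCol Unit (fun i => -((D i)⁻¹ * u i))) := by
    rw [hA, hP, fromBlocks_multiply]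
    have h0 : diagonal D * replicateCol Unit (fun i => -((D i)⁻¹ * u i)) +
        replicateCol Unit u * (1 : Matrix Unit Unit K) = 0 := by
      ext i j
      rw [Matrix.add_apply, diagonal_mul, Matrix.mul_one, replicateCol_apply, replicateCol_apply]
      have := hD i
      simp only [Matrix.zero_apply]
      field_simp
      ring
    rw [h0]
    simp
  have hdet : A.det = (∏ i, D i) * (∑ i, w i * -((D i)⁻¹ * u i)) := by
    have h1 : (A * P).det = A.det := by rw [det_mul, hPdet, mul_one]
    rw [← h1, hAP, det_fromBlocks_zero₁₂, det_diagonal, det_unique]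
    rfl
  rw [hdet, Finset.mul_sum, ← Finset.sum_neg_distrib]
  refine Finset.sum_congr rfl fun i _ => ?_
  rw [← Finset.mul_prod_erase Finset.univ D (Finset.mem_univ i)]
  have := hD i
  field_simp

open Matrix Polynomial in
private lemma det_arrow_poly {ι : Type} [Fintype ι] [DecidableEq ι] (D u w : ι → ℤ) :
    (fromBlocks (diagonal (fun i => (C (D i) + X : ℤ[X])))
      (replicateCol Unit (fun i => (C (u i) : ℤ[X]))) (replicateRow Unit (fun i => (C (w i) : ℤ[X]))) 0 :
      Matrix (ι ⊕ Unit) (ι ⊕ Unit) ℤ[X]).det =
      -∑ i, C (u i) * C (w i) * ∏ i' ∈ Finset.univ.erase i, (C (D i') + X) := by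
  apply IsFractionRing.injective ℤ[X] (FractionRing ℤ[X])
  rw [RingHom.map_det]
  have h1 : (algebraMap ℤ[X] (FractionRing ℤ[X])).mapMatrix
      (fromBlocks (diagonal (fun i => (C (D i) + X : ℤ[X])))
      (replicateCol Unit (fun i => (C (u i) : ℤ[X]))) (replicateRow Unit (fun i => (C (w i) : ℤ[X]))) 0) =
      (fromBlocks (diagonal (fun i => algebraMap ℤ[X] (FractionRing ℤ[X]) (C (D i) + X)))
      (replicateCol Unit (fun i => algebraMap ℤ[X] (FractionRing ℤ[X]) (C (u i))))
      (replicateRow Unit (fun i => algebraMap ℤ[X] (FractionRing ℤ[X]) (C (w i)))) 0 :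
      Matrix (ι ⊕ Unit) (ι ⊕ Unit) (FractionRing ℤ[X])) := by
    ext (i | i) (j | j)
    · simp only [RingHom.mapMatrix_apply, map_apply, fromBlocks_apply₁₁, diagonal_apply]
      split_ifs <;> simp
    · simp
    · simp
    · simp
  rw [h1, det_arrow_field]
  · simp only [map_neg, map_sum, map_mul, map_prod]
  · intro i h
    have h2 : (C (D i) + X : ℤ[X]) = 0 := by
      apply IsFractionRing.injective ℤ[X] (FractionRing ℤ[X])
      rw [h, map_zero]
    have h3 := congrArg (fun q : ℤ[X] => q.coeff 1) h2
    simp only [coeff_add, coeff_X_one, coeff_zero, coeff_C_succ] at h3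
    omega

theorem det_arrow {ι : Type} [Fintype ι] [DecidableEq ι] (D u w : ι → ℤ)
    (A : Matrix (Option ι) (Option ι) ℤ)
    (h1 : ∀ i i' : ι, A (some i) (some i') = if i' = i then D i else 0)
    (h2 : ∀ i : ι, A (some i) none = u i) (h3 : ∀ i : ι, A none (some i) = w i)
    (h4 : A none none = 0) :
    A.det = -∑ i, u i * w i * ∏ i' ∈ Finset.univ.erase i, D i' := by
  have hp := congrArg (Polynomial.evalRingHom (0 : ℤ)) (det_arrow_poly D u w)
  rw [RingHom.map_det] at hp
  have e : (Polynomial.evalRingHom (0 : ℤ)).mapMatrix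
      (Matrix.fromBlocks (Matrix.diagonal (fun i => (Polynomial.C (D i) + Polynomial.X : Polynomial ℤ)))
      (Matrix.replicateCol Unit (fun i => (Polynomial.C (u i) : Polynomial ℤ)))
      (Matrix.replicateRow Unit (fun i => (Polynomial.C (w i) : Polynomial ℤ))) 0) =
      A.submatrix (Equiv.optionEquivSumPUnit ι).symm (Equiv.optionEquivSumPUnit ι).symm := by
    ext (i | i) (j | j)
    · simp only [RingHom.mapMatrix_apply, Matrix.map_apply, Matrix.fromBlocks_apply₁₁,
        Matrix.diagonal_apply, Matrix.submatrix_apply, Equiv.optionEquivSumPUnit_symm_inl, h1]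
      by_cases hij : i = j
      · rw [if_pos hij, if_pos hij.symm]
        simp
      · rw [if_neg hij, if_neg fun h => hij h.symm]
        simp
    · simp [h2]
    · simp [h3]
    · simp [h4]
  rw [e, Matrix.det_submatrix_equiv_self] at hp
  rw [hp, map_neg, map_sum]
  congr 1
  refine Finset.sum_congr rfl fun i _ => ?_
  rw [map_mul, map_mul, map_prod, Polynomial.coe_evalRingHom, Polynomial.eval_C, Polynomial.eval_C]
  congr 1
  refine Finset.prod_congr rfl fun j _ => ?_
  rw [Polynomial.eval_add, Polynomial.eval_C, Polynomial.eval_X, add_zero]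

end Pool.Agent.Helper91.CPX
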