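import Pool.Agent.Helper91.CPX.KL
import Pool.Agent.Helper91.CPX.Noether

/-!
CPX-N16. The algebra package.

Proof. `noether` gives `d, G`; let `A = MvPolynomial ι K ⧸ pp`, a domain, made an algebra over `B = MvPolynomial (Fin d) K` by
`γ := aeval (fun j => mk (map φ (G j)))` (`RingHom.toAlgebra`), finite and injective. `z i := mk (X i) ≠ 0`. Let
`f i = minpoly B (z i)`; `lift_poly` gives `b i`, `ρ i` with `(ρ i).map (map φ) = C (C (φ (b i))) * f i`, `φ (b i) ≠ 0`.
For every `P` over `B`: `mk (subst (map φ ∘ G) i P) = Polynomial.aeval (z i) P` (both are ring homomorphisms in `P`).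
(1) injectivity: `mk (aeval (map φ ∘ G) c) = γ c`.
(2) `mk (map φ (subst G i (ρ i))) = aeval (z i) (C (C (φ (b i))) * f i) = 0` (`subst_map`).
(3) given `e, x`: by `gE_map` and `gE_C_mul`, `mk (map φ (gE e x ρ G j)) = φ(∏ b i) * (same expression with f)`, the product
over `i' ∈ univ.erase i` for `i ∈ x` is the product over `i' ∈ x.erase i` times the product `Π` of
`(f i')'(z i') z i'` over `i' ∉ x`, and `Π ≠ 0` (`aeval_derivative_minpoly_ne_zero`, `hX`). Cancel it (domain) and apply `KL`
with the index type `x` (subtype `{i // i ∈ x}`): `(f i).coeff 0 = C c`, so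
`map φ ((ρ i).coeff 0) = C (φ (b i)) * C c = C (φ (b i) * c)`.
-/

open MvPolynomial

namespace Pool.Agent.Helper91.CPX

theorem ALG {S K : Type} [CommRing S] [Field K] [CharZero K] (φ : S →+* K)
    (hfrac : ∀ y : K, ∃ a b : S, φ b ≠ 0 ∧ φ b * y = φ a) {ι : Type} [Fintype ι] [DecidableEq ι]
    (pp : Ideal (MvPolynomial ι K)) [pp.IsPrime] (hX : ∀ i, (X i : MvPolynomial ι K) ∉ pp) :
    ∃ (d : ℕ) (G : Fin d → MvPolynomial ι S) (ρ : ι → Polynomial (MvPolynomial (Fin d) S)),
      (∀ c : MvPolynomial (Fin d) K, aeval (fun j => map φ (G j)) c ∈ pp → c = 0) ∧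
      (∀ i, map φ (subst G i (ρ i)) ∈ pp) ∧
      ∀ (e : ι → S) (x : Finset ι),
        (∀ v : ι → ℕ, ∑ i ∈ x, φ (e i) * (v i : K) = 0 → ∀ i ∈ x, v i = 0) →
        (∀ j, map φ (gE e x ρ G j) ∈ pp) →
        ∀ i ∈ x, ∃ c : K, c ≠ 0 ∧ map φ ((ρ i).coeff 0) = C c := by
  obtain ⟨d, G, hinj, hfin⟩ := noether φ hfrac pp
  let A := MvPolynomial ι K ⧸ pp
  let γ : MvPolynomial (Fin d) K →ₐ[K] A := aeval (fun j => Ideal.Quotient.mk pp (map φ (G j)))
  letI algA : Algebra (MvPolynomial (Fin d) K) A := γ.toRingHom.toAlgebra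
  haveI finA : Module.Finite (MvPolynomial (Fin d) K) A := hfin
  have hamap : algebraMap (MvPolynomial (Fin d) K) A = γ.toRingHom := rfl
  have hinjA : Function.Injective (algebraMap (MvPolynomial (Fin d) K) A) := hinj
  haveI domA : IsDomain A := Ideal.Quotient.isDomain pp
  let z : ι → A := fun i => Ideal.Quotient.mk pp (X i)
  have hz : ∀ i, z i ≠ 0 := fun i h => hX i (Ideal.Quotient.eq_zero_iff_mem.mp h)
  let f : ι → Polynomial (MvPolynomial (Fin d) K) := fun i => minpoly (MvPolynomial (Fin d) K) (z i)
  choose b ρ hb hρ using fun i => lift_poly φ hfrac (f i)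
  have hcomp : (Ideal.Quotient.mk pp).comp
      (aeval (fun j => map φ (G j)) : MvPolynomial (Fin d) K →ₐ[K] MvPolynomial ι K).toRingHom =
      algebraMap (MvPolynomial (Fin d) K) A := by
    rw [hamap]
    apply MvPolynomial.ringHom_ext
    · intro a
      change Ideal.Quotient.mk pp (aeval (fun j => map φ (G j)) (C a)) = γ (C a)
      rw [aeval_C]
      change Ideal.Quotient.mk pp (C a) = γ (C a)
      have h1 : γ (C a) = algebraMap K A a := by
        change aeval _ (C a) = _
        rw [aeval_C]
      rw [h1]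
      rfl
    · intro j
      change Ideal.Quotient.mk pp (aeval (fun j => map φ (G j)) (X j)) = γ (X j)
      rw [aeval_X]
      change _ = aeval _ (X j)
      rw [aeval_X]
  have hsub : ∀ (i : ι) (P : Polynomial (MvPolynomial (Fin d) K)),
      Ideal.Quotient.mk pp (subst (fun j => map φ (G j)) i P) = Polynomial.aeval (z i) P := by
    intro i P
    unfold subst
    rw [Polynomial.hom_eval₂, hcomp, Polynomial.aeval_def]
  refine ⟨d, G, ρ, ?_, ?_, ?_⟩
  · intro c hc
    apply hinjA
    rw [map_zero, ← hcomp]
    exact Ideal.Quotient.eq_zero_iff_mem.mpr hc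
  · intro i
    rw [← Ideal.Quotient.eq_zero_iff_mem, subst_map, hρ, hsub, map_mul]
    have : Polynomial.aeval (z i) (f i) = 0 := minpoly.aeval _ _
    rw [this, mul_zero]
  · intro e x hpos hg
    have hCne : ∀ s : K, s ≠ 0 → Ideal.Quotient.mk pp (C s) ≠ 0 := by
      intro s hs h
      have h1 : (Ideal.Quotient.mk pp).comp (C : K →+* MvPolynomial ι K) s = 0 := h
      exact hs ((map_eq_zero _).mp h1)
    let D : ι → A := fun i => Polynomial.aeval (z i) (Polynomial.derivative (f i)) * z i
    have hD : ∀ i, D i ≠ 0 := fun i =>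
      mul_ne_zero (aeval_derivative_minpoly_ne_zero hinjA (z i)) (hz i)
    have hmkC : ∀ s : K, Ideal.Quotient.mk pp (C s) =
        algebraMap (MvPolynomial (Fin d) K) A (C s) := by
      intro s
      rw [← hcomp]
      change _ = Ideal.Quotient.mk pp (aeval (fun j => map φ (G j)) (C s))
      rw [aeval_C]
      rfl
    have h1 : ∀ j, ∑ i ∈ x, algebraMap (MvPolynomial (Fin d) K) A (C (φ (e i))) *
        Polynomial.aeval (z i) (coeffDeriv j (f i)) * ∏ i' ∈ Finset.univ.erase i, D i' = 0 := by
      intro j
      have h2 := hg j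
      have h3 : (fun i => (ρ i).map (map φ)) =
          fun i => Polynomial.C (C (φ (b i))) * f i := funext hρ
      rw [gE_map, h3, gE_C_mul, ← Ideal.Quotient.eq_zero_iff_mem, map_mul] at h2
      have h4 := (mul_eq_zero.mp h2).resolve_left
        (hCne _ (Finset.prod_ne_zero_iff.mpr fun i _ => hb i))
      unfold gE at h4
      rw [map_sum] at h4
      rw [← h4]
      apply Finset.sum_congr rfl
      intro i _
      rw [map_mul, map_mul, hsub, map_prod, hmkC]
      congr 1
      apply Finset.prod_congr rfl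
      intro i' _
      rw [map_mul, hsub]
    have hsplit : ∀ i ∈ x, ∏ i' ∈ Finset.univ.erase i, D i' =
        (∏ i' ∈ x.erase i, D i') * ∏ i' ∈ Finset.univ \ x, D i' := by
      intro i hi
      rw [← Finset.prod_union]
      · congr 1
        ext a
        simp only [Finset.mem_erase, Finset.mem_univ, Finset.mem_union, Finset.mem_sdiff, and_true,
          true_and]
        constructor
        · intro ha
          by_cases hax : a ∈ x
          · exact Or.inl ⟨ha, hax⟩
          · exact Or.inr hax
        · rintro (ha | ha)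
          · exact ha.1
          · intro h
            exact ha (h ▸ hi)
      · rw [Finset.disjoint_left]
        intro a ha hb'
        exact (Finset.mem_sdiff.mp hb').2 (Finset.mem_of_mem_erase ha)
    have hPi : ∏ i' ∈ Finset.univ \ x, D i' ≠ 0 := Finset.prod_ne_zero_iff.mpr fun i _ => hD i
    have h5 : ∀ j, ∑ i ∈ x, algebraMap (MvPolynomial (Fin d) K) A (C (φ (e i))) *
        Polynomial.aeval (z i) (coeffDeriv j (f i)) * ∏ i' ∈ x.erase i, D i' = 0 := by
      intro j
      have h6 := h1 j
      have h7 : ∑ i ∈ x, algebraMap (MvPolynomial (Fin d) K) A (C (φ (e i))) *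
          Polynomial.aeval (z i) (coeffDeriv j (f i)) * ∏ i' ∈ Finset.univ.erase i, D i' =
          (∑ i ∈ x, algebraMap (MvPolynomial (Fin d) K) A (C (φ (e i))) *
          Polynomial.aeval (z i) (coeffDeriv j (f i)) * ∏ i' ∈ x.erase i, D i') *
          ∏ i' ∈ Finset.univ \ x, D i' := by
        rw [Finset.sum_mul]
        apply Finset.sum_congr rfl
        intro i hi
        rw [hsplit i hi]
        ring
      rw [h7] at h6
      exact (mul_eq_zero.mp h6).resolve_right hPi
    have key := KL (k := K) (d := d) (A := A) hinjA (x := {i // i ∈ x}) (fun i => z i)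
      (fun i => hz i) (fun i => φ (e i)) ?_ ?_
    · intro i hi
      obtain ⟨c, hc0, hc⟩ := key ⟨i, hi⟩
      refine ⟨φ (b i) * c, mul_ne_zero (hb i) hc0, ?_⟩
      rw [← Polynomial.coeff_map, hρ, Polynomial.coeff_C_mul]
      have : (f i).coeff 0 = C c := hc
      rw [this, C_mul]
    · intro v hv i
      have h8 := hpos (fun i => if h : i ∈ x then v ⟨i, h⟩ else 0) ?_ i i.2
      · simpa using h8
      · rw [← hv]
        refine Eq.trans (Finset.sum_coe_sort x (fun i => φ (e i) *
          ((if h : i ∈ x then v ⟨i, h⟩ else 0 : ℕ) : K))).symm ?_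
        apply Finset.sum_congr rfl
        intro i _
        simp
    · intro j
      rw [← h5 j]
      refine Eq.trans ?_ (Finset.sum_coe_sort x (fun i =>
        algebraMap (MvPolynomial (Fin d) K) A (C (φ (e i))) *
        Polynomial.aeval (z i) (coeffDeriv j (f i)) * ∏ i' ∈ x.erase i, D i'))
      apply Finset.sum_congr rfl
      intro i _
      congr 1
      have h9 : (Finset.univ.erase i).map (Function.Embedding.subtype (fun i => i ∈ x)) =
          x.erase (i : ι) := by
        ext a
        simp only [Finset.mem_map, Finset.mem_erase, Finset.mem_univ, and_true,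
          Function.Embedding.coe_subtype, Subtype.exists, exists_and_right, exists_eq_right]
        constructor
        · rintro ⟨ha, hne⟩
          exact ⟨fun h => hne (Subtype.ext h), ha⟩
        · rintro ⟨hne, ha⟩
          exact ⟨ha, fun h => hne (congrArg Subtype.val h)⟩
      rw [← h9, Finset.prod_map]
      rfl

end Pool.Agent.Helper91.CPX
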