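import Pool.Agent.Helper91.CPX.Basic

/-!
CPX-N08. A sequence of integer polynomials of bounded degree with coefficients bounded by a power of `X ν` is a
polynomial over `Zb F`.

Proof. Let `A` be the finite set of exponents `m : Fin d →₀ ℕ` of degree `≤ D` (for instance
`Finset.finsuppAntidiag`, or the exponents `≤ D` in each coordinate, `Finsupp` intervals `Finset.Iic`), and
`cc = ∑_{m ∈ A} monomial m (a_m)`, where `a_m ∈ Zb F` is the sequence `ν ↦ (c ν).coeff m`, set to `0` for the `ν` where the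
hypothesis fails. For almost all `ν`: `map (evAt F ν) cc = c ν` (compare coefficients: outside `A` both are `0` because
`(c ν).totalDegree ≤ D`). For almost all `ν` there is `m ∈ A` with `(c ν).coeff m ≠ 0`; `A` is finite, so by the
ultrafilter property (`Ultrafilter.eventually_exists_mem_iff` / finite unions) some `m` works for almost all `ν`, and
the coefficient of `map (toK F) cc` at this `m` is `toK F a_m ≠ 0`.
-/

open MvPolynomial

namespace Pool.Agent.Helper91.CPX

theorem collect (F : Frame) {d : ℕ} (D K' : ℕ) (c : ℕ → MvPolynomial (Fin d) ℤ)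
    (h : ∀ᶠ ν in (F.U : Filter ℕ), c ν ≠ 0 ∧ (c ν).totalDegree ≤ D ∧
      ∀ m, |(c ν).coeff m| ≤ (F.X ν : ℤ) ^ K') :
    ∃ cc : MvPolynomial (Fin d) (Zb F), map (toK F) cc ≠ 0 ∧
      ∀ᶠ ν in (F.U : Filter ℕ), map (evAt F ν) cc = c ν := by
  classical
  let e : Fin d →₀ ℕ := Finsupp.equivFunOnFinite.symm (fun _ => D)
  let A : Finset (Fin d →₀ ℕ) := Finset.Iic e
  let a : (Fin d →₀ ℕ) → Zb F := fun m =>
    ⟨fun ν => if |(c ν).coeff m| ≤ (F.X ν : ℤ) ^ K' then (c ν).coeff m else 0, K',
      Filter.Eventually.of_forall (fun ν => by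
        by_cases h1 : |(c ν).coeff m| ≤ (F.X ν : ℤ) ^ K'
        · simp only [if_pos h1]; exact h1
        · simp only [if_neg h1, abs_zero]
          have := F.one_le ν
          positivity)⟩
  have hcoeff : ∀ n, coeff n (∑ m ∈ A, monomial m (a m)) = if n ∈ A then a n else 0 := by
    intro n
    rw [coeff_sum]
    simp only [coeff_monomial]
    rw [Finset.sum_ite_eq' A n a]
  have hout : ∀ (p : MvPolynomial (Fin d) ℤ), p.totalDegree ≤ D → ∀ n, n ∉ A → p.coeff n = 0 := by
    intro p hp n hn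
    by_contra hne
    apply hn
    rw [Finset.mem_Iic]
    intro i
    have h1 : (n.sum fun _ e => e) ≤ p.totalDegree := le_totalDegree (mem_support_iff.mpr hne)
    rw [Finsupp.sum_fintype _ _ (fun _ => rfl)] at h1
    have h2 : n i ≤ ∑ i, n i := Finset.single_le_sum (fun i _ => Nat.zero_le (n i)) (Finset.mem_univ i)
    exact h2.trans (h1.trans hp)
  refine ⟨∑ m ∈ A, monomial m (a m), ?_, ?_⟩
  · have h1 : ∀ᶠ ν in (F.U : Filter ℕ), ∃ m ∈ (A : Set (Fin d →₀ ℕ)), (c ν).coeff m ≠ 0 := by
      filter_upwards [h] with ν hν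
      obtain ⟨m, hm⟩ := exists_coeff_ne_zero hν.1
      refine ⟨m, ?_, hm⟩
      by_contra hmA
      exact hm (hout (c ν) hν.2.1 m (fun h => hmA (Finset.mem_coe.mpr h)))
    obtain ⟨m, hmA, hm⟩ := (Ultrafilter.eventually_exists_mem_iff A.finite_toSet).mp h1
    have hmA' : m ∈ A := Finset.mem_coe.mp hmA
    intro h0
    have h2 : toK F (a m) = 0 := by
      have h3 : coeff m (map (toK F) (∑ m ∈ A, monomial m (a m))) = 0 := by rw [h0]; simp
      rw [coeff_map, hcoeff, if_pos hmA'] at h3
      exact h3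
    have h4 := (toK_eq_zero_iff F _).mp h2
    obtain ⟨ν, ⟨h5, h6⟩, h7⟩ := ((h4.and hm).and h).exists
    apply h6
    have h8 : (if |(c ν).coeff m| ≤ (F.X ν : ℤ) ^ K' then (c ν).coeff m else 0) = 0 := h5
    rwa [if_pos (h7.2.2 m)] at h8
  · filter_upwards [h] with ν hν
    ext n
    rw [coeff_map, hcoeff]
    by_cases hn : n ∈ A
    · rw [if_pos hn, evAt_apply]
      change (if |(c ν).coeff n| ≤ (F.X ν : ℤ) ^ K' then (c ν).coeff n else 0) = _
      rw [if_pos (hν.2.2 n)]
    · rw [if_neg hn, map_zero, hout (c ν) hν.2.1 n hn]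

end Pool.Agent.Helper91.CPX
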