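import Pool.Agent.Helper91.CPX.Basic
import Pool.Agent.Helper10.DivBound

/-!
CPX-N09. If the coordinates `z i`, `i ∈ x`, divide fixed nonzero integers of polynomial size then there are few values.

Proof. Suppose `X^δ ≤ card M(T ν)` for almost all `ν`. The value `M ν z` depends only on the restriction of `z` to `x`, and
`z i` is a positive divisor of `w i (ν) ≠ 0`, `|w i (ν)| ≤ X^C` for almost all `ν`. So
`card M(T ν) ≤ ∏_{i ∈ x} (number of divisors of |w i (ν)|)`, and the number of divisors of a nonzero integer `w` is at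
most `c |w|^η` for every `η > 0` (divisor bound; see `Pool.Agent.Helper10.DivBound` or
any proof), so the product is at most `c^n X^(C η n) < X^δ` for `X` large when `C η n ≤ δ / 2`: contradiction.
-/

open MvPolynomial

namespace Pool.Agent.Helper91.CPX

/-- the cardinality bound at one index -/
private lemma card_le_prod {ι : Type} [Fintype ι] [DecidableEq ι] (x : Finset ι)
    (M : (ι → ℤ) → ℤ) (hM : ∀ z z', (∀ i ∈ x, z i = z' i) → M z = M z')
    (T : Finset (ι → ℤ)) (w : ι → ℤ) (hw : ∀ i ∈ x, w i ≠ 0)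
    (hdiv : ∀ z ∈ T, ∀ i ∈ x, 1 ≤ z i ∧ z i ∣ w i) :
    (T.image M).card ≤ ∏ i ∈ x, (w i).natAbs.divisors.card := by
  classical
  set D : Finset (ι → ℤ) := Fintype.piFinset (fun i =>
    if i ∈ x then ((w i).natAbs.divisors).image (fun d : ℕ => (d : ℤ)) else {0}) with hD
  have hsub : T.image M ⊆ D.image M := by
    intro m hm
    obtain ⟨z, hz, rfl⟩ := Finset.mem_image.1 hm
    refine Finset.mem_image.2 ⟨fun i => if i ∈ x then z i else 0, ?_, ?_⟩
    · rw [hD, Fintype.mem_piFinset]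
      intro i
      by_cases hi : i ∈ x
      · simp only [hi, if_true]
        obtain ⟨h1, h2⟩ := hdiv z hz i hi
        refine Finset.mem_image.2 ⟨(z i).natAbs, ?_, ?_⟩
        · rw [Nat.mem_divisors]
          exact ⟨Int.natAbs_dvd_natAbs.2 h2, Int.natAbs_ne_zero.2 (hw i hi)⟩
        · exact Int.natAbs_of_nonneg (by omega)
      · simp only [hi, if_false, Finset.mem_singleton]
    · apply hM
      intro i hi
      simp only [hi, if_true]
  calc (T.image M).card ≤ (D.image M).card := Finset.card_le_card hsub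
    _ ≤ D.card := Finset.card_image_le
    _ = ∏ i, (if i ∈ x then ((w i).natAbs.divisors).image (fun d : ℕ => (d : ℤ)) else {0}).card := by
        rw [hD, Fintype.card_piFinset]
    _ = ∏ i, (if i ∈ x then (w i).natAbs.divisors.card else 1) := by
        apply Finset.prod_congr rfl
        intro i _
        by_cases hi : i ∈ x
        · simp only [hi, if_true]
          exact Finset.card_image_of_injective _ Nat.cast_injective
        · simp only [hi, if_false, Finset.card_singleton]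
    _ = ∏ i ∈ x, (w i).natAbs.divisors.card := by
        rw [Finset.prod_ite_mem, Finset.univ_inter]

theorem not_large_of_dvd (F : Frame) {ι : Type} [Fintype ι] [DecidableEq ι] (x : Finset ι)
    (M : ℕ → (ι → ℤ) → ℤ) (hM : ∀ ν z z', (∀ i ∈ x, z i = z' i) → M ν z = M ν z')
    (T : ℕ → Finset (ι → ℤ)) (w : ι → Zb F) (hw : ∀ i ∈ x, toK F (w i) ≠ 0)
    (hdiv : ∀ᶠ ν in (F.U : Filter ℕ), ∀ z ∈ T ν, ∀ i ∈ x, 1 ≤ z i ∧ z i ∣ (w i : ℕ → ℤ) ν) :
    ¬ Large F M T := by
  classical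
  rintro ⟨δ, hδ, hlarge⟩
  -- exponents
  have hC : ∀ i, ∃ C : ℕ, ∀ᶠ ν in (F.U : Filter ℕ), |(w i : ℕ → ℤ) ν| ≤ (F.X ν : ℤ) ^ C :=
    fun i => (w i).2
  choose C hC using hC
  set C0 : ℕ := ∑ i, C i with hC0
  have hCle : ∀ i, C i ≤ C0 := fun i =>
    Finset.single_le_sum (fun j _ => Nat.zero_le (C j)) (Finset.mem_univ i)
  -- the power
  obtain ⟨k, hk⟩ : ∃ k : ℕ, ((C0 * x.card + 1 : ℕ) : ℝ) ≤ δ * k := by
    obtain ⟨k, hk⟩ := exists_nat_ge (((C0 * x.card + 1 : ℕ) : ℝ) / δ)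
    refine ⟨k, ?_⟩
    rw [div_le_iff₀ hδ] at hk
    linarith
  obtain ⟨Cd, hCd1, hCd⟩ := Pool.Agent.Helper10.divisor_bound k
  have hev1 : ∀ᶠ ν in (F.U : Filter ℕ), ∀ i ∈ x, (w i : ℕ → ℤ) ν ≠ 0 := by
    rw [Filter.eventually_all_finset]
    intro i hi
    exact (toK_ne_zero_iff F (w i)).1 (hw i hi)
  have hev2 : ∀ᶠ ν in (F.U : Filter ℕ), ∀ i, |(w i : ℕ → ℤ) ν| ≤ (F.X ν : ℤ) ^ C i := by
    rw [Filter.eventually_all]
    exact hC
  have hev3 := F.tends (Cd ^ x.card + 1)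
  obtain ⟨ν, h1, h2, h3, h4, h5⟩ := (hlarge.and (hdiv.and (hev1.and (hev2.and hev3)))).exists
  set X : ℕ := F.X ν with hX
  have hX2 : 2 ≤ X := F.two_le ν
  have hX0 : (0 : ℝ) < X := by
    have : 0 < X := by omega
    exact_mod_cast this
  have hX1 : (1 : ℝ) ≤ X := by
    have : 1 ≤ X := by omega
    exact_mod_cast this
  set N : ℕ := ((T ν).image (M ν)).card with hN
  have hNle : N ≤ ∏ i ∈ x, ((w i : ℕ → ℤ) ν).natAbs.divisors.card :=
    card_le_prod x (M ν) (hM ν) (T ν) (fun i => (w i : ℕ → ℤ) ν) h3 h2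
  -- powers
  have hpow : N ^ k ≤ Cd ^ x.card * X ^ (C0 * x.card) := by
    calc N ^ k ≤ (∏ i ∈ x, ((w i : ℕ → ℤ) ν).natAbs.divisors.card) ^ k :=
          Nat.pow_le_pow_left hNle k
      _ = ∏ i ∈ x, ((w i : ℕ → ℤ) ν).natAbs.divisors.card ^ k := by
          rw [Finset.prod_pow]
      _ ≤ ∏ i ∈ x, (Cd * X ^ C0) := by
          apply Finset.prod_le_prod'
          intro i hi
          have hne : ((w i : ℕ → ℤ) ν).natAbs ≠ 0 := Int.natAbs_ne_zero.2 (h3 i hi)
          refine le_trans (hCd _ hne) ?_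
          apply Nat.mul_le_mul_left
          have h6 := h4 i
          have h7 : (((w i : ℕ → ℤ) ν).natAbs : ℤ) ≤ ((X ^ C i : ℕ) : ℤ) := by
            rw [Int.natCast_natAbs]
            push_cast
            exact h6
          have h8 : ((w i : ℕ → ℤ) ν).natAbs ≤ X ^ C i := by exact_mod_cast h7
          exact le_trans h8 (Nat.pow_le_pow_right (by omega) (hCle i))
      _ = Cd ^ x.card * X ^ (C0 * x.card) := by
          rw [Finset.prod_const, mul_pow, ← pow_mul]
  have hpowR : ((N : ℝ)) ^ k ≤ (Cd : ℝ) ^ x.card * (X : ℝ) ^ (C0 * x.card) := by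
    exact_mod_cast hpow
  have hlow : (X : ℝ) ^ (C0 * x.card + 1) ≤ (N : ℝ) ^ k := by
    calc (X : ℝ) ^ (C0 * x.card + 1) = (X : ℝ) ^ ((C0 * x.card + 1 : ℕ) : ℝ) := by
          rw [Real.rpow_natCast]
      _ ≤ (X : ℝ) ^ (δ * k) := Real.rpow_le_rpow_of_exponent_le hX1 hk
      _ = ((X : ℝ) ^ δ) ^ k := by rw [Real.rpow_mul hX0.le, Real.rpow_natCast]
      _ ≤ (N : ℝ) ^ k := pow_le_pow_left₀ (Real.rpow_nonneg hX0.le _) h1 k
  have h6 : (X : ℝ) ^ (C0 * x.card) * X ≤ (X : ℝ) ^ (C0 * x.card) * (Cd : ℝ) ^ x.card := by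
    rw [← pow_succ]
    calc _ ≤ _ := hlow.trans hpowR
      _ = _ := by ring
  have h7 : (X : ℝ) ≤ (Cd : ℝ) ^ x.card := le_of_mul_le_mul_left h6 (by positivity)
  have h8 : X ≤ Cd ^ x.card := by exact_mod_cast h7
  omega

end Pool.Agent.Helper91.CPX
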