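import Pool.Agent.Helper91.CPX.Arrow
import Pool.Agent.Helper91.CPX.CoeffDeriv

/-!
CPX-N18. The formula for the Jacobian determinant.

Proof. The matrix of `jac (fun a => a.elim (Fpoly α β k e f) (fun i => conv i (ρ i))) j0` at `graphPt G z` is an arrow
matrix: by `conv_pderiv_inr`, `conv_pderiv_inl`, `conv_eval`: `D i = eval z (subst G i (ρ i)')`,
`u i = eval z (subst G i (coeffDeriv j0 (ρ i)))`, `w i = ∂F/∂z_i` and `∂F/∂t = 0`. `z i * w i = e i * a` for `i = inl _` and
`f i * b` for `i = inr _`, where `a = α ∏ x^e`, `b = β ∏ y^f` (`pderiv` of a product of powers; `z * (z^e)' = e z^e`; no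
assumption `z i ≠ 0` is needed). By `det_arrow`,
`(∏ z i) * jac = - ∑_i u i (z i w i) ∏_{i' ≠ i} (D i' z i')`, and the part of the sum with `i ∈ xs` is
`a * eval z (gE e' xs ρ G j0)`, the part with `i ∈ ys` is `b * eval z (gE e' ys ρ G j0)`, `e' = Sum.elim e f` cast to `ℤ`.
-/

open MvPolynomial

namespace Pool.Agent.Helper91.CPX

private lemma pderiv_prod_zero {τ κ : Type} [DecidableEq κ] (k : τ) (s : Finset κ)
    (q : κ → MvPolynomial τ ℤ) (h : ∀ i ∈ s, pderiv k (q i) = 0) :
    pderiv k (∏ i ∈ s, q i) = 0 := by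
  induction s using Finset.induction_on with
  | empty => simp
  | insert a s ha ih =>
    rw [Finset.prod_insert ha, Derivation.leibniz,
      ih fun i hi => h i (Finset.mem_insert_of_mem hi), h a (Finset.mem_insert_self a s)]
    simp

private lemma pderiv_pow_zero {τ : Type} (k v : τ) (hv : v ≠ k) (m : ℕ) :
    pderiv k ((X v : MvPolynomial τ ℤ) ^ m) = 0 := by
  rw [Derivation.leibniz_pow, pderiv_X_of_ne hv]
  simp

private lemma mul_pderiv_pow {τ : Type} (v : τ) (m : ℕ) (Q : τ → ℤ) :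
    Q v * eval Q (pderiv v ((X v : MvPolynomial τ ℤ) ^ m)) = m * Q v ^ m := by
  rw [Derivation.leibniz_pow, pderiv_X_self]
  rcases m with _ | m
  · simp
  · simp only [Nat.add_sub_cancel, smul_eq_mul, mul_one, nsmul_eq_mul, map_mul, map_natCast,
      map_pow, eval_X]
    rw [pow_succ]
    ring

private lemma mul_pderiv_prod {τ κ : Type} [Fintype κ] [DecidableEq κ] (v : κ → τ)
    (hv : Function.Injective v) (e : κ → ℕ) (i : κ) (Q : τ → ℤ) :
    Q (v i) * eval Q (pderiv (v i) (∏ i', (X (v i') : MvPolynomial τ ℤ) ^ e i')) =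
      e i * ∏ i', Q (v i') ^ e i' := by
  rw [← Finset.mul_prod_erase Finset.univ _ (Finset.mem_univ i), Derivation.leibniz,
    pderiv_prod_zero (v i) (Finset.univ.erase i) (fun i' => (X (v i') : MvPolynomial τ ℤ) ^ e i')
      (fun i' hi' => pderiv_pow_zero _ _ (fun h => (Finset.mem_erase.1 hi').1 (hv h)) _),
    smul_zero, zero_add, smul_eq_mul, map_mul, map_prod]
  rw [← Finset.mul_prod_erase Finset.univ (fun i' => Q (v i') ^ e i') (Finset.mem_univ i)]
  have h := mul_pderiv_pow (v i) (e i) Q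
  simp only [map_pow, eval_X]
  calc Q (v i) * ((∏ x ∈ Finset.univ.erase i, Q (v x) ^ e x) *
        eval Q (pderiv (v i) ((X (v i) : MvPolynomial τ ℤ) ^ e i)))
      = (Q (v i) * eval Q (pderiv (v i) ((X (v i) : MvPolynomial τ ℤ) ^ e i))) *
        ∏ x ∈ Finset.univ.erase i, Q (v x) ^ e x := by ring
    _ = _ := by rw [h]; ring

theorem jac_formula {d n1 n2 : ℕ} (α β k : ℤ) (e : Fin n1 → ℕ) (f : Fin n2 → ℕ)
    (G : Fin d → MvPolynomial (Fin n1 ⊕ Fin n2) ℤ)
    (ρ : Fin n1 ⊕ Fin n2 → Polynomial (MvPolynomial (Fin d) ℤ)) (j0 : Fin d)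
    (z : Fin n1 ⊕ Fin n2 → ℤ) :
    (∏ i, z i) * jac (fun a : Option (Fin n1 ⊕ Fin n2) =>
        a.elim (Fpoly α β k e f) (fun i => conv i (ρ i))) j0 (graphPt G z) =
      -(α * (∏ i, z (Sum.inl i) ^ e i) *
          eval z (gE (fun i => ((Sum.elim e f i : ℕ) : ℤ)) (xs n1 n2) ρ G j0) +
        β * (∏ j, z (Sum.inr j) ^ f j) *
          eval z (gE (fun i => ((Sum.elim e f i : ℕ) : ℤ)) (ys n1 n2) ρ G j0)) := by
  classical
  set Q := graphPt G z with hQ
  set D : Fin n1 ⊕ Fin n2 → ℤ := fun i => eval z (subst G i (Polynomial.derivative (ρ i))) with hD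
  set u : Fin n1 ⊕ Fin n2 → ℤ := fun i => eval z (subst G i (coeffDeriv j0 (ρ i))) with hu
  set w : Fin n1 ⊕ Fin n2 → ℤ := fun i =>
    eval Q (pderiv (Sum.inr i) (Fpoly (d := d) α β k e f)) with hw
  have hjac : jac (fun a : Option (Fin n1 ⊕ Fin n2) =>
        a.elim (Fpoly α β k e f) (fun i => conv i (ρ i))) j0 Q =
      -∑ i, u i * w i * ∏ i' ∈ Finset.univ.erase i, D i' := by
    unfold jac
    apply det_arrow D u w
    · intro i i'
      simp only [Matrix.of_apply, Option.elim_some]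
      rw [conv_pderiv_inr]
      by_cases h : i' = i
      · rw [if_pos h, if_pos h, hQ, conv_eval]
      · rw [if_neg h, if_neg h, map_zero]
    · intro i
      simp only [Matrix.of_apply, Option.elim_some, Option.elim_none]
      rw [conv_pderiv_inl, hQ, conv_eval]
    · intro i
      simp only [Matrix.of_apply, Option.elim_some, Option.elim_none]
      rfl
    · simp only [Matrix.of_apply, Option.elim_none]
      have h1 : pderiv (Sum.inl j0) (Fpoly (d := d) α β k e f) = 0 := by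
        unfold Fpoly
        rw [map_sub, map_add, pderiv_C_mul, pderiv_C_mul, pderiv_C,
          pderiv_prod_zero _ _ _ (fun i _ => pderiv_pow_zero _ _ (by simp) _),
          pderiv_prod_zero _ _ _ (fun i _ => pderiv_pow_zero _ _ (by simp) _)]
        simp
      rw [h1, map_zero]
  have hw1 : ∀ i : Fin n1, z (Sum.inl i) * w (Sum.inl i) =
      e i * (α * ∏ i, z (Sum.inl i) ^ e i) := by
    intro i
    have h1 : w (Sum.inl i) = α * eval Q (pderiv (Sum.inr (Sum.inl i))
        (∏ i', (X (Sum.inr (Sum.inl i')) : MvPolynomial (Fin d ⊕ (Fin n1 ⊕ Fin n2)) ℤ) ^ e i')) := by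
      simp only [hw]
      unfold Fpoly
      rw [map_sub, map_add, pderiv_C_mul, pderiv_C_mul, pderiv_C,
        pderiv_prod_zero _ _ (fun j => (X (Sum.inr (Sum.inr j)) :
          MvPolynomial (Fin d ⊕ (Fin n1 ⊕ Fin n2)) ℤ) ^ f j)
          (fun j _ => pderiv_pow_zero _ _ (by simp) _)]
      simp
    have h2 := mul_pderiv_prod (τ := Fin d ⊕ (Fin n1 ⊕ Fin n2))
      (fun i' : Fin n1 => Sum.inr (Sum.inl i')) (fun a b h => by simpa using h) e i Q
    have h3 : ∀ i' : Fin n1, Q (Sum.inr (Sum.inl i')) = z (Sum.inl i') := fun i' => rfl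
    simp only [h3] at h2
    rw [h1, mul_left_comm, h2]
    ring
  have hw2 : ∀ i : Fin n2, z (Sum.inr i) * w (Sum.inr i) =
      f i * (β * ∏ j, z (Sum.inr j) ^ f j) := by
    intro i
    have h1 : w (Sum.inr i) = β * eval Q (pderiv (Sum.inr (Sum.inr i))
        (∏ i', (X (Sum.inr (Sum.inr i')) : MvPolynomial (Fin d ⊕ (Fin n1 ⊕ Fin n2)) ℤ) ^ f i')) := by
      simp only [hw]
      unfold Fpoly
      rw [map_sub, map_add, pderiv_C_mul, pderiv_C_mul, pderiv_C,
        pderiv_prod_zero _ _ (fun j => (X (Sum.inr (Sum.inl j)) :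
          MvPolynomial (Fin d ⊕ (Fin n1 ⊕ Fin n2)) ℤ) ^ e j)
          (fun j _ => pderiv_pow_zero _ _ (by simp) _)]
      simp
    have h2 := mul_pderiv_prod (τ := Fin d ⊕ (Fin n1 ⊕ Fin n2))
      (fun i' : Fin n2 => Sum.inr (Sum.inr i')) (fun a b h => by simpa using h) f i Q
    have h3 : ∀ i' : Fin n2, Q (Sum.inr (Sum.inr i')) = z (Sum.inr i') := fun i' => rfl
    simp only [h3] at h2
    rw [h1, mul_left_comm, h2]
    ring
  have hg1 : eval z (gE (fun i => ((Sum.elim e f i : ℕ) : ℤ)) (xs n1 n2) ρ G j0) =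
      ∑ i : Fin n1, (e i : ℤ) * u (Sum.inl i) *
        ∏ i' ∈ Finset.univ.erase (Sum.inl i), (D i' * z i') := by
    unfold gE xs
    rw [map_sum, Finset.sum_map]
    refine Finset.sum_congr rfl fun i _ => ?_
    simp only [map_mul, eval_C, map_prod, eval_X, Function.Embedding.inl_apply, Sum.elim_inl]
    rfl
  have hg2 : eval z (gE (fun i => ((Sum.elim e f i : ℕ) : ℤ)) (ys n1 n2) ρ G j0) =
      ∑ i : Fin n2, (f i : ℤ) * u (Sum.inr i) *
        ∏ i' ∈ Finset.univ.erase (Sum.inr i), (D i' * z i') := by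
    unfold gE ys
    rw [map_sum, Finset.sum_map]
    refine Finset.sum_congr rfl fun i _ => ?_
    simp only [map_mul, eval_C, map_prod, eval_X, Function.Embedding.inr_apply, Sum.elim_inr]
    rfl
  rw [hjac, hg1, hg2]
  have hterm : ∀ i : Fin n1 ⊕ Fin n2, (∏ i, z i) * (u i * w i * ∏ i' ∈ Finset.univ.erase i, D i') =
      u i * (z i * w i) * ∏ i' ∈ Finset.univ.erase i, (D i' * z i') := by
    intro i
    rw [← Finset.mul_prod_erase Finset.univ _ (Finset.mem_univ i), Finset.prod_mul_distrib]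
    ring
  rw [mul_neg, Finset.mul_sum, Finset.sum_congr rfl fun i _ => hterm i, Fintype.sum_sum_type]
  congr 2
  · rw [Finset.mul_sum]
    refine Finset.sum_congr rfl fun i _ => ?_
    rw [hw1]
    ring
  · rw [Finset.mul_sum]
    refine Finset.sum_congr rfl fun i _ => ?_
    rw [hw2]
    ring

end Pool.Agent.Helper91.CPX
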