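import Pool.Agent.Helper91.CPX.Los
import Pool.Agent.Helper91.CPX.LargeU
import Pool.Agent.Helper91.CPX.Lift

/-!
CPX-N05. A large family with maximal vanishing ideal; the ideal is prime.

Proof. The ring `MvPolynomial ι (K0 F)` is noetherian, so among the ideals `vanIdeal F T`, `T` large and contained in `T0`,
there is a maximal one (`set_has_maximal_iff_noetherian` or `WellFounded.has_min` for `>`). For `T' ⊆ T` large:
`vanIdeal F T ≤ vanIdeal F T'` (`vanIdeal_anti`), so equality by maximality. `vanIdeal F T ≠ ⊤`: there is a section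
(`large_nonempty`, choose points, bounded by `X ν`), and `1` does not vanish there. Prime: let `f * g ∈ vanIdeal F T`; by
`lift_mv` (with `φ = toK F`, `toK_frac`) we may assume `f = map (toK F) p`, `g = map (toK F) q` (multiplying by a nonzero
constant). Put `A ν = {z ∈ T ν : eval z (map (evAt F ν) p) = 0}` and `B ν` similarly for `q`. By `los` for `p * q`,
`T ν = A ν ∪ B ν` for almost all `ν`, so `A` or `B` is large (`large_mono`, `large_union`), say `A`; then
`vanIdeal F A = vanIdeal F T` contains `f` (`los` for `A`).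
-/

open MvPolynomial

namespace Pool.Agent.Helper91.CPX

private theorem mx_ne_top (F : Frame) {ι : Type} [Fintype ι] [DecidableEq ι]
    (M : ℕ → (ι → ℤ) → ℤ) (T : ℕ → Finset (ι → ℤ)) (hT : Bdd F T) (hL : Large F M T) :
    vanIdeal F T ≠ ⊤ := by
  classical
  intro htop
  have hne := large_nonempty F M T hL
  have hch : ∀ ν, ∃ z : ι → ℤ, ((T ν).Nonempty → z ∈ T ν) ∧ (¬ (T ν).Nonempty → z = 0) := by
    intro ν
    by_cases h : (T ν).Nonempty
    · obtain ⟨z, hz⟩ := h
      exact ⟨z, fun _ => hz, fun hn => absurd ⟨z, hz⟩ hn⟩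
    · exact ⟨0, fun hn => absurd hn h, fun _ => rfl⟩
  choose ch hch1 hch2 using hch
  have hbd : ∀ i ν, |ch ν i| ≤ (F.X ν : ℤ) ^ 1 := by
    intro i ν
    rw [pow_one]
    by_cases h : (T ν).Nonempty
    · obtain ⟨h1, h2⟩ := hT ν _ (hch1 ν h) i
      rw [abs_of_nonneg (by linarith)]
      exact h2
    · rw [hch2 ν h, Pi.zero_apply, abs_zero]
      have := F.one_le ν
      linarith
  let P : ι → Zb F := fun i => ⟨fun ν => ch ν i, ⟨1, Filter.Eventually.of_forall fun ν => hbd i ν⟩⟩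
  have hsec : IsSec F T P := by
    filter_upwards [hne] with ν h
    exact hch1 ν h
  have h1 : (1 : MvPolynomial ι (K0 F)) ∈ vanIdeal F T := htop ▸ Submodule.mem_top
  have h2 := h1 P hsec
  rw [map_one] at h2
  exact one_ne_zero h2

private theorem mx_unit (F : Frame) {ι : Type} [Fintype ι] [DecidableEq ι]
    (T : ℕ → Finset (ι → ℤ)) (b : K0 F) (hb : b ≠ 0) (f : MvPolynomial ι (K0 F))
    (h : C b * f ∈ vanIdeal F T) : f ∈ vanIdeal F T := by
  have h1 : C b⁻¹ * (C b * f) ∈ vanIdeal F T := Ideal.mul_mem_left _ _ h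
  rwa [← mul_assoc, ← C_mul, inv_mul_cancel₀ hb, C_1, one_mul] at h1

theorem exists_maximal (F : Frame) {ι : Type} [Fintype ι] [DecidableEq ι]
    (M : ℕ → (ι → ℤ) → ℤ) (T0 : ℕ → Finset (ι → ℤ)) (hT0 : Bdd F T0) (hL : Large F M T0) :
    ∃ T : ℕ → Finset (ι → ℤ), (∀ ν, T ν ⊆ T0 ν) ∧ Large F M T ∧ (vanIdeal F T).IsPrime ∧
      ∀ T' : ℕ → Finset (ι → ℤ), (∀ ν, T' ν ⊆ T ν) → Large F M T' →
        vanIdeal F T' = vanIdeal F T := by
  classical
  let S : Set (Ideal (MvPolynomial ι (K0 F))) := {I | ∃ T : ℕ → Finset (ι → ℤ),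
    (∀ ν, T ν ⊆ T0 ν) ∧ Large F M T ∧ vanIdeal F T = I}
  have hne : S.Nonempty := ⟨vanIdeal F T0, T0, fun _ => Finset.Subset.refl _, hL, rfl⟩
  have hnoeth : IsNoetherian (MvPolynomial ι (K0 F)) (MvPolynomial ι (K0 F)) := inferInstance
  obtain ⟨I, hI, hmax⟩ := set_has_maximal_iff_noetherian.2 hnoeth S hne
  obtain ⟨T, hT1, hT2, rfl⟩ := hI
  have hmax' : ∀ T' : ℕ → Finset (ι → ℤ), (∀ ν, T' ν ⊆ T ν) → Large F M T' →
      vanIdeal F T' = vanIdeal F T := by
    intro T' h1 h2
    by_contra hcon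
    have h3 : vanIdeal F T < vanIdeal F T' :=
      lt_of_le_of_ne (vanIdeal_anti F T T' h1) (fun h => hcon h.symm)
    exact hmax (vanIdeal F T') ⟨T', fun ν => (h1 ν).trans (hT1 ν), h2, rfl⟩ h3
  have hTb : Bdd F T := fun ν z hz i => hT0 ν z (hT1 ν hz) i
  refine ⟨T, hT1, hT2, ⟨mx_ne_top F M T hTb hT2, ?_⟩, hmax'⟩
  intro f g hfg
  obtain ⟨b, p, hb, hp⟩ := lift_mv (toK F) (toK_frac F) f
  obtain ⟨c, q, hc, hq⟩ := lift_mv (toK F) (toK_frac F) g
  have hpq : map (toK F) (p * q) ∈ vanIdeal F T := by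
    rw [map_mul, hp, hq]
    have e : C (toK F b) * f * (C (toK F c) * g) = (C (toK F b) * C (toK F c)) * (f * g) := by ring
    rw [e]
    exact Ideal.mul_mem_left _ _ hfg
  rw [los F T hTb] at hpq
  let A : ℕ → Finset (ι → ℤ) := fun ν => (T ν).filter fun z => eval z (map (evAt F ν) p) = 0
  let B : ℕ → Finset (ι → ℤ) := fun ν => (T ν).filter fun z => eval z (map (evAt F ν) q) = 0
  have hAT : ∀ ν, A ν ⊆ T ν := fun ν => Finset.filter_subset _ _
  have hBT : ∀ ν, B ν ⊆ T ν := fun ν => Finset.filter_subset _ _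
  have hcov : ∀ᶠ ν in (F.U : Filter ℕ), T ν ⊆ A ν ∪ B ν := by
    filter_upwards [hpq] with ν h z hz
    have h1 := h z hz
    rw [map_mul, map_mul, mul_eq_zero] at h1
    rw [Finset.mem_union, Finset.mem_filter, Finset.mem_filter]
    rcases h1 with h1 | h1
    · exact Or.inl ⟨hz, h1⟩
    · exact Or.inr ⟨hz, h1⟩
  have hlarge := large_mono F M T (fun ν => A ν ∪ B ν) hcov hT2
  rcases large_union F M A B hlarge with h | h
  · left
    have h1 := hmax' A hAT h
    have hAb : Bdd F A := fun ν z hz i => hTb ν z (hAT ν hz) i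
    have h2 : map (toK F) p ∈ vanIdeal F A := by
      rw [los F A hAb]
      exact Filter.Eventually.of_forall fun ν z hz => (Finset.mem_filter.1 hz).2
    rw [h1, hp] at h2
    exact mx_unit F T _ hb f h2
  · right
    have h1 := hmax' B hBT h
    have hBb : Bdd F B := fun ν z hz i => hTb ν z (hBT ν hz) i
    have h2 : map (toK F) q ∈ vanIdeal F B := by
      rw [los F B hBb]
      exact Filter.Eventually.of_forall fun ν z hz => (Finset.mem_filter.1 hz).2
    rw [h1, hq] at h2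
    exact mx_unit F T _ hc g h2

end Pool.Agent.Helper91.CPX
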