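import Pool.Agent.Helper91.CPX.Drop
import Pool.Agent.Helper91.CPX.Maximal
import Pool.Agent.Helper91.CPX.Nonzero
import Pool.Agent.Helper91.CPX.PolyBound
import Pool.Agent.Helper91.CPX.Collect
import Pool.Agent.Helper91.CPX.FewValues
import Pool.Agent.Helper91.CPX.Alg
import Pool.Agent.Helper91.CPX.JacFormula

/-!
CPX-N19. The nonstandard theorem. (Assembly, helper91.)
-/

open MvPolynomial

namespace Pool.Agent.Helper91.CPX

theorem map_aeval_comm {S S' : Type} [CommRing S] [CommRing S'] (φ : S →+* S') {ι : Type} {d : ℕ}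
    (G : Fin d → MvPolynomial ι S) (c : MvPolynomial (Fin d) S) :
    map φ (aeval G c) = aeval (fun j => map φ (G j)) (map φ c) := by
  induction c using MvPolynomial.induction_on with
  | C a => simp [algebraMap_eq]
  | add p q hp hq => rw [map_add, map_add, hp, hq, map_add, map_add]
  | mul_X p n hp => rw [map_mul, map_mul, hp, map_mul, map_mul, aeval_X, map_X, aeval_X]

theorem subst_divX {S : Type} [CommRing S] {ι : Type} [Fintype ι] [DecidableEq ι] {d : ℕ}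
    (G : Fin d → MvPolynomial ι S) (i : ι) (P : Polynomial (MvPolynomial (Fin d) S)) :
    subst G i P = subst G i P.divX * X i + aeval G (P.coeff 0) := by
  conv_lhs => rw [← Polynomial.divX_mul_X_add P]
  unfold subst
  simp

/-- A constant over `K0 F` is a constant for almost all `ν`. -/
theorem const_of_map {F : Frame} {d : ℕ} (p : MvPolynomial (Fin d) (Zb F)) (c : K0 F)
    (h : map (toK F) p = C c) :
    toK F (coeff 0 p) = c ∧
      ∀ᶠ ν in (F.U : Filter ℕ), map (evAt F ν) p = C (evAt F ν (coeff 0 p)) := by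
  have h0 : ∀ m, toK F (coeff m p) = if 0 = m then c else 0 := by
    intro m
    rw [← coeff_map, h, coeff_C]
  refine ⟨by rw [h0 0, if_pos rfl], ?_⟩
  have h1 : ∀ m ∈ p.support, ∀ᶠ ν in (F.U : Filter ℕ), m ≠ 0 → evAt F ν (coeff m p) = 0 := by
    intro m _
    by_cases hm : m = 0
    · exact Filter.Eventually.of_forall fun ν h => absurd hm h
    · have h2 := h0 m
      rw [if_neg (Ne.symm hm), toK_eq_zero_iff] at h2
      filter_upwards [h2] with ν h3 _
      rw [evAt_apply, h3]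
  have h2 := (Filter.eventually_all_finset p.support).mpr h1
  filter_upwards [h2] with ν h3
  ext m
  rw [coeff_map, coeff_C]
  by_cases hm : m ∈ p.support
  · by_cases hm0 : m = 0
    · rw [hm0, if_pos rfl]
    · rw [if_neg (Ne.symm hm0), h3 m hm hm0]
  · rw [notMem_support_iff.mp hm, map_zero]
    by_cases hm0 : m = 0
    · rw [← hm0, if_pos rfl, notMem_support_iff.mp hm, map_zero]
    · rw [if_neg (Ne.symm hm0)]

/-- If the constant coefficients are constants then the coordinates divide fixed integers. -/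
theorem dvd_of_const (F : Frame) {ι : Type} [Fintype ι] [DecidableEq ι] {d : ℕ}
    (T : ℕ → Finset (ι → ℤ)) (hT : Bdd F T) (G : Fin d → MvPolynomial ι (Zb F)) (i : ι)
    (P : Polynomial (MvPolynomial (Fin d) (Zb F))) (hP : map (toK F) (subst G i P) ∈ vanIdeal F T)
    (c : K0 F) (hc : map (toK F) (P.coeff 0) = C c) :
    toK F (coeff 0 (P.coeff 0)) = c ∧
      ∀ᶠ ν in (F.U : Filter ℕ), ∀ z ∈ T ν, z i ∣ ((coeff 0 (P.coeff 0) : Zb F) : ℕ → ℤ) ν := by
  obtain ⟨h1, h2⟩ := const_of_map (P.coeff 0) c hc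
  refine ⟨h1, ?_⟩
  have h3 := (los F T hT (subst G i P)).mp hP
  filter_upwards [h2, h3] with ν h4 h5 z hz
  have h6 := h5 z hz
  rw [subst_divX, map_add, map_mul, map_X, map_aeval_comm, h4, map_add, map_mul, eval_X, aeval_C,
    algebraMap_eq, eval_C] at h6
  have h7 : ((coeff 0 (P.coeff 0) : Zb F) : ℕ → ℤ) ν =
      z i * -(eval z (map (evAt F ν) (subst G i P.divX))) := by
    rw [← evAt_apply]
    linear_combination h6
  rw [h7]
  exact dvd_mul_right _ _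

/-- Positive exponents are positive in the field of germs. -/
theorem hpos_germ (F : Frame) {ι : Type} [Fintype ι] [DecidableEq ι] (e : ι → Zb F) (x : Finset ι)
    (he : ∀ᶠ ν in (F.U : Filter ℕ), ∀ i ∈ x, 1 ≤ (e i : ℕ → ℤ) ν) (v : ι → ℕ)
    (h : ∑ i ∈ x, toK F (e i) * (v i : K0 F) = 0) : ∀ i ∈ x, v i = 0 := by
  have h1 : toK F (∑ i ∈ x, e i * (v i : Zb F)) = 0 := by
    rw [map_sum, ← h]
    refine Finset.sum_congr rfl fun i _ => ?_
    rw [map_mul, map_natCast]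
  rw [toK_eq_zero_iff] at h1
  obtain ⟨ν, h2, h3⟩ := (h1.and he).exists
  have h4 : evAt F ν (∑ i ∈ x, e i * (v i : Zb F)) = 0 := h2
  rw [map_sum] at h4
  have h5 : ∀ i ∈ x, 0 ≤ evAt F ν (e i * (v i : Zb F)) := by
    intro i hi
    rw [map_mul, map_natCast, evAt_apply]
    have := h3 i hi
    positivity
  have h6 := (Finset.sum_eq_zero_iff_of_nonneg h5).mp h4
  intro i hi
  have h7 := h6 i hi
  rw [map_mul, map_natCast, evAt_apply] at h7
  rcases mul_eq_zero.mp h7 with h8 | h8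
  · have := h3 i hi
    omega
  · exact_mod_cast h8

/-- No polynomial equation between the `G j` on a large subset. -/
theorem no_drop (F : Frame) {ι : Type} [Fintype ι] [DecidableEq ι] {d : ℕ}
    (M : ℕ → (ι → ℤ) → ℤ) (T : ℕ → Finset (ι → ℤ)) (hT : Bdd F T)
    (hmax : ∀ T' : ℕ → Finset (ι → ℤ), (∀ ν, T' ν ⊆ T ν) → Large F M T' →
      vanIdeal F T' = vanIdeal F T)
    (G : Fin d → MvPolynomial ι (Zb F))
    (hinj : ∀ c : MvPolynomial (Fin d) (K0 F),
      aeval (fun j => map (toK F) (G j)) c ∈ vanIdeal F T → c = 0)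
    (D K' : ℕ) (δ : ℝ) (hδ : 0 < δ)
    (h : ∀ᶠ ν in (F.U : Filter ℕ), ∃ T' ⊆ T ν, (F.X ν : ℝ) ^ δ ≤ ((T'.image (M ν)).card : ℝ) ∧
      ∃ c : MvPolynomial (Fin d) ℤ, c ≠ 0 ∧ c.totalDegree ≤ D ∧
        (∀ m, |c.coeff m| ≤ (F.X ν : ℤ) ^ K') ∧
        ∀ z ∈ T', eval (fun j => eval z (map (evAt F ν) (G j))) c = 0) : False := by
  classical
  let Q : ℕ → Finset (ι → ℤ) → MvPolynomial (Fin d) ℤ → Prop := fun ν T' c =>
    T' ⊆ T ν ∧ (F.X ν : ℝ) ^ δ ≤ ((T'.image (M ν)).card : ℝ) ∧ c ≠ 0 ∧ c.totalDegree ≤ D ∧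
        (∀ m, |c.coeff m| ≤ (F.X ν : ℤ) ^ K') ∧
        ∀ z ∈ T', eval (fun j => eval z (map (evAt F ν) (G j))) c = 0
  have h' : ∀ ν, ∃ T' : Finset (ι → ℤ), ∃ c : MvPolynomial (Fin d) ℤ,
      T' ⊆ T ν ∧ ((∃ T' c, Q ν T' c) → Q ν T' c) := by
    intro ν
    by_cases hν : ∃ T' c, Q ν T' c
    · obtain ⟨T', c, hQ⟩ := hν
      exact ⟨T', c, hQ.1, fun _ => hQ⟩
    · exact ⟨∅, 0, Finset.empty_subset _, fun h => absurd h hν⟩
  choose T' c hT' hQ using h'
  have hev : ∀ᶠ ν in (F.U : Filter ℕ), Q ν (T' ν) (c ν) := by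
    filter_upwards [h] with ν hν
    obtain ⟨A, hA, hcard, c0, h1, h2, h3, h4⟩ := hν
    exact hQ ν ⟨A, c0, hA, hcard, h1, h2, h3, h4⟩
  have hlarge : Large F M T' := ⟨δ, hδ, by
    filter_upwards [hev] with ν hν
    exact hν.2.1⟩
  obtain ⟨cc, hcc, hcc'⟩ := collect F D K' c (by
    filter_upwards [hev] with ν hν
    exact ⟨hν.2.2.1, hν.2.2.2.1, hν.2.2.2.2.1⟩)
  have hT'b : Bdd F T' := fun ν z hz => hT ν z (hT' ν hz)
  have hmem : map (toK F) (aeval G cc) ∈ vanIdeal F T' := by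
    rw [los F T' hT'b]
    filter_upwards [hev, hcc'] with ν h1 h2 z hz
    rw [map_aeval_comm, h2]
    have h3 := h1.2.2.2.2.2 z hz
    rw [← h3, ← coe_aeval_eq_eval, ← coe_aeval_eq_eval]
    change aeval z (aeval _ (c ν)) = aeval _ (c ν)
    rw [← AlgHom.comp_apply, comp_aeval]
    rfl
  rw [hmax T' hT' hlarge, map_aeval_comm] at hmem
  exact hcc (hinj _ hmem)

theorem NS_false (F : Frame) (n1 n2 : ℕ) (E : ℕ → ℕ) (hE : ∀ ν, 1 ≤ E ν)
    (hX : ∀ ν, 2 ^ ((ν * E ν + 1) ^ 2) ≤ F.X ν)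
    (hU : ∀ C : ℕ, ∀ᶠ ν in (F.U : Filter ℕ), C ≤ ν)
    (α β k : ℕ → ℤ) (hα : ∀ ν, |α ν| ≤ (F.X ν : ℤ) ^ E ν) (hβ : ∀ ν, |β ν| ≤ (F.X ν : ℤ) ^ E ν)
    (e : ℕ → Fin n1 → ℕ) (f : ℕ → Fin n2 → ℕ) (he : ∀ ν i, 1 ≤ e ν i ∧ e ν i ≤ E ν)
    (hf : ∀ ν i, 1 ≤ f ν i ∧ f ν i ≤ E ν) (T : ℕ → Finset (Fin n1 ⊕ Fin n2 → ℤ))
    (hT : ∀ ν, ∀ z ∈ T ν, (∀ i, 1 ≤ z i ∧ z i ≤ (F.X ν : ℤ)) ∧
      α ν * ∏ i, z (Sum.inl i) ^ e ν i + β ν * ∏ j, z (Sum.inr j) ^ f ν j = k ν ∧
      NoSmallRatio (α ν * ∏ i, z (Sum.inl i) ^ e ν i) (k ν) ((F.X ν : ℤ) ^ ν))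
    (hL : Large F (fun ν z => ∏ i, z (Sum.inl i) ^ e ν i) T) : False := by
  classical
  set M : ℕ → (Fin n1 ⊕ Fin n2 → ℤ) → ℤ := fun ν z => ∏ i, z (Sum.inl i) ^ e ν i with hM
  have hBd0 : Bdd F T := fun ν z hz => (hT ν z hz).1
  obtain ⟨T1, hT1, hL1, hprime, hmax⟩ := exists_maximal F M T hBd0 hL
  have hBd1 : Bdd F T1 := fun ν z hz => hBd0 ν z (hT1 ν hz)
  have hXn : ∀ i, (X i : MvPolynomial (Fin n1 ⊕ Fin n2) (K0 F)) ∉ vanIdeal F T1 := by
    intro i hi
    have h1 : map (toK F) (X i : MvPolynomial (Fin n1 ⊕ Fin n2) (Zb F)) ∈ vanIdeal F T1 := by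
      rwa [map_X]
    rw [los F T1 hBd1] at h1
    obtain ⟨ν, h2, z, hz⟩ := (h1.and (large_nonempty F M T1 hL1)).exists
    have h3 := h2 z hz
    rw [map_X, eval_X] at h3
    have h4 := (hBd1 ν z hz i).1
    omega
  obtain ⟨d, G, ρ, hinj, hρ, hKL⟩ := ALG (toK F) (toK_frac F) (vanIdeal F T1) hXn
  -- the exponents as elements of the ring
  have hEX : ∀ᶠ ν in (F.U : Filter ℕ), E ν ≤ F.X ν := by
    filter_upwards [hU 1] with ν hν
    have h1 := hX ν
    have h2 : E ν ≤ (ν * E ν + 1) ^ 2 := by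
      have h4 : E ν ≤ ν * E ν := Nat.le_mul_of_pos_left _ hν
      nlinarith
    have h3 : (ν * E ν + 1) ^ 2 < 2 ^ ((ν * E ν + 1) ^ 2) := Nat.lt_two_pow_self
    omega
  have hsum : ∀ ν i, 1 ≤ Sum.elim (e ν) (f ν) i ∧ Sum.elim (e ν) (f ν) i ≤ E ν := by
    rintro ν (i | i)
    · exact he ν i
    · exact hf ν i
  let eZ : Fin n1 ⊕ Fin n2 → Zb F := fun i =>
    ⟨fun ν => ((Sum.elim (e ν) (f ν) i : ℕ) : ℤ), ⟨1, by
      filter_upwards [hEX] with ν hν
      rw [pow_one, abs_of_nonneg (by positivity)]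
      exact_mod_cast (hsum ν i).2.trans hν⟩⟩
  have heZ : ∀ ν i, evAt F ν (eZ i) = ((Sum.elim (e ν) (f ν) i : ℕ) : ℤ) := fun ν i => rfl
  have hex : ∃ j, map (toK F) (gE eZ (xs n1 n2) ρ G j) ∉ vanIdeal F T1 := by
    by_contra hcon
    push Not at hcon
    have h1 := hKL eZ (xs n1 n2) (fun v hv => hpos_germ F eZ (xs n1 n2)
      (Filter.Eventually.of_forall fun ν i _ => by
        have := (hsum ν i).1
        change (1 : ℤ) ≤ ((Sum.elim (e ν) (f ν) i : ℕ) : ℤ)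
        exact_mod_cast this) v hv) hcon
    have h2 : ∀ i ∈ xs n1 n2, toK F (coeff 0 ((ρ i).coeff 0)) ≠ 0 ∧
        ∀ᶠ ν in (F.U : Filter ℕ), ∀ z ∈ T1 ν,
          z i ∣ ((coeff 0 ((ρ i).coeff 0) : Zb F) : ℕ → ℤ) ν := by
      intro i hi
      obtain ⟨c, hc0, hc⟩ := h1 i hi
      obtain ⟨h3, h4⟩ := dvd_of_const F T1 hBd1 G i (ρ i) (hρ i) c hc
      exact ⟨by rw [h3]; exact hc0, h4⟩
    refine not_large_of_dvd F (xs n1 n2) M ?_ T1 (fun i => coeff 0 ((ρ i).coeff 0))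
      (fun i hi => (h2 i hi).1) ?_ hL1
    · intro ν z z' hzz
      simp only [hM]
      refine Finset.prod_congr rfl fun i _ => ?_
      rw [hzz (Sum.inl i) (by simp [xs])]
    · have h3 := (Filter.eventually_all_finset (xs n1 n2)).mpr fun i hi => (h2 i hi).2
      filter_upwards [h3] with ν h4 z hz i hi
      exact ⟨(hBd1 ν z hz i).1, h4 i hi z hz⟩
  obtain ⟨j0, hj0⟩ := hex
  have hL2 := large_ne F M T1 hBd1 hL1 hmax _ hj0
  obtain ⟨δ, hδ, hcard⟩ := hL2
  -- polynomial bounds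
  choose CG hCG using fun j => poly_bound F T1 hBd1 (G j)
  obtain ⟨CA, hCA⟩ := poly_bound F T1 hBd1 (gE eZ (xs n1 n2) ρ G j0)
  obtain ⟨CB, hCB⟩ := poly_bound F T1 hBd1 (gE eZ (ys n1 n2) ρ G j0)
  set K1 := ∑ j, CG j with hK1
  have hCG' : ∀ᶠ ν in (F.U : Filter ℕ), ∀ z ∈ T1 ν, ∀ j,
      |eval z (map (evAt F ν) (G j))| ≤ (F.X ν : ℤ) ^ K1 := by
    have h1 := Filter.eventually_all.mpr hCG
    filter_upwards [h1] with ν h2 z hz j
    exact (h2 j z hz).trans (F.pow_mono ν (Finset.single_le_sum (fun _ _ => Nat.zero_le _)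
      (Finset.mem_univ j)))
  have hρ' : ∀ᶠ ν in (F.U : Filter ℕ), ∀ i, ∀ z ∈ T1 ν,
      eval z (map (evAt F ν) (subst G i (ρ i))) = 0 :=
    Filter.eventually_all.mpr fun i => (los F T1 hBd1 _).mp (hρ i)
  obtain ⟨D, K', X0, hdrop⟩ := drop (Fin n1 ⊕ Fin n2) d K1 δ hδ
  refine no_drop F M T1 hBd1 hmax G hinj D K' (δ / 2) (by positivity) ?_
  filter_upwards [hcard, hCA, hCB, hCG', hρ', F.tends X0, hU (n1 + n2 + CA + CB + 4)] with
    ν hcard hCA hCB hCG hρ hX0 hν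
  set z2 := (T1 ν).filter (fun z => eval z (map (evAt F ν) (gE eZ (xs n1 n2) ρ G j0)) ≠ 0) with hz2
  have hgA : ∀ x : Finset (Fin n1 ⊕ Fin n2), map (evAt F ν) (gE eZ x ρ G j0) =
      gE (fun i => ((Sum.elim (e ν) (f ν) i : ℕ) : ℤ)) x (fun i => (ρ i).map (map (evAt F ν)))
        (fun j => map (evAt F ν) (G j)) j0 := by
    intro x
    rw [gE_map]
    rfl
  have hd := hdrop (F.X ν) hX0 (ν * E ν) (hX ν) z2 (M ν)
    (fun j => map (evAt F ν) (G j))
    (fun a => a.elim (Fpoly (α ν) (β ν) (k ν) (e ν) (f ν))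
      (fun i => conv i ((ρ i).map (map (evAt F ν))))) j0
  have hfin : ∀ T', T' ⊆ z2 → T' ⊆ T1 ν := fun T' h => h.trans (Finset.filter_subset _ _)
  refine Exists.imp (fun T' h => ⟨hfin T' h.1, h.2⟩) (hd ?_ ?_ ?_ hcard)
  · intro z hz j
    exact hCG z (Finset.mem_of_mem_filter z hz) j
  · intro z hz a
    have hz1 := Finset.mem_of_mem_filter z hz
    rcases a with _ | i
    · have h1 := (hT ν z (hT1 ν hz1)).2.1
      simp only [Option.elim, Fpoly, graphPt, map_sub, map_add, map_mul, eval_C, map_prod, map_pow,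
        eval_X, Sum.elim_inr]
      linarith
    · change eval (graphPt (fun j => map (evAt F ν) (G j)) z) (conv i ((ρ i).map (map (evAt F ν)))) = 0
      rw [conv_eval, ← subst_map]
      exact hρ i z hz1
  · intro z hz
    have hz1 := Finset.mem_of_mem_filter z hz
    have hzA : eval z (map (evAt F ν) (gE eZ (xs n1 n2) ρ G j0)) ≠ 0 := (Finset.mem_filter.mp hz).2
    obtain ⟨hz3, hz4, hz5⟩ := hT ν z (hT1 ν hz1)
    have hform := jac_formula (α ν) (β ν) (k ν) (e ν) (f ν) (fun j => map (evAt F ν) (G j))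
      (fun i => (ρ i).map (map (evAt F ν))) j0 z
    rw [← hgA, ← hgA] at hform
    have hA := hCA z hz1
    have hB := hCB z hz1
    set gA := eval z (map (evAt F ν) (gE eZ (xs n1 n2) ρ G j0)) with hgAdef
    set gB := eval z (map (evAt F ν) (gE eZ (ys n1 n2) ρ G j0)) with hgBdef
    set J := jac (fun a : Option (Fin n1 ⊕ Fin n2) =>
        a.elim (Fpoly (α ν) (β ν) (k ν) (e ν) (f ν)) (fun i => conv i ((ρ i).map (map (evAt F ν)))))
        j0 (graphPt (fun j => map (evAt F ν) (G j)) z) with hJ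
    set a := α ν * ∏ i, z (Sum.inl i) ^ e ν i with ha
    set b := β ν * ∏ j, z (Sum.inr j) ^ f ν j with hb
    have hP : 1 ≤ ∏ i, z i := by
      have : ∀ s : Finset (Fin n1 ⊕ Fin n2), 1 ≤ ∏ i ∈ s, z i := by
        intro s
        induction s using Finset.induction_on with
        | empty => simp
        | insert i s hi ih =>
          rw [Finset.prod_insert hi]
          nlinarith [(hz3 i).1]
      exact this _
    have hX1 := F.one_le ν
    have hX2 := F.two_le' ν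
    constructor
    · -- nonvanishing
      intro h0
      rw [h0, mul_zero] at hform
      have h1 : a * (gA - gB) = k ν * (-gB) := by
        have : b = k ν - a := by linarith
        rw [this] at hform
        linarith
      have hbig : (F.X ν : ℤ) ^ CA + (F.X ν : ℤ) ^ CB ≤ (F.X ν : ℤ) ^ ν := by
        have h2 := F.pow_mono ν (show CA ≤ CA + CB by omega)
        have h3 := F.pow_mono ν (show CB ≤ CA + CB by omega)
        have h4 := F.pow_mono ν (show CA + CB + 1 ≤ ν by omega)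
        have h5 : (0 : ℤ) < (F.X ν : ℤ) ^ (CA + CB) := by positivity
        rw [pow_succ] at h4
        nlinarith
      have h2 : |gA - gB| ≤ (F.X ν : ℤ) ^ ν := (abs_sub gA gB).trans (by linarith)
      have h3 : |-gB| ≤ (F.X ν : ℤ) ^ ν := by
        rw [abs_neg]
        have : (0 : ℤ) ≤ (F.X ν : ℤ) ^ CA := by positivity
        linarith
      have h4 := hz5 (-gB) (gA - gB) h3 h2 h1
      apply hzA
      linarith [h4.1, h4.2]
    · -- size
      have hprod : ∀ (n : ℕ) (y : Fin n → ℤ) (g : Fin n → ℕ), (∀ i, 1 ≤ y i ∧ y i ≤ (F.X ν : ℤ)) →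
          (∀ i, g i ≤ E ν) → |∏ i, y i ^ g i| ≤ (F.X ν : ℤ) ^ (n * E ν) := by
        intro n y g hy hg
        rw [Finset.abs_prod]
        calc ∏ i, |y i ^ g i| ≤ ∏ _i : Fin n, (F.X ν : ℤ) ^ E ν := by
              refine Finset.prod_le_prod (fun _ _ => abs_nonneg _) fun i _ => ?_
              rw [abs_of_nonneg (by have := (hy i).1; positivity)]
              calc y i ^ g i ≤ (F.X ν : ℤ) ^ g i :=
                    pow_le_pow_left₀ (by have := (hy i).1; omega) (hy i).2 _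
                _ ≤ _ := F.pow_mono ν (hg i)
          _ = _ := by rw [Finset.prod_const, Finset.card_univ, Fintype.card_fin, ← pow_mul,
                mul_comm]
      have ha1 : |a| ≤ (F.X ν : ℤ) ^ ((n1 + n2 + 1) * E ν) := by
        rw [ha, abs_mul]
        calc |α ν| * |∏ i, z (Sum.inl i) ^ e ν i|
            ≤ (F.X ν : ℤ) ^ E ν * (F.X ν : ℤ) ^ (n1 * E ν) :=
              mul_le_mul (hα ν) (hprod n1 _ _ (fun i => hz3 _) fun i => (he ν i).2) (abs_nonneg _)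
                (by positivity)
          _ = (F.X ν : ℤ) ^ (E ν + n1 * E ν) := (pow_add _ _ _).symm
          _ ≤ _ := F.pow_mono ν (by nlinarith [hE ν])
      have hb1 : |b| ≤ (F.X ν : ℤ) ^ ((n1 + n2 + 1) * E ν) := by
        rw [hb, abs_mul]
        calc |β ν| * |∏ j, z (Sum.inr j) ^ f ν j|
            ≤ (F.X ν : ℤ) ^ E ν * (F.X ν : ℤ) ^ (n2 * E ν) :=
              mul_le_mul (hβ ν) (hprod n2 _ _ (fun i => hz3 _) fun i => (hf ν i).2) (abs_nonneg _)
                (by positivity)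
          _ = (F.X ν : ℤ) ^ (E ν + n2 * E ν) := (pow_add _ _ _).symm
          _ ≤ _ := F.pow_mono ν (by nlinarith [hE ν])
      have h1 : |J| ≤ (∏ i, z i) * |J| := by nlinarith [abs_nonneg J]
      have h2 : (∏ i, z i) * |J| = |a * gA + b * gB| := by
        rw [← abs_neg (a * gA + b * gB), ← hform, abs_mul, abs_of_nonneg (by linarith : 0 ≤ ∏ i, z i)]
      have h3 : |a * gA + b * gB| ≤ |a| * |gA| + |b| * |gB| := by
        rw [← abs_mul, ← abs_mul]
        exact abs_add_le _ _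
      have h4 : |gA| ≤ (F.X ν : ℤ) ^ (CA + CB) := hA.trans (F.pow_mono ν (by omega))
      have h5 : |gB| ≤ (F.X ν : ℤ) ^ (CA + CB) := hB.trans (F.pow_mono ν (by omega))
      have h6 : |a| * |gA| ≤ (F.X ν : ℤ) ^ ((n1 + n2 + 1) * E ν) * (F.X ν : ℤ) ^ (CA + CB) :=
        mul_le_mul ha1 h4 (abs_nonneg _) (by positivity)
      have h7 : |b| * |gB| ≤ (F.X ν : ℤ) ^ ((n1 + n2 + 1) * E ν) * (F.X ν : ℤ) ^ (CA + CB) :=
        mul_le_mul hb1 h5 (abs_nonneg _) (by positivity)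
      rw [← pow_add] at h6 h7
      have h8 : (F.X ν : ℤ) ^ ((n1 + n2 + 1) * E ν + (CA + CB) + 1) ≤ (F.X ν : ℤ) ^ (ν * E ν) := by
        refine F.pow_mono ν ?_
        have := hE ν
        nlinarith
      rw [pow_succ] at h8
      have h9 : (0 : ℤ) < (F.X ν : ℤ) ^ ((n1 + n2 + 1) * E ν + (CA + CB)) := by positivity
      nlinarith

end Pool.Agent.Helper91.CPX
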