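import Pool.Agent.Helper91.CPX.Rk

/-!
CPX-A15. Regime 2: all `radW` are small.

Proof. Let `m0` be from `rk H hH (ε2 / 2)`, `m ≥ m0`, `δ = ε2 / (2 m (n + 2))`. For `a ∈ T` let `k = - ∑_{i ≥ 2} a i`, so `a 0 + a 1 = k`.
(1) `k ≠ 0`: the tuple `(a i)_{i ≥ 2}` takes at most `(card Aset)^n ≤ (C N^(1/m+δ))^n` values, and for a fixed tuple `a 0` takes at most
`C D^4 N^(ε2/(2m))` values by `rk`, `a 1 = k - a 0`.
(2) `k = 0`: `a 1 = - a 0`, the sum over `i ≥ 2` is `0`, so (`n ≥ 1`) the tuple `(a i)_{i ≥ 2}` is determined by `(a i)_{i ≥ 3}`: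
at most `(card Aset)^(n-1)` values, times `card Aset` for `a 0`. Total at most `(card Aset)^n`.
Both are at most `C D^4 N^(n/m + n δ + ε2/(2m))`. (`card_le_real` from `Pool.Agent.Helper87.Camp`.)
-/

open Pool.Agent.Helper87.Camp Pool.Agent.Helper10

namespace Pool.Agent.Helper91.CPX

private lemma piF_card (n : ℕ) (A : Finset ℤ) :
    ((Fintype.piFinset (fun _ : Fin n => A)).card : ℝ) = (A.card : ℝ) ^ n := by
  rw [Fintype.card_piFinset]
  simp

theorem regime2 (n : ℕ) (hn : 1 ≤ n) (H : ℕ) (hH : 1 ≤ H) (ε2 : ℝ) (hε2 : 0 < ε2) :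
    ∃ m0 : ℕ, 1 ≤ m0 ∧ ∀ m : ℕ, m0 ≤ m → ∀ S : Finset ℕ, ∃ C : ℝ, 1 ≤ C ∧ ∀ N : ℕ, 1 ≤ N →
      ∀ W D : ℕ, 1 ≤ D → N ≤ W ^ (H * m) → ∀ T : Finset (Fin (n + 2) → ℤ),
      (∀ a ∈ T, (∀ i, a i ∈ Aset S m N) ∧ ∑ i, a i = 0 ∧ ∀ i, radW S W (a i) ≤ D) →
      (T.card : ℝ) ≤ C * (D : ℝ) ^ 4 * (N : ℝ) ^ (((n : ℝ) + ε2) / (m : ℝ)) := by
  classical
  obtain ⟨m0, hm0, hrk⟩ := rk H hH (ε2 / 2) (by positivity)
  refine ⟨m0, hm0, fun m hm S => ?_⟩
  have hm1 : 1 ≤ m := le_trans hm0 hm
  have hmR : (0 : ℝ) < m := by exact_mod_cast hm1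
  obtain ⟨C2, hC2, hrk⟩ := hrk m hm S
  set δ : ℝ := ε2 / (2 * m * (n + 2)) with hδ
  have hδ0 : 0 < δ := by positivity
  obtain ⟨C1, hC1, hA⟩ := aset_count S m hm1 δ hδ0
  refine ⟨2 * (C1 ^ n * C2), ?_, ?_⟩
  · have h1 : (1 : ℝ) ≤ C1 ^ n := one_le_pow₀ hC1
    nlinarith
  intro N hN W D hD hW T hT
  have hNR : (1 : ℝ) ≤ N := by exact_mod_cast hN
  have hN0 : (0 : ℝ) < N := by linarith
  have hDR : (1 : ℝ) ≤ (D : ℝ) ^ 4 := one_le_pow₀ (by exact_mod_cast hD)
  have hC1n : (1 : ℝ) ≤ C1 ^ n := one_le_pow₀ hC1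
  have hAc := hA N hN
  have hAn : ((Aset S m N).card : ℝ) ^ n ≤ C1 ^ n * (N : ℝ) ^ ((n : ℝ) * (1 / m + δ)) := by
    have h1 := pow_le_pow_left₀ (Nat.cast_nonneg _) hAc n
    rw [mul_pow, ← Real.rpow_mul_natCast hN0.le] at h1
    rwa [mul_comm (n : ℝ)]
  -- exponents
  have hexp1 : (n : ℝ) * (1 / m + δ) + ε2 / 2 / m ≤ ((n : ℝ) + ε2) / m := by
    have h1 : (n : ℝ) * δ ≤ ε2 / 2 / m := by
      rw [hδ, mul_div_assoc', div_div, div_le_div_iff₀ (by positivity) (by positivity)]
      have h2 : (0 : ℝ) ≤ n := Nat.cast_nonneg n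
      nlinarith [mul_pos hε2 hmR, mul_nonneg (mul_nonneg h2 hε2.le) hmR.le]
    have h3 : ((n : ℝ) + ε2) / m = n * (1 / m) + (ε2 / 2 / m + ε2 / 2 / m) := by
      field_simp
      ring
    rw [h3]
    linarith
  have hexp2 : (n : ℝ) * (1 / m + δ) ≤ ((n : ℝ) + ε2) / m := by
    have h1 : 0 ≤ ε2 / 2 / m := by positivity
    linarith
  set R : ℝ := C1 ^ n * C2 * (D : ℝ) ^ 4 * (N : ℝ) ^ (((n : ℝ) + ε2) / (m : ℝ)) with hR
  have hT1 : ((T.filter (fun a => a 0 + a 1 ≠ 0)).card : ℝ) ≤ R := by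
    set B : ℝ := C2 * (D : ℝ) ^ 4 * (N : ℝ) ^ (ε2 / 2 / (m : ℝ)) with hB
    have hB0 : 0 ≤ B := by positivity
    have h1 : (T.filter (fun a => a 0 + a 1 ≠ 0)).card ≤
        ⌊B⌋₊ * (Fintype.piFinset (fun _ : Fin n => Aset S m N)).card := by
      refine Finset.card_le_mul_card_image_of_maps_to
        (f := fun a => fun i : Fin n => a i.succ.succ) ?_ _ ?_
      · intro a ha
        rw [Fintype.mem_piFinset]
        intro i
        exact (hT a (Finset.mem_of_mem_filter a ha)).1 _
      · intro t _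
        apply Nat.le_floor
        set Ft := (T.filter (fun a => a 0 + a 1 ≠ 0)).filter
          (fun a => (fun i : Fin n => a i.succ.succ) = t) with hFt
        by_cases hk : (-∑ i, t i) = 0
        · have h0 : Ft = ∅ := by
            rw [hFt, Finset.filter_eq_empty_iff]
            intro a ha hat
            rw [Finset.mem_filter] at ha
            apply ha.2
            have h2 := (hT a ha.1).2.1
            rw [Fin.sum_univ_succ, Fin.sum_univ_succ] at h2
            rw [← hat] at hk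
            have h3 : a (Fin.succ 0) = a 1 := rfl
            rw [h3] at h2
            linarith
          rw [h0]
          simpa using hB0
        · have hinj : Set.InjOn (fun a : Fin (n + 2) → ℤ => a 0) (Ft : Set (Fin (n + 2) → ℤ)) := by
            intro a ha b hb hab
            rw [Finset.mem_coe, hFt, Finset.mem_filter, Finset.mem_filter] at ha hb
            have h2 := (hT a ha.1.1).2.1
            have h3 := (hT b hb.1.1).2.1
            rw [Fin.sum_univ_succ, Fin.sum_univ_succ] at h2 h3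
            have h4 : ∀ i : Fin n, a i.succ.succ = b i.succ.succ := by
              intro i
              exact (congrFun ha.2 i).trans (congrFun hb.2 i).symm
            have hab' : a 0 = b 0 := hab
            rw [Finset.sum_congr rfl (fun i _ => h4 i)] at h2
            funext i
            refine Fin.cases hab' (fun j => ?_) i
            refine Fin.cases ?_ (fun l => h4 l) j
            linarith
          have h2 := hrk N hN W D hD hW (-∑ i, t i) hk (Ft.image (fun a => a 0)) (by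
            intro z hz
            rw [Finset.mem_image] at hz
            obtain ⟨a, ha, rfl⟩ := hz
            rw [hFt, Finset.mem_filter, Finset.mem_filter] at ha
            obtain ⟨h3, h4, h5⟩ := hT a ha.1.1
            have h6 : -∑ i, t i - a 0 = a 1 := by
              rw [Fin.sum_univ_succ, Fin.sum_univ_succ] at h4
              rw [← ha.2]
              have h7 : a (Fin.succ 0) = a 1 := rfl
              rw [h7] at h4
              linarith
            rw [h6]
            exact ⟨h3 0, h3 1, h5 0, h5 1⟩)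
          rwa [Finset.card_image_of_injOn hinj] at h2
    have h2 : ((T.filter (fun a => a 0 + a 1 ≠ 0)).card : ℝ) ≤
        B * ((Aset S m N).card : ℝ) ^ n := by
      have h3 : ((T.filter (fun a => a 0 + a 1 ≠ 0)).card : ℝ) ≤
          ((⌊B⌋₊ * (Fintype.piFinset (fun _ : Fin n => Aset S m N)).card : ℕ) : ℝ) := by
        exact_mod_cast h1
      rw [Nat.cast_mul, piF_card] at h3
      refine le_trans h3 (mul_le_mul_of_nonneg_right (Nat.floor_le hB0) (by positivity))
    refine le_trans h2 (le_trans (mul_le_mul_of_nonneg_left hAn hB0) ?_)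
    have h4 : B * (C1 ^ n * (N : ℝ) ^ ((n : ℝ) * (1 / m + δ))) =
        C1 ^ n * C2 * (D : ℝ) ^ 4 * (N : ℝ) ^ ((n : ℝ) * (1 / m + δ) + ε2 / 2 / m) := by
      rw [hB, Real.rpow_add hN0]
      ring
    rw [h4, hR]
    refine mul_le_mul_of_nonneg_left (Real.rpow_le_rpow_of_exponent_le hNR hexp1) (by positivity)
  have hT2 : ((T.filter (fun a => ¬ a 0 + a 1 ≠ 0)).card : ℝ) ≤ R := by
    obtain ⟨n', rfl⟩ : ∃ n', n = n' + 1 := ⟨n - 1, by omega⟩
    have h1 : (T.filter (fun a => ¬ a 0 + a 1 ≠ 0)).card ≤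
        (Fintype.piFinset (fun _ : Fin (n' + 1) => Aset S m N)).card := by
      refine Finset.card_le_card_of_injOn
        (fun a => (Fin.cons (a 0) (fun i : Fin n' => a i.succ.succ.succ) : Fin (n' + 1) → ℤ)) ?_ ?_
      · intro a ha
        rw [Finset.mem_coe, Fintype.mem_piFinset]
        intro i
        have h3 := (hT a (Finset.mem_of_mem_filter a ha)).1
        refine Fin.cases ?_ (fun j => ?_) i
        · simpa using h3 0
        · simpa using h3 _
      · intro a ha b hb hab
        rw [Finset.mem_coe, Finset.mem_filter, not_not] at ha hb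
        have h2 := (hT a ha.1).2.1
        have h3 := (hT b hb.1).2.1
        rw [Fin.sum_univ_succ, Fin.sum_univ_succ, Fin.sum_univ_succ] at h2 h3
        have hab0 : a 0 = b 0 := by
          have := congrFun hab 0
          simpa using this
        have h4 : ∀ i : Fin n', a i.succ.succ.succ = b i.succ.succ.succ := by
          intro i
          have := congrFun hab i.succ
          simpa using this
        have ha1 := ha.2
        have hb1 := hb.2
        have e1 : a (Fin.succ 0) = a 1 := rfl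
        have e2 : b (Fin.succ 0) = b 1 := rfl
        rw [e1] at h2
        rw [e2] at h3
        rw [Finset.sum_congr rfl (fun i _ => h4 i)] at h2
        funext i
        refine Fin.cases hab0 (fun j => ?_) i
        refine Fin.cases ?_ (fun l => ?_) j
        · rw [e1, e2]; linarith
        · refine Fin.cases ?_ (fun r => h4 r) l
          linarith
    have h2 : ((T.filter (fun a => ¬ a 0 + a 1 ≠ 0)).card : ℝ) ≤
        ((Aset S m N).card : ℝ) ^ (n' + 1) := by
      rw [← piF_card]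
      exact_mod_cast h1
    refine le_trans h2 (le_trans hAn ?_)
    rw [hR]
    have h3 : C1 ^ (n' + 1) ≤ C1 ^ (n' + 1) * C2 * (D : ℝ) ^ 4 := by
      have h4 : (1 : ℝ) ≤ C2 * (D : ℝ) ^ 4 := by nlinarith
      nlinarith
    refine mul_le_mul h3 (Real.rpow_le_rpow_of_exponent_le hNR hexp2) (by positivity)
      (by positivity)
  have hsplit := Finset.card_filter_add_card_filter_not (s := T) (fun a => a 0 + a 1 ≠ 0)
  have hsplit' : (T.card : ℝ) = ((T.filter (fun a => a 0 + a 1 ≠ 0)).card : ℝ) +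
      ((T.filter (fun a => ¬ a 0 + a 1 ≠ 0)).card : ℝ) := by
    exact_mod_cast hsplit.symm
  rw [hsplit']
  calc _ ≤ R + R := add_le_add hT1 hT2
    _ = _ := by rw [hR]; ring

end Pool.Agent.Helper91.CPX
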