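import Pool.Agent.Helper91.CPX.Regime1
import Pool.Agent.Helper91.CPX.Regime2
import Pool.Agent.Helper91.CPX.Greedy

/-!
CPX-A16. The count of solutions of `∑ a i = 0`.

Proof. Put `P = (n+2)^2`, `κ = min (ε/4) 1`, `H = ⌈2/κ⌉₊ + 1`, `ε2 = ε/4`, `m0` from `regime2`, `m1` large: `m1 ≥ m0`, `m1 ≥ 64 P / ε`. For `m ≥ m1` and
`N ≥ 1` let `D0 = ⌈16 N^(4/m^2)⌉₊ ≤ 17 N^(4/m^2)`, `D = D0^P`, `W = ⌈N^(κ/(2m))⌉₊ ≤ 2 N^(κ/(2m))`, so `N ≤ W^(H m)`, `1 ≤ W, D`, and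
`2^(4m^2) N^4 ≤ D0^(m^2)`.
Split `T`. (A) the `a` with `radW S W (a i) ≤ D` for all `i`: `regime2`: at most `C D^4 N^((n+ε2)/m)`.
(B) otherwise some `i` has `radW S W (a i) > D`; `greedy` (`Q` the set of primes in the definition of `radW`) gives `Q' ⊆ Q` with
`D ≤ ∏ Q' ≤ D W`; `pair_sel` gives `j, l, Q'' ⊆ Q'` with `D0^P = D ≤ ∏ Q' ≤ (∏ Q'')^P`, so `d := ∏ Q'' ≥ D0`, `d ≤ D W` (a subproduct).
`d^m ∣ a i` (`NFull S m`, the primes are not in `S`; coprime prime powers: `Finset.prod_dvd_of_coprime` / `Finset.prod_coprime_dvd`),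
`a j, a l` coprime to `d`, `2^(4m^2) N^4 ≤ D0^(m^2) ≤ (d^m)^m`. `regime1` with `V = D W`, `ε/(8m)`: at most
`C D W N^(n/m + ε/(8m))`.
Sizes: `D^4 ≤ 17^(4P) N^(16 P/m^2)` and `16 P/m^2 ≤ (ε/4)/m`; `D W ≤ C N^(4P/m^2 + κ/(2m))`. All exponents are at most `(n + ε)/m`.
-/

open Pool.Agent.Helper87.Camp Pool.Agent.Helper10

namespace Pool.Agent.Helper91.CPX

theorem ap_bound (n : ℕ) (hn : 1 ≤ n) (ε : ℝ) (hε : 0 < ε) :
    ∃ m1 : ℕ, 1 ≤ m1 ∧ ∀ m : ℕ, m1 ≤ m → ∀ S : Finset ℕ, ∃ C : ℝ, 1 ≤ C ∧ ∀ N : ℕ, 1 ≤ N →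
      ∀ T : Finset (Fin (n + 2) → ℤ),
      (∀ a ∈ T, (∀ i, a i ∈ Aset S m N) ∧ ∑ i, a i = 0 ∧
        ∀ p : ℕ, p.Prime → p ∉ S → ∃ j l, j ≠ l ∧ ¬ (p : ℤ) ∣ a j ∧ ¬ (p : ℤ) ∣ a l) →
      (T.card : ℝ) ≤ C * (N : ℝ) ^ (((n : ℝ) + ε) / (m : ℝ)) := by
  classical
  set P : ℕ := (n + 2) ^ 2 with hP
  have hP0 : P ≠ 0 := by rw [hP]; positivity
  set κ : ℝ := min (ε / 4) 1 with hκ
  have hκ0 : 0 < κ := lt_min (by linarith) one_pos
  have hκε : κ ≤ ε / 4 := min_le_left _ _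
  set H : ℕ := ⌈2 / κ⌉₊ + 1 with hHdef
  have hH : 1 ≤ H := by omega
  have hHκ : 2 / κ ≤ (H : ℝ) := by
    have h1 : 2 / κ ≤ (⌈2 / κ⌉₊ : ℝ) := Nat.le_ceil _
    rw [hHdef]; push_cast; linarith
  obtain ⟨m0, hm0, hreg2⟩ := regime2 n hn H hH (ε / 4) (by linarith)
  refine ⟨max m0 (⌈64 * (P : ℝ) / ε⌉₊ + 1), le_trans hm0 (le_max_left _ _), ?_⟩
  intro m hm S
  have hmm0 : m0 ≤ m := le_trans (le_max_left _ _) hm
  have hm1 : 1 ≤ m := le_trans hm0 hmm0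
  have hmR : (0 : ℝ) < (m : ℝ) := by exact_mod_cast hm1
  have hmP : 64 * (P : ℝ) / ε ≤ (m : ℝ) := by
    have h1 : 64 * (P : ℝ) / ε ≤ (⌈64 * (P : ℝ) / ε⌉₊ : ℝ) := Nat.le_ceil _
    have h2 : ⌈64 * (P : ℝ) / ε⌉₊ + 1 ≤ m := le_trans (le_max_right _ _) hm
    have h3 : ((⌈64 * (P : ℝ) / ε⌉₊ : ℝ) + 1) ≤ (m : ℝ) := by exact_mod_cast h2
    linarith
  have hmP' : 64 * (P : ℝ) ≤ m * ε := (div_le_iff₀ hε).mp hmP
  obtain ⟨C1, hC1, hc1⟩ := hreg2 m hmm0 S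
  obtain ⟨C2, hC2, hc2⟩ := regime1 n m hn hm1 S (ε / (8 * m)) (by positivity)
  have hP17 : (1 : ℝ) ≤ 17 ^ P := one_le_pow₀ (by norm_num)
  have hP17' : (1 : ℝ) ≤ 17 ^ (P * 4) := one_le_pow₀ (by norm_num)
  refine ⟨C1 * 17 ^ (P * 4) + C2 * (17 ^ P * 2), ?_, ?_⟩
  · have h1 : 1 ≤ C1 * (17 : ℝ) ^ (P * 4) := one_le_mul_of_one_le_of_one_le hC1 hP17'
    have h2 : 0 ≤ C2 * ((17 : ℝ) ^ P * 2) := by positivity
    linarith
  intro N hN T hT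
  have hNR : (1 : ℝ) ≤ (N : ℝ) := by exact_mod_cast hN
  have hN0 : (0 : ℝ) < (N : ℝ) := by linarith
  -- the parameters
  set x0 : ℝ := (N : ℝ) ^ (4 / (m : ℝ) ^ 2) with hx0
  have hx01 : 1 ≤ x0 := Real.one_le_rpow hNR (by positivity)
  set D0 : ℕ := ⌈16 * x0⌉₊ with hD0
  have hD0l : 16 * x0 ≤ (D0 : ℝ) := Nat.le_ceil _
  have hD0u : (D0 : ℝ) ≤ 17 * x0 := by
    have := Nat.ceil_lt_add_one (show 0 ≤ 16 * x0 by positivity)
    linarith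
  have hD01 : 1 ≤ D0 := by
    have : (1 : ℝ) ≤ (D0 : ℝ) := by linarith
    exact_mod_cast this
  set w0 : ℝ := (N : ℝ) ^ (κ / (2 * (m : ℝ))) with hw0
  have hw01 : 1 ≤ w0 := Real.one_le_rpow hNR (by positivity)
  set W : ℕ := ⌈w0⌉₊ with hW
  have hWl : w0 ≤ (W : ℝ) := Nat.le_ceil _
  have hWu : (W : ℝ) ≤ 2 * w0 := by
    have := Nat.ceil_lt_add_one (show 0 ≤ w0 by positivity)
    linarith
  have hW1 : 1 ≤ W := by
    have : (1 : ℝ) ≤ (W : ℝ) := by linarith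
    exact_mod_cast this
  set D : ℕ := D0 ^ P with hD
  have hD1 : 1 ≤ D := Nat.one_le_pow _ _ hD01
  -- `N ≤ W ^ (H m)`
  have hNW : N ≤ W ^ (H * m) := by
    have h1 : (N : ℝ) ≤ (W : ℝ) ^ (H * m) := by
      calc (N : ℝ) = (N : ℝ) ^ (1 : ℝ) := (Real.rpow_one _).symm
        _ ≤ (N : ℝ) ^ ((κ / (2 * (m : ℝ))) * ((H * m : ℕ) : ℝ)) := by
          apply Real.rpow_le_rpow_of_exponent_le hNR
          have h2 : 2 ≤ (H : ℝ) * κ := (div_le_iff₀ hκ0).mp hHκ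
          push_cast
          rw [div_mul_eq_mul_div, le_div_iff₀ (by positivity)]
          nlinarith
        _ = w0 ^ (H * m) := by
          rw [Real.rpow_mul hN0.le, Real.rpow_natCast]
        _ ≤ (W : ℝ) ^ (H * m) := pow_le_pow_left₀ (by positivity) hWl _
    exact_mod_cast h1
  -- `2 ^ (4 m ^ 2) N ^ 4 ≤ D0 ^ (m ^ 2)`
  have hbig : 2 ^ (4 * m ^ 2) * N ^ 4 ≤ D0 ^ (m * m) := by
    have h1 : ((2 : ℝ) ^ (4 * m ^ 2) * (N : ℝ) ^ 4) ≤ (D0 : ℝ) ^ (m * m) := by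
      have h2 : x0 ^ (m * m) = (N : ℝ) ^ 4 := by
        rw [hx0, ← Real.rpow_natCast, ← Real.rpow_mul hN0.le]
        have h3 : 4 / (m : ℝ) ^ 2 * ((m * m : ℕ) : ℝ) = ((4 : ℕ) : ℝ) := by
          push_cast
          field_simp
        rw [h3, Real.rpow_natCast]
      calc ((2 : ℝ) ^ (4 * m ^ 2) * (N : ℝ) ^ 4) = (16 * x0) ^ (m * m) := by
            rw [mul_pow, h2, pow_mul, pow_two]; norm_num
        _ ≤ (D0 : ℝ) ^ (m * m) := pow_le_pow_left₀ (by positivity) hD0l _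
    exact_mod_cast h1
  -- splitting
  set T1 := T.filter (fun a => ∀ i, radW S W (a i) ≤ D) with hT1
  set T2 := T.filter (fun a => ¬ ∀ i, radW S W (a i) ≤ D) with hT2
  have hcard : T.card = T1.card + T2.card :=
    (Finset.card_filter_add_card_filter_not (s := T) _).symm
  have h1 : (T1.card : ℝ) ≤ C1 * (D : ℝ) ^ 4 * (N : ℝ) ^ (((n : ℝ) + ε / 4) / (m : ℝ)) := by
    apply hc1 N hN W D hD1 hNW T1
    intro a ha
    rw [hT1, Finset.mem_filter] at ha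
    exact ⟨(hT a ha.1).1, (hT a ha.1).2.1, ha.2⟩
  have h2 : (T2.card : ℝ) ≤
      C2 * ((D * W : ℕ) : ℝ) * (N : ℝ) ^ ((n : ℝ) / (m : ℝ) + ε / (8 * m)) := by
    apply hc2 N hN (D * W) T2
    intro a ha
    rw [hT2, Finset.mem_filter] at ha
    obtain ⟨haT, hrad⟩ := ha
    obtain ⟨hA, hsum, hpr⟩ := hT a haT
    refine ⟨hA, hsum, ?_⟩
    push Not at hrad
    obtain ⟨i, hi⟩ := hrad
    have hai : a i ≠ 0 := (mem_Aset.mp (hA i)).1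
    have hfull : NFull S m (a i).natAbs := (mem_Aset.mp (hA i)).2.2
    set Q : Finset ℕ := (a i).natAbs.primeFactors.filter (fun p => p ∉ S ∧ p ≤ W) with hQ
    have hQm : ∀ p ∈ Q, p.Prime ∧ p ∣ (a i).natAbs ∧ p ∉ S ∧ p ≤ W := by
      intro p hp
      rw [hQ, Finset.mem_filter, Nat.mem_primeFactors] at hp
      exact ⟨hp.1.1, hp.1.2.1, hp.2.1, hp.2.2⟩
    have hradQ : radW S W (a i) = ∏ p ∈ Q, p := rfl
    rcases greedy Q W D (fun p hp => ⟨(hQm p hp).1.one_lt.le, (hQm p hp).2.2.2⟩) hD1 hW1 with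
      hlt | ⟨Q', hQ'Q, hQl, hQu⟩
    · exact absurd hlt (by rw [← hradQ]; omega)
    obtain ⟨j, l, hij, hil, hjl, Q2, hQ2, hprod, hcop⟩ := pair_sel hn a i Q' (by
      intro p hp
      obtain ⟨hpp, hpd, hpS, hpW⟩ := hQm p (hQ'Q hp)
      exact ⟨hpp, Int.natCast_dvd.mpr hpd, hpr p hpp hpS⟩)
    have hQ2m : ∀ p ∈ Q2, p.Prime ∧ p ∣ (a i).natAbs ∧ p ∉ S ∧ p ≤ W :=
      fun p hp => hQm p (hQ'Q (hQ2 hp))
    set d : ℕ := ∏ p ∈ Q2, p with hd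
    have hd1 : 1 ≤ d := Finset.prod_pos fun p hp => (hQ2m p hp).1.pos
    have hD0d : D0 ≤ d := by
      have h3 : D0 ^ P ≤ d ^ P := le_trans hQl hprod
      exact (Nat.pow_le_pow_iff_left hP0).mp h3
    have hdu : d ≤ D * W := by
      refine le_trans ?_ hQu
      exact Finset.prod_le_prod_of_subset_of_one_le' hQ2
        (fun p hp _ => (hQm p (hQ'Q hp)).1.one_lt.le)
    refine ⟨i, j, l, hij, hil, hjl, d, hd1, hdu, ?_, ?_, ?_, ?_⟩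
    · rw [Int.natCast_dvd, hd, ← Finset.prod_pow]
      apply Finset.prod_dvd_of_isRelPrime
      · intro p hp q hq hpq
        have hp' := (hQ2m p (Finset.mem_coe.mp hp)).1
        have hq' := (hQ2m q (Finset.mem_coe.mp hq)).1
        exact Nat.coprime_iff_isRelPrime.mp
          (Nat.Coprime.pow m m ((Nat.coprime_primes hp' hq').mpr hpq))
      · intro p hp
        obtain ⟨hpp, hpd, hpS, _⟩ := hQ2m p hp
        exact hfull p hpp hpS hpd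
    · rw [hd]
      push_cast
      apply IsCoprime.prod_right
      intro p hp
      rw [Int.isCoprime_iff_gcd_eq_one, Int.gcd_comm, Int.gcd_eq_natAbs_gcd_natAbs, Int.natAbs_natCast]
      exact (Nat.Prime.coprime_iff_not_dvd (hQ2m p hp).1).mpr
        (fun h => (hcop p hp).1 (Int.natCast_dvd.mpr h))
    · rw [hd]
      push_cast
      apply IsCoprime.prod_right
      intro p hp
      rw [Int.isCoprime_iff_gcd_eq_one, Int.gcd_comm, Int.gcd_eq_natAbs_gcd_natAbs, Int.natAbs_natCast]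
      exact (Nat.Prime.coprime_iff_not_dvd (hQ2m p hp).1).mpr
        (fun h => (hcop p hp).2 (Int.natCast_dvd.mpr h))
    · rw [← pow_mul]
      exact le_trans hbig (Nat.pow_le_pow_left hD0d _)
  -- sizes
  have hDle : (D : ℝ) ≤ 17 ^ P * x0 ^ P := by
    rw [hD]; push_cast
    rw [← mul_pow]
    exact pow_le_pow_left₀ (by positivity) hD0u _
  have hD0' : (0 : ℝ) ≤ (D : ℝ) := by positivity
  have hx0P : x0 ^ P = (N : ℝ) ^ (4 * (P : ℝ) / (m : ℝ) ^ 2) := by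
    rw [hx0, ← Real.rpow_natCast, ← Real.rpow_mul hN0.le]
    congr 1
    ring
  have hx0P4 : x0 ^ (P * 4) = (N : ℝ) ^ (16 * (P : ℝ) / (m : ℝ) ^ 2) := by
    rw [hx0, ← Real.rpow_natCast, ← Real.rpow_mul hN0.le]
    congr 1
    push_cast
    ring
  have h3 : (T1.card : ℝ) ≤ C1 * 17 ^ (P * 4) * (N : ℝ) ^ (((n : ℝ) + ε) / (m : ℝ)) := by
    have h4 : (D : ℝ) ^ 4 ≤ 17 ^ (P * 4) * x0 ^ (P * 4) := by
      calc (D : ℝ) ^ 4 ≤ (17 ^ P * x0 ^ P) ^ 4 := pow_le_pow_left₀ hD0' hDle 4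
        _ = _ := by rw [mul_pow, ← pow_mul, ← pow_mul]
    have h5 : x0 ^ (P * 4) * (N : ℝ) ^ (((n : ℝ) + ε / 4) / (m : ℝ)) ≤
        (N : ℝ) ^ (((n : ℝ) + ε) / (m : ℝ)) := by
      rw [hx0P4, ← Real.rpow_add hN0]
      apply Real.rpow_le_rpow_of_exponent_le hNR
      rw [div_add_div _ _ (by positivity) (by positivity), div_le_div_iff₀ (by positivity)
        (by positivity)]
      have h6 : 16 * (P : ℝ) ≤ m * ε / 4 := by linarith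
      have h7 : 16 * (P : ℝ) * m + (m : ℝ) ^ 2 * (n + ε / 4) ≤ (m : ℝ) ^ 2 * (n + ε) := by
        nlinarith
      nlinarith [h7, sq_nonneg (m : ℝ)]
    calc (T1.card : ℝ) ≤ C1 * (D : ℝ) ^ 4 * (N : ℝ) ^ (((n : ℝ) + ε / 4) / (m : ℝ)) := h1
      _ ≤ C1 * (17 ^ (P * 4) * x0 ^ (P * 4)) * (N : ℝ) ^ (((n : ℝ) + ε / 4) / (m : ℝ)) := by
        gcongr
      _ = C1 * 17 ^ (P * 4) * (x0 ^ (P * 4) * (N : ℝ) ^ (((n : ℝ) + ε / 4) / (m : ℝ))) := by ring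
      _ ≤ _ := by gcongr
  have h4 : (T2.card : ℝ) ≤ C2 * (17 ^ P * 2) * (N : ℝ) ^ (((n : ℝ) + ε) / (m : ℝ)) := by
    have h5 : ((D * W : ℕ) : ℝ) ≤ (17 ^ P * x0 ^ P) * (2 * w0) := by
      push_cast
      gcongr
    have h6 : x0 ^ P * w0 * (N : ℝ) ^ ((n : ℝ) / (m : ℝ) + ε / (8 * m)) ≤
        (N : ℝ) ^ (((n : ℝ) + ε) / (m : ℝ)) := by
      rw [hx0P, hw0, ← Real.rpow_add hN0, ← Real.rpow_add hN0]
      apply Real.rpow_le_rpow_of_exponent_le hNR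
      have h8 : 4 * (P : ℝ) / (m : ℝ) ^ 2 ≤ (ε / 16) / m := by
        rw [div_le_div_iff₀ (by positivity) hmR]
        nlinarith
      have h9 : κ / (2 * (m : ℝ)) ≤ (ε / 8) / m := by
        rw [div_le_div_iff₀ (by positivity) hmR]
        nlinarith
      have h10 : ε / (8 * (m : ℝ)) = (ε / 8) / m := by
        field_simp
      have h11 : (ε / 16) / m + (ε / 8) / m + ((n : ℝ) / m + (ε / 8) / m) =
          ((n : ℝ) + (5 / 16) * ε) / m := by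
        field_simp
        ring
      have h12 : ((n : ℝ) + (5 / 16) * ε) / m ≤ ((n : ℝ) + ε) / (m : ℝ) := by
        gcongr
        linarith
      rw [h10]
      linarith
    calc (T2.card : ℝ) ≤ C2 * ((D * W : ℕ) : ℝ) * (N : ℝ) ^ ((n : ℝ) / (m : ℝ) + ε / (8 * m)) := h2
      _ ≤ C2 * ((17 ^ P * x0 ^ P) * (2 * w0)) * (N : ℝ) ^ ((n : ℝ) / (m : ℝ) + ε / (8 * m)) := by
        gcongr
      _ = C2 * (17 ^ P * 2) * (x0 ^ P * w0 * (N : ℝ) ^ ((n : ℝ) / (m : ℝ) + ε / (8 * m))) := by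
        ring
      _ ≤ _ := by gcongr
  rw [hcard]
  push_cast
  linarith

end Pool.Agent.Helper91.CPX
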