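import Mathlib

/-!
Project CPX (MP_464c42_nt), definitions.

* `Zb F`: the ring of integer sequences which are bounded by a fixed power of `X ν` for almost all `ν`,
  `K0 F` the field of fractions of its quotient by the sequences vanishing almost everywhere, `toK F` the
  canonical map. Almost all refers to the ultrafilter `F.U`.
* `vanIdeal F T`: the ideal of polynomials over `K0 F` vanishing at all sections of the point sets `T ν`.
* `Large F M T`: the function `M ν` takes at least `X ^ δ` values on `T ν` for almost all `ν`, for some `δ > 0`.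
* `subst G i P`: the element `P(G; z_i)` of the polynomial ring in the `z`.
* `coeffDeriv j P`: derivative of the coefficients with respect to `t_j`.
* `gE`: the numerator of the logarithmic derivative.
* `conv i P`: a polynomial in the `t` and one more variable, as a polynomial in all `t` and `z`.
* `jac g j0 Q`: the Jacobian determinant with respect to `t_{j0}` and all `z_i`.
-/

open MvPolynomial

namespace Pool.Agent.Helper91.CPX

/-- No small integers `p, q` with `a q = k p`. -/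
def NoSmallRatio (a k L : ℤ) : Prop :=
  ∀ p q : ℤ, |p| ≤ L → |q| ≤ L → a * q = k * p → p = 0 ∧ q = 0

structure Frame where
  U : Ultrafilter ℕ
  X : ℕ → ℕ
  two_le : ∀ ν, 2 ≤ X ν
  tends : ∀ C : ℕ, ∀ᶠ ν in (U : Filter ℕ), C ≤ X ν

theorem Frame.one_le (F : Frame) (ν : ℕ) : (1 : ℤ) ≤ (F.X ν : ℤ) := by
  have := F.two_le ν
  exact_mod_cast (by omega : 1 ≤ F.X ν)

theorem Frame.two_le' (F : Frame) (ν : ℕ) : (2 : ℤ) ≤ (F.X ν : ℤ) := by
  exact_mod_cast F.two_le ν

theorem Frame.pow_mono (F : Frame) (ν : ℕ) {a b : ℕ} (h : a ≤ b) :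
    (F.X ν : ℤ) ^ a ≤ (F.X ν : ℤ) ^ b :=
  pow_le_pow_right₀ (F.one_le ν) h

/-- The ring of sequences of polynomial growth in `X`. -/
def Zb (F : Frame) : Subring (ℕ → ℤ) where
  carrier := {z | ∃ C : ℕ, ∀ᶠ ν in (F.U : Filter ℕ), |z ν| ≤ (F.X ν : ℤ) ^ C}
  mul_mem' := by
    rintro a b ⟨C, hC⟩ ⟨D, hD⟩
    refine ⟨C + D, ?_⟩
    filter_upwards [hC, hD] with ν h1 h2
    rw [Pi.mul_apply, abs_mul, pow_add]
    exact mul_le_mul h1 h2 (abs_nonneg _) (by positivity)
  one_mem' := ⟨0, by simp⟩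
  add_mem' := by
    rintro a b ⟨C, hC⟩ ⟨D, hD⟩
    refine ⟨C + D + 1, ?_⟩
    filter_upwards [hC, hD] with ν h1 h2
    have h3 := F.pow_mono ν (show C ≤ C + D by omega)
    have h4 := F.pow_mono ν (show D ≤ C + D by omega)
    have h5 := F.two_le' ν
    have h6 : (0 : ℤ) < (F.X ν : ℤ) ^ (C + D) := by have := F.one_le ν; positivity
    rw [Pi.add_apply, pow_succ]
    calc |a ν + b ν| ≤ |a ν| + |b ν| := abs_add_le _ _
      _ ≤ (F.X ν : ℤ) ^ (C + D) * 2 := by linarith
      _ ≤ _ := by nlinarith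
  zero_mem' := ⟨0, by simp⟩
  neg_mem' := by
    rintro a ⟨C, hC⟩
    refine ⟨C, ?_⟩
    filter_upwards [hC] with ν h1
    simpa using h1

/-- Sequences that vanish almost everywhere. -/
def nullIdeal (F : Frame) : Ideal (Zb F) where
  carrier := {z | ∀ᶠ ν in (F.U : Filter ℕ), (z : ℕ → ℤ) ν = 0}
  add_mem' := by
    intro a b ha hb
    filter_upwards [ha, hb] with ν h1 h2
    have : ((a + b : Zb F) : ℕ → ℤ) ν = (a : ℕ → ℤ) ν + (b : ℕ → ℤ) ν := rfl
    rw [this, h1, h2, add_zero]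
  zero_mem' := Filter.Eventually.of_forall fun ν => rfl
  smul_mem' := by
    intro c a ha
    filter_upwards [ha] with ν h1
    have : ((c • a : Zb F) : ℕ → ℤ) ν = (c : ℕ → ℤ) ν * (a : ℕ → ℤ) ν := rfl
    rw [this, h1, mul_zero]

instance nullIdeal_isPrime (F : Frame) : (nullIdeal F).IsPrime where
  ne_top' := by
    intro h
    have h1 : (1 : Zb F) ∈ nullIdeal F := h ▸ Submodule.mem_top
    have h2 : ∀ᶠ ν in (F.U : Filter ℕ), ((1 : Zb F) : ℕ → ℤ) ν = 0 := h1
    obtain ⟨ν, hν⟩ := h2.exists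
    exact one_ne_zero (α := ℤ) hν
  mem_or_mem' := by
    intro a b hab
    have h1 : ∀ᶠ ν in (F.U : Filter ℕ), ((a * b : Zb F) : ℕ → ℤ) ν = 0 := hab
    have h2 : ∀ᶠ ν in (F.U : Filter ℕ), (a : ℕ → ℤ) ν = 0 ∨ (b : ℕ → ℤ) ν = 0 := by
      filter_upwards [h1] with ν h
      exact mul_eq_zero.mp h
    exact Ultrafilter.eventually_or.mp h2

/-- The field of fractions of the ring of germs. -/
abbrev K0 (F : Frame) := FractionRing (Zb F ⧸ nullIdeal F)

/-- The canonical map. -/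
noncomputable def toK (F : Frame) : Zb F →+* K0 F :=
  (algebraMap (Zb F ⧸ nullIdeal F) (K0 F)).comp (Ideal.Quotient.mk (nullIdeal F))

/-- Evaluation of a sequence at `ν`. -/
def evAt (F : Frame) (ν : ℕ) : Zb F →+* ℤ :=
  (Pi.evalRingHom (fun _ : ℕ => ℤ) ν).comp (Zb F).subtype

theorem evAt_apply (F : Frame) (ν : ℕ) (z : Zb F) : evAt F ν z = (z : ℕ → ℤ) ν := rfl

section points

variable {ι : Type} [Fintype ι] [DecidableEq ι]

/-- `P` is a section of the family of point sets `T`. -/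
def IsSec (F : Frame) (T : ℕ → Finset (ι → ℤ)) (P : ι → Zb F) : Prop :=
  ∀ᶠ ν in (F.U : Filter ℕ), (fun i => (P i : ℕ → ℤ) ν) ∈ T ν

/-- The ideal of the polynomials over `K0 F` vanishing at all sections of `T`. -/
def vanIdeal (F : Frame) (T : ℕ → Finset (ι → ℤ)) : Ideal (MvPolynomial ι (K0 F)) where
  carrier := {f | ∀ P : ι → Zb F, IsSec F T P → eval (fun i => toK F (P i)) f = 0}
  add_mem' := by
    intro a b ha hb P hP
    rw [map_add, ha P hP, hb P hP, add_zero]
  zero_mem' := by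
    intro P _
    rw [map_zero]
  smul_mem' := by
    intro c a ha P hP
    rw [smul_eq_mul, map_mul, ha P hP, mul_zero]

/-- All coordinates of all points are in `[1, X ν]`. -/
def Bdd (F : Frame) (T : ℕ → Finset (ι → ℤ)) : Prop :=
  ∀ ν, ∀ z ∈ T ν, ∀ i, 1 ≤ z i ∧ z i ≤ (F.X ν : ℤ)

/-- `M ν` takes at least `X ν ^ δ` values on `T ν`, for almost all `ν`, for some `δ > 0`. -/
def Large (F : Frame) (M : ℕ → (ι → ℤ) → ℤ) (T : ℕ → Finset (ι → ℤ)) : Prop :=
  ∃ δ : ℝ, 0 < δ ∧ ∀ᶠ ν in (F.U : Filter ℕ), (F.X ν : ℝ) ^ δ ≤ (((T ν).image (M ν)).card : ℝ)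

end points

section algebra

variable {S : Type} [CommRing S] {ι : Type} [Fintype ι] [DecidableEq ι] {d : ℕ}

/-- Derivative of the coefficients with respect to `t_j`. -/
noncomputable def coeffDeriv (j : Fin d) (P : Polynomial (MvPolynomial (Fin d) S)) :
    Polynomial (MvPolynomial (Fin d) S) :=
  ∑ n ∈ P.support, Polynomial.monomial n (pderiv j (P.coeff n))

/-- `P(G; z_i)`. -/
noncomputable def subst (G : Fin d → MvPolynomial ι S) (i : ι)
    (P : Polynomial (MvPolynomial (Fin d) S)) : MvPolynomial ι S :=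
  Polynomial.eval₂ (aeval G : MvPolynomial (Fin d) S →ₐ[S] MvPolynomial ι S).toRingHom (X i) P

/-- The numerator of the logarithmic derivative of `∏ z_i ^ e_i`, `i ∈ x`, with respect to `t_j`. -/
noncomputable def gE (e : ι → S) (x : Finset ι) (ρ : ι → Polynomial (MvPolynomial (Fin d) S))
    (G : Fin d → MvPolynomial ι S) (j : Fin d) : MvPolynomial ι S :=
  ∑ i ∈ x, C (e i) * subst G i (coeffDeriv j (ρ i)) *
    ∏ i' ∈ Finset.univ.erase i, (subst G i' (Polynomial.derivative (ρ i')) * X i')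

/-- A polynomial in `t` and `z_i` as a polynomial in all `t` and `z`. -/
noncomputable def conv (i : ι) (P : Polynomial (MvPolynomial (Fin d) S)) :
    MvPolynomial (Fin d ⊕ ι) S :=
  Polynomial.eval₂
    (rename Sum.inl : MvPolynomial (Fin d) S →ₐ[S] MvPolynomial (Fin d ⊕ ι) S).toRingHom
    (X (Sum.inr i)) P

/-- The Jacobian determinant with respect to `t_{j0}` and all `z_i`. -/
noncomputable def jac (g : Option ι → MvPolynomial (Fin d ⊕ ι) ℤ) (j0 : Fin d)
    (Q : Fin d ⊕ ι → ℤ) : ℤ :=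
  Matrix.det (Matrix.of fun a b : Option ι =>
    eval Q (pderiv (b.elim (Sum.inl j0) Sum.inr) (g a)))

/-- The point `(G(z), z)`. -/
noncomputable def graphPt (G : Fin d → MvPolynomial ι ℤ) (z : ι → ℤ) : Fin d ⊕ ι → ℤ :=
  Sum.elim (fun j => eval z (G j)) z

end algebra

/-- The polynomial `α ∏ x_i ^ e_i + β ∏ y_j ^ f_j - k`. -/
noncomputable def Fpoly {d n1 n2 : ℕ} (α β k : ℤ) (e : Fin n1 → ℕ) (f : Fin n2 → ℕ) :
    MvPolynomial (Fin d ⊕ (Fin n1 ⊕ Fin n2)) ℤ :=
  C α * ∏ i, X (Sum.inr (Sum.inl i)) ^ e i + C β * ∏ j, X (Sum.inr (Sum.inr j)) ^ f j - C k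

/-- The indices of the `x`. -/
def xs (n1 n2 : ℕ) : Finset (Fin n1 ⊕ Fin n2) := Finset.univ.map Function.Embedding.inl

/-- The indices of the `y`. -/
def ys (n1 n2 : ℕ) : Finset (Fin n1 ⊕ Fin n2) := Finset.univ.map Function.Embedding.inr

end Pool.Agent.Helper91.CPX
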