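import Pool.Agent.Helper87.Camp.Proj
import Pool.Agent.Helper91.CPX.Defs

/-!
Project CPX (MP_464c42_nt), definitions of the arithmetic part.
-/

open Pool.Agent.Helper87.Camp Pool.Agent.Helper10

namespace Pool.Agent.Helper91.CPX

/-- The number of collisions of `h` on `s`. -/
def coll {A G : Type} [DecidableEq G] (s : Finset A) (h : A → G) : ℕ :=
  ((s ×ˢ s).filter (fun p => h p.1 = h p.2)).card

/-- The positive integers up to `Z` which are coprime to `q`. -/
def Yq (q Z : ℕ) : Finset ℕ := (Finset.Icc 1 Z).filter (fun y => Nat.Coprime y q)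

/-- The residue class of `y` as a unit modulo `q` (if `y` is coprime to `q`). -/
def uq (q y : ℕ) : (ZMod q)ˣ := if h : Nat.Coprime y q then ZMod.unitOfCoprime y h else 1

/-- The product of the primes `p ≤ W`, `p ∉ S`, dividing `a`. -/
def radW (S : Finset ℕ) (W : ℕ) (a : ℤ) : ℕ :=
  ∏ p ∈ a.natAbs.primeFactors.filter (fun p => p ∉ S ∧ p ≤ W), p

end Pool.Agent.Helper91.CPX
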