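import Pool.Agent.Helper91.CPX.ArithDefs

/-!
CPX-A03. The moments.

Proof. There are at most `Z^k` tuples `u`. Fix `u`; the tuples `u'` colliding with `u` satisfy: `w' := ∏ u' i ≤ Z^k ≤ q` is
coprime to `q` and `(uq q w')^e = ∏ uq q (u' i)^e = v` is a fixed unit. By `roots_le` there are at most
`tau q ^ e ≤ B ^ e` possible units `uq q w'`, and `1 ≤ w' ≤ q` is determined by its residue class (two integers in `[1, q]`
congruent modulo `q` are equal). For given `w'` all `u' i` divide `w'`: at most `tau w' ^ k ≤ B ^ k` tuples.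
-/

open Pool.Agent.Helper87.Camp Pool.Agent.Helper10

namespace Pool.Agent.Helper91.CPX

private lemma mom_coe {q y : ℕ} (h : Nat.Coprime y q) : ((uq q y : (ZMod q)ˣ) : ZMod q) = (y : ZMod q) := by
  unfold uq
  rw [dif_pos h, ZMod.coe_unitOfCoprime]

private lemma mom_prod {q k : ℕ} (u : Fin k → ℕ) (hu : ∀ i, Nat.Coprime (u i) q) :
    ∏ i, uq q (u i) = uq q (∏ i, u i) := by
  have hc : Nat.Coprime (∏ i, u i) q := Nat.Coprime.prod_left fun i _ => hu i
  apply Units.ext
  rw [mom_coe hc, Units.coe_prod, Nat.cast_prod]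
  exact Finset.prod_congr rfl fun i _ => mom_coe (hu i)

private lemma mom_inj {q : ℕ} {w1 w2 : ℕ} (h1 : Nat.Coprime w1 q) (h2 : Nat.Coprime w2 q)
    (l1 : 1 ≤ w1) (l1' : w1 ≤ q) (l2 : 1 ≤ w2) (l2' : w2 ≤ q) (h : uq q w1 = uq q w2) :
    w1 = w2 := by
  have e1 : (w1 : ZMod q) = (w2 : ZMod q) := by
    rw [← mom_coe h1, ← mom_coe h2, h]
  have e2 : (q : ℤ) ∣ (w1 : ℤ) - w2 := by
    rw [← ZMod.intCast_zmod_eq_zero_iff_dvd]
    push_cast
    rw [e1, sub_self]
  obtain ⟨c, hc⟩ := e2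
  have hc0 : c = 0 := by
    rcases lt_trichotomy c 0 with h | h | h
    · exfalso; nlinarith
    · exact h
    · exfalso; nlinarith
  rw [hc0] at hc
  omega

theorem moment (q Z k e B : ℕ) [NeZero q] (he : 1 ≤ e) (hZ : Z ^ k ≤ q)
    (hB : ∀ w : ℕ, 1 ≤ w → w ≤ q → tau w ≤ B) :
    coll (Fintype.piFinset (fun _ : Fin k => Yq q Z)) (fun u => ∏ i, uq q (u i) ^ e) ≤
      Z ^ k * B ^ e * B ^ k := by
  classical
  set P := Fintype.piFinset (fun _ : Fin k => Yq q Z) with hP
  have hmem : ∀ u ∈ P, ∀ i, (1 ≤ u i ∧ u i ≤ Z) ∧ Nat.Coprime (u i) q := by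
    intro u hu i
    have h1 := Fintype.mem_piFinset.1 hu i
    unfold Yq at h1
    rw [Finset.mem_filter, Finset.mem_Icc] at h1
    exact h1
  have hPcard : P.card ≤ Z ^ k := by
    rw [hP, Fintype.card_piFinset, Finset.prod_const, Finset.card_univ, Fintype.card_fin]
    refine Nat.pow_le_pow_left ?_ k
    unfold Yq
    refine (Finset.card_filter_le _ _).trans ?_
    simp
  have hq1 : 1 ≤ q := Nat.one_le_iff_ne_zero.2 (NeZero.ne q)
  have hw1 : ∀ u ∈ P, 1 ≤ ∏ i, u i := fun u hu =>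
    Nat.one_le_iff_ne_zero.2 (Finset.prod_ne_zero_iff.2 fun i _ =>
      Nat.one_le_iff_ne_zero.1 (hmem u hu i).1.1)
  have hw2 : ∀ u ∈ P, ∏ i, u i ≤ q := by
    intro u hu
    refine le_trans ?_ hZ
    refine (Finset.prod_le_pow_card _ _ Z fun i _ => (hmem u hu i).1.2).trans ?_
    simp
  have hfib : ∀ v : (ZMod q)ˣ,
      (P.filter (fun u => ∏ i, uq q (u i) ^ e = v)).card ≤ B ^ e * B ^ k := by
    intro v
    set T := (Finset.Icc 1 q).filter (fun w => Nat.Coprime w q ∧ uq q w ^ e = v) with hT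
    have hTcard : T.card ≤ B ^ e := by
      refine le_trans ?_ ((roots_le e (by omega) q v).trans
        (Nat.pow_le_pow_left (hB q hq1 le_rfl) e))
      refine Finset.card_le_card_of_injOn (fun w => uq q w) ?_ ?_
      · intro w hw
        have hw' := Finset.mem_filter.1 (Finset.mem_coe.1 hw)
        rw [Finset.mem_coe, Finset.mem_filter]
        exact ⟨Finset.mem_univ _, hw'.2.2⟩
      · intro w hw w' hw' h
        have a := Finset.mem_filter.1 (Finset.mem_coe.1 hw)
        have b := Finset.mem_filter.1 (Finset.mem_coe.1 hw')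
        have a' := Finset.mem_Icc.1 a.1
        have b' := Finset.mem_Icc.1 b.1
        exact mom_inj a.2.1 b.2.1 a'.1 a'.2 b'.1 b'.2 h
    set s := P.filter (fun u => ∏ i, uq q (u i) ^ e = v) with hs
    have himg : s.image (fun u => ∏ i, u i) ⊆ T := by
      intro w hw
      obtain ⟨u, hu, rfl⟩ := Finset.mem_image.1 hw
      rw [hs, Finset.mem_filter] at hu
      rw [hT, Finset.mem_filter, Finset.mem_Icc]
      refine ⟨⟨hw1 u hu.1, hw2 u hu.1⟩, Nat.Coprime.prod_left fun i _ => (hmem u hu.1 i).2, ?_⟩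
      rw [← mom_prod u fun i => (hmem u hu.1 i).2, ← Finset.prod_pow]
      exact hu.2
    have h1 : s.card ≤ B ^ k * (s.image (fun u => ∏ i, u i)).card := by
      refine Finset.card_le_mul_card_image s (B ^ k) fun w hw => ?_
      obtain ⟨u0, hu0, rfl⟩ := Finset.mem_image.1 hw
      have hu0' := (Finset.mem_filter.1 hu0).1
      have h2 : (s.filter (fun u => ∏ i, u i = ∏ i, u0 i)) ⊆
          Fintype.piFinset (fun _ : Fin k => (∏ i, u0 i).divisors) := by
        intro u hu
        rw [Finset.mem_filter] at hu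
        rw [Fintype.mem_piFinset]
        intro i
        rw [Nat.mem_divisors]
        refine ⟨?_, Nat.one_le_iff_ne_zero.1 (hw1 u0 hu0')⟩
        rw [← hu.2]
        exact Finset.dvd_prod_of_mem _ (Finset.mem_univ i)
      refine (Finset.card_le_card h2).trans ?_
      rw [Fintype.card_piFinset, Finset.prod_const, Finset.card_univ, Fintype.card_fin]
      exact Nat.pow_le_pow_left (hB _ (hw1 u0 hu0') (hw2 u0 hu0')) k
    calc s.card ≤ B ^ k * (s.image (fun u => ∏ i, u i)).card := h1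
      _ ≤ B ^ k * B ^ e := Nat.mul_le_mul_left _ ((Finset.card_le_card himg).trans hTcard)
      _ = B ^ e * B ^ k := mul_comm _ _
  unfold coll
  have h3 : ((P ×ˢ P).filter (fun p : (Fin k → ℕ) × (Fin k → ℕ) =>
      (fun u : Fin k → ℕ => ∏ i, uq q (u i) ^ e) p.1 =
        (fun u : Fin k → ℕ => ∏ i, uq q (u i) ^ e) p.2)).card ≤
      B ^ e * B ^ k * P.card := by
    rw [Finset.card_filter, Finset.sum_product]
    have h4 : ∀ u ∈ P, (∑ u' ∈ P, if (∏ i, uq q (u i) ^ e) = ∏ i, uq q (u' i) ^ e then 1 else 0) ≤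
        B ^ e * B ^ k := by
      intro u _
      rw [← Finset.card_filter]
      refine le_trans (le_of_eq ?_) (hfib (∏ i, uq q (u i) ^ e))
      congr 1
      ext u'
      rw [Finset.mem_filter, Finset.mem_filter]
      constructor
      · rintro ⟨a, b⟩; exact ⟨a, b.symm⟩
      · rintro ⟨a, b⟩; exact ⟨a, b.symm⟩
    refine (Finset.sum_le_card_nsmul _ _ _ h4).trans ?_
    rw [smul_eq_mul, mul_comm]
  refine h3.trans ?_
  calc B ^ e * B ^ k * P.card ≤ B ^ e * B ^ k * Z ^ k := Nat.mul_le_mul_left _ hPcard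
    _ = Z ^ k * B ^ e * B ^ k := by ring

end Pool.Agent.Helper91.CPX
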