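import Pool.Agent.Helper91.CPX.CountHolder
import Pool.Agent.Helper91.CPX.Moment

/-!
CPX-A04. Collisions of `∏ y_j ^ (m + j)` in a box.

Proof. `count_holder` with `f j y = uq q y ^ (m + j)` and `k j = 2 m` if `Z j = 1`, `k j = Nat.log (Z j) q` if `Z j ≥ 2`.
In all cases `Z j ^ k j ≤ q` and `k j ≥ 1` (`Z j ^ 4 ≤ (∏ Z)^4 ≤ q`, so even `k j ≥ 4` for `Z j ≥ 2`). Sum of `1/k j`: the
`j` with `Z j = 1` contribute at most `m/(2m) = 1/2`; for `Z j ≥ 2`: `q < Z j ^ (k j + 1)` gives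
`1/(k j) ≤ 2/(k j + 1) < 2 log(Z j)/log q`, and `∑ log(Z j) ≤ (log q)/4`, contribution at most `1/2`.
By `moment` the `j`-th factor is at most `(Z j ^ k * B^(m+j) * B^k)^(1/k) ≤ Z j * B^(m+j) * B ≤ Z j * B^(2 m)`
(`B ≥ 1` because `tau 1 = 1`, `k ≥ 1`, `m + j + 1 ≤ 2 m`), and the product is at most `(∏ Z j) * B^(2 m * m)`.
-/

open Pool.Agent.Helper87.Camp Pool.Agent.Helper10

namespace Pool.Agent.Helper91.CPX

/-- the exponent used for the `j`-th variable -/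
private def kk (q m z : ℕ) : ℕ := if z = 1 then 2 * m else Nat.log z q

private lemma kk_pow (q m z : ℕ) [NeZero q] (hz : 1 ≤ z) : z ^ kk q m z ≤ q := by
  unfold kk
  split_ifs with h
  · rw [h, one_pow]
    exact Nat.one_le_iff_ne_zero.2 (NeZero.ne q)
  · exact Nat.pow_log_le_self z (NeZero.ne q)

private lemma kk_pos (q m z : ℕ) (hm : 1 ≤ m) (hz : 1 ≤ z) (hzq : z ^ 4 ≤ q) :
    1 ≤ kk q m z := by
  unfold kk
  split_ifs with h
  · omega
  · have h2 : 1 < z := by omega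
    have h3 : 4 ≤ Nat.log z q := by
      have h4 := Nat.log_mono_right (b := z) hzq
      rwa [Nat.log_pow h2] at h4
    omega

private lemma kk_inv (q m z : ℕ) [NeZero q] (hm : 1 ≤ m) (hz : 1 ≤ z) (hzq : z ^ 4 ≤ q) :
    (1 : ℝ) / (kk q m z : ℝ) ≤ 1 / (2 * (m : ℝ)) + 2 * Real.log z / Real.log q := by
  have hmR : (0 : ℝ) < m := by exact_mod_cast hm
  have hq1 : (1 : ℝ) ≤ q := by exact_mod_cast Nat.one_le_iff_ne_zero.2 (NeZero.ne q)
  have hL : 0 ≤ Real.log q := Real.log_nonneg hq1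
  have hz1 : (1 : ℝ) ≤ z := by exact_mod_cast hz
  have hlz : 0 ≤ Real.log z := Real.log_nonneg hz1
  have hk := kk_pos q m z hm hz hzq
  have hsec : 0 ≤ 2 * Real.log z / Real.log q := by positivity
  by_cases h : z = 1
  · have h1 : kk q m z = 2 * m := by unfold kk; rw [if_pos h]
    rw [h1]
    push_cast
    linarith
  · have h1 : kk q m z = Nat.log z q := by unfold kk; rw [if_neg h]
    have h2 : 1 < z := by omega
    have hlt : q < z ^ (kk q m z + 1) := by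
      rw [h1]
      exact Nat.lt_pow_succ_log_self h2 q
    have hq16 : 1 < q := by
      have : 2 ^ 4 ≤ z ^ 4 := Nat.pow_le_pow_left h2 4
      omega
    have hLpos : 0 < Real.log q := Real.log_pos (by exact_mod_cast hq16)
    have hltR : (q : ℝ) < (z : ℝ) ^ (kk q m z + 1) := by exact_mod_cast hlt
    have hlog : Real.log q < ((kk q m z : ℝ) + 1) * Real.log z := by
      have h3 := Real.log_lt_log (by linarith) hltR
      rw [Real.log_pow] at h3
      push_cast at h3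
      exact h3
    have hkR : (1 : ℝ) ≤ (kk q m z : ℝ) := by exact_mod_cast hk
    have h4 : (1 : ℝ) / (kk q m z : ℝ) ≤ 2 * Real.log z / Real.log q := by
      rw [div_le_div_iff₀ (by linarith) hLpos]
      nlinarith
    have h5 : 0 ≤ 1 / (2 * (m : ℝ)) := by positivity
    linarith

theorem box_coll (q m B : ℕ) [NeZero q] (hm : 1 ≤ m) (Z : Fin m → ℕ) (hZ1 : ∀ j, 1 ≤ Z j)
    (hZ : (∏ j, Z j) ^ 4 ≤ q) (hB : ∀ w : ℕ, 1 ≤ w → w ≤ q → tau w ≤ B) :
    (coll (Fintype.piFinset (fun j => Yq q (Z j)))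
      (fun y => ∏ j, uq q (y j) ^ (m + (j : ℕ))) : ℝ) ≤
      ((∏ j, Z j : ℕ) : ℝ) * (B : ℝ) ^ (2 * m * m) := by
  classical
  have hmR : (0 : ℝ) < m := by exact_mod_cast hm
  have hq1 : 1 ≤ q := Nat.one_le_iff_ne_zero.2 (NeZero.ne q)
  have hB1 : 1 ≤ B := by
    have := hB 1 le_rfl hq1
    have h1 : tau 1 = 1 := by simp [tau]
    omega
  have hB1R : (1 : ℝ) ≤ B := by exact_mod_cast hB1
  have hzq : ∀ j, Z j ^ 4 ≤ q := by
    intro j
    refine le_trans (Nat.pow_le_pow_left ?_ 4) hZ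
    exact Finset.single_le_prod' (f := fun j => Z j) (fun i _ => hZ1 i) (Finset.mem_univ j)
  set k : Fin m → ℕ := fun j => kk q m (Z j) with hk
  have hk1 : ∀ j, 1 ≤ k j := fun j => kk_pos q m (Z j) hm (hZ1 j) (hzq j)
  have hsum : ∑ j, (1 : ℝ) / (k j : ℝ) ≤ 1 := by
    have h1 : ∑ j, (1 : ℝ) / (k j : ℝ) ≤
        ∑ j : Fin m, (1 / (2 * (m : ℝ)) + 2 * Real.log (Z j) / Real.log q) :=
      Finset.sum_le_sum (fun j _ => kk_inv q m (Z j) hm (hZ1 j) (hzq j))
    refine h1.trans ?_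
    rw [Finset.sum_add_distrib, Finset.sum_const, Finset.card_univ, Fintype.card_fin,
      ← Finset.sum_div, ← Finset.mul_sum]
    have h2 : ∑ j, Real.log (Z j) = Real.log ((∏ j, Z j : ℕ) : ℝ) := by
      push_cast
      rw [Real.log_prod]
      intro j _
      have : (1 : ℝ) ≤ Z j := by exact_mod_cast hZ1 j
      positivity
    rw [h2, nsmul_eq_mul]
    have hP1 : 1 ≤ ∏ j, Z j := Finset.one_le_prod' (fun j _ => hZ1 j)
    have hP1R : (1 : ℝ) ≤ ((∏ j, Z j : ℕ) : ℝ) := by exact_mod_cast hP1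
    have h3 : 4 * Real.log ((∏ j, Z j : ℕ) : ℝ) ≤ Real.log q := by
      have h4 : (((∏ j, Z j : ℕ) : ℝ)) ^ 4 ≤ q := by exact_mod_cast hZ
      have h5 := Real.log_le_log (by positivity) h4
      rw [Real.log_pow] at h5
      push_cast at h5 ⊢
      exact h5
    have h6 : 2 * Real.log ((∏ j, Z j : ℕ) : ℝ) / Real.log q ≤ 1 / 2 := by
      rcases (Real.log_nonneg (show (1 : ℝ) ≤ q by exact_mod_cast hq1)).eq_or_lt with h7 | h7
      · rw [← h7, div_zero]; norm_num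
      · rw [div_le_iff₀ h7]; linarith
    have h8 : (m : ℝ) * (1 / (2 * (m : ℝ))) = 1 / 2 := by field_simp
    rw [h8]
    linarith
  have hmain := count_holder (G := (ZMod q)ˣ) (fun j : Fin m => Yq q (Z j))
    (fun j y => uq q y ^ (m + (j : ℕ))) k hk1 hsum
  refine hmain.trans ?_
  have hfac : ∀ j : Fin m, (coll (Fintype.piFinset (fun _ : Fin (k j) => Yq q (Z j)))
        (fun u => ∏ i, uq q (u i) ^ (m + (j : ℕ))) : ℝ) ^ ((1 : ℝ) / (k j : ℝ)) ≤
      (Z j : ℝ) * (B : ℝ) ^ (2 * m) := by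
    intro j
    have h1 := moment q (Z j) (k j) (m + (j : ℕ)) B (by omega)
      (kk_pow q m (Z j) (hZ1 j)) hB
    have h2 : (coll (Fintype.piFinset (fun _ : Fin (k j) => Yq q (Z j)))
        (fun u => ∏ i, uq q (u i) ^ (m + (j : ℕ))) : ℝ) ≤
        (Z j : ℝ) ^ (k j) * (B : ℝ) ^ (m + (j : ℕ)) * (B : ℝ) ^ (k j) := by
      exact_mod_cast h1
    have hkR : (1 : ℝ) ≤ (k j : ℝ) := by exact_mod_cast hk1 j
    have hkne : k j ≠ 0 := by have := hk1 j; omega
    have hexp0 : (0 : ℝ) ≤ (1 : ℝ) / (k j : ℝ) := by positivity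
    have hexp1 : (1 : ℝ) / (k j : ℝ) ≤ 1 := by
      rw [div_le_one (by linarith)]; exact hkR
    have hZ0 : (0 : ℝ) ≤ Z j := Nat.cast_nonneg _
    have hB0 : (0 : ℝ) ≤ B := Nat.cast_nonneg _
    calc (coll (Fintype.piFinset (fun _ : Fin (k j) => Yq q (Z j)))
        (fun u => ∏ i, uq q (u i) ^ (m + (j : ℕ))) : ℝ) ^ ((1 : ℝ) / (k j : ℝ))
        ≤ ((Z j : ℝ) ^ (k j) * (B : ℝ) ^ (m + (j : ℕ)) * (B : ℝ) ^ (k j)) ^ ((1 : ℝ) / (k j : ℝ)) :=
          Real.rpow_le_rpow (Nat.cast_nonneg _) h2 hexp0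
      _ = (Z j : ℝ) * ((B : ℝ) ^ (m + (j : ℕ))) ^ ((1 : ℝ) / (k j : ℝ)) * (B : ℝ) := by
          rw [Real.mul_rpow (by positivity) (by positivity),
            Real.mul_rpow (by positivity) (by positivity)]
          rw [one_div, Real.pow_rpow_inv_natCast hZ0 hkne, Real.pow_rpow_inv_natCast hB0 hkne]
      _ ≤ (Z j : ℝ) * (B : ℝ) ^ (m + (j : ℕ)) * (B : ℝ) := by
          apply mul_le_mul_of_nonneg_right _ hB0
          apply mul_le_mul_of_nonneg_left _ hZ0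
          calc ((B : ℝ) ^ (m + (j : ℕ))) ^ ((1 : ℝ) / (k j : ℝ))
              ≤ ((B : ℝ) ^ (m + (j : ℕ))) ^ (1 : ℝ) :=
                Real.rpow_le_rpow_of_exponent_le (one_le_pow₀ hB1R) hexp1
            _ = (B : ℝ) ^ (m + (j : ℕ)) := Real.rpow_one _
      _ = (Z j : ℝ) * (B : ℝ) ^ (m + (j : ℕ) + 1) := by rw [pow_succ]; ring
      _ ≤ (Z j : ℝ) * (B : ℝ) ^ (2 * m) := by
          apply mul_le_mul_of_nonneg_left _ hZ0
          apply pow_le_pow_right₀ hB1R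
          have := j.2
          omega
  refine (Finset.prod_le_prod (fun j _ => by positivity) (fun j _ => hfac j)).trans ?_
  rw [Finset.prod_mul_distrib, Finset.prod_const, Finset.card_univ, Fintype.card_fin, ← pow_mul]
  push_cast
  exact le_rfl

end Pool.Agent.Helper91.CPX
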