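import Mathlib

/-!
CPX-A01. Generalized Hoelder inequality on a finite probability space.

Proof. Let `A j = (∑_ω g j ω ^ k j) / card Ω ≥ 0`. If some `A j = 0` then `g j = 0` everywhere and the left side is `0`
(the right side is nonnegative). Otherwise put `x j ω = g j ω / (A j)^(1/k j)`. Weighted AM-GM
(`Real.geom_mean_le_arith_mean_weighted`) with weights `1/k j` and the remaining weight `1 - ∑ 1/k j` on the number `1`:
`∏_j x j ω = ∏_j (x j ω ^ k j)^(1/k j) ≤ ∑_j (1/k j) x j ω ^ k j + (1 - ∑ 1/k j)`. The mean over `ω` of the right side is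
`∑ 1/k j + 1 - ∑ 1/k j = 1`, as the mean of `x j ^ k j` is `1`.
-/

namespace Pool.Agent.Helper91.CPX

theorem holder_prod {Ω J : Type} [Fintype Ω] [Nonempty Ω] [Fintype J] [DecidableEq J]
    (g : J → Ω → ℝ) (hg : ∀ j ω, 0 ≤ g j ω) (k : J → ℕ) (hk : ∀ j, 1 ≤ k j)
    (hsum : ∑ j, (1 : ℝ) / (k j : ℝ) ≤ 1) :
    (∑ ω, ∏ j, g j ω) / (Fintype.card Ω : ℝ) ≤
      ∏ j, ((∑ ω, g j ω ^ k j) / (Fintype.card Ω : ℝ)) ^ ((1 : ℝ) / (k j : ℝ)) := by
  classical
  have hN : (0 : ℝ) < (Fintype.card Ω : ℝ) := by exact_mod_cast Fintype.card_pos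
  obtain ⟨A, hA⟩ : ∃ A : J → ℝ, ∀ j, A j = (∑ ω, g j ω ^ k j) / (Fintype.card Ω : ℝ) :=
    ⟨_, fun _ => rfl⟩
  have hA0 : ∀ j, 0 ≤ A j := by
    intro j
    rw [hA]
    exact div_nonneg (Finset.sum_nonneg fun ω _ => pow_nonneg (hg j ω) _) hN.le
  simp only [← hA]
  by_cases hz : ∃ j, A j = 0
  · obtain ⟨j, hj⟩ := hz
    have h1 : ∀ ω, g j ω = 0 := by
      intro ω
      have h2 : ∑ ω, g j ω ^ k j = 0 := by
        have h3 := hA j
        rw [hj, eq_comm, div_eq_zero_iff] at h3
        exact h3.resolve_right hN.ne'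
      have h4 := (Finset.sum_eq_zero_iff_of_nonneg (fun ω _ => pow_nonneg (hg j ω) (k j))).1 h2 ω
        (Finset.mem_univ ω)
      exact pow_eq_zero_iff (by have := hk j; omega) |>.1 h4
    have h5 : ∑ ω, ∏ j, g j ω = 0 := by
      apply Finset.sum_eq_zero
      intro ω _
      exact Finset.prod_eq_zero (Finset.mem_univ j) (h1 ω)
    rw [h5, zero_div]
    exact Finset.prod_nonneg fun j _ => Real.rpow_nonneg (hA0 j) _
  · push Not at hz
    have hApos : ∀ j, 0 < A j := fun j => lt_of_le_of_ne (hA0 j) (Ne.symm (hz j))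
    have hkR : ∀ j, (0 : ℝ) < (k j : ℝ) := fun j => by exact_mod_cast hk j
    have hstep : ∀ ω, ∏ j, (g j ω / A j ^ ((1 : ℝ) / (k j : ℝ))) ≤
        ∑ j, (1 : ℝ) / (k j : ℝ) * (g j ω ^ k j / A j) + (1 - ∑ j, (1 : ℝ) / (k j : ℝ)) := by
      intro ω
      let w : Option J → ℝ := fun o => o.elim (1 - ∑ j, (1 : ℝ) / (k j : ℝ)) (fun j => 1 / (k j : ℝ))
      let z : Option J → ℝ := fun o => o.elim 1 (fun j => g j ω ^ k j / A j)
      have h := Real.geom_mean_le_arith_mean_weighted (Finset.univ : Finset (Option J)) w z ?_ ?_ ?_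
      · rw [Fintype.prod_option, Fintype.sum_option] at h
        simp only [w, z, Option.elim] at h
        rw [Real.one_rpow, one_mul, mul_one, add_comm] at h
        refine le_trans (le_of_eq ?_) h
        refine Finset.prod_congr rfl fun j _ => ?_
        rw [Real.div_rpow (pow_nonneg (hg j ω) _) (hA0 j)]
        congr 1
        rw [one_div, Real.pow_rpow_inv_natCast (hg j ω) (by have := hk j; omega)]
      · intro o _
        cases o with
        | none => simp only [w, Option.elim]; linarith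
        | some j => simp only [w, Option.elim]; have := hkR j; positivity
      · rw [Fintype.sum_option]
        simp only [w, Option.elim]
        ring
      · intro o _
        cases o with
        | none => simp only [z, Option.elim]; norm_num
        | some j => simp only [z, Option.elim]; exact div_nonneg (pow_nonneg (hg j ω) _) (hA0 j)
    have htot : ∑ ω, ∏ j, (g j ω / A j ^ ((1 : ℝ) / (k j : ℝ))) ≤ (Fintype.card Ω : ℝ) := by
      refine (Finset.sum_le_sum fun ω _ => hstep ω).trans (le_of_eq ?_)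
      rw [Finset.sum_add_distrib, Finset.sum_comm, Finset.sum_const, Finset.card_univ, nsmul_eq_mul]
      have h1 : ∑ j, ∑ ω, (1 : ℝ) / (k j : ℝ) * (g j ω ^ k j / A j) =
          (Fintype.card Ω : ℝ) * ∑ j, (1 : ℝ) / (k j : ℝ) := by
        rw [Finset.mul_sum]
        refine Finset.sum_congr rfl fun j _ => ?_
        rw [← Finset.mul_sum, ← Finset.sum_div]
        have h2 : (∑ ω, g j ω ^ k j) = A j * (Fintype.card Ω : ℝ) := by
          rw [hA, div_mul_cancel₀ _ hN.ne']
        rw [h2, mul_div_cancel_left₀ _ (hz j), mul_comm]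
      rw [h1]
      ring
    have hprod : 0 < ∏ j, A j ^ ((1 : ℝ) / (k j : ℝ)) :=
      Finset.prod_pos fun j _ => Real.rpow_pos_of_pos (hApos j) _
    have h3 : (∑ ω, ∏ j, g j ω) / ∏ j, A j ^ ((1 : ℝ) / (k j : ℝ)) ≤ (Fintype.card Ω : ℝ) := by
      refine le_trans (le_of_eq ?_) htot
      rw [Finset.sum_div]
      refine Finset.sum_congr rfl fun ω _ => ?_
      rw [Finset.prod_div_distrib]
    rw [div_le_iff₀ hprod] at h3
    rw [div_le_iff₀ hN]
    linarith

end Pool.Agent.Helper91.CPX
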