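import Pool.Agent.Helper91.CPX.ArithDefs
import Pool.Agent.Helper91.CPX.Holder

/-!
CPX-A02. Collisions of products in a finite abelian group.

Proof of `char_coll`: expand the square, `conj (ψ g) = ψ g⁻¹` (`AddChar.map_neg_eq_conj`,...), and orthogonality
`AddChar.sum_apply_eq_ite : ∑ ψ, ψ a = if a = 0 then card else 0`.
Proof of `count_holder`: for a character `ψ` the sum over `Fintype.piFinset Y` of `ψ(∏ f j (y j))` is
`∏_j ∑_{y ∈ Y j} ψ(f j y)` (`Finset.prod_univ_sum`). Apply `holder_prod` with `Ω` the set of characters (its cardinality is the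
order of the group, `AddChar.card_eq`) and `g j ψ = ‖∑_{y ∈ Y j} ψ(f j y)‖ ^ 2`; by `char_coll` the mean of `∏ g j` is the
number of collisions on the left, and `g j ψ ^ k j = ‖∑_{u ∈ (Y j)^(k j)} ψ(∏ f j (u i))‖ ^ 2` has as mean the number of
collisions on the right.
-/

open Pool.Agent.Helper87.Camp Pool.Agent.Helper10

namespace Pool.Agent.Helper91.CPX

private lemma psi_prod {G : Type} [CommGroup G] {ι : Type} [Fintype ι]
    (ψ : AddChar (Additive G) ℂ) (f : ι → G) :
    ψ (Additive.ofMul (∏ i, f i)) = ∏ i, ψ (Additive.ofMul (f i)) := by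
  classical
  have h : ∀ s : Finset ι, ψ (Additive.ofMul (∏ i ∈ s, f i)) = ∏ i ∈ s, ψ (Additive.ofMul (f i)) := by
    intro s
    induction s using Finset.induction_on with
    | empty => simp
    | insert a s ha ih =>
      rw [Finset.prod_insert ha, Finset.prod_insert ha, ofMul_mul, AddChar.map_add_eq_mul, ih]
  exact h Finset.univ

theorem char_coll {G : Type} [CommGroup G] [Fintype G] [DecidableEq G] {A : Type} (s : Finset A)
    (h : A → G) :
    ∑ ψ : AddChar (Additive G) ℂ, ‖∑ a ∈ s, ψ (Additive.ofMul (h a))‖ ^ 2 =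
      (Fintype.card G : ℝ) * (coll s h : ℝ) := by
  classical
  have hC : ((∑ ψ : AddChar (Additive G) ℂ, ‖∑ a ∈ s, ψ (Additive.ofMul (h a))‖ ^ 2 : ℝ) : ℂ) =
      (((Fintype.card G : ℝ) * (coll s h : ℝ) : ℝ) : ℂ) := by
    push_cast
    have e1 : ∀ ψ ∈ (Finset.univ : Finset (AddChar (Additive G) ℂ)),
        ((‖∑ a ∈ s, ψ (Additive.ofMul (h a))‖ : ℝ) : ℂ) ^ 2 =
        ∑ a ∈ s, ∑ b ∈ s, ψ (Additive.ofMul (h a) - Additive.ofMul (h b)) := by
      intro ψ _
      rw [← Complex.mul_conj', map_sum, Finset.sum_mul_sum]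
      apply Finset.sum_congr rfl
      intro a _
      apply Finset.sum_congr rfl
      intro b _
      rw [sub_eq_add_neg, AddChar.map_add_eq_mul, AddChar.map_neg_eq_conj]
    rw [Finset.sum_congr rfl e1, Finset.sum_comm]
    have e2 : ∀ a ∈ s, ∑ ψ : AddChar (Additive G) ℂ, ∑ b ∈ s,
        ψ (Additive.ofMul (h a) - Additive.ofMul (h b)) =
        ∑ b ∈ s, if h a = h b then (Fintype.card G : ℂ) else 0 := by
      intro a _
      rw [Finset.sum_comm]
      apply Finset.sum_congr rfl
      intro b _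
      rw [AddChar.sum_apply_eq_ite]
      have e3 : (Additive.ofMul (h a) - Additive.ofMul (h b) = 0) ↔ h a = h b := by
        rw [sub_eq_zero]
        exact Additive.ofMul.injective.eq_iff
      have e4 : Fintype.card (Additive G) = Fintype.card G := Fintype.card_congr Additive.toMul
      by_cases h1 : h a = h b
      · rw [if_pos (e3.2 h1), if_pos h1, e4]
      · rw [if_neg (fun h2 => h1 (e3.1 h2)), if_neg h1]
    rw [Finset.sum_congr rfl e2, ← Finset.sum_product', ← Finset.sum_filter, Finset.sum_const,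
      nsmul_eq_mul, mul_comm]
    rfl
  exact_mod_cast hC

theorem count_holder {G : Type} [CommGroup G] [Fintype G] [DecidableEq G] {J α : Type} [Fintype J]
    [DecidableEq J] (Y : J → Finset α) (f : J → α → G) (k : J → ℕ) (hk : ∀ j, 1 ≤ k j)
    (hsum : ∑ j, (1 : ℝ) / (k j : ℝ) ≤ 1) :
    (coll (Fintype.piFinset Y) (fun y => ∏ j, f j (y j)) : ℝ) ≤
      ∏ j, (coll (Fintype.piFinset (fun _ : Fin (k j) => Y j))
        (fun u => ∏ i, f j (u i)) : ℝ) ^ ((1 : ℝ) / (k j : ℝ)) := by
  classical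
  have hcard : Fintype.card (AddChar (Additive G) ℂ) = Fintype.card G := by
    rw [AddChar.card_eq]
    exact Fintype.card_congr Additive.toMul
  have hG0 : (Fintype.card G : ℝ) ≠ 0 := by exact_mod_cast Fintype.card_ne_zero
  let g : J → AddChar (Additive G) ℂ → ℝ := fun j ψ =>
    ‖∑ y ∈ Y j, ψ (Additive.ofMul (f j y))‖ ^ 2
  have hmain := holder_prod g (fun j ψ => by positivity) k hk hsum
  -- left side
  have hL : (∑ ψ, ∏ j, g j ψ) / (Fintype.card (AddChar (Additive G) ℂ) : ℝ) =
      (coll (Fintype.piFinset Y) (fun y => ∏ j, f j (y j)) : ℝ) := by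
    have e1 := char_coll (Fintype.piFinset Y) (fun y => ∏ j, f j (y j))
    have e2 : ∀ ψ ∈ (Finset.univ : Finset (AddChar (Additive G) ℂ)), ∏ j, g j ψ =
        ‖∑ a ∈ Fintype.piFinset Y, ψ (Additive.ofMul (∏ j, f j (a j)))‖ ^ 2 := by
      intro ψ _
      have e3 : ∑ a ∈ Fintype.piFinset Y, ψ (Additive.ofMul (∏ j, f j (a j))) =
          ∏ j, ∑ y ∈ Y j, ψ (Additive.ofMul (f j y)) := by
        rw [Finset.prod_univ_sum]
        apply Finset.sum_congr rfl
        intro a _
        rw [psi_prod]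
      rw [e3, norm_prod, ← Finset.prod_pow]
    rw [Finset.sum_congr rfl e2, e1, hcard, mul_div_assoc, mul_comm, div_mul_cancel₀ _ hG0]
  have hR : ∀ j ∈ (Finset.univ : Finset J),
      ((∑ ψ, g j ψ ^ k j) / (Fintype.card (AddChar (Additive G) ℂ) : ℝ)) ^ ((1 : ℝ) / (k j : ℝ)) =
      (coll (Fintype.piFinset (fun _ : Fin (k j) => Y j))
        (fun u => ∏ i, f j (u i)) : ℝ) ^ ((1 : ℝ) / (k j : ℝ)) := by
    intro j _
    congr 1
    have e1 := char_coll (Fintype.piFinset (fun _ : Fin (k j) => Y j)) (fun u => ∏ i, f j (u i))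
    have e2 : ∀ ψ ∈ (Finset.univ : Finset (AddChar (Additive G) ℂ)), g j ψ ^ k j =
        ‖∑ a ∈ Fintype.piFinset (fun _ : Fin (k j) => Y j),
          ψ (Additive.ofMul (∏ i, f j (a i)))‖ ^ 2 := by
      intro ψ _
      have e3 : ∑ a ∈ Fintype.piFinset (fun _ : Fin (k j) => Y j),
          ψ (Additive.ofMul (∏ i, f j (a i))) =
          (∑ y ∈ Y j, ψ (Additive.ofMul (f j y))) ^ k j := by
        have e4 : (∑ y ∈ Y j, ψ (Additive.ofMul (f j y))) ^ k j =
            ∏ _i : Fin (k j), ∑ y ∈ Y j, ψ (Additive.ofMul (f j y)) := by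
          rw [Finset.prod_const, Finset.card_univ, Fintype.card_fin]
        rw [e4, Finset.prod_univ_sum]
        apply Finset.sum_congr rfl
        intro a _
        rw [psi_prod]
      rw [e3, norm_pow]
      simp only [g]
      ring
    rw [Finset.sum_congr rfl e2, e1, hcard, mul_div_assoc, mul_comm, div_mul_cancel₀ _ hG0]
  rw [hL, Finset.prod_congr rfl hR] at hmain
  exact hmain

end Pool.Agent.Helper91.CPX
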