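import Pool.Agent.Helper91.CPX.Taylor

/-!
CPX-D04. Implicit function theorem modulo `ℓ ^ N` with integer polynomials (Newton iteration).

Notation: for a point `Q` congruent to `Q0` modulo `ℓ` with all `g a (Q) = 0` write `τ i = Q i - Q0 i` for the free
indices `i` (not in the range of `v`) and `y b = Q (v b) - Q0 (v b)`. We show by induction on `N`: there is `Ψ` with
`ℓ ^ (N + 1) ∣ y b - Ψ b (τ)` for all these `Q` and all `b` (this is more than asked).
`N = 0`: `Ψ = 0`.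
Step: let `J0` be the matrix `∂_{v b} g_a (Q0)`, `c det J0 ≡ 1 mod ℓ` (`ℓ` prime, `hdet`), `K := c • adjugate J0`, so
`K J0 ≡ 1 mod ℓ`. For a family `Ψ` of polynomials in the free variables let `P(Ψ) : σ → MvPolynomial (free) ℤ` be the
point with coordinates `C (Q0 i) + X i` (`i` free) and `C (Q0 (v b)) + Ψ b` (`i = v b`), and put
`Ψ' b := Ψ b - ∑_a K b a * g_a(P(Ψ))` (`g_a(P(Ψ)) = aeval P(Ψ) (g a)`). At `τ` the point `P(Ψ)(τ) =: A` agrees with `Q`
at the free indices and `A (v b) - Q (v b) = Ψ b (τ) - y b =: δ b` is divisible by `L := ℓ ^ (N + 1)`.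
By `taylor_sq` with `B = Q`: `g_a(A) = g_a(A) - g_a(Q) ≡ ∑_b ∂_{v b} g_a (Q) δ b mod L ^ 2`, and
`∂_{v b} g_a (Q) ≡ ∂_{v b} g_a (Q0) mod ℓ` (`eval_congr_dvd`), so `g_a(A) ≡ ∑_b J0 a b δ b mod ℓ ^ (N + 2)`
(`L ^ 2` is divisible by `ℓ ^ (N + 2)`). Hence `Ψ' b (τ) - y b = δ b - ∑_a K b a g_a(A) ≡ δ b - (K J0 δ) b ≡ 0
mod ℓ ^ (N + 2)`.
-/

open MvPolynomial

namespace Pool.Agent.Helper91.CPX

private lemma eval_aeval {σ' σ : Type} (P : σ → MvPolynomial σ' ℤ) (τ : σ' → ℤ)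
    (g : MvPolynomial σ ℤ) : eval τ (aeval P g) = eval (fun i => eval τ (P i)) g := by
  induction g using MvPolynomial.induction_on with
  | C a => simp
  | add p q hp hq => simp only [map_add, hp, hq]
  | mul_X p n hp => simp only [map_mul, hp, aeval_X, eval_X]

open Classical in
/-- the point with free coordinates variables and the other coordinates given by `Ψ` -/
private noncomputable def PP {σ κ : Type} (v : κ ↪ σ) (Q0 : σ → ℤ)
    (Ψ : κ → MvPolynomial {i : σ // i ∉ Set.range v} ℤ) (i : σ) :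
    MvPolynomial {i : σ // i ∉ Set.range v} ℤ :=
  if h : i ∈ Set.range v then C (Q0 i) + Ψ h.choose else C (Q0 i) + X ⟨i, h⟩

private lemma PP_free {σ κ : Type} (v : κ ↪ σ) (Q0 : σ → ℤ)
    (Ψ : κ → MvPolynomial {i : σ // i ∉ Set.range v} ℤ) (i : σ) (h : i ∉ Set.range v) :
    PP v Q0 Ψ i = C (Q0 i) + X ⟨i, h⟩ := by
  unfold PP
  rw [dif_neg h]

private lemma PP_v {σ κ : Type} (v : κ ↪ σ) (Q0 : σ → ℤ)
    (Ψ : κ → MvPolynomial {i : σ // i ∉ Set.range v} ℤ) (b : κ) :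
    PP v Q0 Ψ (v b) = C (Q0 (v b)) + Ψ b := by
  unfold PP
  have h : v b ∈ Set.range v := ⟨b, rfl⟩
  rw [dif_pos h]
  congr 2
  exact v.injective h.choose_spec

private theorem implicit_aux {σ κ : Type} [Fintype σ] [DecidableEq σ] [Fintype κ] [DecidableEq κ]
    (ℓ : ℕ) (hℓ : ℓ.Prime) (v : κ ↪ σ) (g : κ → MvPolynomial σ ℤ) (Q0 : σ → ℤ)
    (hdet : ¬ (ℓ : ℤ) ∣ Matrix.det (Matrix.of fun a b : κ => eval Q0 (pderiv (v b) (g a))))
    (N : ℕ) :
    ∃ Ψ : κ → MvPolynomial {i : σ // i ∉ Set.range v} ℤ,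
      ∀ Q : σ → ℤ, (∀ i, (ℓ : ℤ) ∣ Q i - Q0 i) → (∀ a, eval Q (g a) = 0) →
        ∀ b, (ℓ : ℤ) ^ (N + 1) ∣
          Q (v b) - Q0 (v b) - eval (fun i => Q i.1 - Q0 i.1) (Ψ b) := by
  induction N with
  | zero =>
    refine ⟨fun _ => 0, ?_⟩
    intro Q hQ _ b
    rw [map_zero, sub_zero, zero_add, pow_one]
    exact hQ _
  | succ N ih =>
    obtain ⟨Ψ, hΨ⟩ := ih
    set J : Matrix κ κ ℤ := Matrix.of fun a b : κ => eval Q0 (pderiv (v b) (g a)) with hJ
    -- the inverse of the determinant modulo `ℓ`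
    obtain ⟨c, hc⟩ : ∃ c : ℤ, (ℓ : ℤ) ∣ c * J.det - 1 := by
      have hcop : IsCoprime (ℓ : ℤ) J.det := by
        rw [(Nat.prime_iff_prime_int.1 hℓ).coprime_iff_not_dvd]
        exact hdet
      obtain ⟨a, b, hab⟩ := hcop
      exact ⟨b, ⟨-a, by linear_combination hab⟩⟩
    set K : Matrix κ κ ℤ := c • J.adjugate with hK
    have hKJ : K * J = (c * J.det) • (1 : Matrix κ κ ℤ) := by
      rw [hK, Matrix.smul_mul, Matrix.adjugate_mul, smul_smul]
    refine ⟨fun b => Ψ b - ∑ a, C (K b a) * aeval (PP v Q0 Ψ) (g a), ?_⟩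
    intro Q hQ hQ0 b
    set τ : {i : σ // i ∉ Set.range v} → ℤ := fun i => Q i.1 - Q0 i.1 with hτ
    set A : σ → ℤ := fun i => eval τ (PP v Q0 Ψ i) with hA
    have hAfree : ∀ i, i ∉ Set.range v → A i = Q i := by
      intro i hi
      simp only [hA]
      rw [PP_free v Q0 Ψ i hi, map_add, eval_C, eval_X]
      simp only [hτ]
      ring
    set δ : κ → ℤ := fun b => A (v b) - Q (v b) with hδ
    have hδe : ∀ b, δ b = eval τ (Ψ b) - (Q (v b) - Q0 (v b)) := by
      intro b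
      simp only [hδ, hA]
      rw [PP_v, map_add, eval_C]
      ring
    have hδd : ∀ b, (ℓ : ℤ) ^ (N + 1) ∣ δ b := by
      intro b
      have h1 := hΨ Q hQ hQ0 b
      rw [hδe, ← dvd_neg]
      have e : -(eval τ (Ψ b) - (Q (v b) - Q0 (v b))) = Q (v b) - Q0 (v b) - eval τ (Ψ b) := by
        ring
      rw [e]
      exact h1
    have hAQ : ∀ i, (ℓ : ℤ) ^ (N + 1) ∣ A i - Q i := by
      intro i
      by_cases hi : i ∈ Set.range v
      · obtain ⟨b, rfl⟩ := hi
        exact hδd b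
      · rw [hAfree i hi, sub_self]
        exact dvd_zero _
    -- Taylor
    have hT : ∀ a, (ℓ : ℤ) ^ (N + 1 + 1) ∣ eval A (g a) - ∑ b, J a b * δ b := by
      intro a
      have h1 := taylor_sq (g a) A Q ((ℓ : ℤ) ^ (N + 1)) hAQ
      rw [hQ0 a, sub_zero] at h1
      have h2 : ∑ i, eval Q (pderiv i (g a)) * (A i - Q i) =
          ∑ b, eval Q (pderiv (v b) (g a)) * δ b := by
        symm
        apply Fintype.sum_of_injective v v.injective
        · intro i hi
          rw [hAfree i hi, sub_self, mul_zero]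
        · intro b
          rfl
      rw [h2] at h1
      have h3 : (ℓ : ℤ) ^ (N + 1 + 1) ∣ ((ℓ : ℤ) ^ (N + 1)) ^ 2 := by
        rw [← pow_mul]
        exact pow_dvd_pow _ (by omega)
      have h4 : (ℓ : ℤ) ^ (N + 1 + 1) ∣
          ∑ b, (eval Q (pderiv (v b) (g a)) - J a b) * δ b := by
        apply Finset.dvd_sum
        intro b _
        rw [pow_succ']
        apply mul_dvd_mul _ (hδd b)
        simp only [hJ, Matrix.of_apply]
        exact eval_congr_dvd _ Q Q0 _ hQ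
      have h5 := dvd_add (h3.trans h1) h4
      have e : eval A (g a) - ∑ b, eval Q (pderiv (v b) (g a)) * δ b +
          ∑ b, (eval Q (pderiv (v b) (g a)) - J a b) * δ b =
          eval A (g a) - ∑ b, J a b * δ b := by
        simp only [sub_mul, Finset.sum_sub_distrib]
        ring
      rw [e] at h5
      exact h5
    -- the new point
    have hev : Q (v b) - Q0 (v b) - eval τ (Ψ b - ∑ a, C (K b a) * aeval (PP v Q0 Ψ) (g a)) =
        ∑ a, K b a * (eval A (g a) - ∑ b', J a b' * δ b') + (c * J.det - 1) * δ b := by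
      have e1 : ∑ a, K b a * ∑ b', J a b' * δ b' = (c * J.det) * δ b := by
        have h6 : ∑ a, K b a * ∑ b', J a b' * δ b' = ∑ b', (K * J) b b' * δ b' := by
          simp only [Matrix.mul_apply, Finset.mul_sum, Finset.sum_mul]
          rw [Finset.sum_comm]
          apply Finset.sum_congr rfl
          intro b' _
          apply Finset.sum_congr rfl
          intro a _
          ring
        rw [h6, hKJ]
        simp [Matrix.smul_apply, Matrix.one_apply, Finset.sum_ite_eq]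
      simp only [mul_sub, Finset.sum_sub_distrib]
      rw [e1, map_sub, map_sum]
      have e2 : ∀ a ∈ (Finset.univ : Finset κ), eval τ (C (K b a) * aeval (PP v Q0 Ψ) (g a)) =
          K b a * eval A (g a) := by
        intro a _
        rw [map_mul, eval_C, eval_aeval]
      rw [Finset.sum_congr rfl e2]
      have e3 := hδe b
      linear_combination e3
    rw [hev]
    apply dvd_add
    · apply Finset.dvd_sum
      intro a _
      exact Dvd.dvd.mul_left (hT a) _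
    · rw [pow_succ']
      exact mul_dvd_mul hc (hδd b)

theorem implicit {σ κ : Type} [Fintype σ] [DecidableEq σ] [Fintype κ] [DecidableEq κ]
    (ℓ : ℕ) (hℓ : ℓ.Prime) (v : κ ↪ σ) (g : κ → MvPolynomial σ ℤ) (Q0 : σ → ℤ)
    (hdet : ¬ (ℓ : ℤ) ∣ Matrix.det (Matrix.of fun a b : κ => eval Q0 (pderiv (v b) (g a))))
    (N : ℕ) :
    ∃ Ψ : κ → MvPolynomial {i : σ // i ∉ Set.range v} ℤ,
      ∀ Q : σ → ℤ, (∀ i, (ℓ : ℤ) ∣ Q i - Q0 i) → (∀ a, eval Q (g a) = 0) →
        ∀ b, (ℓ : ℤ) ^ N ∣ Q (v b) - Q0 (v b) - eval (fun i => Q i.1 - Q0 i.1) (Ψ b) := by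
  obtain ⟨Ψ, hΨ⟩ := implicit_aux ℓ hℓ v g Q0 hdet N
  exact ⟨Ψ, fun Q h1 h2 b => (pow_dvd_pow _ (Nat.le_succ N)).trans (hΨ Q h1 h2 b)⟩

end Pool.Agent.Helper91.CPX
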