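import Pool.Agent.Helper91.CPX.ArithDefs

/-!
CPX-A13. Decomposition into the `S`-part, the part with small primes and boundedly many large primes.

Proof. `s = ∏_{p ∣ n, p ∈ S} p^(v_p n)`, `v = ∏_{p ∣ n, p ∉ S, p ≤ W} p^(v_p n)`, `Λ = {p ∣ n : p ∉ S, p > W}`
(`Nat.factorization_prod_pow_eq_self`, split the product). For `p ∈ Λ`: `p^m ∣ n` (`NFull`), so `p^m ≤ N ≤ X^m`, `p ≤ X`;
`v_p(n) =: e`: `W^e < p^e ≤ N ≤ W^(H m)`, so `e ≤ H m` (and `e ≥ 1`). Number of elements `t` of `Λ`: `∏_{p ∈ Λ} p^m ∣ n`, so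
`W^(m t) ≤ ∏ p^m ≤ n ≤ N ≤ W^(H m)`, strictly if `t ≥ 1`; hence `t ≤ H`. Enumerate `Λ` by an injection into `Fin H` and pad
with `x i = 1`, `e i = 1` (note `1 ≤ H m`, `1 ≤ X`). `W ≥ 1` because `N ≥ 1`.
-/

open Pool.Agent.Helper87.Camp Pool.Agent.Helper10

namespace Pool.Agent.Helper91.CPX

private lemma enum_aux (f : ℕ → ℕ) : ∀ (H : ℕ) (Λ : Finset ℕ), Λ.card ≤ H →
    ∃ x e : Fin H → ℕ, (∀ i, (x i = 1 ∧ e i = 1) ∨ ∃ p ∈ Λ, x i = p ∧ e i = f p) ∧
      ∏ i, x i ^ e i = ∏ p ∈ Λ, p ^ f p := by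
  intro H
  induction H with
  | zero =>
    intro Λ hΛ
    have h0 : Λ = ∅ := Finset.card_eq_zero.1 (Nat.le_zero.1 hΛ)
    subst h0
    exact ⟨fun _ => 1, fun _ => 1, fun i => Fin.elim0 i, by simp⟩
  | succ H ih =>
    intro Λ hΛ
    rcases Λ.eq_empty_or_nonempty with h0 | ⟨p, hp⟩
    · subst h0
      exact ⟨fun _ => 1, fun _ => 1, fun i => Or.inl ⟨rfl, rfl⟩, by simp⟩
    · obtain ⟨x, e, h1, h2⟩ := ih (Λ.erase p) (by
        rw [Finset.card_erase_of_mem hp]; omega)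
      refine ⟨Fin.cons p x, Fin.cons (f p) e, ?_, ?_⟩
      · intro i
        refine Fin.cases ?_ (fun j => ?_) i
        · right
          exact ⟨p, hp, by simp, by simp⟩
        · rcases h1 j with h3 | ⟨q, hq, h4, h5⟩
          · left
            simpa using h3
          · right
            exact ⟨q, Finset.mem_of_mem_erase hq, by simpa using h4, by simpa using h5⟩
      · rw [Fin.prod_univ_succ]
        simp only [Fin.cons_zero, Fin.cons_succ]
        rw [h2, Finset.mul_prod_erase Λ (fun p => p ^ f p) hp]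

theorem decomp2 (S : Finset ℕ) (m H X W N : ℕ) (hm : 1 ≤ m) (hH : 1 ≤ H) (hX1 : 1 ≤ X)
    (hX : N ≤ X ^ m) (hW : N ≤ W ^ (H * m)) (n : ℕ) (hn : 0 < n) (hnN : n ≤ N)
    (h : NFull S m n) :
    ∃ (s v : ℕ) (x e : Fin H → ℕ), 0 < s ∧ 0 < v ∧ s * v ≤ N ∧
      (∀ p : ℕ, p.Prime → p ∣ s → p ∈ S) ∧
      v.primeFactors = n.primeFactors.filter (fun p => p ∉ S ∧ p ≤ W) ∧
      (∀ i, 1 ≤ x i ∧ x i ≤ X) ∧ (∀ i, 1 ≤ e i ∧ e i ≤ H * m) ∧
      n = s * v * ∏ i, x i ^ e i := by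
  classical
  set f := n.factorization with hf
  set P := n.primeFactors with hP
  set PS := P.filter (fun p => p ∈ S) with hPS
  set P1 := P.filter (fun p => p ∉ S ∧ p ≤ W) with hP1
  set Λ := P.filter (fun p => p ∉ S ∧ ¬ p ≤ W) with hΛ
  have hprime : ∀ p ∈ P, p.Prime := fun p hp => Nat.prime_of_mem_primeFactors hp
  have hn0 : n ≠ 0 := hn.ne'
  have hprod : n = (∏ p ∈ PS, p ^ f p) * (∏ p ∈ P1, p ^ f p) * ∏ p ∈ Λ, p ^ f p := by
    have h1 : n = ∏ p ∈ P, p ^ f p := by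
      conv_lhs => rw [← Nat.prod_factorization_pow_eq_self hn0]
      rfl
    conv_lhs => rw [h1]
    rw [← Finset.prod_filter_mul_prod_filter_not P (fun p => p ∈ S) (fun p => p ^ f p), mul_assoc]
    congr 1
    rw [← Finset.prod_filter_mul_prod_filter_not (P.filter (fun p => p ∉ S)) (fun p => p ≤ W)
      (fun p => p ^ f p), Finset.filter_filter, Finset.filter_filter]
  have hpos : ∀ T : Finset ℕ, T ⊆ P → 0 < ∏ p ∈ T, p ^ f p := by
    intro T hT
    exact Finset.prod_pos (fun p hp => pow_pos (hprime p (hT hp)).pos _)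
  have hS_pos := hpos PS (Finset.filter_subset _ _)
  have h1_pos := hpos P1 (Finset.filter_subset _ _)
  have hΛ_pos := hpos Λ (Finset.filter_subset _ _)
  have hΛ_le : ∏ p ∈ Λ, p ^ f p ≤ n := by
    apply Nat.le_of_dvd hn
    conv_rhs => rw [hprod]
    exact dvd_mul_left _ _
  have hWlt : ∀ t, H * m ≤ t → N < (W + 1) ^ t := by
    intro t ht
    have h3 : H * m ≠ 0 := by positivity
    calc N ≤ W ^ (H * m) := hW
      _ < (W + 1) ^ (H * m) := Nat.pow_lt_pow_left (Nat.lt_succ_self W) h3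
      _ ≤ (W + 1) ^ t := Nat.pow_le_pow_right (Nat.succ_pos W) ht
  have hfm : ∀ p ∈ Λ, m ≤ f p := by
    intro p hp
    rw [hΛ, Finset.mem_filter] at hp
    have h3 := h p (hprime p hp.1) hp.2.1 (Nat.dvd_of_mem_primeFactors hp.1)
    exact ((hprime p hp.1).pow_dvd_iff_le_factorization hn0).1 h3
  have hcard : Λ.card ≤ H := by
    by_contra hc
    push Not at hc
    have h3 : (W + 1) ^ (m * Λ.card) ≤ ∏ p ∈ Λ, p ^ f p := by
      have h4 : ∏ _p ∈ Λ, (W + 1) ^ m ≤ ∏ p ∈ Λ, p ^ f p := by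
        refine Finset.prod_le_prod' (fun p hp => ?_)
        have h5 := hfm p hp
        rw [hΛ, Finset.mem_filter] at hp
        have h6 : W + 1 ≤ p := by omega
        exact le_trans (Nat.pow_le_pow_left h6 m) (Nat.pow_le_pow_right (by omega) h5)
      rwa [Finset.prod_const, ← pow_mul] at h4
    have h5 := hWlt (m * Λ.card) (by
      rw [mul_comm H m]
      exact Nat.mul_le_mul_left m hc.le)
    omega
  obtain ⟨x, e, hxe, hxeprod⟩ := enum_aux f H Λ hcard
  have hHm : 1 ≤ H * m := Nat.mul_pos hH hm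
  refine ⟨∏ p ∈ PS, p ^ f p, ∏ p ∈ P1, p ^ f p, x, e, hS_pos, h1_pos, ?_, ?_, ?_, ?_, ?_, ?_⟩
  · refine le_trans (Nat.le_of_dvd hn ?_) hnN
    conv_rhs => rw [hprod]
    exact dvd_mul_right _ _
  · intro p hp hd
    obtain ⟨q, hq, hdq⟩ := (hp.prime.dvd_finsetProd_iff _).1 hd
    rw [hPS, Finset.mem_filter] at hq
    have h3 := hp.dvd_of_dvd_pow hdq
    rw [(Nat.prime_dvd_prime_iff_eq hp (hprime q hq.1)).1 h3]
    exact hq.2
  · ext p
    rw [Nat.mem_primeFactors]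
    constructor
    · rintro ⟨hp, hd, -⟩
      obtain ⟨q, hq, hdq⟩ := (hp.prime.dvd_finsetProd_iff _).1 hd
      have h3 := hp.dvd_of_dvd_pow hdq
      rw [(Nat.prime_dvd_prime_iff_eq hp (hprime q (Finset.mem_filter.1 hq).1)).1 h3]
      exact hq
    · intro hp
      have hpP : p ∈ P := (Finset.mem_filter.1 hp).1
      refine ⟨hprime p hpP, ?_, h1_pos.ne'⟩
      refine dvd_trans (dvd_pow_self p ?_) (Finset.dvd_prod_of_mem _ hp)
      have h3 : p ∈ f.support := by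
        rw [hf, Nat.support_factorization]
        exact hpP
      exact Finsupp.mem_support_iff.1 h3
  · intro i
    rcases hxe i with ⟨h3, -⟩ | ⟨p, hp, h3, -⟩
    · rw [h3]
      exact ⟨le_rfl, hX1⟩
    · rw [h3]
      have hpΛ := hp
      rw [hΛ, Finset.mem_filter] at hp
      have hpp := hprime p hp.1
      refine ⟨hpp.one_lt.le, ?_⟩
      have h4 : p ^ m ≤ n :=
        Nat.le_of_dvd hn (h p hpp hp.2.1 (Nat.dvd_of_mem_primeFactors hp.1))
      have h5 : p ^ m ≤ X ^ m := le_trans h4 (le_trans hnN hX)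
      exact (Nat.pow_le_pow_iff_left (by omega)).1 h5
  · intro i
    rcases hxe i with ⟨-, h3⟩ | ⟨p, hp, -, h3⟩
    · rw [h3]
      exact ⟨le_rfl, hHm⟩
    · rw [h3]
      have h4 := hfm p hp
      refine ⟨le_trans hm h4, ?_⟩
      by_contra hc
      push Not at hc
      have h5 := hWlt (f p) hc.le
      rw [hΛ, Finset.mem_filter] at hp
      have h6 : W + 1 ≤ p := by omega
      have h7 : (W + 1) ^ f p ≤ p ^ f p := Nat.pow_le_pow_left h6 _
      have h8 : p ^ f p ≤ n := Nat.le_of_dvd hn (Nat.ordProj_dvd n p)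
      omega
  · rw [hxeprod]
    exact hprod

end Pool.Agent.Helper91.CPX
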