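import Pool.Agent.Helper91.CPX.MonCount

/-!
CPX-D02. Divisibility of the determinant of polynomials at points divisible by `ℓ`.

Proof. Write `f_a = ∑_m c_a(m) x^m`. Row `a` of the matrix is the sum over `m` in the support of `f_a` of
`c_a(m) ℓ^{|m|} (θ_k^m)_k`. By multilinearity in the rows (`Matrix.detRowAlternating` with
`MultilinearMap.map_sum_finset`, or `Matrix.det_apply` and `Finset.prod_univ_sum`) the determinant is the sum
over all choices `r : Fin s → (τ →₀ ℕ)`, `r a` in the support of `f_a`, of
`(∏_a c_a(r a) ℓ^{|r a|}) det(θ_k^{r a})`. If `r` is not injective two rows are equal and the term vanishes.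
If `r` is injective then `∑_a |r a| ≥ ∑_{j<J} #{a : |r a| > j} = ∑_{j<J} (s - #{a : |r a| ≤ j})` and
`#{a : |r a| ≤ j} ≤ (j + m).choose m` by `card_deg_le` (injectivity), `m = card τ`. So each term is divisible by the
power of `ℓ`.
-/

open MvPolynomial

namespace Pool.Agent.Helper91.CPX

private theorem sum_deg_ge {τ : Type} [Fintype τ] [DecidableEq τ] {s : ℕ} (J : ℕ)
    (r : Fin s → (τ →₀ ℕ)) (hr : Function.Injective r) :
    ∑ j ∈ Finset.range J, (s - (j + Fintype.card τ).choose (Fintype.card τ)) ≤
      ∑ a, ∑ i, r a i := by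
  classical
  calc ∑ j ∈ Finset.range J, (s - (j + Fintype.card τ).choose (Fintype.card τ))
      ≤ ∑ j ∈ Finset.range J, (Finset.univ.filter (fun a : Fin s => j < ∑ i, r a i)).card := by
        apply Finset.sum_le_sum
        intro j _
        obtain ⟨S, hS, hmem⟩ := card_deg_le τ j
        have h1 : (Finset.univ.filter (fun a : Fin s => ¬ j < ∑ i, r a i)).card ≤ S.card := by
          apply Finset.card_le_card_of_injOn r
          · intro a ha
            have h2 : ¬ j < ∑ i, r a i := by simpa using ha
            exact (hmem _).2 (not_lt.1 h2)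
          · intro a _ b _ hab
            exact hr hab
        have h2 := Finset.card_filter_add_card_filter_not (s := (Finset.univ : Finset (Fin s)))
          (fun a : Fin s => j < ∑ i, r a i)
        rw [Finset.card_univ, Fintype.card_fin] at h2
        rw [← hS]
        omega
    _ = ∑ a, ((Finset.range J).filter (fun j => j < ∑ i, r a i)).card := by
        simp_rw [Finset.card_filter]
        exact Finset.sum_comm
    _ ≤ ∑ a, ∑ i, r a i := by
        apply Finset.sum_le_sum
        intro a _
        calc ((Finset.range J).filter (fun j => j < ∑ i, r a i)).card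
            ≤ (Finset.range (∑ i, r a i)).card := by
              apply Finset.card_le_card
              intro j hj
              exact Finset.mem_range.2 (Finset.mem_filter.1 hj).2
          _ = ∑ i, r a i := Finset.card_range _

theorem det_dvd {τ : Type} [Fintype τ] [DecidableEq τ] {s : ℕ} (ℓ : ℤ)
    (f : Fin s → MvPolynomial τ ℤ) (θ : Fin s → τ → ℤ) (J : ℕ) :
    ℓ ^ (∑ j ∈ Finset.range J, (s - (j + Fintype.card τ).choose (Fintype.card τ))) ∣
      Matrix.det (Matrix.of fun a k : Fin s => eval (fun i => ℓ * θ k i) (f a)) := by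
  classical
  have hrow : (Matrix.of fun a k : Fin s => eval (fun i => ℓ * θ k i) (f a)) =
      (fun a : Fin s => ∑ m ∈ (f a).support,
        (coeff m (f a) * ℓ ^ (∑ i, m i)) • (fun k : Fin s => ∏ i, θ k i ^ m i)) := by
    funext a k
    rw [Matrix.of_apply, eval_eq', Finset.sum_apply]
    apply Finset.sum_congr rfl
    intro m _
    rw [Pi.smul_apply, smul_eq_mul, mul_assoc]
    congr 1
    rw [← Finset.prod_pow_eq_pow_sum, ← Finset.prod_mul_distrib]
    exact Finset.prod_congr rfl fun i _ => mul_pow _ _ _
  have hdet : Matrix.det (Matrix.of fun a k : Fin s => eval (fun i => ℓ * θ k i) (f a)) =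
      ∑ r ∈ Fintype.piFinset (fun a : Fin s => (f a).support),
        (∏ a, (coeff (r a) (f a) * ℓ ^ (∑ i, r a i))) *
          Matrix.det (fun a k : Fin s => ∏ i, θ k i ^ r a i) := by
    have h1 := (Matrix.detRowAlternating (n := Fin s) (R := ℤ)).toMultilinearMap.map_sum_finset
      (fun (a : Fin s) (m : τ →₀ ℕ) =>
        (coeff m (f a) * ℓ ^ (∑ i, m i)) • (fun k : Fin s => ∏ i, θ k i ^ m i))
      (fun a : Fin s => (f a).support)
    rw [hrow]
    refine h1.trans ?_
    apply Finset.sum_congr rfl
    intro r _
    exact MultilinearMap.map_smul_univ _ _ _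
  rw [hdet]
  apply Finset.dvd_sum
  intro r _
  by_cases hr : Function.Injective r
  · apply Dvd.dvd.mul_right
    rw [Finset.prod_mul_distrib, Finset.prod_pow_eq_pow_sum]
    apply Dvd.dvd.mul_left
    exact pow_dvd_pow ℓ (sum_deg_ge J r hr)
  · have h0 : Matrix.det (fun a k : Fin s => ∏ i, θ k i ^ r a i) = 0 := by
      unfold Function.Injective at hr
      push Not at hr
      obtain ⟨a, b, hab, hne⟩ := hr
      apply Matrix.det_zero_of_row_eq hne
      funext k
      rw [hab]
    rw [h0, mul_zero]
    exact dvd_zero _

end Pool.Agent.Helper91.CPX
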