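import Mathlib

/-!
CPX-D06. Growth.

Proof. `d = 1`: `D = 1`, `s = 2`, all terms are `2 - 1 = 1`, `J = 3 K`.
`d ≥ 2`: put `L = 4 K`, `J = L * D`. For `j < J`: `(j + (d-1)).choose (d-1) ≤ (L D + d)^(d-1) ≤ ((L + d) D)^(d-1)`
(`Nat.choose_le_pow`), `(D+1)^d ≤ d! * (D+d).choose d` (`Nat.pow_succ_le_ascFactorial` or
`Nat.pow_sub_le_descFactorial`, `Nat.descFactorial_eq_factorial_mul_choose`). Choose
`D = 2 * d! * (L + d)^(d-1) + 1`: then `2 (j + (d-1)).choose (d-1) ≤ s := (D+d).choose d`, so `2 (s - ...) ≥ s` and the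
sum is at least `J s / 2 = 2 K D s ≥ K D s + K` (as `D s ≥ 1`).
-/

namespace Pool.Agent.Helper91.CPX

theorem growth (d : ℕ) (hd : 1 ≤ d) (K : ℕ) :
    ∃ D J : ℕ, 2 ≤ (D + d).choose d ∧
      K * D * (D + d).choose d + K ≤
        ∑ j ∈ Finset.range J, ((D + d).choose d - (j + (d - 1)).choose (d - 1)) := by
  set L := 4 * K with hL
  set D := 2 * d.factorial * (L + d) ^ (d - 1) + 1 with hD
  set s := (D + d).choose d with hs
  have hD1 : 1 ≤ D := by omega
  have hfac : D ^ d ≤ d.factorial * s := by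
    have h1 := Nat.pow_sub_le_descFactorial (D + d) d
    rw [Nat.descFactorial_eq_factorial_mul_choose] at h1
    refine le_trans (Nat.pow_le_pow_left ?_ d) h1
    omega
  have key : ∀ j, j ≤ L * D → 2 * (j + (d - 1)).choose (d - 1) ≤ s := by
    intro j hj
    have h1 : (j + (d - 1)).choose (d - 1) ≤ ((L + d) * D) ^ (d - 1) := by
      refine le_trans (Nat.choose_le_pow _ _) (Nat.pow_le_pow_left ?_ _)
      have h2 : d - 1 ≤ d * D := le_trans (by omega) (Nat.le_mul_of_pos_right d (by omega))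
      rw [add_mul]
      exact add_le_add hj h2
    have h3 : d.factorial * (2 * (j + (d - 1)).choose (d - 1)) ≤ d.factorial * s := by
      calc d.factorial * (2 * (j + (d - 1)).choose (d - 1))
          ≤ d.factorial * (2 * ((L + d) * D) ^ (d - 1)) :=
            Nat.mul_le_mul_left _ (Nat.mul_le_mul_left _ h1)
        _ = (2 * d.factorial * (L + d) ^ (d - 1)) * D ^ (d - 1) := by rw [mul_pow]; ring
        _ ≤ D * D ^ (d - 1) := Nat.mul_le_mul_right _ (by omega)
        _ = D ^ d := by rw [← pow_succ']; congr 1; omega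
        _ ≤ _ := hfac
    exact Nat.le_of_mul_le_mul_left h3 (Nat.factorial_pos d)
  have hs2 : 2 ≤ s := by
    have := key 0 (Nat.zero_le _)
    simpa using this
  refine ⟨D, L * D, hs2, ?_⟩
  have hsum : (L * D) * s ≤ 2 * ∑ j ∈ Finset.range (L * D),
      (s - (j + (d - 1)).choose (d - 1)) := by
    rw [Finset.mul_sum]
    have : (L * D) * s = ∑ _j ∈ Finset.range (L * D), s := by simp
    rw [this]
    apply Finset.sum_le_sum
    intro j hj
    have := key j (Finset.mem_range.1 hj).le
    omega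
  have h4 : K ≤ K * D * s := by
    rw [mul_assoc]
    exact Nat.le_mul_of_pos_right K (Nat.mul_pos (by omega) (by omega))
  have h5 : (L * D) * s = 4 * (K * D * s) := by rw [hL]; ring
  rw [h5] at hsum
  change K * D * s + K ≤ ∑ j ∈ Finset.range (L * D), (s - (j + (d - 1)).choose (d - 1))
  omega

end Pool.Agent.Helper91.CPX
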