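import Mathlib

/-!
CPX-D08. If all `s x s` minors vanish there is a linear relation with small coefficients.

Proof. Let `r` be maximal such that there are an injective `I : Fin r → Fin s` (rows) and points `z : Fin r → α` in `T`
with `det (u (I a) (z k)) ≠ 0` (`r = 0` is possible, the empty determinant is `1`). `r < s`: for `r = s` the map `I` is
a permutation and the determinant is plus or minus a vanishing one. Choose a row `a0` not in the range of `I`. For
every point `w` of `T` the `(r+1) x (r+1)` determinant with rows `I 0, ..., I (r-1), a0` and columns `z 0, ..., z (r-1), w`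
vanishes by maximality. Expanding along the last column (`Matrix.det_succ_column`): `∑ c_a u_a(w) = 0`, where the `c_a` are
(signed) minors not depending on `w`, `c_a = 0` for the `a` not among the rows, `c_{a0} = ± det (u (I a) (z k)) ≠ 0`, and
`|c_a| ≤ r! W^r ≤ s! W^s` (Leibniz formula, `Matrix.det_apply`, or Mathlib `Matrix.det_le`).
-/

namespace Pool.Agent.Helper91.CPX

/-- Bound for an integer determinant. -/
theorem minors_det_le_h46 {r : ℕ} (A : Matrix (Fin r) (Fin r) ℤ) (W : ℤ)
    (hA : ∀ i j, |A i j| ≤ W) : |A.det| ≤ (r.factorial : ℤ) * W ^ r := by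
  have h := Matrix.det_le (A := A) (abv := AbsoluteValue.abs) (x := W) (by intro i j; exact hA i j)
  simpa [nsmul_eq_mul] using h

theorem minors {α : Type} [DecidableEq α] {s : ℕ} (hs : 1 ≤ s) (u : Fin s → α → ℤ) (T : Finset α)
    (W : ℤ) (hW : 1 ≤ W) (hu : ∀ a, ∀ z ∈ T, |u a z| ≤ W)
    (hdet : ∀ z : Fin s → α, (∀ k, z k ∈ T) →
      Matrix.det (Matrix.of fun a k : Fin s => u a (z k)) = 0) :
    ∃ c : Fin s → ℤ, c ≠ 0 ∧ (∀ a, |c a| ≤ (s.factorial : ℤ) * W ^ s) ∧
      ∀ z ∈ T, ∑ a, c a * u a z = 0 := by
  classical
  -- the predicate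
  let Pr : ℕ → Prop := fun r => ∃ (I : Fin r → Fin s) (z : Fin r → α), Function.Injective I ∧
    (∀ k, z k ∈ T) ∧ Matrix.det (Matrix.of fun a k : Fin r => u (I a) (z k)) ≠ 0
  have h0 : Pr 0 := ⟨Fin.elim0, Fin.elim0, fun a => a.elim0, fun k => k.elim0, by simp⟩
  have hle : ∀ r, Pr r → r ≤ s := by
    rintro r ⟨I, z, hI, -, -⟩
    simpa using Fintype.card_le_of_injective I hI
  have hns : ¬ Pr s := by
    rintro ⟨I, z, hI, hz, hd⟩
    apply hd
    have hb : Function.Bijective I := Finite.injective_iff_bijective.mp hI
    let e : Fin s ≃ Fin s := Equiv.ofBijective I hb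
    have h1 : (Matrix.of fun a k : Fin s => u (I a) (z k)) =
        (Matrix.of fun a k : Fin s => u a (z k)).submatrix e id := by
      ext a k
      rfl
    rw [h1, Matrix.det_permute, hdet z hz, mul_zero]
  obtain ⟨r, hr, hmax⟩ : ∃ r, Pr r ∧ ¬ Pr (r + 1) := by
    by_contra hcon
    push Not at hcon
    have : ∀ r, Pr r := by
      intro r
      induction r with
      | zero => exact h0
      | succ r ih => exact hcon r ih
    exact hns (this s)
  obtain ⟨I, z, hI, hz, hd⟩ := hr
  have hrs : r < s := by
    rcases lt_or_eq_of_le (hle r ⟨I, z, hI, hz, hd⟩) with h | h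
    · exact h
    · exfalso
      subst h
      exact hns ⟨I, z, hI, hz, hd⟩
  obtain ⟨a0, ha0⟩ : ∃ a0, a0 ∉ Set.range I := by
    by_contra hcon
    push Not at hcon
    have h1 : Function.Surjective I := fun a => hcon a
    have h2 := Fintype.card_le_of_surjective I h1
    simp at h2
    omega
  let J : Fin (r + 1) → Fin s := Fin.snoc I a0
  have hJ : Function.Injective J := by
    intro a b hab
    induction a using Fin.lastCases with
    | last =>
      induction b using Fin.lastCases with
      | last => rfl
      | cast b =>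
        exfalso
        simp only [J, Fin.snoc_last, Fin.snoc_castSucc] at hab
        exact ha0 ⟨b, hab.symm⟩
    | cast a =>
      induction b using Fin.lastCases with
      | last =>
        exfalso
        simp only [J, Fin.snoc_last, Fin.snoc_castSucc] at hab
        exact ha0 ⟨a, hab⟩
      | cast b =>
        simp only [J, Fin.snoc_castSucc] at hab
        rw [hI hab]
  -- the cofactors
  let co : Fin (r + 1) → ℤ := fun i => (-1) ^ ((i : ℕ) + (r : ℕ)) *
    Matrix.det (Matrix.of fun a k : Fin r => u (J (i.succAbove a)) (z k))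
  have hexp : ∀ w ∈ T, ∑ i, co i * u (J i) w = 0 := by
    intro w hw
    have h1 : Matrix.det (Matrix.of fun a k : Fin (r + 1) => u (J a) ((Fin.snoc z w : Fin (r + 1) → α) k)) = 0 := by
      by_contra hne
      refine hmax ⟨J, Fin.snoc z w, hJ, ?_, hne⟩
      intro k
      induction k using Fin.lastCases with
      | last => simpa using hw
      | cast k => simpa using hz k
    rw [Matrix.det_succ_column _ (Fin.last r)] at h1
    rw [← h1]
    refine Finset.sum_congr rfl fun i _ => ?_
    have h2 : (Matrix.of fun a k : Fin (r + 1) => u (J a) ((Fin.snoc z w : Fin (r + 1) → α) k)).submatrix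
        i.succAbove (Fin.last r).succAbove =
        Matrix.of fun a k : Fin r => u (J (i.succAbove a)) (z k) := by
      ext a k
      simp [Fin.succAbove_last]
    rw [h2]
    simp only [co, Matrix.of_apply, Fin.snoc_last, Fin.val_last]
    ring
  have hcob : ∀ i, |co i| ≤ (r.factorial : ℤ) * W ^ r := by
    intro i
    simp only [co]
    rw [abs_mul, abs_pow, abs_neg, abs_one, one_pow, one_mul]
    exact minors_det_le_h46 _ W (fun a k => hu _ _ (hz k))
  have hfac : (r.factorial : ℤ) * W ^ r ≤ (s.factorial : ℤ) * W ^ s := by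
    have h1 : (r.factorial : ℤ) ≤ (s.factorial : ℤ) := by exact_mod_cast Nat.factorial_le hrs.le
    have h2 : W ^ r ≤ W ^ s := pow_le_pow_right₀ hW hrs.le
    exact mul_le_mul h1 h2 (by positivity) (by positivity)
  refine ⟨fun a => if h : ∃ i, J i = a then co h.choose else 0, ?_, ?_, ?_⟩
  · intro hc
    have h1 := congrFun hc a0
    have hex : ∃ i, J i = a0 := ⟨Fin.last r, by simp [J]⟩
    have h2 : hex.choose = Fin.last r := hJ (by rw [hex.choose_spec]; simp [J])
    simp only [Pi.zero_apply] at h1
    rw [dif_pos hex, h2] at h1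
    apply hd
    simp only [co, mul_eq_zero, pow_eq_zero_iff', neg_eq_zero, one_ne_zero, false_and, false_or] at h1
    rw [← h1]
    congr 1
    ext a k
    simp [J, Fin.succAbove_last]
  · intro a
    dsimp only
    split_ifs with h
    · exact (hcob _).trans hfac
    · rw [abs_zero]; positivity
  · intro w hw
    refine Eq.trans ?_ (hexp w hw)
    change ∑ a, (if h : ∃ i, J i = a then co h.choose else 0) * u a w = _
    have h1 : ∑ a, (if h : ∃ i, J i = a then co h.choose else 0) * u a w =
        ∑ a ∈ Finset.univ.map ⟨J, hJ⟩, (if h : ∃ i, J i = a then co h.choose else 0) * u a w := by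
      symm
      refine Finset.sum_subset (Finset.subset_univ _) ?_
      intro a _ ha
      have : ¬ ∃ i, J i = a := by
        rintro ⟨i, hi⟩
        exact ha (Finset.mem_map.mpr ⟨i, Finset.mem_univ _, hi⟩)
      rw [dif_neg this, zero_mul]
    rw [h1, Finset.sum_map]
    refine Finset.sum_congr rfl fun i _ => ?_
    have hex : ∃ i', J i' = (⟨J, hJ⟩ : Fin (r + 1) ↪ Fin s) i := ⟨i, rfl⟩
    rw [dif_pos hex]
    have h2 : hex.choose = i := hJ hex.choose_spec
    rw [h2]
    rfl

end Pool.Agent.Helper91.CPX
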