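import Mathlib

/-!
CPX-D09. Choice of the prime and of the residue class.

Proof. For `z ∈ T` some `ℓ ∈ L` does not divide `J z`: otherwise the product of the distinct primes `ℓ ∈ L` divides
`J z ≠ 0` (`Finset.prod_primes_dvd`), so `X^N1 ≥ |J z| ≥ ∏ ℓ ≥ X^(lam card L) > X^N1`. Hence `T` is the union over
`ℓ ∈ L` of the sets `T_ℓ = {z ∈ T : ¬ ℓ ∣ J z}`, and `T_ℓ` is the union over the functions `c : ι → ZMod ℓ` of the sets
`{z ∈ T_ℓ : (z i : ZMod ℓ) = c i}`. The number of pairs `(ℓ, c)` is at most `X^lam * (X^(2 lam))^n`. The images under `M`: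
`card M(T) ≤ ∑ card M(T_{ℓ,c}) ≤ (number of pairs) * max`, take `T'` with the maximal value (`L` is not empty because
`N1 < lam card L`).
-/

namespace Pool.Agent.Helper91.CPX

theorem pigeon {ι : Type} [Fintype ι] [DecidableEq ι] (lam : ℝ) (hlam : 0 < lam) (X N1 : ℕ)
    (hX : 2 ≤ X) (L : Finset ℕ)
    (hL : ∀ ℓ ∈ L, ℓ.Prime ∧ (X : ℝ) ^ lam ≤ (ℓ : ℝ) ∧ (ℓ : ℝ) ≤ (X : ℝ) ^ (2 * lam))
    (hcard : (N1 : ℝ) < lam * L.card) (hcard' : (L.card : ℝ) ≤ (X : ℝ) ^ lam)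
    (T : Finset (ι → ℤ)) (M J : (ι → ℤ) → ℤ)
    (hJ : ∀ z ∈ T, J z ≠ 0 ∧ |J z| ≤ (X : ℤ) ^ N1) :
    ∃ ℓ ∈ L, ∃ T' ⊆ T, (∀ z ∈ T', ¬ (ℓ : ℤ) ∣ J z) ∧
      (∀ z ∈ T', ∀ z' ∈ T', ∀ i, (ℓ : ℤ) ∣ z i - z' i) ∧
      ((T.image M).card : ℝ) ≤
        (X : ℝ) ^ (lam + 2 * lam * (Fintype.card ι : ℝ)) * ((T'.image M).card : ℝ) := by
  have hX1 : (1 : ℝ) < (X : ℝ) := by exact_mod_cast (by omega : 1 < X)
  have hX0 : (0 : ℝ) < (X : ℝ) := by linarith
  have hLne : L.Nonempty := by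
    rw [Finset.nonempty_iff_ne_empty]
    rintro rfl
    simp only [Finset.card_empty, Nat.cast_zero, mul_zero] at hcard
    have : (0 : ℝ) ≤ (N1 : ℝ) := Nat.cast_nonneg _
    linarith
  have h1 : ∀ z : ι → ℤ, ∃ ℓ ∈ L, z ∈ T → ¬ (ℓ : ℤ) ∣ J z := by
    intro z
    by_cases hz : z ∈ T
    · by_contra hcon
      push Not at hcon
      have hd : ∏ ℓ ∈ L, ℓ ∣ (J z).natAbs := by
        refine Finset.prod_primes_dvd _ (fun ℓ hℓ => (hL ℓ hℓ).1.prime) (fun ℓ hℓ => ?_)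
        exact Int.natCast_dvd.1 (hcon ℓ hℓ).2
      have hle : ∏ ℓ ∈ L, ℓ ≤ X ^ N1 := by
        refine le_trans (Nat.le_of_dvd (Int.natAbs_pos.2 (hJ z hz).1) hd) ?_
        have h3 := (hJ z hz).2
        rw [Int.abs_eq_natAbs] at h3
        exact_mod_cast h3
      have hle' : ((∏ ℓ ∈ L, ℓ : ℕ) : ℝ) ≤ (X : ℝ) ^ (N1 : ℝ) := by
        rw [Real.rpow_natCast]
        exact_mod_cast hle
      have hge : (X : ℝ) ^ (lam * (L.card : ℝ)) ≤ ((∏ ℓ ∈ L, ℓ : ℕ) : ℝ) := by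
        rw [Real.rpow_mul hX0.le, Real.rpow_natCast, Nat.cast_prod, ← Finset.prod_const]
        refine Finset.prod_le_prod (fun ℓ _ => (Real.rpow_pos_of_pos hX0 _).le) (fun ℓ hℓ => ?_)
        exact (hL ℓ hℓ).2.1
      have hlt : (X : ℝ) ^ (N1 : ℝ) < (X : ℝ) ^ (lam * (L.card : ℝ)) :=
        Real.rpow_lt_rpow_of_exponent_lt hX1 hcard
      linarith
    · obtain ⟨ℓ, hℓ⟩ := hLne
      exact ⟨ℓ, hℓ, fun h => absurd h hz⟩
  choose lf hlf hnd using h1
  set key : (ι → ℤ) → ℕ × (ι → ℤ) := fun z => (lf z, fun i => z i % (lf z : ℤ)) with hkey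
  set S : Finset (ℕ × (ι → ℤ)) := L.biUnion fun ℓ =>
    (Fintype.piFinset (fun _ : ι => Finset.Ico (0 : ℤ) (ℓ : ℤ))).image (fun c => (ℓ, c)) with hS
  have hkeyS : ∀ z, key z ∈ S := by
    intro z
    rw [hS, Finset.mem_biUnion]
    refine ⟨lf z, hlf z, ?_⟩
    rw [Finset.mem_image]
    refine ⟨fun i => z i % (lf z : ℤ), ?_, rfl⟩
    rw [Fintype.mem_piFinset]
    intro i
    have hpos : (0 : ℤ) < (lf z : ℤ) := by exact_mod_cast (hL _ (hlf z)).1.pos
    rw [Finset.mem_Ico]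
    exact ⟨Int.emod_nonneg _ hpos.ne', Int.emod_lt_of_pos _ hpos⟩
  have hSne : S.Nonempty := ⟨key (fun _ => 0), hkeyS _⟩
  obtain ⟨s0, hs0, hmax⟩ := Finset.exists_max_image S
    (fun s => ((T.filter (fun z => key z = s)).image M).card) hSne
  have hs0L : s0.1 ∈ L := by
    rw [hS, Finset.mem_biUnion] at hs0
    obtain ⟨ℓ, hℓ, h2⟩ := hs0
    rw [Finset.mem_image] at h2
    obtain ⟨c, _, rfl⟩ := h2
    exact hℓ
  have hScard : (S.card : ℝ) ≤ (X : ℝ) ^ (lam + 2 * lam * (Fintype.card ι : ℝ)) := by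
    have h2 : (S.card : ℝ) ≤ ∑ ℓ ∈ L, ((X : ℝ) ^ (2 * lam)) ^ (Fintype.card ι) := by
      have h3 : S.card ≤ ∑ ℓ ∈ L, ((Fintype.piFinset
          (fun _ : ι => Finset.Ico (0 : ℤ) (ℓ : ℤ))).image (fun c => (ℓ, c))).card :=
        Finset.card_biUnion_le
      refine le_trans (Nat.cast_le.2 h3) ?_
      rw [Nat.cast_sum]
      refine Finset.sum_le_sum fun ℓ hℓ => ?_
      refine le_trans (Nat.cast_le.2 Finset.card_image_le) ?_
      rw [Fintype.card_piFinset]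
      simp only [Int.card_Ico, sub_zero, Int.toNat_natCast, Finset.prod_const, Finset.card_univ,
        Nat.cast_pow]
      exact pow_le_pow_left₀ (Nat.cast_nonneg _) (hL ℓ hℓ).2.2 _
    refine le_trans h2 ?_
    rw [Finset.sum_const, nsmul_eq_mul, Real.rpow_add hX0, Real.rpow_mul hX0.le (2 * lam),
      Real.rpow_natCast]
    exact mul_le_mul_of_nonneg_right hcard' (by positivity)
  refine ⟨s0.1, hs0L, T.filter (fun z => key z = s0), Finset.filter_subset _ _, ?_, ?_, ?_⟩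
  · intro z hz
    rw [Finset.mem_filter] at hz
    have h2 : lf z = s0.1 := congrArg Prod.fst hz.2
    rw [← h2]
    exact hnd z hz.1
  · intro z hz z' hz' i
    rw [Finset.mem_filter] at hz hz'
    have h2 : lf z = s0.1 := congrArg Prod.fst hz.2
    have h3 : lf z' = s0.1 := congrArg Prod.fst hz'.2
    have h4 : z i % (lf z : ℤ) = s0.2 i := congrFun (congrArg Prod.snd hz.2) i
    have h5 : z' i % (lf z' : ℤ) = s0.2 i := congrFun (congrArg Prod.snd hz'.2) i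
    rw [h2] at h4
    rw [h3] at h5
    exact Int.ModEq.dvd (show z' i % (s0.1 : ℤ) = z i % (s0.1 : ℤ) by rw [h4, h5])
  · have h2 : T.image M ⊆ S.biUnion (fun s => (T.filter (fun z => key z = s)).image M) := by
      intro m hm
      rw [Finset.mem_image] at hm
      obtain ⟨z, hz, rfl⟩ := hm
      rw [Finset.mem_biUnion]
      exact ⟨key z, hkeyS z, Finset.mem_image_of_mem _ (Finset.mem_filter.2 ⟨hz, rfl⟩)⟩
    have h3 : (T.image M).card ≤
        S.card * ((T.filter (fun z => key z = s0)).image M).card := by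
      refine le_trans (Finset.card_le_card h2) (le_trans Finset.card_biUnion_le ?_)
      refine le_trans (Finset.sum_le_sum hmax) ?_
      rw [Finset.sum_const, smul_eq_mul]
    refine le_trans (Nat.cast_le.2 h3) ?_
    rw [Nat.cast_mul]
    exact mul_le_mul_of_nonneg_right hScard (Nat.cast_nonneg _)

end Pool.Agent.Helper91.CPX
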