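import Mathlib

/-!
CPX-D07. Primes in `[X^lam, X^(2 lam)]`.

Proof. Bertrand (`Nat.exists_prime_lt_and_le_two_mul`): with `n0 = ⌈X^lam⌉ ≥ 1` there is for every `k` a prime `p_k` with
`2^k n0 < p_k ≤ 2^(k+1) n0`; they are distinct. Let `R = ⌊N1 / lam⌋ + 1` and take `p_0, ..., p_{R-1}`. Then
`N1 < lam R`. `p_k ≤ 2^R n0 ≤ 2^(R+1) X^lam`; need `2^(R+1) ≤ X^lam`, i.e. `R + 1 ≤ lam log_2 X`. Since
`(N1+1)^2 ≤ log_2 X` we have `R + 1 ≤ N1 / lam + 2 ≤ sqrt(log_2 X) / lam + 2 ≤ lam log_2 X` for `X ≥ X0(lam)`.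
And `R ≤ 2^R ≤ X^lam`.
-/

namespace Pool.Agent.Helper91.CPX

/-- the numerical inequality -/
private lemma num_ineq (lam : ℝ) (hlam : 0 < lam) :
    ∃ X0 : ℕ, 2 ≤ X0 ∧ ∀ X : ℕ, X0 ≤ X → ∀ N1 : ℕ, 2 ^ ((N1 + 1) ^ 2) ≤ X →
      (2 : ℝ) ^ (⌊(N1 : ℝ) / lam⌋₊ + 2) ≤ (X : ℝ) ^ lam := by
  set u0 : ℝ := 1 / lam ^ 2 + 2 / lam + 1 with hu0
  have hu0pos : 1 ≤ u0 := by
    rw [hu0]
    have h1 : 0 ≤ 1 / lam ^ 2 := by positivity
    have h2 : 0 ≤ 2 / lam := by positivity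
    linarith
  refine ⟨max 2 ⌈(2 : ℝ) ^ (u0 ^ 2)⌉₊, le_max_left _ _, ?_⟩
  intro X hX N1 hN1
  have hX2 : 2 ≤ X := le_trans (le_max_left _ _) hX
  have hXpos : (0 : ℝ) < X := by
    have : 0 < X := by omega
    exact_mod_cast this
  have hX1 : (2 : ℝ) ^ (u0 ^ 2) ≤ X := by
    have h1 : ⌈(2 : ℝ) ^ (u0 ^ 2)⌉₊ ≤ X := le_trans (le_max_right _ _) hX
    exact le_trans (Nat.le_ceil _) (by exact_mod_cast h1)
  set T : ℝ := Real.logb 2 X with hT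
  have hXT : (2 : ℝ) ^ T = X := Real.rpow_logb (by norm_num) (by norm_num) hXpos
  have hTu : u0 ^ 2 ≤ T := by
    rw [hT, Real.le_logb_iff_rpow_le (by norm_num) hXpos]
    exact hX1
  have hTm : ((N1 : ℝ) + 1) ^ 2 ≤ T := by
    rw [hT, Real.le_logb_iff_rpow_le (by norm_num) hXpos]
    have h1 : (2 : ℝ) ^ (((N1 : ℝ) + 1) ^ 2) = ((2 ^ ((N1 + 1) ^ 2) : ℕ) : ℝ) := by
      have h2 : ((N1 : ℝ) + 1) ^ 2 = (((N1 + 1) ^ 2 : ℕ) : ℝ) := by push_cast; ring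
      rw [h2, Real.rpow_natCast]
      push_cast
      ring
    rw [h1]
    exact_mod_cast hN1
  have hT0 : 0 ≤ T := le_trans (sq_nonneg _) hTu
  set u : ℝ := Real.sqrt T with hu
  have huT : u ^ 2 = T := Real.sq_sqrt hT0
  have hu1 : u0 ≤ u := by
    rw [hu]
    exact Real.le_sqrt_of_sq_le hTu
  have hum : (N1 : ℝ) + 1 ≤ u := by
    rw [hu]
    exact Real.le_sqrt_of_sq_le hTm
  have hlu : 1 / lam + 2 ≤ lam * u := by
    have h1 : lam * u0 ≤ lam * u := mul_le_mul_of_nonneg_left hu1 hlam.le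
    have h2 : lam * u0 = 1 / lam + 2 + lam := by
      rw [hu0]
      field_simp
    linarith
  have hu11 : 1 ≤ u := le_trans hu0pos hu1
  have hkey : (N1 : ℝ) / lam + 2 ≤ lam * T := by
    rw [← huT]
    have h1 : (1 / lam + 2) * u ≤ (lam * u) * u :=
      mul_le_mul_of_nonneg_right hlu (by linarith)
    have h2 : (N1 : ℝ) / lam ≤ u / lam := by
      apply div_le_div_of_nonneg_right _ hlam.le
      linarith
    have h3 : (1 / lam + 2) * u = u / lam + 2 * u := by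
      field_simp
    have h4 : lam * u ^ 2 = (lam * u) * u := by ring
    rw [h4]
    linarith
  have hfl : ((⌊(N1 : ℝ) / lam⌋₊ + 2 : ℕ) : ℝ) ≤ lam * T := by
    have h1 : (⌊(N1 : ℝ) / lam⌋₊ : ℝ) ≤ (N1 : ℝ) / lam := Nat.floor_le (by positivity)
    push_cast
    linarith
  have h5 : (X : ℝ) ^ lam = (2 : ℝ) ^ (lam * T) := by
    rw [← hXT, ← Real.rpow_mul (by norm_num), mul_comm]
  rw [h5, ← Real.rpow_natCast]
  exact Real.rpow_le_rpow_of_exponent_le (by norm_num) hfl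

theorem exists_primes (lam : ℝ) (hlam : 0 < lam) :
    ∃ X0 : ℕ, ∀ X : ℕ, X0 ≤ X → ∀ N1 : ℕ, 2 ^ ((N1 + 1) ^ 2) ≤ X →
      ∃ L : Finset ℕ,
        (∀ ℓ ∈ L, ℓ.Prime ∧ (X : ℝ) ^ lam ≤ (ℓ : ℝ) ∧ (ℓ : ℝ) ≤ (X : ℝ) ^ (2 * lam)) ∧
        (N1 : ℝ) < lam * L.card ∧ (L.card : ℝ) ≤ (X : ℝ) ^ lam := by
  obtain ⟨X0, hX02, hX0⟩ := num_ineq lam hlam
  refine ⟨X0, ?_⟩
  intro X hX N1 hN1
  have hmain := hX0 X hX N1 hN1
  have hXpos : (0 : ℝ) < X := by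
    have : 0 < X := by omega
    exact_mod_cast this
  set y : ℝ := (X : ℝ) ^ lam with hy
  have hypos : 0 < y := Real.rpow_pos_of_pos hXpos lam
  set R : ℕ := ⌊(N1 : ℝ) / lam⌋₊ + 1 with hR
  have hmain' : (2 : ℝ) ^ (R + 1) ≤ y := hmain
  have hy1 : 1 ≤ y := by
    refine le_trans ?_ hmain'
    exact one_le_pow₀ (by norm_num)
  set n0 : ℕ := ⌈y⌉₊ with hn0
  have hn0pos : 0 < n0 := Nat.ceil_pos.2 hypos
  have hex : ∀ k : ℕ, ∃ q : ℕ, q.Prime ∧ 2 ^ k * n0 < q ∧ q ≤ 2 ^ (k + 1) * n0 := by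
    intro k
    obtain ⟨q, h1, h2, h3⟩ := Nat.exists_prime_lt_and_le_two_mul (2 ^ k * n0)
      (by positivity)
    refine ⟨q, h1, h2, ?_⟩
    calc q ≤ 2 * (2 ^ k * n0) := h3
      _ = 2 ^ (k + 1) * n0 := by ring
  choose q hq1 hq2 hq3 using hex
  have hmono : StrictMono q := by
    apply strictMono_nat_of_lt_succ
    intro k
    exact lt_of_le_of_lt (hq3 k) (hq2 (k + 1))
  have hcard : (((Finset.range R).image q).card : ℝ) = R := by
    rw [Finset.card_image_of_injective _ hmono.injective, Finset.card_range]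
  refine ⟨(Finset.range R).image q, ?_, ?_, ?_⟩
  · intro ℓ hℓ
    obtain ⟨k, hk, rfl⟩ := Finset.mem_image.1 hℓ
    rw [Finset.mem_range] at hk
    refine ⟨hq1 k, ?_, ?_⟩
    · have h1 : n0 ≤ q k := by
        have h2 : 1 * n0 ≤ 2 ^ k * n0 := Nat.mul_le_mul_right _ Nat.one_le_two_pow
        have h3 := hq2 k
        omega
      calc y ≤ (n0 : ℝ) := Nat.le_ceil y
        _ ≤ (q k : ℝ) := by exact_mod_cast h1
    · have h1 : q k ≤ 2 ^ R * n0 :=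
        le_trans (hq3 k) (Nat.mul_le_mul_right _ (Nat.pow_le_pow_right (by norm_num) hk))
      have h2 : (n0 : ℝ) ≤ 2 * y := by
        have h3 : (n0 : ℝ) < y + 1 := Nat.ceil_lt_add_one hypos.le
        linarith
      have h4 : (X : ℝ) ^ (2 * lam) = y * y := by
        rw [hy, two_mul, Real.rpow_add hXpos]
      rw [h4]
      calc (q k : ℝ) ≤ ((2 ^ R * n0 : ℕ) : ℝ) := by exact_mod_cast h1
        _ = 2 ^ R * (n0 : ℝ) := by push_cast; ring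
        _ ≤ 2 ^ R * (2 * y) := by
          apply mul_le_mul_of_nonneg_left h2 (by positivity)
        _ = 2 ^ (R + 1) * y := by ring
        _ ≤ y * y := mul_le_mul_of_nonneg_right hmain' hypos.le
  · rw [hcard]
    have h1 : (N1 : ℝ) / lam < R := by
      rw [hR]
      push_cast
      exact Nat.lt_floor_add_one _
    rwa [div_lt_iff₀ hlam, mul_comm] at h1
  · rw [hcard]
    have h1 : (R : ℝ) ≤ 2 ^ R := by
      have : R < 2 ^ R := Nat.lt_two_pow_self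
      exact_mod_cast this.le
    have h2 : (2 : ℝ) ^ R ≤ 2 ^ (R + 1) := pow_le_pow_right₀ (by norm_num) (by omega)
    linarith

end Pool.Agent.Helper91.CPX
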