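import Pool.Agent.Helper91.CPX.DM
import Pool.Agent.Helper91.CPX.Growth
import Pool.Agent.Helper91.CPX.Primes
import Pool.Agent.Helper91.CPX.Minors
import Pool.Agent.Helper91.CPX.Pigeon

/-!
CPX-D10. The dimension drop.

Proof. If `d = 0` there is no `j0`, anything works. Let `d ≥ 1`, `n = card ι`, `lam = δ / (4 (2 n + 1))`,
`K = ⌈(K1 + 1) / lam⌉₊ `, `D, J` from `growth d _ K`, `s = (D + d).choose d`, `E = ∑_{j<J} (s - (j+(d-1)).choose (d-1))`, so
`lam * E ≥ (K1 + 1) (D s + 1)`. `K' = K1 * D * s + 1`, `X0` larger than the `X0` of `exists_primes lam`, than `2` and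
than `s! + 1`. Given the data, `exists_primes` and `pigeon` (with `J z := jac g j0 (graphPt G z)`) give `ℓ`, `T'` with
`card M(T') ≥ X^δ / X^(lam (2 n + 1)) ≥ X^(δ/2)`; `T'` is not empty: choose `z0 ∈ T'`, `Q0 := graphPt G z0`. For `z ∈ T'`:
`graphPt G z ≡ Q0 mod ℓ` (`eval_congr_dvd`). Let `mon : Fin s → (Fin d →₀ ℕ)` enumerate the exponents of degree `≤ D`
(`card_deg_le`), `f a := rename Sum.inl (monomial (mon a) 1)`. `DM` with `σ = Fin d ⊕ ι`, `κ = Option ι`,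
`v b = b.elim (Sum.inl j0) Sum.inr`, `m = d - 1`: for all `z_1, ..., z_s` in `T'` the determinant of
`u a (z k) := ∏_j (eval (z k) (G j)) ^ (mon a j)` is divisible by `ℓ ^ E ≥ X^(lam E) ≥ X^((K1+1)(D s+1))`, and its absolute
value is at most `s! (X^(K1 D))^s < X^((K1+1)(D s + 1))`, so it vanishes. `minors` (with `W = X^(K1 D)`) gives
`c : Fin s → ℤ`, and the polynomial is `∑_a monomial (mon a) (c a)` (nonzero because `mon` is injective).
-/

open MvPolynomial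

namespace Pool.Agent.Helper91.CPX

private theorem eval_mon {d : ℕ} (x : Fin d → ℤ) (m : Fin d →₀ ℕ) (c : ℤ) :
    eval x (monomial m c) = c * ∏ j, x j ^ m j := by
  rw [eval_monomial, Finsupp.prod_fintype _ _ (fun i => pow_zero _)]

private theorem abs_mon_le {d : ℕ} (x : Fin d → ℤ) (m : Fin d →₀ ℕ) (X : ℤ) (hX : 1 ≤ X)
    (K1 D : ℕ) (hx : ∀ j, |x j| ≤ X ^ K1) (hm : ∑ j, m j ≤ D) :
    |∏ j, x j ^ m j| ≤ X ^ (K1 * D) := by
  rw [Finset.abs_prod]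
  calc ∏ j, |x j ^ m j| ≤ ∏ j, (X ^ K1) ^ m j := by
        refine Finset.prod_le_prod (fun j _ => abs_nonneg _) (fun j _ => ?_)
        rw [abs_pow]
        exact pow_le_pow_left₀ (abs_nonneg _) (hx j) _
    _ = (X ^ K1) ^ ∑ j, m j := Finset.prod_pow_eq_pow_sum _ _ _
    _ ≤ (X ^ K1) ^ D := pow_le_pow_right₀ (one_le_pow₀ hX) hm
    _ = X ^ (K1 * D) := by rw [pow_mul]

private theorem drop_core {ι : Type} [Fintype ι] [DecidableEq ι] {d K1 D J s : ℕ} (hd : 1 ≤ d)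
    (hs : s = (D + d).choose d) (hs1 : 1 ≤ s) (lam : ℝ) (X : ℕ) (hX2 : 2 ≤ X)
    (hXs : s.factorial < X)
    (hE : ((K1 : ℝ) + 1) * ((D : ℝ) * s + 1) ≤
      lam * ((∑ j ∈ Finset.range J, (s - (j + (d - 1)).choose (d - 1)) : ℕ) : ℝ))
    (T' : Finset (ι → ℤ)) (hne : T'.Nonempty) (G : Fin d → MvPolynomial ι ℤ)
    (g : Option ι → MvPolynomial (Fin d ⊕ ι) ℤ) (j0 : Fin d)
    (h1 : ∀ z ∈ T', ∀ j, |eval z (G j)| ≤ (X : ℤ) ^ K1)
    (h2 : ∀ z ∈ T', ∀ a, eval (graphPt G z) (g a) = 0)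
    (ℓ : ℕ) (hℓ : ℓ.Prime) (hℓX : (X : ℝ) ^ lam ≤ (ℓ : ℝ))
    (h3 : ∀ z ∈ T', ¬ (ℓ : ℤ) ∣ jac g j0 (graphPt G z))
    (h4 : ∀ z ∈ T', ∀ z' ∈ T', ∀ i, (ℓ : ℤ) ∣ z i - z' i) :
    ∃ c : MvPolynomial (Fin d) ℤ, c ≠ 0 ∧ c.totalDegree ≤ D ∧
      (∀ m, |c.coeff m| ≤ (X : ℤ) ^ (K1 * D * s + 1)) ∧
      ∀ z ∈ T', eval (fun j => eval z (G j)) c = 0 := by
  classical
  have hX1 : (1 : ℤ) ≤ (X : ℤ) := by exact_mod_cast (by omega : 1 ≤ X)
  obtain ⟨S, hScard, hS⟩ := card_deg_le (Fin d) D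
  rw [Fintype.card_fin] at hScard
  let en : S ≃ Fin s := Finset.equivFinOfCardEq (hScard.trans hs.symm)
  let mon : Fin s → (Fin d →₀ ℕ) := fun a => (en.symm a).1
  have hmon : ∀ a, ∑ j, mon a j ≤ D := fun a => (hS _).mp (en.symm a).2
  have hinj : Function.Injective mon := by
    intro a b hab
    exact en.symm.injective (Subtype.ext hab)
  let u : Fin s → (ι → ℤ) → ℤ := fun a z => ∏ j, (eval z (G j)) ^ (mon a j)
  have hu : ∀ a, ∀ z ∈ T', |u a z| ≤ (X : ℤ) ^ (K1 * D) := fun a z hz =>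
    abs_mon_le (fun j => eval z (G j)) (mon a) X hX1 K1 D (h1 z hz) (hmon a)
  obtain ⟨z0, hz0⟩ := hne
  -- vanishing of the determinants
  have hdet : ∀ z : Fin s → (ι → ℤ), (∀ k, z k ∈ T') →
      Matrix.det (Matrix.of fun a k : Fin s => u a (z k)) = 0 := by
    intro z hz
    let v : Option ι ↪ Fin d ⊕ ι := ⟨fun b => b.elim (Sum.inl j0) Sum.inr, by
      intro a b hab
      cases a <;> cases b <;> simp_all⟩
    have hcardσ : Fintype.card (Option ι) + (d - 1) = Fintype.card (Fin d ⊕ ι) := by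
      rw [Fintype.card_option, Fintype.card_sum, Fintype.card_fin]
      omega
    have hDM := DM ℓ hℓ v g (graphPt G z0) (h3 z0 hz0)
      (fun a => rename Sum.inl (monomial (mon a) (1 : ℤ))) (fun k => graphPt G (z k))
      (by
        intro k i
        cases i with
        | inl j => exact eval_congr_dvd (G j) (z k) z0 ℓ (h4 _ (hz k) _ hz0)
        | inr i => exact h4 _ (hz k) _ hz0 i)
      (fun k a => h2 _ (hz k) a) J (d - 1) hcardσ
    have hmat : (Matrix.of fun a k : Fin s => eval (graphPt G (z k))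
        (rename Sum.inl (monomial (mon a) (1 : ℤ)))) =
        Matrix.of fun a k : Fin s => u a (z k) := by
      ext a k
      simp only [Matrix.of_apply]
      rw [eval_rename, eval_mon, one_mul]
      rfl
    rw [hmat] at hDM
    by_contra hne0
    set Δ : ℤ := Matrix.det (Matrix.of fun a k : Fin s => u a (z k)) with hΔ
    set E : ℕ := ∑ j ∈ Finset.range J, (s - (j + (d - 1)).choose (d - 1)) with hEdef
    have hle1 : (ℓ : ℤ) ^ E ≤ |Δ| :=
      Int.le_of_dvd (abs_pos.mpr hne0) ((dvd_abs _ _).mpr hDM)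
    have hle2 : |Δ| ≤ (s.factorial : ℤ) * ((X : ℤ) ^ (K1 * D)) ^ s := by
      have h5 := Matrix.det_le (A := Matrix.of fun a k : Fin s => u a (z k))
        (abv := (AbsoluteValue.abs : AbsoluteValue ℤ ℤ)) (x := (X : ℤ) ^ (K1 * D))
        (fun i j => hu i _ (hz j))
      rw [Fintype.card_fin, nsmul_eq_mul] at h5
      exact h5
    have hX1' : (1 : ℝ) ≤ (X : ℝ) := by exact_mod_cast (by omega : 1 ≤ X)
    have hX0' : (0 : ℝ) < (X : ℝ) := by linarith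
    have h6 : (X : ℝ) ^ (((K1 : ℝ) + 1) * ((D : ℝ) * s + 1)) ≤ (ℓ : ℝ) ^ E := by
      calc (X : ℝ) ^ (((K1 : ℝ) + 1) * ((D : ℝ) * s + 1)) ≤ (X : ℝ) ^ (lam * (E : ℝ)) :=
            Real.rpow_le_rpow_of_exponent_le hX1' hE
        _ = ((X : ℝ) ^ lam) ^ E := by
            rw [Real.rpow_mul hX0'.le, Real.rpow_natCast]
        _ ≤ (ℓ : ℝ) ^ E := pow_le_pow_left₀ (Real.rpow_nonneg hX0'.le _) hℓX _
    have h7 : (X : ℝ) ^ (K1 * D * s + 1) ≤ (X : ℝ) ^ (((K1 : ℝ) + 1) * ((D : ℝ) * s + 1)) := by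
      rw [← Real.rpow_natCast]
      refine Real.rpow_le_rpow_of_exponent_le hX1' ?_
      push_cast
      have h8 : (0 : ℝ) ≤ (D : ℝ) * s := by positivity
      have h9 : (0 : ℝ) ≤ (K1 : ℝ) := Nat.cast_nonneg _
      nlinarith
    have h10 : (ℓ : ℝ) ^ E ≤ (s.factorial : ℝ) * ((X : ℝ) ^ (K1 * D)) ^ s := by
      exact_mod_cast hle1.trans hle2
    have h11 : (s.factorial : ℝ) * ((X : ℝ) ^ (K1 * D)) ^ s < (X : ℝ) ^ (K1 * D * s + 1) := by
      rw [← pow_mul, pow_succ, mul_comm]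
      exact mul_lt_mul_of_pos_left (by exact_mod_cast hXs) (by positivity)
    linarith
  obtain ⟨c, hc0, hcle, hc⟩ := minors hs1 u T' ((X : ℤ) ^ (K1 * D)) (one_le_pow₀ hX1) hu hdet
  have hcoeff : ∀ m, coeff m (∑ a, monomial (mon a) (c a)) = ∑ a, if mon a = m then c a else 0 := by
    intro m
    rw [coeff_sum]
    exact Finset.sum_congr rfl (fun a _ => coeff_monomial _ _ _)
  have hcoeff' : ∀ a, coeff (mon a) (∑ a, monomial (mon a) (c a)) = c a := by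
    intro a
    rw [hcoeff, Finset.sum_eq_single a]
    · simp
    · intro b _ hb
      rw [if_neg (fun h => hb (hinj h))]
    · intro h; exact absurd (Finset.mem_univ _) h
  refine ⟨∑ a, monomial (mon a) (c a), ?_, ?_, ?_, ?_⟩
  · intro h
    apply hc0
    funext a
    rw [← hcoeff' a, h]
    simp
  · refine totalDegree_finsetSum_le (fun a _ => (totalDegree_monomial_le _ _).trans ?_)
    rw [Finsupp.sum_fintype _ _ (fun i => rfl)]
    exact hmon a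
  · intro m
    by_cases hm : ∃ a, mon a = m
    · obtain ⟨a, rfl⟩ := hm
      rw [hcoeff']
      refine (hcle a).trans ?_
      rw [← pow_mul, pow_succ, mul_comm]
      exact mul_le_mul_of_nonneg_left (by exact_mod_cast hXs.le) (by positivity)
    · rw [hcoeff, Finset.sum_eq_zero]
      · rw [abs_zero]; positivity
      · intro a _
        rw [if_neg (fun h => hm ⟨a, h⟩)]
  · intro z hz
    rw [map_sum]
    have h5 := hc z hz
    rw [← h5]
    exact Finset.sum_congr rfl (fun a _ => eval_mon _ _ _)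

theorem drop (ι : Type) [Fintype ι] [DecidableEq ι] (d K1 : ℕ) (δ : ℝ) (hδ : 0 < δ) :
    ∃ D K' X0 : ℕ, ∀ X : ℕ, X0 ≤ X → ∀ N1 : ℕ, 2 ^ ((N1 + 1) ^ 2) ≤ X →
      ∀ (T : Finset (ι → ℤ)) (M : (ι → ℤ) → ℤ) (G : Fin d → MvPolynomial ι ℤ)
        (g : Option ι → MvPolynomial (Fin d ⊕ ι) ℤ) (j0 : Fin d),
        (∀ z ∈ T, ∀ j, |eval z (G j)| ≤ (X : ℤ) ^ K1) →
        (∀ z ∈ T, ∀ a, eval (graphPt G z) (g a) = 0) →
        (∀ z ∈ T, jac g j0 (graphPt G z) ≠ 0 ∧ |jac g j0 (graphPt G z)| ≤ (X : ℤ) ^ N1) →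
        (X : ℝ) ^ δ ≤ ((T.image M).card : ℝ) →
        ∃ T' ⊆ T, (X : ℝ) ^ (δ / 2) ≤ ((T'.image M).card : ℝ) ∧
          ∃ c : MvPolynomial (Fin d) ℤ, c ≠ 0 ∧ c.totalDegree ≤ D ∧
            (∀ m, |c.coeff m| ≤ (X : ℤ) ^ K') ∧
            ∀ z ∈ T', eval (fun j => eval z (G j)) c = 0 := by
  classical
  rcases Nat.eq_zero_or_pos d with hd0 | hd
  · subst hd0
    exact ⟨0, 0, 0, fun X _ N1 _ T M G g j0 => j0.elim0⟩
  have hd' : 1 ≤ d := hd
  set n : ℕ := Fintype.card ι with hn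
  set lam : ℝ := δ / (4 * (2 * (n : ℝ) + 1)) with hlamdef
  have hn0 : (0 : ℝ) < 4 * (2 * (n : ℝ) + 1) := by positivity
  have hlam : 0 < lam := div_pos hδ hn0
  set K : ℕ := ⌈((K1 : ℝ) + 1) / lam⌉₊ with hK
  have hKlam : (K1 : ℝ) + 1 ≤ lam * K := by
    have h1 := Nat.le_ceil (((K1 : ℝ) + 1) / lam)
    rw [← hK, div_le_iff₀ hlam] at h1
    linarith
  obtain ⟨D, J, hs2, hgrow⟩ := growth d hd' K
  set s : ℕ := (D + d).choose d with hs
  obtain ⟨X0, hX0⟩ := exists_primes lam hlam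
  refine ⟨D, K1 * D * s + 1, X0 + 2 + s.factorial + 1, ?_⟩
  intro X hX N1 hN1 T M G g j0 h1 h2 h3 h4
  obtain ⟨L, hL1, hL2, hL3⟩ := hX0 X (by omega) N1 hN1
  have hX2 : 2 ≤ X := by omega
  have hX1' : (1 : ℝ) ≤ (X : ℝ) := by exact_mod_cast (by omega : 1 ≤ X)
  have hX0' : (0 : ℝ) < (X : ℝ) := by linarith
  obtain ⟨ℓ, hℓ, T', hT', h5, h6, h7⟩ := pigeon lam hlam X N1 hX2 L hL1 hL2 hL3 T M
    (fun z => jac g j0 (graphPt G z)) h3
  have hexp : lam + 2 * lam * (n : ℝ) = δ / 4 := by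
    rw [hlamdef]
    field_simp
    ring
  rw [hexp] at h7
  have hbig : (X : ℝ) ^ (δ / 2) ≤ ((T'.image M).card : ℝ) := by
    have h8 : (X : ℝ) ^ (δ / 4) * (X : ℝ) ^ (δ / 2) ≤
        (X : ℝ) ^ (δ / 4) * ((T'.image M).card : ℝ) := by
      refine le_trans ?_ (h4.trans h7)
      rw [← Real.rpow_add hX0']
      exact Real.rpow_le_rpow_of_exponent_le hX1' (by linarith)
    exact le_of_mul_le_mul_left h8 (Real.rpow_pos_of_pos hX0' _)
  refine ⟨T', hT', hbig, ?_⟩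
  have hne : T'.Nonempty := by
    have h9 : (0 : ℝ) < ((T'.image M).card : ℝ) :=
      lt_of_lt_of_le (Real.rpow_pos_of_pos hX0' _) hbig
    have h10 : 0 < (T'.image M).card := by exact_mod_cast h9
    exact Finset.image_nonempty.mp (Finset.card_pos.mp h10)
  refine drop_core (J := J) hd' hs (by omega) lam X hX2 (by omega) ?_ T' hne G g j0
    (fun z hz => h1 z (hT' hz)) (fun z hz => h2 z (hT' hz)) ℓ (hL1 ℓ hℓ).1 (hL1 ℓ hℓ).2.1 h5 h6
  have h11 : ((K * D * s + K : ℕ) : ℝ) ≤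
      ((∑ j ∈ Finset.range J, (s - (j + (d - 1)).choose (d - 1)) : ℕ) : ℝ) := by
    exact_mod_cast hgrow
  calc ((K1 : ℝ) + 1) * ((D : ℝ) * s + 1) ≤ (lam * K) * ((D : ℝ) * s + 1) :=
        mul_le_mul_of_nonneg_right hKlam (by positivity)
    _ = lam * ((K * D * s + K : ℕ) : ℝ) := by push_cast; ring
    _ ≤ _ := mul_le_mul_of_nonneg_left h11 hlam.le

end Pool.Agent.Helper91.CPX
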