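import Pool.Agent.Helper91.CPX.Smooth
import Pool.Agent.Helper91.CPX.AsetCount

/-!
CPX-A12. The `m`-full integers with a small ratio to `k`.

Proof. Let `a q = k p` with `|p|, |q| ≤ L`, not both `0`; as `a, k ≠ 0` both are nonzero. Dividing by the gcd we may assume
`IsCoprime p q`; then `q ∣ k`, `k = q g`, `a = g p`, `g ∣ k`, `1 ≤ |p| ≤ L`. Number of `g`: `2 tau |k| ≤ C |k|^δ` (`tau_rpow`). For fixed
`g`: write `|p| = p1 p2` with `p1` the part of `|p|` composed of the primes dividing `R := |g| * rad S`, `p2` coprime to `R`. The number of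
`p1` is at most `C L^δ R^δ ≤ C' L^δ |k|^δ` (`smooth_count`). `p2` is `m`-full: for a prime `r ∣ p2`: `r ∤ g`, `r ∉ S`, `r ∣ a`, so
`r^m ∣ |a| = |g| p1 p2` and `r ∤ |g| p1`, so `r^m ∣ p2`; the number of `p2 ≤ L` is at most
`card (Aset ∅ m L) ≤ C L^(1/m + δ)`. Signs: factor `2`. Total `C |k|^(2δ) L^(1/m + 2δ)`.
(Existence of the splitting `|p| = p1 p2`: `Nat.factorization` products, or strong induction; `Nat.Coprime` and
the property that all primes of `p1` divide `R`.)
-/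

open Pool.Agent.Helper87.Camp Pool.Agent.Helper10

namespace Pool.Agent.Helper91.CPX

private theorem exc_split (R : ℕ) : ∀ P : ℕ, 1 ≤ P → ∃ p1 p2 : ℕ, P = p1 * p2 ∧
    (∀ r : ℕ, r.Prime → r ∣ p1 → r ∣ R) ∧ Nat.Coprime p2 R := by
  intro P
  induction P using Nat.strong_induction_on with
  | _ P ih =>
    intro hP
    by_cases hc : Nat.Coprime P R
    · refine ⟨1, P, (one_mul P).symm, ?_, hc⟩
      intro r hr hd
      exact absurd (Nat.dvd_one.mp hd) hr.one_lt.ne'
    · rw [Nat.Prime.not_coprime_iff_dvd] at hc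
      obtain ⟨r, hr, h1, h2⟩ := hc
      obtain ⟨P', rfl⟩ := h1
      have hP' : 1 ≤ P' := by
        rcases Nat.eq_zero_or_pos P' with h | h
        · rw [h] at hP
          omega
        · exact h
      have hlt : P' < r * P' := by
        have := hr.two_le
        nlinarith
      obtain ⟨p1, p2, h3, h4, h5⟩ := ih P' hlt hP'
      refine ⟨r * p1, p2, ?_, ?_, h5⟩
      · rw [h3, mul_assoc]
      · intro r' hr' hd
        rcases (Nat.Prime.dvd_mul hr').mp hd with h | h
        · rw [(Nat.prime_dvd_prime_iff_eq hr' hr).mp h]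
          exact h2
        · exact h4 r' hr' h

private theorem exc_param (S : Finset ℕ) (m : ℕ) {L : ℕ} {k a : ℤ} (hk : k ≠ 0) (ha : a ≠ 0)
    (hf : NFull S m a.natAbs) (hr : ¬ NoSmallRatio a k (L : ℤ)) :
    ∃ g ∈ k.natAbs.divisors, ∃ p1 p2 : ℕ, a.natAbs = g * (p1 * p2) ∧
      (1 ≤ p1 ∧ p1 ≤ L ∧ ∀ r : ℕ, r.Prime → r ∣ p1 → r ∣ g * rad S) ∧
      (1 ≤ p2 ∧ p2 ≤ L ∧ NFull ∅ m p2) := by
  unfold NoSmallRatio at hr
  push Not at hr
  obtain ⟨p, q, hp, hq, heq, hne⟩ := hr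
  have hp0 : p ≠ 0 := by
    intro h
    have h1 : a * q = 0 := by rw [heq, h, mul_zero]
    exact hne h ((mul_eq_zero.mp h1).resolve_left ha)
  have hq0 : q ≠ 0 := by
    intro h
    have h1 : k * p = 0 := by rw [← heq, h, mul_zero]
    exact hp0 ((mul_eq_zero.mp h1).resolve_left hk)
  have hpn : 0 < p.natAbs := Int.natAbs_pos.mpr hp0
  have hqn : 0 < q.natAbs := Int.natAbs_pos.mpr hq0
  have han : 0 < a.natAbs := Int.natAbs_pos.mpr ha
  have hkn : 0 < k.natAbs := Int.natAbs_pos.mpr hk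
  have hpL : p.natAbs ≤ L := by
    rw [Int.abs_eq_natAbs] at hp
    exact_mod_cast hp
  have habs : a.natAbs * q.natAbs = k.natAbs * p.natAbs := by
    rw [← Int.natAbs_mul, ← Int.natAbs_mul, heq]
  set d := Nat.gcd p.natAbs q.natAbs with hd
  have hd0 : 0 < d := Nat.gcd_pos_of_pos_left _ hpn
  obtain ⟨P, hP⟩ : d ∣ p.natAbs := Nat.gcd_dvd_left _ _
  obtain ⟨Qn, hQ⟩ : d ∣ q.natAbs := Nat.gcd_dvd_right _ _
  have hcop : Nat.Coprime P Qn := by
    have h1 := Nat.coprime_div_gcd_div_gcd (m := p.natAbs) (n := q.natAbs)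
      (Nat.gcd_pos_of_pos_left _ hpn)
    rw [← hd, hP, hQ, Nat.mul_div_cancel_left _ hd0, Nat.mul_div_cancel_left _ hd0] at h1
    exact h1
  have hP1 : 1 ≤ P := by
    rcases Nat.eq_zero_or_pos P with h | h
    · rw [h, mul_zero] at hP
      omega
    · exact h
  have hQ1 : 1 ≤ Qn := by
    rcases Nat.eq_zero_or_pos Qn with h | h
    · rw [h, mul_zero] at hQ
      omega
    · exact h
  have hPL : P ≤ L := by
    refine le_trans ?_ hpL
    rw [hP]
    exact Nat.le_mul_of_pos_left P hd0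
  have h2 : a.natAbs * Qn = k.natAbs * P := by
    have h3 : d * (a.natAbs * Qn) = d * (k.natAbs * P) := by
      rw [hP, hQ] at habs
      linarith [habs]
    exact Nat.eq_of_mul_eq_mul_left hd0 h3
  have hQk : Qn ∣ k.natAbs := by
    have h3 : Qn ∣ k.natAbs * P := ⟨a.natAbs, by rw [← h2]; ring⟩
    exact hcop.symm.dvd_of_dvd_mul_right h3
  obtain ⟨g, hg⟩ := hQk
  have hgk : g ∣ k.natAbs := ⟨Qn, by rw [hg]; ring⟩
  have hg0 : 0 < g := Nat.pos_of_dvd_of_pos hgk hkn
  have hag : a.natAbs = g * P := by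
    have h3 : Qn * a.natAbs = Qn * (g * P) := by
      rw [hg] at h2
      linarith [h2]
    exact Nat.eq_of_mul_eq_mul_left hQ1 h3
  obtain ⟨p1, p2, h3, h4, h5⟩ := exc_split (g * rad S) P hP1
  have hp1 : 1 ≤ p1 := by
    rcases Nat.eq_zero_or_pos p1 with h | h
    · rw [h, zero_mul] at h3
      omega
    · exact h
  have hp2 : 1 ≤ p2 := by
    rcases Nat.eq_zero_or_pos p2 with h | h
    · rw [h, mul_zero] at h3
      omega
    · exact h
  refine ⟨g, Nat.mem_divisors.mpr ⟨hgk, hkn.ne'⟩, p1, p2, by rw [hag, h3], ⟨hp1, ?_, h4⟩,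
    hp2, ?_, ?_⟩
  · refine le_trans ?_ hPL
    rw [h3]
    exact Nat.le_mul_of_pos_right p1 hp2
  · refine le_trans ?_ hPL
    rw [h3]
    exact Nat.le_mul_of_pos_left p2 hp1
  · intro r hr _ hrd
    have hrR : ¬ r ∣ g * rad S := by
      intro h6
      have h7 := Nat.dvd_gcd hrd h6
      rw [h5] at h7
      exact absurd (Nat.dvd_one.mp h7) hr.one_lt.ne'
    have hrg : ¬ r ∣ g := fun h6 => hrR (h6.mul_right _)
    have hrS : r ∉ S := by
      intro h6
      apply hrR
      apply Dvd.dvd.mul_left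
      unfold rad
      exact Finset.dvd_prod_of_mem (fun p => p) (Finset.mem_filter.mpr ⟨h6, hr⟩)
    have hrp1 : ¬ r ∣ p1 := fun h6 => hrR (h4 r hr h6)
    have hra : r ∣ a.natAbs := by
      rw [hag, h3]
      exact (hrd.mul_left p1).mul_left g
    have h8 := hf r hr hrS hra
    rw [hag, h3, ← mul_assoc] at h8
    have h9 : Nat.Coprime (r ^ m) (g * p1) := by
      apply Nat.Coprime.pow_left
      rw [hr.coprime_iff_not_dvd, hr.dvd_mul]
      push Not
      exact ⟨hrg, hrp1⟩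
    exact h9.dvd_of_dvd_mul_left h8

private theorem exc_two (F : Finset ℤ) : F.card ≤ 2 * (F.image Int.natAbs).card := by
  apply Finset.card_le_mul_card_image
  intro a _
  have h1 : F.filter (fun x => x.natAbs = a) ⊆ {(a : ℤ), -(a : ℤ)} := by
    intro x hx
    rw [Finset.mem_filter] at hx
    rw [Finset.mem_insert, Finset.mem_singleton]
    exact Int.natAbs_eq_iff.mp hx.2
  exact (Finset.card_le_card h1).trans Finset.card_le_two

theorem exceptional (S : Finset ℕ) (m : ℕ) (hm : 1 ≤ m) (ε : ℝ) (hε : 0 < ε) :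
    ∃ C : ℝ, 1 ≤ C ∧ ∀ L : ℕ, 1 ≤ L → ∀ k : ℤ, k ≠ 0 → ∀ F : Finset ℤ,
      (∀ a ∈ F, a ≠ 0 ∧ NFull S m a.natAbs ∧ ¬ NoSmallRatio a k (L : ℤ)) →
      (F.card : ℝ) ≤ C * (k.natAbs : ℝ) ^ ε * (L : ℝ) ^ (1 / (m : ℝ) + ε) := by
  classical
  set δ : ℝ := ε / 2 with hδ
  have hδ0 : 0 < δ := by positivity
  obtain ⟨C0, hC0, h0⟩ := tau_rpow δ hδ0
  obtain ⟨C1, hC1, h1⟩ := smooth_count δ hδ0
  obtain ⟨C2, hC2, h2⟩ := aset_count ∅ m hm δ hδ0
  have hR1 : (1 : ℝ) ≤ (rad S : ℝ) := by exact_mod_cast rad_pos S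
  have hRd : (1 : ℝ) ≤ (rad S : ℝ) ^ δ := Real.one_le_rpow hR1 hδ0.le
  refine ⟨2 * (C0 * (C1 * (rad S : ℝ) ^ δ) * C2), ?_, ?_⟩
  · have h3 : 1 ≤ C0 * (C1 * (rad S : ℝ) ^ δ) * C2 :=
      one_le_mul_of_one_le_of_one_le (one_le_mul_of_one_le_of_one_le hC0
        (one_le_mul_of_one_le_of_one_le hC1 hRd)) hC2
    linarith
  · intro L hL k hk F hF
    have hkn : 0 < k.natAbs := Int.natAbs_pos.mpr hk
    have hK1 : (1 : ℝ) ≤ (k.natAbs : ℝ) := by exact_mod_cast hkn
    have hL1 : (1 : ℝ) ≤ (L : ℝ) := by exact_mod_cast hL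
    set SM : ℕ → Finset ℕ := fun g => (Finset.Icc 1 L).filter
      (fun v => ∀ r : ℕ, r.Prime → r ∣ v → r ∣ g * rad S) with hSM
    set FU : Finset ℕ := (Finset.Icc 1 L).filter (fun v => NFull ∅ m v) with hFU
    have hFUc : (FU.card : ℝ) ≤ C2 * (L : ℝ) ^ (1 / (m : ℝ) + δ) := by
      refine le_trans ?_ (h2 L hL)
      have h3 : FU.card ≤ (Aset ∅ m L).card := by
        apply Finset.card_le_card_of_injOn (fun v : ℕ => (v : ℤ))
        · intro v hv
          have hv' := Finset.mem_filter.mp (Finset.mem_coe.mp hv)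
          have hv2 := Finset.mem_Icc.mp hv'.1
          rw [Finset.mem_coe, mem_Aset]
          refine ⟨?_, by simpa using hv2.2, ?_⟩
          · show (v : ℤ) ≠ 0
            have : v ≠ 0 := by omega
            exact_mod_cast this
          · show NFull ∅ m (v : ℤ).natAbs
            rw [Int.natAbs_natCast]
            exact hv'.2
        · intro v _ w _ h
          have h' : (v : ℤ) = (w : ℤ) := h
          exact_mod_cast h'
      exact_mod_cast h3
    have hSMc : ∀ g ∈ k.natAbs.divisors, ((SM g).card : ℝ) ≤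
        C1 * (L : ℝ) ^ δ * ((k.natAbs : ℝ) ^ δ * (rad S : ℝ) ^ δ) := by
      intro g hg
      have hg1 := Nat.mem_divisors.mp hg
      have hg0 : 0 < g := Nat.pos_of_dvd_of_pos hg1.1 hkn
      have hgk : g ≤ k.natAbs := Nat.le_of_dvd hkn hg1.1
      have h3 := h1 (g * rad S) (Nat.mul_pos hg0 (rad_pos S)) L hL (SM g) (by
        intro v hv
        rw [hSM] at hv
        have hv' := Finset.mem_filter.mp hv
        have hv2 := Finset.mem_Icc.mp hv'.1
        exact ⟨hv2.1, hv2.2, hv'.2⟩)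
      refine h3.trans ?_
      apply mul_le_mul_of_nonneg_left _ (by positivity)
      rw [← Real.mul_rpow (by positivity) (by positivity)]
      apply Real.rpow_le_rpow (by positivity) _ hδ0.le
      push_cast
      have : (g : ℝ) ≤ (k.natAbs : ℝ) := by exact_mod_cast hgk
      exact mul_le_mul_of_nonneg_right this (by positivity)
    have hsub : F.image Int.natAbs ⊆ k.natAbs.divisors.biUnion (fun g =>
        ((SM g) ×ˢ FU).image (fun p : ℕ × ℕ => g * (p.1 * p.2))) := by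
      intro b hb
      rw [Finset.mem_image] at hb
      obtain ⟨a, ha, rfl⟩ := hb
      obtain ⟨ha0, haf, har⟩ := hF a ha
      obtain ⟨g, hg, p1, p2, e1, ⟨e2, e3, e4⟩, e5, e6, e7⟩ := exc_param S m hk ha0 haf har
      rw [Finset.mem_biUnion]
      refine ⟨g, hg, ?_⟩
      rw [Finset.mem_image]
      refine ⟨(p1, p2), ?_, e1.symm⟩
      rw [Finset.mem_product]
      constructor
      · rw [hSM]
        exact Finset.mem_filter.mpr ⟨Finset.mem_Icc.mpr ⟨e2, e3⟩, e4⟩
      · exact Finset.mem_filter.mpr ⟨Finset.mem_Icc.mpr ⟨e5, e6⟩, e7⟩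
    have hcard : ((F.image Int.natAbs).card : ℝ) ≤
        ∑ g ∈ k.natAbs.divisors, ((SM g).card : ℝ) * (FU.card : ℝ) := by
      have h3 : (F.image Int.natAbs).card ≤
          ∑ g ∈ k.natAbs.divisors, (SM g).card * FU.card := by
        refine (Finset.card_le_card hsub).trans (Finset.card_biUnion_le.trans ?_)
        refine Finset.sum_le_sum fun g _ => ?_
        rw [← Finset.card_product]
        exact Finset.card_image_le
      exact_mod_cast h3
    have hT : ((k.natAbs.divisors).card : ℝ) ≤ C0 * (k.natAbs : ℝ) ^ δ := h0 _ hkn.ne'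
    set K : ℝ := (k.natAbs : ℝ) ^ δ with hK
    set Lδ : ℝ := (L : ℝ) ^ δ with hLδ
    set Lm : ℝ := (L : ℝ) ^ (1 / (m : ℝ) + δ) with hLm
    set ρ : ℝ := (rad S : ℝ) ^ δ with hρ
    have hK0 : 0 ≤ K := by positivity
    have hLδ0 : 0 ≤ Lδ := by positivity
    have hLm0 : 0 ≤ Lm := by positivity
    have hρ0 : 0 ≤ ρ := by positivity
    have h4 : ∑ g ∈ k.natAbs.divisors, ((SM g).card : ℝ) * (FU.card : ℝ) ≤
        (C0 * K) * ((C1 * Lδ * (K * ρ)) * (C2 * Lm)) := by
      calc ∑ g ∈ k.natAbs.divisors, ((SM g).card : ℝ) * (FU.card : ℝ)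
          ≤ ∑ g ∈ k.natAbs.divisors, (C1 * Lδ * (K * ρ)) * (C2 * Lm) := by
            refine Finset.sum_le_sum fun g hg => ?_
            apply mul_le_mul (hSMc g hg) hFUc (by positivity) (by positivity)
        _ = ((k.natAbs.divisors).card : ℝ) * ((C1 * Lδ * (K * ρ)) * (C2 * Lm)) := by
            rw [Finset.sum_const, nsmul_eq_mul]
        _ ≤ _ := by
            apply mul_le_mul_of_nonneg_right hT (by positivity)
    have h5 : (F.card : ℝ) ≤ 2 * ((F.image Int.natAbs).card : ℝ) := by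
      exact_mod_cast exc_two F
    have h6 : (k.natAbs : ℝ) ^ ε = K * K := by
      rw [hK, ← Real.rpow_add (by linarith)]
      congr 1
      rw [hδ]
      ring
    have h7 : (L : ℝ) ^ (1 / (m : ℝ) + ε) = Lm * Lδ := by
      rw [hLm, hLδ, ← Real.rpow_add (by linarith)]
      congr 1
      rw [hδ]
      ring
    rw [h6, h7]
    calc (F.card : ℝ) ≤ 2 * ((C0 * K) * ((C1 * Lδ * (K * ρ)) * (C2 * Lm))) := by linarith
      _ = _ := by ring

end Pool.Agent.Helper91.CPX
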