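import Mathlib

/-!
CPX-N11. Lagrange interpolation at `0`.

Proof. `f = ∏_{ζ ∈ R} (X - ζ)` (`Lagrange.nodal R id`), `f'(ζ) = ∏_{ζ' ≠ ζ} (ζ - ζ')` (`Lagrange.eval_nodal_derivative_eval_node_eq`)
and by interpolation (`deg g < card R`) `g(X) = ∑_ζ g(ζ)/f'(ζ) · f(X)/(X - ζ)`; at `X = 0`:
`g(0) = ∑_ζ g(ζ)/f'(ζ) · f(0)/(-ζ)`. (`Lagrange.eq_interpolate`, `Lagrange.eval_interpolate_not_at_node`,
`Lagrange.nodalWeight_eq_eval_derivative_nodal`.)
-/

open Polynomial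

namespace Pool.Agent.Helper91.CPX

theorem lagrange {Ω : Type} [Field Ω] [DecidableEq Ω] (R : Finset Ω) (hR : (0 : Ω) ∉ R) (g : Polynomial Ω)
    (hg : g.degree < R.card) :
    ∑ ζ ∈ R, g.eval ζ / ((∏ η ∈ R, (X - C η)).derivative.eval ζ * ζ) =
      -(g.eval 0) / (∏ η ∈ R, (X - C η)).eval 0 := by
  have hinj : Set.InjOn (id : Ω → Ω) R := Set.injOn_id _
  have hnod : ∏ η ∈ R, (X - C η) = Lagrange.nodal R (id : Ω → Ω) := rfl
  have h0 : ∀ i ∈ R, (0 : Ω) ≠ id i := by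
    intro i hi h
    exact hR (by rw [h]; exact hi)
  have h1 : g = Lagrange.interpolate R (id : Ω → Ω) fun i => g.eval (id i) :=
    Lagrange.eq_interpolate hinj hg
  have h2 : g.eval 0 = (Lagrange.nodal R (id : Ω → Ω)).eval 0 *
      ∑ ζ ∈ R, Lagrange.nodalWeight R id ζ * (0 - ζ)⁻¹ * g.eval ζ := by
    conv_lhs => rw [h1]
    rw [Lagrange.eval_interpolate_not_at_node _ h0]
    rfl
  have h3 : (Lagrange.nodal R (id : Ω → Ω)).eval 0 ≠ 0 := by
    rw [Lagrange.eval_nodal, Finset.prod_ne_zero_iff]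
    intro i hi
    exact sub_ne_zero.2 (h0 i hi)
  rw [hnod, h2, neg_div, mul_div_cancel_left₀ _ h3, ← Finset.sum_neg_distrib]
  refine Finset.sum_congr rfl fun ζ hζ => ?_
  rw [Lagrange.nodalWeight_eq_eval_derivative_nodal hζ, zero_sub, id, div_eq_mul_inv, mul_inv,
    inv_neg]
  ring

end Pool.Agent.Helper91.CPX
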