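import Pool.Agent.Helper91.CPX.Basic

/-!
CPX-N03. The vanishing ideal and almost all `ν`.

Proof. For a section `P` (or any `P : ι → Zb F`): `eval (toK ∘ P) (map (toK F) p) = toK F (eval P p)`
(`MvPolynomial.eval_map`, `eval₂_comp...`, `map_eval`...), and `(eval P p : ℕ → ℤ) ν = evAt F ν (eval P p) =
eval (fun i => (P i : ℕ → ℤ) ν) (map (evAt F ν) p)`. Right to left: at almost all `ν` the section is in `T ν`, so
`toK F (eval P p) = 0` by `toK_eq_zero_iff`. Left to right: otherwise (ultrafilter, `Ultrafilter.eventually_not`) for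
almost all `ν` there is `z_ν ∈ T ν` with nonzero value; let `P i ν = z_ν i` for these `ν` and `0` for the others; it is in
`Zb F` because `|z_ν i| ≤ X ν` (`hT`). It is a section, so `toK F (eval P p) = 0`, so for almost all `ν` the value is `0`:
contradiction (an ultrafilter is nontrivial: `Filter.Eventually.exists`).
-/

open MvPolynomial

namespace Pool.Agent.Helper91.CPX

theorem eval_map_evAt (F : Frame) {ι : Type} (p : MvPolynomial ι (Zb F)) (P : ι → Zb F) (ν : ℕ) :
    ((eval P p : Zb F) : ℕ → ℤ) ν =
      eval (fun i => (P i : ℕ → ℤ) ν) (map (evAt F ν) p) := by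
  have h1 : evAt F ν (eval P p) = eval (fun i => evAt F ν (P i)) (map (evAt F ν) p) := by
    rw [eval_map]
    change evAt F ν (eval₂ (RingHom.id _) P p) = _
    rw [eval₂_comp_left]
    rfl
  exact h1

theorem los (F : Frame) {ι : Type} [Fintype ι] [DecidableEq ι] (T : ℕ → Finset (ι → ℤ))
    (hT : Bdd F T) (p : MvPolynomial ι (Zb F)) :
    map (toK F) p ∈ vanIdeal F T ↔
      ∀ᶠ ν in (F.U : Filter ℕ), ∀ z ∈ T ν, eval z (map (evAt F ν) p) = 0 := by
  have hev : ∀ P : ι → Zb F, eval (fun i => toK F (P i)) (map (toK F) p) =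
      toK F (eval P p) := by
    intro P
    rw [eval_map]
    change _ = toK F (eval₂ (RingHom.id _) P p)
    rw [eval₂_comp_left]
    rfl
  constructor
  · intro h
    by_contra hcon
    have h1 := Ultrafilter.eventually_not.mpr hcon
    classical
    let zz : ℕ → ι → ℤ := fun ν =>
      if h : ∃ z ∈ T ν, eval z (map (evAt F ν) p) ≠ 0 then Classical.choose h else 0
    have hzz : ∀ ν, (∃ z ∈ T ν, eval z (map (evAt F ν) p) ≠ 0) →
        zz ν ∈ T ν ∧ eval (zz ν) (map (evAt F ν) p) ≠ 0 := by
      intro ν hν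
      have : zz ν = Classical.choose hν := dif_pos hν
      rw [this]
      exact Classical.choose_spec hν
    have hmem : ∀ i : ι, (fun ν => zz ν i) ∈ Zb F := by
      intro i
      refine ⟨1, Filter.Eventually.of_forall fun ν => ?_⟩
      rw [pow_one]
      by_cases hν : ∃ z ∈ T ν, eval z (map (evAt F ν) p) ≠ 0
      · have h2 := hT ν (zz ν) (hzz ν hν).1 i
        rw [abs_of_nonneg (by linarith [h2.1])]
        exact h2.2
      · have : zz ν = 0 := dif_neg hν
        have h3 := F.one_le ν
        simp only [this, Pi.zero_apply, abs_zero]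
        linarith
    let P : ι → Zb F := fun i => ⟨fun ν => zz ν i, hmem i⟩
    have h1' : ∀ᶠ ν in (F.U : Filter ℕ), ∃ z ∈ T ν, eval z (map (evAt F ν) p) ≠ 0 := by
      filter_upwards [h1] with ν hν
      by_contra hc
      apply hν
      intro z hz
      by_contra hne
      exact hc ⟨z, hz, hne⟩
    have hP : IsSec F T P := by
      unfold IsSec
      filter_upwards [h1'] with ν hν
      exact (hzz ν hν).1
    have h2 := h P hP
    rw [hev, toK_eq_zero_iff] at h2
    obtain ⟨ν, hν1, hν2⟩ := (h1'.and h2).exists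
    rw [eval_map_evAt] at hν2
    exact (hzz ν hν1).2 hν2
  · intro h P hP
    rw [hev, toK_eq_zero_iff]
    filter_upwards [h, hP] with ν h1 h2
    rw [eval_map_evAt]
    exact h1 _ h2

end Pool.Agent.Helper91.CPX
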