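import Pool.Agent.Helper91.CPX.Defs

/-!
CPX-D01. The number of monomials of degree at most `j` in `m` variables is `(j + m).choose m`.

Proof. Monomials of degree `≤ j` in the variables `τ` correspond to monomials of degree exactly `j` in the
variables `Option τ` (the value at `none` is `j` minus the degree), i.e. to `Sym (Option τ) j`
(`Sym.equivNatSum...` or `Finsupp` or `Multiset.toFinsupp`), and
`Sym.card_sym_eq_choose : card (Sym α k) = (card α + k - 1).choose k`. Or: induction on `Fin m` with the
hockey stick identity (`Nat.sum_range_choose...`, `Finset.sum_range_choose_symm...`), or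
`Finset.card_finsuppAntidiag`, whatever Mathlib offers. Finiteness: all coordinates are `≤ j`.
-/

open MvPolynomial

namespace Pool.Agent.Helper91.CPX

theorem card_deg_le (τ : Type) [Fintype τ] [DecidableEq τ] (j : ℕ) :
    ∃ S : Finset (τ →₀ ℕ), S.card = (j + Fintype.card τ).choose (Fintype.card τ) ∧
      ∀ m : τ →₀ ℕ, m ∈ S ↔ ∑ i, m i ≤ j := by
  classical
  let A : Finset (Option τ →₀ ℕ) := Finset.finsuppAntidiag Finset.univ j
  have hA : ∀ f : Option τ →₀ ℕ, f ∈ A ↔ f none + ∑ i, f (some i) = j := by
    intro f
    simp only [A, Finset.mem_finsuppAntidiag, Finset.subset_univ, and_true]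
    rw [Fintype.sum_option]
  let r : (Option τ →₀ ℕ) → (τ →₀ ℕ) := fun f => Finsupp.equivFunOnFinite.symm fun i => f (some i)
  have hr : ∀ f i, r f i = f (some i) := fun f i => rfl
  refine ⟨A.image r, ?_, ?_⟩
  · rw [Finset.card_image_of_injOn]
    · simp only [A]
      rw [Finset.card_finsuppAntidiag_nat_eq_choose, Finset.card_univ, Fintype.card_option]
      have h1 : Fintype.card τ + 1 + j - 1 = j + Fintype.card τ := by omega
      rw [h1]
      exact (Nat.choose_symm_add (a := j) (b := Fintype.card τ))
    · intro f hf g hg h
      have hf' := (hA f).1 hf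
      have hg' := (hA g).1 hg
      have h2 : ∀ i, f (some i) = g (some i) := fun i => by rw [← hr, ← hr, h]
      ext o
      cases o with
      | none =>
        have h3 : ∑ i, f (some i) = ∑ i, g (some i) := Finset.sum_congr rfl fun i _ => h2 i
        omega
      | some i => exact h2 i
  · intro m
    rw [Finset.mem_image]
    constructor
    · rintro ⟨f, hf, rfl⟩
      have hf' := (hA f).1 hf
      simp only [hr]
      omega
    · intro h
      refine ⟨Finsupp.equivFunOnFinite.symm fun o => o.elim (j - ∑ i, m i) m, ?_, ?_⟩
      · rw [hA]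
        show (j - ∑ i, m i) + ∑ i, m i = j
        omega
      · ext i
        rfl

end Pool.Agent.Helper91.CPX
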