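import Pool.Agent.Helper91.CPX.Collision
import Pool.Agent.Helper91.CPX.AsetCount

/-!
CPX-A11. Regime 1: one `a i` is divisible by a large power `q = d^m` with `d` small.

Proof. Fix distinct `i, j, l` (at most `(n+2)^3` choices) and `d ∈ [1, V]`; `q = d^m ≤ |a i| ≤ N`. Fix the `a h`, `h ∉ {i, j, l}`
(`n - 1` indices: at most `(card Aset)^(n-1) ≤ (C N^(1/m+δ))^(n-1)` choices). Then `a j + a l ≡ - ∑_{h ≠ i,j,l} a h mod q` because
`q ∣ a i` and the sum of all is `0`; both are coprime to `q` (`IsCoprime.pow_right`), so by `pair_mod` and `collision` there are at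
most `C q^δ N^(1/m+δ) ≤ C N^(1/m+2δ)` pairs `(a j, a l)`, and `a i` is determined by the sum. Total
`(n+2)^3 V (C N^(1/m+δ))^(n-1) C N^(1/m+2δ)`; `δ = ε/(n+2)`. (Bound `T` by the image under
`a ↦ (i, j, l, d, restriction to the complement of {i,j,l}, (a j, a l))`, for instance by `card_le_real` twice.)
-/

open Pool.Agent.Helper87.Camp Pool.Agent.Helper10

namespace Pool.Agent.Helper91.CPX

theorem regime1 (n m : ℕ) (hn : 1 ≤ n) (hm : 1 ≤ m) (S : Finset ℕ) (ε : ℝ) (hε : 0 < ε) :
    ∃ C : ℝ, 1 ≤ C ∧ ∀ N : ℕ, 1 ≤ N → ∀ V : ℕ, ∀ T : Finset (Fin (n + 2) → ℤ),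
      (∀ a ∈ T, (∀ i, a i ∈ Aset S m N) ∧ ∑ i, a i = 0 ∧
        ∃ i j l, i ≠ j ∧ i ≠ l ∧ j ≠ l ∧ ∃ d : ℕ, 1 ≤ d ∧ d ≤ V ∧ ((d ^ m : ℕ) : ℤ) ∣ a i ∧
          IsCoprime (a j) (d : ℤ) ∧ IsCoprime (a l) (d : ℤ) ∧
          2 ^ (4 * m ^ 2) * N ^ 4 ≤ (d ^ m) ^ m) →
      (T.card : ℝ) ≤ C * (V : ℝ) * (N : ℝ) ^ ((n : ℝ) / (m : ℝ) + ε) := by
  classical
  obtain ⟨k, rfl⟩ : ∃ k, n = k + 1 := ⟨n - 1, by omega⟩
  set δ : ℝ := ε / ((k : ℝ) + 3) with hδ
  have hδ0 : 0 < δ := by positivity
  obtain ⟨C1, hC1, h1⟩ := aset_count S m hm δ hδ0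
  obtain ⟨C2, hC2, h2⟩ := collision S m hm δ hδ0
  have hC1p : (1 : ℝ) ≤ C1 ^ k := one_le_pow₀ hC1
  have hk3 : (1 : ℝ) ≤ ((k : ℝ) + 3) ^ 3 := one_le_pow₀ (by
    have : (0 : ℝ) ≤ k := Nat.cast_nonneg k
    linarith)
  refine ⟨((k : ℝ) + 3) ^ 3 * (C1 ^ k * C2), one_le_mul_of_one_le_of_one_le hk3
    (one_le_mul_of_one_le_of_one_le hC1p hC2), fun N hN V T hT => ?_⟩
  have hN1 : (1 : ℝ) ≤ N := by exact_mod_cast hN
  have hN0 : (0 : ℝ) < N := by linarith
  choose! gi gj gl hij hil hjl gd hd1 hdV hdiv hcj hcl hbig using fun a ha => (hT a ha).2.2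
  set K1 : ℝ := C2 * ((N : ℝ) ^ δ * (N : ℝ) ^ (1 / (m : ℝ) + δ)) with hK1
  have hK10 : 0 ≤ K1 := by positivity
  set K : ℝ := K1 * (C1 * (N : ℝ) ^ (1 / (m : ℝ) + δ)) ^ k with hK
  have hK0 : 0 ≤ K := by positivity
  let f : (Fin (k + 1 + 2) → ℤ) → Fin (k + 1 + 2) × Fin (k + 1 + 2) × Fin (k + 1 + 2) × ℕ :=
    fun a => (gi a, gj a, gl a, gd a)
  have hstep1 : (T.card : ℝ) ≤ K * ((Finset.univ ×ˢ Finset.univ ×ˢ Finset.univ ×ˢ
      Finset.Icc 1 V : Finset (Fin (k + 1 + 2) × Fin (k + 1 + 2) × Fin (k + 1 + 2) × ℕ))).card := by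
    apply card_le_real f
    · intro a ha
      simp only [Finset.mem_product, Finset.mem_univ, true_and, Finset.mem_Icc, f]
      exact ⟨hd1 a ha, hdV a ha⟩
    · rintro ⟨i, j, l, d⟩ _
      rcases (T.filter (fun a => f a = (i, j, l, d))).eq_empty_or_nonempty with h0 | ⟨a1, ha1⟩
      · rw [h0, Finset.card_empty, Nat.cast_zero]
        exact hK0
      · have hkey : ∀ a ∈ T.filter (fun a => f a = (i, j, l, d)), a ∈ T ∧ gi a = i ∧ gj a = j ∧
            gl a = l ∧ gd a = d := by
          intro a ha
          rw [Finset.mem_filter] at ha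
          have h3 := ha.2
          simp only [f, Prod.mk.injEq] at h3
          exact ⟨ha.1, h3.1, h3.2.1, h3.2.2.1, h3.2.2.2⟩
        obtain ⟨hT1, e1, e2, e3, e4⟩ := hkey a1 ha1
        have hij' : i ≠ j := by
          rw [← e1, ← e2]
          exact hij a1 hT1
        have hil' : i ≠ l := by
          rw [← e1, ← e3]
          exact hil a1 hT1
        have hjl' : j ≠ l := by
          rw [← e2, ← e3]
          exact hjl a1 hT1
        have hd1' : 1 ≤ d := by
          rw [← e4]
          exact hd1 a1 hT1
        have hbig' : 2 ^ (4 * m ^ 2) * N ^ 4 ≤ (d ^ m) ^ m := by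
          rw [← e4]
          exact hbig a1 hT1
        have hq1 : 1 ≤ d ^ m := Nat.one_le_pow _ _ hd1'
        have hqN : d ^ m ≤ N := by
          have h3 := hdiv a1 hT1
          rw [e1, e4, Int.natCast_dvd] at h3
          have h4 := (mem_Aset.1 ((hT a1 hT1).1 i))
          exact (Nat.le_of_dvd (Int.natAbs_pos.2 h4.1) h3).trans h4.2.1
        have hneq : NeZero (d ^ m) := ⟨by omega⟩
        set A : Finset ℤ := (Aset S m N).filter (fun a => IsCoprime a ((d ^ m : ℕ) : ℤ)) with hA
        have hcoll : (coll A (fun a => (a : ZMod (d ^ m))) : ℝ) ≤ K1 := by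
          refine (h2 N hN (d ^ m) hq1 hbig').trans ?_
          rw [hK1, mul_assoc]
          refine mul_le_mul_of_nonneg_left ?_ (by linarith)
          refine mul_le_mul_of_nonneg_right ?_ (Real.rpow_nonneg hN0.le _)
          exact Real.rpow_le_rpow (Nat.cast_nonneg _) (by exact_mod_cast hqN) hδ0.le
        let R : (Fin (k + 1 + 2) → ℤ) → ({h : Fin (k + 1 + 2) // h ≠ i ∧ h ≠ j ∧ h ≠ l} → ℤ) :=
          fun a h => a h.1
        have hstep2 : ((T.filter (fun a => f a = (i, j, l, d))).card : ℝ) ≤
            K1 * (Fintype.piFinset (fun _ : {h : Fin (k + 1 + 2) // h ≠ i ∧ h ≠ j ∧ h ≠ l} =>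
              Aset S m N)).card := by
          apply card_le_real R
          · intro a ha
            rw [Fintype.mem_piFinset]
            intro h
            exact (hT a (hkey a ha).1).1 h.1
          · intro u _
            rcases ((T.filter (fun a => f a = (i, j, l, d))).filter
              (fun a => R a = u)).eq_empty_or_nonempty with h0 | ⟨a0, ha0⟩
            · rw [h0, Finset.card_empty, Nat.cast_zero]
              exact hK10
            · set E := (((Finset.univ : Finset (Fin (k + 1 + 2))).erase i).erase j).erase l with hE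
              have hsplit : ∀ a : Fin (k + 1 + 2) → ℤ,
                  ∑ h, a h = a i + (a j + (a l + ∑ h ∈ E, a h)) := by
                intro a
                have hj' : j ∈ (Finset.univ : Finset (Fin (k + 1 + 2))).erase i :=
                  Finset.mem_erase.2 ⟨hij'.symm, Finset.mem_univ _⟩
                have hl' : l ∈ ((Finset.univ : Finset (Fin (k + 1 + 2))).erase i).erase j :=
                  Finset.mem_erase.2 ⟨hjl'.symm, Finset.mem_erase.2 ⟨hil'.symm,
                    Finset.mem_univ _⟩⟩
                rw [← Finset.add_sum_erase Finset.univ a (Finset.mem_univ i),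
                  ← Finset.add_sum_erase _ a hj', ← Finset.add_sum_erase _ a hl']
              have hmemE : ∀ h ∈ E, h ≠ i ∧ h ≠ j ∧ h ≠ l := by
                intro h hh
                rw [hE, Finset.mem_erase, Finset.mem_erase, Finset.mem_erase] at hh
                exact ⟨hh.2.2.1, hh.2.1, hh.1⟩
              have hEq : ∀ a, R a = u → ∀ h ∈ E, a h = a0 h := by
                intro a ha h hh
                have h3 : R a = R a0 := by
                  rw [ha]
                  exact ((Finset.mem_filter.1 ha0).2).symm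
                exact congrFun h3 ⟨h, hmemE h hh⟩
              have hsum : ∀ a ∈ (T.filter (fun a => f a = (i, j, l, d))).filter
                  (fun a => R a = u), a i + (a j + (a l + ∑ h ∈ E, a0 h)) = 0 := by
                intro a ha
                rw [Finset.mem_filter] at ha
                rw [← Finset.sum_congr rfl (hEq a ha.2), ← hsplit]
                exact (hT a (hkey a ha.1).1).2.1
              have hle : ((T.filter (fun a => f a = (i, j, l, d))).filter
                  (fun a => R a = u)).card ≤ ((A ×ˢ A).filter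
                    (fun p => ((d ^ m : ℕ) : ℤ) ∣ p.1 + p.2 - (-∑ h ∈ E, a0 h))).card := by
                refine Finset.card_le_card_of_injOn (fun a => (a j, a l)) ?_ ?_
                · intro a ha
                  rw [Finset.mem_coe] at ha
                  have hs := hsum a ha
                  rw [Finset.mem_filter] at ha
                  obtain ⟨hTa, f1, f2, f3, f4⟩ := hkey a ha.1
                  rw [Finset.mem_coe, Finset.mem_filter, Finset.mem_product, hA,
                    Finset.mem_filter, Finset.mem_filter]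
                  have hcj' := hcj a hTa
                  have hcl' := hcl a hTa
                  have hdv := hdiv a hTa
                  rw [f2, f4] at hcj'
                  rw [f3, f4] at hcl'
                  rw [f1, f4] at hdv
                  refine ⟨⟨⟨(hT a hTa).1 j, ?_⟩, ⟨(hT a hTa).1 l, ?_⟩⟩, ?_⟩
                  · push_cast
                    exact hcj'.pow_right
                  · push_cast
                    exact hcl'.pow_right
                  · obtain ⟨w, hw⟩ := hdv
                    refine ⟨-w, ?_⟩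
                    change a j + a l - (-∑ h ∈ E, a0 h) = _
                    rw [mul_neg, ← hw]
                    linarith
                · intro a ha b hb hab
                  rw [Finset.mem_coe] at ha hb
                  have hsa := hsum a ha
                  have hsb := hsum b hb
                  rw [Finset.mem_filter] at ha hb
                  have i1 : a j = b j := congrArg Prod.fst hab
                  have i2 : a l = b l := congrArg Prod.snd hab
                  have i3 : a i = b i := by
                    rw [i1, i2] at hsa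
                    linarith
                  funext h
                  by_cases hh1 : h = i
                  · rw [hh1]; exact i3
                  · by_cases hh2 : h = j
                    · rw [hh2]; exact i1
                    · by_cases hh3 : h = l
                      · rw [hh3]; exact i2
                      · have h3 : R a = R b := by rw [ha.2, hb.2]
                        exact congrFun h3 ⟨h, hh1, hh2, hh3⟩
              have h3 := hle.trans (pair_mod (d ^ m) A (-∑ h ∈ E, a0 h))
              exact le_trans (by exact_mod_cast h3) hcoll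
        refine hstep2.trans ?_
        rw [hK]
        refine mul_le_mul_of_nonneg_left ?_ hK10
        rw [Fintype.card_piFinset, Finset.prod_const, Finset.card_univ]
        have hcard : Fintype.card {h : Fin (k + 1 + 2) // h ≠ i ∧ h ≠ j ∧ h ≠ l} = k := by
          rw [Fintype.card_subtype]
          have h3 : (Finset.univ.filter (fun h : Fin (k + 1 + 2) => h ≠ i ∧ h ≠ j ∧ h ≠ l)) =
              (((Finset.univ : Finset (Fin (k + 1 + 2))).erase i).erase j).erase l := by
            ext h
            simp only [Finset.mem_filter, Finset.mem_erase, Finset.mem_univ, true_and, and_true]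
            tauto
          rw [h3, Finset.card_erase_of_mem, Finset.card_erase_of_mem, Finset.card_erase_of_mem
            (Finset.mem_univ i), Finset.card_univ, Fintype.card_fin]
          · omega
          · exact Finset.mem_erase.2 ⟨hij'.symm, Finset.mem_univ _⟩
          · exact Finset.mem_erase.2 ⟨hjl'.symm, Finset.mem_erase.2 ⟨hil'.symm,
                    Finset.mem_univ _⟩⟩
        rw [hcard]
        push_cast
        exact pow_le_pow_left₀ (Nat.cast_nonneg _) (h1 N hN) k
  have hU : (((Finset.univ ×ˢ Finset.univ ×ˢ Finset.univ ×ˢ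
      Finset.Icc 1 V : Finset (Fin (k + 1 + 2) × Fin (k + 1 + 2) × Fin (k + 1 + 2) × ℕ))).card : ℝ) =
      ((k : ℝ) + 3) ^ 3 * V := by
    rw [Finset.card_product, Finset.card_product, Finset.card_product, Finset.card_univ,
      Fintype.card_fin, Nat.card_Icc]
    push_cast
    ring
  rw [hU] at hstep1
  have hpow : (N : ℝ) ^ δ * (N : ℝ) ^ (1 / (m : ℝ) + δ) * ((N : ℝ) ^ (1 / (m : ℝ) + δ)) ^ k ≤
      (N : ℝ) ^ (((k + 1 : ℕ) : ℝ) / (m : ℝ) + ε) := by
    rw [← Real.rpow_natCast, ← Real.rpow_mul hN0.le, ← Real.rpow_add hN0, ← Real.rpow_add hN0]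
    refine Real.rpow_le_rpow_of_exponent_le hN1 ?_
    have h3 : ((k : ℝ) + 3) * δ = ε := by
      rw [hδ]
      field_simp
    push_cast
    have h4 : δ + (1 / (m : ℝ) + δ) + (1 / (m : ℝ) + δ) * k =
        ((k : ℝ) + 1) / m + ((k : ℝ) + 2) * δ := by ring
    rw [h4]
    nlinarith
  calc (T.card : ℝ) ≤ K * (((k : ℝ) + 3) ^ 3 * V) := hstep1
    _ = ((k : ℝ) + 3) ^ 3 * (C1 ^ k * C2) * V * ((N : ℝ) ^ δ * (N : ℝ) ^ (1 / (m : ℝ) + δ) *
        ((N : ℝ) ^ (1 / (m : ℝ) + δ)) ^ k) := by
        rw [hK, hK1, mul_pow]
        ring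
    _ ≤ ((k : ℝ) + 3) ^ 3 * (C1 ^ k * C2) * V *
        (N : ℝ) ^ (((k + 1 : ℕ) : ℝ) / (m : ℝ) + ε) := by
        refine mul_le_mul_of_nonneg_left hpow ?_
        have h3 : (0 : ℝ) ≤ V := Nat.cast_nonneg V
        positivity

end Pool.Agent.Helper91.CPX
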