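import Pool.Agent.Helper91.CPX.Exceptional
import Pool.Agent.Helper91.CPX.Decomp2
import Pool.Agent.Helper91.CPX.R2

/-!
CPX-A14. The number of representations of `k` as a sum of two `m`-full numbers with small `radW`.

Proof. `R2` with `n1 = n2 = H`, `H`, and `ε2 / 4` gives `m0`; take `m1 = max (m0 + 1) ⌈4 m0 / ε2⌉₊`. Let `m ≥ m1` (so `m ≥ 1`, `m0 / m ≤ ε2 / 4`), `S`,
`δ > 0` small (depending on `m`: `δ = ε2 / (32 m (m0 + 1))`, adjust). Given `N, W, D, k, F` put `X = ⌈N^(1/m)⌉₊ + 1`: `2 ≤ X`, `N ≤ X^m`,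
`X ≤ 3 N^(1/m)`. If `F` is empty nothing to do; otherwise `|k| ≤ 2 N`.
(1) the `a ∈ F` with `¬ NoSmallRatio a k (X^m0)`: at most `C (2N)^δ (X^m0)^(1/m + δ) ≤ C' N^(δ + m0/m^2 + m0 δ/m)`.
(2) the others: `decomp2` for `|a|` and `|k - a|` gives the data `(sign a, sign (k-a), s, v, e, s', v', f)`; the radical of `v` is
`radW S W a ≤ D`. The number of data is at most `4 (C N^δ)^2 (C D^2 N^δ)^2 (H m)^(2 H)` (`sunit_count`, `small_rad`). For fixed data let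
`α = ± s v`, `β = ± s' v'`, `|α|, |β| ≤ N ≤ X^m ≤ X^(H m)`; the points `z = Sum.elim x y` satisfy the hypotheses of `R2`, so
`∏ x_i^(e_i)` takes at most `C X^(ε2/4)` values, and `a = α ∏ x_i^(e_i)`. Total of (2): `C D^4 N^(4 δ) X^(ε2/4)`, and
`X^(ε2/4) ≤ C N^(ε2/(4m))`. All exponents of `N` are at most `ε2 / m`.
-/

open Pool.Agent.Helper87.Camp Pool.Agent.Helper10

namespace Pool.Agent.Helper91.CPX

private lemma rk_pickX (m N : ℕ) (hm : 1 ≤ m) (hN : 1 ≤ N) :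
    ∃ X : ℕ, 2 ≤ X ∧ N ≤ X ^ m ∧ (X : ℝ) ≤ 3 * (N : ℝ) ^ (1 / (m : ℝ)) := by
  have hN' : (1 : ℝ) ≤ N := by exact_mod_cast hN
  have hm' : (0 : ℝ) < m := by exact_mod_cast hm
  set r : ℝ := (N : ℝ) ^ (1 / (m : ℝ)) with hr
  have hr1 : 1 ≤ r := Real.one_le_rpow hN' (by positivity)
  refine ⟨⌈r⌉₊ + 1, ?_, ?_, ?_⟩
  · have : 1 ≤ ⌈r⌉₊ := Nat.one_le_ceil_iff.2 (by linarith)
    omega
  · have h1 : (N : ℝ) = r ^ m := by
      rw [hr, ← Real.rpow_natCast, ← Real.rpow_mul (by positivity), one_div,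
        inv_mul_cancel₀ hm'.ne', Real.rpow_one]
    have h2 : (N : ℝ) ≤ ((⌈r⌉₊ + 1 : ℕ) : ℝ) ^ m := by
      rw [h1]
      refine pow_le_pow_left₀ (by linarith) ?_ m
      push_cast
      linarith [Nat.le_ceil r]
    exact_mod_cast h2
  · push_cast
    have := Nat.ceil_lt_add_one (by linarith : 0 ≤ r)
    linarith

private lemma rk_fiber (H m m0 : ℕ) (ε C : ℝ)
    (hR : ∀ X : ℕ, 2 ≤ X → ∀ α β k : ℤ,
      |α| ≤ (X : ℤ) ^ (H * m) → |β| ≤ (X : ℤ) ^ (H * m) →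
      ∀ (e : Fin H → ℕ) (f : Fin H → ℕ), (∀ i, 1 ≤ e i ∧ e i ≤ H * m) →
        (∀ j, 1 ≤ f j ∧ f j ≤ H * m) →
      ∀ T : Finset (Fin H ⊕ Fin H → ℤ),
        (∀ z ∈ T, (∀ i, 1 ≤ z i ∧ z i ≤ (X : ℤ)) ∧
          α * ∏ i, z (Sum.inl i) ^ e i + β * ∏ j, z (Sum.inr j) ^ f j = k ∧
          NoSmallRatio (α * ∏ i, z (Sum.inl i) ^ e i) k ((X : ℤ) ^ m0)) →
        ((T.image (fun z => ∏ i, z (Sum.inl i) ^ e i)).card : ℝ) ≤ C * (X : ℝ) ^ ε)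
    (X : ℕ) (hX : 2 ≤ X) (α β k : ℤ) (hα : |α| ≤ (X : ℤ) ^ (H * m)) (hβ : |β| ≤ (X : ℤ) ^ (H * m))
    (e f : Fin H → ℕ) (he : ∀ i, 1 ≤ e i ∧ e i ≤ H * m) (hf : ∀ j, 1 ≤ f j ∧ f j ≤ H * m)
    (G : Finset ℤ) (x y : ℤ → Fin H → ℕ)
    (hG : ∀ a ∈ G, (∀ i, 1 ≤ x a i ∧ x a i ≤ X) ∧ (∀ i, 1 ≤ y a i ∧ y a i ≤ X) ∧
      a = α * ∏ i, (x a i : ℤ) ^ e i ∧ k - a = β * ∏ i, (y a i : ℤ) ^ f i ∧
      NoSmallRatio a k ((X : ℤ) ^ m0)) :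
    (G.card : ℝ) ≤ C * (X : ℝ) ^ ε := by
  classical
  set z : ℤ → Fin H ⊕ Fin H → ℤ := fun a => Sum.elim (fun i => (x a i : ℤ)) (fun i => (y a i : ℤ))
    with hz
  have h1 := hR X hX α β k hα hβ e f he hf (G.image z) (by
    intro w hw
    obtain ⟨a, ha, rfl⟩ := Finset.mem_image.1 hw
    obtain ⟨g1, g2, g3, g4, g5⟩ := hG a ha
    have e1 : α * ∏ i, z a (Sum.inl i) ^ e i = a := g3.symm
    have e2 : β * ∏ j, z a (Sum.inr j) ^ f j = k - a := g4.symm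
    refine ⟨?_, ?_, ?_⟩
    · rintro (i | i)
      · change 1 ≤ (x a i : ℤ) ∧ (x a i : ℤ) ≤ X
        exact_mod_cast g1 i
      · change 1 ≤ (y a i : ℤ) ∧ (y a i : ℤ) ≤ X
        exact_mod_cast g2 i
    · rw [e1, e2]; ring
    · rw [e1]; exact g5)
  refine le_trans ?_ h1
  rw [Finset.image_image]
  have h2 : (G.image ((fun z : Fin H ⊕ Fin H → ℤ => ∏ i, z (Sum.inl i) ^ e i) ∘ z)).card =
      G.card := by
    apply Finset.card_image_of_injOn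
    intro a ha b hb hab
    have ha' := (hG a ha).2.2.1
    have hb' := (hG b hb).2.2.1
    have hab' : (∏ i, (x a i : ℤ) ^ e i) = ∏ i, (x b i : ℤ) ^ e i := hab
    rw [ha', hb', hab']
  rw [h2]

/-- the second part: `a` with `NoSmallRatio` -/
private lemma rk_part2 (H m m0 : ℕ) (hH : 1 ≤ H) (hm : 1 ≤ m) (ε C δ : ℝ) (hC : 0 ≤ C)
    (hR : ∀ X : ℕ, 2 ≤ X → ∀ α β k : ℤ,
      |α| ≤ (X : ℤ) ^ (H * m) → |β| ≤ (X : ℤ) ^ (H * m) →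
      ∀ (e : Fin H → ℕ) (f : Fin H → ℕ), (∀ i, 1 ≤ e i ∧ e i ≤ H * m) →
        (∀ j, 1 ≤ f j ∧ f j ≤ H * m) →
      ∀ T : Finset (Fin H ⊕ Fin H → ℤ),
        (∀ z ∈ T, (∀ i, 1 ≤ z i ∧ z i ≤ (X : ℤ)) ∧
          α * ∏ i, z (Sum.inl i) ^ e i + β * ∏ j, z (Sum.inr j) ^ f j = k ∧
          NoSmallRatio (α * ∏ i, z (Sum.inl i) ^ e i) k ((X : ℤ) ^ m0)) →
        ((T.image (fun z => ∏ i, z (Sum.inl i) ^ e i)).card : ℝ) ≤ C * (X : ℝ) ^ ε)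
    (S : Finset ℕ) (Cs Cv : ℝ) (hCs : 1 ≤ Cs) (_hCv : 1 ≤ Cv) (N : ℕ) (hN : 1 ≤ N)
    (hs : ∀ F : Finset ℕ,
      (∀ v ∈ F, 1 ≤ v ∧ v ≤ N ∧ ∀ p : ℕ, p.Prime → p ∣ v → p ∈ S) →
      (F.card : ℝ) ≤ Cs * (N : ℝ) ^ δ)
    (W D : ℕ) (_hD : 1 ≤ D) (hv : ∀ F : Finset ℕ,
      (∀ v ∈ F, 1 ≤ v ∧ v ≤ N ∧ ∏ p ∈ v.primeFactors, p ≤ D) →
      (F.card : ℝ) ≤ Cv * (D : ℝ) ^ 2 * (N : ℝ) ^ δ)
    (hW : N ≤ W ^ (H * m)) (X : ℕ) (hX : 2 ≤ X) (hX2 : N ≤ X ^ m) (k : ℤ) (F : Finset ℤ)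
    (hF : ∀ a ∈ F, (a ∈ Aset S m N ∧ k - a ∈ Aset S m N ∧ radW S W a ≤ D ∧
      radW S W (k - a) ≤ D) ∧ NoSmallRatio a k ((X : ℤ) ^ m0)) :
    (F.card : ℝ) ≤ C * (X : ℝ) ^ ε * (2 * ((Cs * (N : ℝ) ^ δ) * ((Cv * (D : ℝ) ^ 2 * (N : ℝ) ^ δ) *
      ((H * m : ℕ) : ℝ) ^ H))) ^ 2 := by
  classical
  have hdec : ∀ a : ℤ, ∃ (s v : ℕ) (x e : Fin H → ℕ), a ∈ Aset S m N →
      (0 < s ∧ 0 < v ∧ s * v ≤ N ∧
      (∀ p : ℕ, p.Prime → p ∣ s → p ∈ S) ∧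
      v.primeFactors = a.natAbs.primeFactors.filter (fun p => p ∉ S ∧ p ≤ W) ∧
      (∀ i, 1 ≤ x i ∧ x i ≤ X) ∧ (∀ i, 1 ≤ e i ∧ e i ≤ H * m) ∧
      a.natAbs = s * v * ∏ i, x i ^ e i) := by
    intro a
    by_cases ha : a ∈ Aset S m N
    · have ha' := mem_Aset.1 ha
      obtain ⟨s, v, x, e, h⟩ := decomp2 S m H X W N hm hH (by omega) hX2 hW a.natAbs
        (Int.natAbs_pos.2 ha'.1) ha'.2.1 ha'.2.2
      exact ⟨s, v, x, e, fun _ => h⟩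
    · exact ⟨0, 0, 0, 0, fun h => absurd h ha⟩
  choose s v x e h using hdec
  let dat : ℤ → ℤ × ℕ × ℕ × (Fin H → ℕ) := fun a => (a.sign, s a, v a, e a)
  let As : Finset ℕ := (Finset.Icc 1 N).filter (fun s => ∀ p : ℕ, p.Prime → p ∣ s → p ∈ S)
  let Av : Finset ℕ := (Finset.Icc 1 N).filter (fun v => ∏ p ∈ v.primeFactors, p ≤ D)
  let Bx : Finset (ℤ × ℕ × ℕ × (Fin H → ℕ)) :=
    ({-1, 1} : Finset ℤ) ×ˢ As ×ˢ Av ×ˢ Fintype.piFinset (fun _ : Fin H => Finset.Icc 1 (H * m))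
  have hAs : (As.card : ℝ) ≤ Cs * (N : ℝ) ^ δ := by
    apply hs
    intro v hv
    have := Finset.mem_filter.1 hv
    exact ⟨(Finset.mem_Icc.1 this.1).1, (Finset.mem_Icc.1 this.1).2, this.2⟩
  have hAv : (Av.card : ℝ) ≤ Cv * (D : ℝ) ^ 2 * (N : ℝ) ^ δ := by
    apply hv
    intro v hv
    have := Finset.mem_filter.1 hv
    exact ⟨(Finset.mem_Icc.1 this.1).1, (Finset.mem_Icc.1 this.1).2, this.2⟩
  have hBx : (Bx.card : ℝ) ≤ 2 * ((Cs * (N : ℝ) ^ δ) * ((Cv * (D : ℝ) ^ 2 * (N : ℝ) ^ δ) *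
      ((H * m : ℕ) : ℝ) ^ H)) := by
    have h1 : Bx.card = 2 * (As.card * (Av.card * (H * m) ^ H)) := by
      simp only [Bx, Finset.card_product, Fintype.card_piFinset]
      simp
    rw [h1]
    push_cast
    have := hAs
    have := hAv
    gcongr
  have hdat : ∀ a : ℤ, a ∈ Aset S m N → radW S W a ≤ D → dat a ∈ Bx := by
    intro a ha hr
    obtain ⟨h1, h2, h3, h4, h5, h6, h7, h8⟩ := h a ha
    have ha' := mem_Aset.1 ha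
    simp only [Bx, dat, Finset.mem_product]
    refine ⟨?_, ?_, ?_, ?_⟩
    · rcases lt_or_gt_of_ne ha'.1 with h9 | h9
      · rw [Int.sign_eq_neg_one_of_neg h9]; simp
      · rw [Int.sign_eq_one_of_pos h9]; simp
    · refine Finset.mem_filter.2 ⟨Finset.mem_Icc.2 ⟨h1, ?_⟩, h4⟩
      exact (Nat.le_mul_of_pos_right _ h2).trans h3
    · refine Finset.mem_filter.2 ⟨Finset.mem_Icc.2 ⟨h2, ?_⟩, ?_⟩
      · exact (Nat.le_mul_of_pos_left _ h1).trans h3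
      · rw [h5]; exact hr
    · rw [Fintype.mem_piFinset]
      intro i
      exact Finset.mem_Icc.2 (h7 i)
  have hform : ∀ a : ℤ, a ∈ Aset S m N →
      a = (a.sign * ((s a : ℤ) * (v a : ℤ))) * ∏ i, (x a i : ℤ) ^ e a i := by
    intro a ha
    obtain ⟨h1, h2, h3, h4, h5, h6, h7, h8⟩ := h a ha
    have h9 : ((a.natAbs : ℕ) : ℤ) = (s a : ℤ) * (v a : ℤ) * ∏ i, (x a i : ℤ) ^ e a i := by
      rw [h8]; push_cast; rfl
    have h10 : a = a.sign * ((a.natAbs : ℕ) : ℤ) := (Int.sign_mul_natAbs a).symm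
    rw [mul_assoc, ← h9]
    exact h10
  have hXm : ∀ t : ℕ, t ≤ N → (t : ℤ) ≤ (X : ℤ) ^ (H * m) := by
    intro t ht
    have h1 : t ≤ X ^ (H * m) := by
      refine (ht.trans hX2).trans (Nat.pow_le_pow_right (by omega) ?_)
      exact Nat.le_mul_of_pos_left _ hH
    exact_mod_cast h1
  have habs : ∀ a : ℤ, a ∈ Aset S m N →
      |a.sign * ((s a : ℤ) * (v a : ℤ))| ≤ (X : ℤ) ^ (H * m) := by
    intro a ha
    obtain ⟨h1, h2, h3, h4, h5, h6, h7, h8⟩ := h a ha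
    have ha' := mem_Aset.1 ha
    have h9 : |a.sign| = 1 := by
      rcases lt_or_gt_of_ne ha'.1 with h9 | h9
      · rw [Int.sign_eq_neg_one_of_neg h9]; rfl
      · rw [Int.sign_eq_one_of_pos h9]; rfl
    rw [abs_mul, h9, one_mul, abs_of_nonneg (by positivity)]
    have := hXm _ h3
    push_cast at this
    exact this
  have hfib : ∀ d ∈ F.image (fun a => (dat a, dat (k - a))),
      (F.filter (fun a => (dat a, dat (k - a)) = d)).card ≤ ⌊C * (X : ℝ) ^ ε⌋₊ := by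
    intro d hd
    obtain ⟨b, hb, rfl⟩ := Finset.mem_image.1 hd
    obtain ⟨⟨hb1, hb2, hb3, hb4⟩, hb5⟩ := hF b hb
    apply Nat.le_floor
    refine rk_fiber H m m0 ε C hR X hX (b.sign * ((s b : ℤ) * (v b : ℤ)))
      ((k - b).sign * ((s (k - b) : ℤ) * (v (k - b) : ℤ))) k (habs b hb1) (habs _ hb2)
      (e b) (e (k - b)) (h b hb1).2.2.2.2.2.2.1 (h _ hb2).2.2.2.2.2.2.1 _ x (fun a => x (k - a)) ?_
    intro a ha
    obtain ⟨haF, hda⟩ := Finset.mem_filter.1 ha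
    obtain ⟨⟨ha1, ha2, ha3, ha4⟩, ha5⟩ := hF a haF
    simp only [dat, Prod.mk.injEq] at hda
    obtain ⟨⟨q1, q2, q3, q4⟩, q5, q6, q7, q8⟩ := hda
    refine ⟨(h a ha1).2.2.2.2.2.1, (h _ ha2).2.2.2.2.2.1, ?_, ?_, ha5⟩
    · rw [← q1, ← q2, ← q3, ← q4]
      exact hform a ha1
    · rw [← q5, ← q6, ← q7, ← q8]
      exact hform _ ha2
  have hcount := Finset.card_le_mul_card_image F _ hfib
  have himg : (F.image (fun a => (dat a, dat (k - a)))).card ≤ Bx.card ^ 2 := by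
    rw [pow_two, ← Finset.card_product]
    apply Finset.card_le_card
    intro d hd
    obtain ⟨a, ha, rfl⟩ := Finset.mem_image.1 hd
    obtain ⟨⟨ha1, ha2, ha3, ha4⟩, ha5⟩ := hF a ha
    exact Finset.mem_product.2 ⟨hdat a ha1 ha3, hdat _ ha2 ha4⟩
  have hC0 : 0 ≤ C * (X : ℝ) ^ ε := mul_nonneg hC (Real.rpow_nonneg (Nat.cast_nonneg _) _)
  calc (F.card : ℝ) ≤ ((⌊C * (X : ℝ) ^ ε⌋₊ * Bx.card ^ 2 : ℕ) : ℝ) := by
        exact_mod_cast hcount.trans (Nat.mul_le_mul_left _ himg)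
    _ = (⌊C * (X : ℝ) ^ ε⌋₊ : ℝ) * (Bx.card : ℝ) ^ 2 := by push_cast; ring
    _ ≤ _ := by
        gcongr
        exact Nat.floor_le hC0

theorem rk (H : ℕ) (hH : 1 ≤ H) (ε2 : ℝ) (hε2 : 0 < ε2) :
    ∃ m0 : ℕ, 1 ≤ m0 ∧ ∀ m : ℕ, m0 ≤ m → ∀ S : Finset ℕ, ∃ C : ℝ, 1 ≤ C ∧ ∀ N : ℕ, 1 ≤ N →
      ∀ W D : ℕ, 1 ≤ D → N ≤ W ^ (H * m) → ∀ k : ℤ, k ≠ 0 → ∀ F : Finset ℤ,
      (∀ a ∈ F, a ∈ Aset S m N ∧ k - a ∈ Aset S m N ∧ radW S W a ≤ D ∧ radW S W (k - a) ≤ D) →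
      (F.card : ℝ) ≤ C * (D : ℝ) ^ 4 * (N : ℝ) ^ (ε2 / (m : ℝ)) := by
  classical
  obtain ⟨m0, hm0⟩ := R2 H H H (ε2 / 4) (by positivity)
  refine ⟨max (m0 + 1) (⌈4 * (m0 : ℝ) / ε2⌉₊), le_trans (by omega) (le_max_left _ _), ?_⟩
  intro m hm S
  have hmm0 : m0 + 1 ≤ m := le_trans (le_max_left _ _) hm
  have hm1 : 1 ≤ m := by omega
  have hmR : (0 : ℝ) < m := by exact_mod_cast hm1
  have hm4 : 4 * (m0 : ℝ) / ε2 ≤ m := by
    have h1 : ⌈4 * (m0 : ℝ) / ε2⌉₊ ≤ m := le_trans (le_max_right _ _) hm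
    exact (Nat.le_ceil _).trans (by exact_mod_cast h1)
  obtain ⟨CR, hR⟩ := hm0 m (by omega)
  set δ : ℝ := ε2 / (8 * m) with hδ
  have hδ0 : 0 < δ := by positivity
  obtain ⟨C1, hC1, h1⟩ := exceptional S m hm1 δ hδ0
  obtain ⟨Cs, hCs, h2⟩ := sunit_count S δ hδ0
  obtain ⟨Cv, hCv, h3⟩ := small_rad δ hδ0
  set CR' : ℝ := max CR 0 with hCR'
  have hCR0 : 0 ≤ CR' := le_max_right _ _
  set A : ℝ := C1 * (2 : ℝ) ^ δ * ((3 : ℝ) ^ m0) ^ (1 / (m : ℝ) + δ) with hA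
  set B : ℝ := CR' * (3 : ℝ) ^ (ε2 / 4) * (2 * (Cs * (Cv * ((H * m : ℕ) : ℝ) ^ H))) ^ 2 with hB
  have hA1 : 1 ≤ A := by
    have e1 : (1 : ℝ) ≤ (2 : ℝ) ^ δ := Real.one_le_rpow (by norm_num) hδ0.le
    have e2 : (1 : ℝ) ≤ ((3 : ℝ) ^ m0) ^ (1 / (m : ℝ) + δ) :=
      Real.one_le_rpow (one_le_pow₀ (by norm_num)) (by positivity)
    have e3 : (1 : ℝ) ≤ C1 * (2 : ℝ) ^ δ := one_le_mul_of_one_le_of_one_le hC1 e1
    exact one_le_mul_of_one_le_of_one_le e3 e2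
  have hB0 : 0 ≤ B := by positivity
  refine ⟨A + B, by linarith, ?_⟩
  intro N hN W D hD hW k hk F hF
  have hN' : (1 : ℝ) ≤ N := by exact_mod_cast hN
  have hD' : (1 : ℝ) ≤ (D : ℝ) ^ 4 := one_le_pow₀ (by exact_mod_cast hD)
  rcases F.eq_empty_or_nonempty with hFe | ⟨a0, ha0⟩
  · rw [hFe]
    simp only [Finset.card_empty, Nat.cast_zero]
    positivity
  have hk2 : k.natAbs ≤ 2 * N := by
    have h4 := (mem_Aset.1 (hF a0 ha0).1).2.1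
    have h5 := (mem_Aset.1 (hF a0 ha0).2.1).2.1
    omega
  obtain ⟨X, hX2, hXN, hX3⟩ := rk_pickX m N hm1 hN
  set L : ℕ := X ^ m0 with hL
  have hL1 : 1 ≤ L := Nat.one_le_pow _ _ (by omega)
  have hLc : ((L : ℕ) : ℤ) = (X : ℤ) ^ m0 := by rw [hL]; push_cast; rfl
  set F1 := F.filter (fun a => ¬ NoSmallRatio a k (L : ℤ)) with hF1
  set F2 := F.filter (fun a => NoSmallRatio a k (L : ℤ)) with hF2
  have hsplit : F.card = F2.card + F1.card := by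
    rw [hF1, hF2]
    exact (Finset.card_filter_add_card_filter_not _).symm
  -- part 1
  have p1 : (F1.card : ℝ) ≤ A * (D : ℝ) ^ 4 * (N : ℝ) ^ (ε2 / (m : ℝ)) := by
    have q1 := h1 L hL1 k hk F1 (by
      intro a ha
      obtain ⟨haF, hna⟩ := Finset.mem_filter.1 ha
      have ha' := mem_Aset.1 (hF a haF).1
      exact ⟨ha'.1, ha'.2.2, hna⟩)
    have q2 : (k.natAbs : ℝ) ^ δ ≤ (2 : ℝ) ^ δ * (N : ℝ) ^ δ := by
      rw [← Real.mul_rpow (by norm_num) (by positivity)]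
      apply Real.rpow_le_rpow (by positivity) _ hδ0.le
      exact_mod_cast hk2
    have q3 : (L : ℝ) ≤ (3 : ℝ) ^ m0 * (N : ℝ) ^ ((m0 : ℝ) / m) := by
      have e1 : (L : ℝ) = (X : ℝ) ^ m0 := by rw [hL]; push_cast; rfl
      rw [e1]
      calc (X : ℝ) ^ m0 ≤ (3 * (N : ℝ) ^ (1 / (m : ℝ))) ^ m0 :=
            pow_le_pow_left₀ (Nat.cast_nonneg _) hX3 _
        _ = (3 : ℝ) ^ m0 * (N : ℝ) ^ ((m0 : ℝ) / m) := by
            rw [mul_pow, ← Real.rpow_natCast ((N : ℝ) ^ (1 / (m : ℝ))) m0,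
              ← Real.rpow_mul (by positivity)]
            congr 2
            ring
    have q4 : (L : ℝ) ^ (1 / (m : ℝ) + δ) ≤ ((3 : ℝ) ^ m0) ^ (1 / (m : ℝ) + δ) *
        (N : ℝ) ^ ((m0 : ℝ) / m * (1 / (m : ℝ) + δ)) := by
      calc (L : ℝ) ^ (1 / (m : ℝ) + δ) ≤
            ((3 : ℝ) ^ m0 * (N : ℝ) ^ ((m0 : ℝ) / m)) ^ (1 / (m : ℝ) + δ) :=
            Real.rpow_le_rpow (Nat.cast_nonneg _) q3 (by positivity)
        _ = _ := by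
            rw [Real.mul_rpow (by positivity) (by positivity), ← Real.rpow_mul (by positivity)]
    have q5 : (F1.card : ℝ) ≤ A * (N : ℝ) ^ (δ + (m0 : ℝ) / m * (1 / (m : ℝ) + δ)) := by
      calc (F1.card : ℝ) ≤ C1 * (k.natAbs : ℝ) ^ δ * (L : ℝ) ^ (1 / (m : ℝ) + δ) := q1
        _ ≤ C1 * ((2 : ℝ) ^ δ * (N : ℝ) ^ δ) * (((3 : ℝ) ^ m0) ^ (1 / (m : ℝ) + δ) *
            (N : ℝ) ^ ((m0 : ℝ) / m * (1 / (m : ℝ) + δ))) := by gcongr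
        _ = _ := by
            rw [hA, Real.rpow_add (show (0 : ℝ) < N by linarith) δ]
            ring
    have q6 : δ + (m0 : ℝ) / m * (1 / (m : ℝ) + δ) ≤ ε2 / m := by
      have r1 : (m0 : ℝ) / m ≤ 1 := by
        rw [div_le_one hmR]
        exact_mod_cast (by omega : m0 ≤ m)
      have r2 : (m0 : ℝ) / m ≤ ε2 / 4 := by
        rw [div_le_iff₀ hε2] at hm4
        rw [div_le_iff₀ hmR]
        linarith
      have r3 : (m0 : ℝ) / m * (1 / (m : ℝ)) ≤ ε2 / 4 * (1 / (m : ℝ)) :=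
        mul_le_mul_of_nonneg_right r2 (by positivity)
      have r4 : (m0 : ℝ) / m * δ ≤ 1 * δ := mul_le_mul_of_nonneg_right r1 hδ0.le
      have r5 : δ = ε2 / 8 * (1 / (m : ℝ)) := by
        rw [hδ]; field_simp
      have r6 : ε2 / m = ε2 * (1 / (m : ℝ)) := by ring
      have r7 : 0 < ε2 * (1 / (m : ℝ)) := by positivity
      rw [mul_add, r6]
      linarith
    calc (F1.card : ℝ) ≤ A * (N : ℝ) ^ (δ + (m0 : ℝ) / m * (1 / (m : ℝ) + δ)) := q5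
      _ ≤ A * (N : ℝ) ^ (ε2 / (m : ℝ)) := by
          apply mul_le_mul_of_nonneg_left _ (by linarith)
          exact Real.rpow_le_rpow_of_exponent_le hN' q6
      _ ≤ A * (D : ℝ) ^ 4 * (N : ℝ) ^ (ε2 / (m : ℝ)) := by
          apply mul_le_mul_of_nonneg_right _ (by positivity)
          exact le_mul_of_one_le_right (by linarith) hD'
  -- part 2
  have p2 : (F2.card : ℝ) ≤ B * (D : ℝ) ^ 4 * (N : ℝ) ^ (ε2 / (m : ℝ)) := by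
    have q1 := rk_part2 H m m0 hH hm1 (ε2 / 4) CR' δ hCR0 (by
      intro X hX α β k hα hβ e f he hf T hT
      refine (hR X hX α β k hα hβ e f he hf T hT).trans ?_
      exact mul_le_mul_of_nonneg_right (le_max_left _ _)
        (Real.rpow_nonneg (Nat.cast_nonneg _) _)) S Cs Cv hCs hCv N hN (h2 N hN) W D hD
        (h3 D hD N hN) hW X hX2 hXN k F2 (by
          intro a ha
          obtain ⟨haF, hna⟩ := Finset.mem_filter.1 ha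
          refine ⟨hF a haF, ?_⟩
          rw [← hLc]
          exact hna)
    have q2 : (X : ℝ) ^ (ε2 / 4) ≤ (3 : ℝ) ^ (ε2 / 4) * (N : ℝ) ^ (1 / (m : ℝ) * (ε2 / 4)) := by
      calc (X : ℝ) ^ (ε2 / 4) ≤ (3 * (N : ℝ) ^ (1 / (m : ℝ))) ^ (ε2 / 4) :=
            Real.rpow_le_rpow (Nat.cast_nonneg _) hX3 (by positivity)
        _ = _ := by
            rw [Real.mul_rpow (by norm_num) (by positivity), ← Real.rpow_mul (by positivity)]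
    have q3 : (N : ℝ) ^ (1 / (m : ℝ) * (ε2 / 4)) * ((N : ℝ) ^ δ) ^ 4 ≤ (N : ℝ) ^ (ε2 / (m : ℝ)) := by
      rw [← Real.rpow_natCast ((N : ℝ) ^ δ) 4, ← Real.rpow_mul (by positivity),
        ← Real.rpow_add (by linarith)]
      apply Real.rpow_le_rpow_of_exponent_le hN'
      have r5 : δ = ε2 / 8 * (1 / (m : ℝ)) := by
        rw [hδ]; field_simp
      have r6 : ε2 / m = ε2 * (1 / (m : ℝ)) := by ring
      have r7 : 0 < ε2 * (1 / (m : ℝ)) := by positivity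
      rw [r5, r6]
      push_cast
      linarith
    calc (F2.card : ℝ) ≤ CR' * (X : ℝ) ^ (ε2 / 4) * (2 * ((Cs * (N : ℝ) ^ δ) *
          ((Cv * (D : ℝ) ^ 2 * (N : ℝ) ^ δ) * ((H * m : ℕ) : ℝ) ^ H))) ^ 2 := q1
      _ ≤ CR' * ((3 : ℝ) ^ (ε2 / 4) * (N : ℝ) ^ (1 / (m : ℝ) * (ε2 / 4))) *
          (2 * ((Cs * (N : ℝ) ^ δ) *
          ((Cv * (D : ℝ) ^ 2 * (N : ℝ) ^ δ) * ((H * m : ℕ) : ℝ) ^ H))) ^ 2 := by gcongr
      _ = B * (D : ℝ) ^ 4 * ((N : ℝ) ^ (1 / (m : ℝ) * (ε2 / 4)) * ((N : ℝ) ^ δ) ^ 4) := by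
          rw [hB]; ring
      _ ≤ B * (D : ℝ) ^ 4 * (N : ℝ) ^ (ε2 / (m : ℝ)) := by
          apply mul_le_mul_of_nonneg_left q3 (by positivity)
  rw [hsplit]
  push_cast
  calc (F2.card : ℝ) + F1.card ≤ B * (D : ℝ) ^ 4 * (N : ℝ) ^ (ε2 / (m : ℝ)) +
        A * (D : ℝ) ^ 4 * (N : ℝ) ^ (ε2 / (m : ℝ)) := add_le_add p2 p1
    _ = _ := by ring

end Pool.Agent.Helper91.CPX
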