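import Pool.Agent.Helper91.CPX.Defs

/-!
CPX-D03. Taylor expansion modulo squares: if `L` divides all `A i - B i` then `L ^ 2` divides
`p(A) - p(B) - ∑ ∂_i p(B) (A i - B i)`.

Proof. Induction on `p` (`MvPolynomial.induction_on`): constants and sums are clear. For `p * X_n`:
`p(A) A_n - p(B) B_n - ∑_i (∂_i p(B) B_n + p(B) δ_{in}) (A_i - B_i)
 = (p(A) - p(B) - ∑_i ∂_i p(B) (A_i - B_i)) B_n + (p(A) - p(B)) (A_n - B_n)`, and `L ∣ p(A) - p(B)` (which
follows from the induction hypothesis, or from `MvPolynomial.eval` of congruent points).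
-/

open MvPolynomial

namespace Pool.Agent.Helper91.CPX

private theorem eval_congr_dvd' {σ : Type} (p : MvPolynomial σ ℤ) (A B : σ → ℤ) (L : ℤ)
    (h : ∀ i, L ∣ A i - B i) : L ∣ eval A p - eval B p := by
  induction p using MvPolynomial.induction_on with
  | C a => simp
  | add p q hp hq =>
    have e : eval A (p + q) - eval B (p + q) =
      (eval A p - eval B p) + (eval A q - eval B q) := by
      rw [map_add, map_add]; ring
    rw [e]
    exact dvd_add hp hq
  | mul_X p n hp =>
    have e : eval A (p * X n) - eval B (p * X n) =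
      (eval A p - eval B p) * A n + eval B p * (A n - B n) := by
      rw [map_mul, map_mul, eval_X, eval_X]; ring
    rw [e]
    exact dvd_add (Dvd.dvd.mul_right hp _) (Dvd.dvd.mul_left (h n) _)

theorem taylor_sq {σ : Type} [Fintype σ] [DecidableEq σ] (p : MvPolynomial σ ℤ) (A B : σ → ℤ) (L : ℤ)
    (h : ∀ i, L ∣ A i - B i) :
    L ^ 2 ∣ eval A p - eval B p - ∑ i, eval B (pderiv i p) * (A i - B i) := by
  induction p using MvPolynomial.induction_on with
  | C a => simp
  | add p q hp hq =>
    have e : eval A (p + q) - eval B (p + q) - ∑ i, eval B (pderiv i (p + q)) * (A i - B i) =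
      (eval A p - eval B p - ∑ i, eval B (pderiv i p) * (A i - B i)) +
        (eval A q - eval B q - ∑ i, eval B (pderiv i q) * (A i - B i)) := by
      simp only [map_add, add_mul, Finset.sum_add_distrib]
      ring
    rw [e]
    exact dvd_add hp hq
  | mul_X p n hp =>
    have e : eval A (p * X n) - eval B (p * X n) -
        ∑ i, eval B (pderiv i (p * X n)) * (A i - B i) =
      (eval A p - eval B p - ∑ i, eval B (pderiv i p) * (A i - B i)) * B n +
        (eval A p - eval B p) * (A n - B n) := by
      have e1 : ∀ i ∈ (Finset.univ : Finset σ), eval B (pderiv i (p * X n)) * (A i - B i) =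
          (eval B (pderiv i p) * (A i - B i)) * B n +
            (if i = n then eval B p * (A n - B n) else 0) := by
        intro i _
        rw [pderiv_mul, map_add, map_mul, map_mul, eval_X, pderiv_X]
        by_cases hi : i = n
        · subst hi
          rw [Pi.single_eq_same, if_pos rfl, map_one]
          ring
        · rw [Pi.single_eq_of_ne (Ne.symm hi), if_neg hi, map_zero]
          ring
      rw [Finset.sum_congr rfl e1, Finset.sum_add_distrib, ← Finset.sum_mul,
        Finset.sum_ite_eq' Finset.univ n, if_pos (Finset.mem_univ _), map_mul, map_mul, eval_X,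
        eval_X]
      ring
    rw [e]
    refine dvd_add (Dvd.dvd.mul_right hp _) ?_
    rw [pow_two]
    exact mul_dvd_mul (eval_congr_dvd' p A B L h) (h n)

theorem eval_congr_dvd {σ : Type} (p : MvPolynomial σ ℤ) (A B : σ → ℤ) (L : ℤ)
    (h : ∀ i, L ∣ A i - B i) : L ∣ eval A p - eval B p := eval_congr_dvd' p A B L h

end Pool.Agent.Helper91.CPX
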