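import Pool.Agent.Helper91.CPX.AP
import Pool.Agent.Helper91.CPX.TwoIndices

/-!
CPX-A18. From `ap_bound` to Campana points.

Proof. Copy the proof of `Pool.Agent.Helper87.Camp.main_bound` (file `Camp/Proj.lean`): `m1` from `ap_bound`,
`S' = S ∪ primes of the rel L i`, `f x i = rel L i * form L i x`, injective, `|f x i| ≤ C0 B`, sum `0` (`rel_form_sum`),
`f x i ∈ Aset S' m (C0 B)` (`EFull S' (μ i)` and `m ≤ μ i`, `EFull.nfull`), and for `p ∉ S'` the two indices of `two_indices` (with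
`p ∤ rel L i` for all `i`, so `p ∤ f x i` iff `p ∤ form L i x`). Finally `(C0 B)^((n+ε)/m) = C0^(...) B^(...)`.
-/

open Pool.Agent.Helper87.Camp Pool.Agent.Helper10

namespace Pool.Agent.Helper91.CPX

theorem campana_bound (n : ℕ) (hn : 1 ≤ n) (ε : ℝ) (hε : 0 < ε) :
    ∃ m1 : ℕ, ∀ m : ℕ, m1 ≤ m → ∀ (S : Finset ℕ) (L : Matrix (Fin (n + 2)) (Fin (n + 1)) ℤ),
      (∀ i, minor L i ≠ 0) → ∀ μ : Fin (n + 2) → ℕ∞, (∀ i, (m : ℕ∞) ≤ μ i) →
      ∃ C : ℝ, ∀ B : ℕ, 1 ≤ B →
        {x : Fin (n + 1) → ℤ | IsCampana S L μ x ∧ ∀ j, |x j| ≤ B}.Finite ∧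
        ({x : Fin (n + 1) → ℤ | IsCampana S L μ x ∧ ∀ j, |x j| ≤ B}.ncard : ℝ) ≤
          C * (B : ℝ) ^ (((n : ℝ) + ε) / (m : ℝ)) := by
  classical
  obtain ⟨m1, hm1, hmain⟩ := ap_bound n hn ε hε
  refine ⟨m1, fun m hm S L hL μ hμ => ?_⟩
  have hrel : ∀ i, rel L i ≠ 0 := by
    intro i
    unfold rel
    exact mul_ne_zero (pow_ne_zero _ (by norm_num)) (hL i)
  set S' : Finset ℕ := S ∪ Finset.univ.biUnion (fun i => (rel L i).natAbs.primeFactors) with hS'
  obtain ⟨C, hC1, hC⟩ := hmain m hm S'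
  set C0 : ℕ := (∑ i, (rel L i).natAbs * ∑ j, (L i j).natAbs) + 1 with hC0
  set e : ℝ := ((n : ℝ) + ε) / (m : ℝ) with he
  refine ⟨C * (C0 : ℝ) ^ e, fun B hB => ?_⟩
  set P : (Fin (n + 1) → ℤ) → Prop := fun x => IsCampana S L μ x ∧ ∀ j, |x j| ≤ B with hP
  set F : Finset (Fin (n + 1) → ℤ) :=
    (Fintype.piFinset (fun _ => Finset.Icc (-(B : ℤ)) B)).filter P with hF
  have hset : {x : Fin (n + 1) → ℤ | P x} = (F : Set (Fin (n + 1) → ℤ)) := by
    ext x
    rw [Set.mem_setOf_eq, Finset.mem_coe, hF, Finset.mem_filter, Fintype.mem_piFinset]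
    constructor
    · intro h
      refine ⟨fun j => ?_, h⟩
      rw [Finset.mem_Icc]
      exact abs_le.mp (h.2 j)
    · intro h
      exact h.2
  change {x : Fin (n + 1) → ℤ | P x}.Finite ∧ ({x : Fin (n + 1) → ℤ | P x}.ncard : ℝ) ≤ _
  rw [hset]
  refine ⟨F.finite_toSet, ?_⟩
  rw [Set.ncard_coe_finset]
  set f : (Fin (n + 1) → ℤ) → (Fin (n + 2) → ℤ) := fun x i => rel L i * form L i x with hf
  have hinj : Function.Injective f := by
    intro x y hxy
    apply form_injective L hL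
    intro i
    have := congrFun hxy i
    exact mul_left_cancel₀ (hrel i) this
  rw [← Finset.card_image_of_injective F hinj]
  have hN : 1 ≤ C0 * B := Nat.mul_pos (by omega) hB
  have key := hC (C0 * B) hN (F.image f) (by
    intro a ha
    rw [Finset.mem_image] at ha
    obtain ⟨x, hx, rfl⟩ := ha
    rw [hF, Finset.mem_filter] at hx
    obtain ⟨-, hx1, hx3⟩ := hx
    have hfne : ∀ i, f x i ≠ 0 := fun i => mul_ne_zero (hrel i) (hx1.ne_zero i)
    have hnd : ∀ p : ℕ, p.Prime → p ∉ S' → ∀ i, ¬ (p : ℤ) ∣ rel L i := by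
      intro p hp hpS i h1
      rw [hS', Finset.mem_union, not_or] at hpS
      apply hpS.2
      rw [Finset.mem_biUnion]
      refine ⟨i, Finset.mem_univ _, ?_⟩
      rw [Nat.mem_primeFactors]
      exact ⟨hp, Int.natCast_dvd.mp h1, Int.natAbs_ne_zero.mpr (hrel i)⟩
    have hfull : ∀ i, EFull S' (μ i) (f x i).natAbs := by
      intro i p hp hpS hd
      have hd' : (p : ℤ) ∣ rel L i * form L i x := Int.natCast_dvd.mpr hd
      have hpr : ¬ (p : ℤ) ∣ rel L i := hnd p hp hpS i
      rw [hS', Finset.mem_union, not_or] at hpS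
      have hp' : Prime (p : ℤ) := Nat.prime_iff_prime_int.mp hp
      have h2 : (p : ℤ) ∣ form L i x := (hp'.dvd_or_dvd hd').resolve_left hpr
      have h3 := hx1.full i p hp hpS.1 h2
      rw [Int.emultiplicity_natAbs]
      exact h3.trans (emultiplicity_le_emultiplicity_of_dvd_right (dvd_mul_left _ _))
    have hsize : ∀ i, (f x i).natAbs ≤ C0 * B := by
      intro i
      have h1 : (form L i x).natAbs ≤ (∑ j, (L i j).natAbs) * B := by
        unfold form
        rw [Finset.sum_mul]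
        refine (Int.natAbs_sum_le _ _).trans (Finset.sum_le_sum fun j _ => ?_)
        rw [Int.natAbs_mul]
        apply Nat.mul_le_mul_left
        have := abs_le.mp (hx3 j)
        omega
      calc (f x i).natAbs = (rel L i).natAbs * (form L i x).natAbs := Int.natAbs_mul _ _
        _ ≤ (rel L i).natAbs * ((∑ j, (L i j).natAbs) * B) := Nat.mul_le_mul_left _ h1
        _ = ((rel L i).natAbs * ∑ j, (L i j).natAbs) * B := by ring
        _ ≤ C0 * B := by
            apply Nat.mul_le_mul_right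
            rw [hC0]
            have := Finset.single_le_sum (f := fun i => (rel L i).natAbs * ∑ j, (L i j).natAbs)
              (fun _ _ => Nat.zero_le _) (Finset.mem_univ i)
            omega
    refine ⟨fun i => ?_, rel_form_sum L x, fun p hp hpS => ?_⟩
    · rw [mem_Aset]
      exact ⟨hfne i, hsize i, (hfull i).nfull (hμ i)⟩
    · have hp' : Prime (p : ℤ) := Nat.prime_iff_prime_int.mp hp
      obtain ⟨j, l, hjl, hj, hl⟩ := two_indices L x hx1.primitive p hp (hnd p hp hpS)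
      refine ⟨j, l, hjl, fun h => ?_, fun h => ?_⟩
      · exact (hp'.dvd_or_dvd h).elim (hnd p hp hpS j) hj
      · exact (hp'.dvd_or_dvd h).elim (hnd p hp hpS l) hl)
  refine key.trans (le_of_eq ?_)
  push_cast
  rw [Real.mul_rpow (by positivity) (by positivity)]
  ring

end Pool.Agent.Helper91.CPX
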